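import Pool.Agent.Lib.MP_666dc0_nt.BBackward

open TensorProduct Coalgebra Polynomial NumberField IsDedekindDomain Topology
open scoped TensorProduct Matrix NumberField Pointwise

namespace Pool.Agent.Lib.MP_666dc0_nt.OverB

set_option linter.unusedSectionVars false

section Norm

variable {L : Type*} [NormedField L] [IsUltrametricDist L] {n : ℕ}

lemma norm_mul_entry_le (X Y : Matrix (Fin n) (Fin n) L) {a b : ℝ} (ha : 0 ≤ a) (hb : 0 ≤ b)
    (hX : ∀ i j, ‖X i j‖ ≤ a) (hY : ∀ i j, ‖Y i j‖ ≤ b) (i j : Fin n) : ‖(X * Y) i j‖ ≤ a * b := by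
  rw [Matrix.mul_apply]
  refine IsUltrametricDist.norm_sum_le_of_forall_le_of_nonneg (by positivity) fun k _ => ?_
  rw [norm_mul]
  exact mul_le_mul (hX i k) (hY k j) (norm_nonneg _) ha

lemma norm_aeval_le (g : ℤ[X]) (Y : Matrix (Fin n) (Fin n) L) (hY : ∀ i j, ‖Y i j‖ ≤ 1)
    (i j : Fin n) : ‖(aeval Y g) i j‖ ≤ 1 := by
  have hint : ∀ z : ℤ, ‖(z : L)‖ ≤ 1 := fun z => IsUltrametricDist.norm_intCast_le_one L z
  have hone : ∀ i j, ‖(1 : Matrix (Fin n) (Fin n) L) i j‖ ≤ 1 := by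
    intro i j
    rw [Matrix.one_apply]
    split_ifs <;> simp
  have hpow : ∀ m i j, ‖(Y ^ m) i j‖ ≤ 1 := by
    intro m
    induction m with
    | zero => rw [pow_zero]; exact hone
    | succ m ih =>
      intro i j
      rw [pow_succ]
      simpa using norm_mul_entry_le (Y ^ m) Y zero_le_one zero_le_one ih hY i j
  induction g using Polynomial.induction_on' with
  | add p q hp hq =>
    rw [map_add, Matrix.add_apply]
    exact (IsUltrametricDist.norm_add_le_max _ _).trans (max_le hp hq)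
  | monomial m a =>
    rw [aeval_monomial, eq_intCast]
    have h1 : ((a : Matrix (Fin n) (Fin n) L) * Y ^ m) i j = (a : L) * (Y ^ m) i j := by
      rw [← zsmul_eq_mul, Matrix.smul_apply, zsmul_eq_mul]
    rw [h1, norm_mul]
    exact mul_le_one₀ (hint a) (norm_nonneg _) (hpow m i j)

/-- A matrix close to `1` has no prime order. -/
lemma eq_one_of_pow_prime {c : ℝ} (hc1 : c ≤ 1) {q : ℕ} (hq : c ≤ ‖(q : L)‖)
    (X' : Matrix (Fin n) (Fin n) L)
    (hX : ∀ i j, ‖X' i j - (1 : Matrix (Fin n) (Fin n) L) i j‖ < c) (h : X' ^ q = 1) : X' = 1 := by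
  by_contra hne
  let Y : Matrix (Fin n) (Fin n) L := X' - 1
  have hYe : ∀ i j, ‖Y i j‖ < c := hX
  have hY0 : Y ≠ 0 := fun h0 => hne (sub_eq_zero.mp h0)
  obtain ⟨i₁, j₁, hij⟩ : ∃ i j, Y i j ≠ 0 := by
    by_contra hcon
    push Not at hcon
    exact hY0 (by ext i j; exact hcon i j)
  obtain ⟨⟨i₀, j₀⟩, -, hmax⟩ := Finset.exists_max_image (Finset.univ : Finset (Fin n × Fin n))
    (fun p => ‖Y p.1 p.2‖) ⟨(i₁, j₁), Finset.mem_univ _⟩
  set ε := ‖Y i₀ j₀‖ with hε
  have hεmax : ∀ i j, ‖Y i j‖ ≤ ε := fun i j => hmax (i, j) (Finset.mem_univ _)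
  have hεpos : 0 < ε := (norm_pos_iff.mpr hij).trans_le (hεmax i₁ j₁)
  have hεc : ε < c := hYe i₀ j₀
  obtain ⟨g, hg⟩ := Polynomial.powAddExpansion (1 : ℤ[X]) X q
  have h1 := congrArg (aeval Y) hg
  simp only [map_add, map_mul, map_pow, map_one, one_pow, aeval_X, map_natCast, mul_one,
    one_mul] at h1
  have h2 : (1 : Matrix (Fin n) (Fin n) L) + Y = X' := by simp [Y]
  rw [h2, h] at h1
  have h3 : (q : Matrix (Fin n) (Fin n) L) * Y = -(aeval Y g * Y ^ 2) := by
    have h4 : (1 : Matrix (Fin n) (Fin n) L) + ((q : Matrix (Fin n) (Fin n) L) * Y +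
        aeval Y g * Y ^ 2) = 1 + 0 := by
      rw [← add_assoc, ← h1, add_zero]
    have h5 := add_left_cancel h4
    exact eq_neg_of_add_eq_zero_left h5
  have h6 := congrFun (congrFun h3 i₀) j₀
  have h7 : ((q : Matrix (Fin n) (Fin n) L) * Y) i₀ j₀ = (q : L) * Y i₀ j₀ := by
    rw [← nsmul_eq_mul, Matrix.smul_apply, nsmul_eq_mul]
  rw [h7, Matrix.neg_apply] at h6
  have h8 : ‖(aeval Y g * Y ^ 2) i₀ j₀‖ ≤ 1 * (ε * ε) := by
    refine norm_mul_entry_le _ _ zero_le_one (by positivity)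
      (norm_aeval_le g Y fun i j => (hεmax i j).trans (hεc.le.trans hc1)) ?_ _ _
    intro i j
    rw [sq]
    exact norm_mul_entry_le Y Y hεpos.le hεpos.le hεmax hεmax i j
  have h9 : ‖(q : L)‖ * ε ≤ ε * ε := by
    have h10 := congrArg norm h6
    rw [norm_mul, norm_neg] at h10
    rw [← hε] at h10
    rw [h10]
    linarith
  have h11 : ‖(q : L)‖ ≤ ε := le_of_mul_le_mul_right h9 hεpos
  linarith

/-- A homomorphism into matrices close to `1` has no torsion in its image. -/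
lemma eq_one_of_pow {G : Type*} [Group G] (D : G →* Matrix (Fin n) (Fin n) L) (U : Subgroup G)
    {c : ℝ} (hc1 : c ≤ 1) (hq : ∀ q : ℕ, q.Prime → c ≤ ‖(q : L)‖)
    (hU : ∀ u ∈ U, ∀ i j, ‖D u i j - (1 : Matrix (Fin n) (Fin n) L) i j‖ < c) (M : ℕ) (hM : 0 < M) :
    ∀ u ∈ U, D u ^ M = 1 → D u = 1 := by
  induction M using Nat.strong_induction_on with
  | _ M ih =>
    intro u hu h
    by_cases h1 : M = 1
    · rwa [h1, pow_one] at h
    · obtain ⟨q, hqp, M', rfl⟩ := Nat.exists_prime_and_dvd h1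
      have hM' : 0 < M' := Nat.pos_of_ne_zero fun h0 => by simp [h0] at hM
      have h2 : D (u ^ M') = 1 := by
        refine eq_one_of_pow_prime hc1 (hq q hqp) _ (hU _ (U.pow_mem hu M')) ?_
        rw [map_pow, ← pow_mul, mul_comm]
        exact h
      rw [map_pow] at h2
      exact ih M' (lt_mul_of_one_lt_left hM' hqp.one_lt) hM' u hu h2

end Norm

end Pool.Agent.Lib.MP_666dc0_nt.OverB
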