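import Pool.Agent.Lib.MP_666dc0_nt.BForward

open TensorProduct Coalgebra Polynomial NumberField IsDedekindDomain
open scoped TensorProduct Matrix NumberField Pointwise

namespace Pool.Agent.Lib.MP_666dc0_nt.OverB

set_option linter.unusedSectionVars false

section Reduce

variable {K : Type} [Field K] [CharZero K]

lemma dvd_of_integral_div {ℓ m : ℕ} (hℓ : 0 < ℓ) (h : IsIntegral ℤ ((m : K) / (ℓ : K))) :
    ℓ ∣ m := by
  have h1 : IsIntegral ℤ (((m : ℚ) / (ℓ : ℚ) : ℚ)) := by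
    rw [← isIntegral_algebraMap_iff (R := ℤ) (A := ℚ) (B := K)
      (algebraMap ℚ K).injective]
    simpa using h
  obtain ⟨z, hz⟩ := IsIntegrallyClosed.isIntegral_iff.mp h1
  have h2 : (ℓ : ℚ) ≠ 0 := by exact_mod_cast hℓ.ne'
  have h3 : (z : ℚ) * ℓ = m := by
    rw [eq_div_iff h2] at hz
    simpa using hz
  have h4 : z * ℓ = m := by exact_mod_cast h3
  have h5 : (ℓ : ℤ) ∣ m := ⟨z, by rw [← h4, mul_comm]⟩
  exact_mod_cast h5

/-- Reducing finitely many elements modulo almost all primes. -/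
theorem exists_reduction [Algebra.IsAlgebraic ℚ K] (Z : Set K) (hZ : Z.Finite) :
    ∃ m : ℕ, 0 < m ∧ ∀ ℓ : ℕ, ℓ.Prime → ¬ ℓ ∣ m → ∃ (k : Type) (_ : Field k) (_ : IsAlgClosed k)
      (_ : CharP k ℓ), Nonempty (Algebra.adjoin (𝓞 K) Z →+* k) := by
  have halg : Algebra.IsAlgebraic ℤ K := isAlgebraic_int
  obtain ⟨y, hy, hyint⟩ := Algebra.IsAlgebraic.exists_integral_multiples ℤ hZ.toFinset
  have hy' : (y : K) ≠ 0 := by exact_mod_cast hy
  refine ⟨y.natAbs, Int.natAbs_pos.mpr hy, fun ℓ hℓ hℓy => ?_⟩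
  have hC : ∀ c ∈ Algebra.adjoin (𝓞 K) Z, ∃ e : ℕ, IsIntegral ℤ ((y : K) ^ e * c) := by
    intro c hc
    induction hc using Algebra.adjoin_induction with
    | mem z hz =>
      refine ⟨1, ?_⟩
      have h1 := hyint z (by simpa using hz)
      rw [pow_one]
      simpa using h1
    | algebraMap a => exact ⟨0, by rw [pow_zero, one_mul]; exact a.isIntegral_coe⟩
    | add a b _ _ ha hb =>
      obtain ⟨e, he⟩ := ha
      obtain ⟨e', he'⟩ := hb
      refine ⟨e + e', ?_⟩
      have h1 : (y : K) ^ (e + e') * (a + b) = (y : K) ^ e' * ((y : K) ^ e * a) +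
          (y : K) ^ e * ((y : K) ^ e' * b) := by ring
      rw [h1]
      have hyi : IsIntegral ℤ (y : K) := isIntegral_algebraMap (x := y)
      exact ((hyi.pow _).mul he).add ((hyi.pow _).mul he')
    | mul a b _ _ ha hb =>
      obtain ⟨e, he⟩ := ha
      obtain ⟨e', he'⟩ := hb
      refine ⟨e + e', ?_⟩
      have h1 : (y : K) ^ (e + e') * (a * b) = ((y : K) ^ e * a) * ((y : K) ^ e' * b) := by ring
      rw [h1]
      exact he.mul he'
  have hnu : (ℓ : Algebra.adjoin (𝓞 K) Z) ∈ nonunits _ := by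
    intro hu
    obtain ⟨c, hc⟩ := hu.exists_right_inv
    obtain ⟨e, he⟩ := hC c c.2
    have h1 : (ℓ : K) * (c : K) = 1 := by
      have := congrArg (fun z : Algebra.adjoin (𝓞 K) Z => (z : K)) hc
      simpa using this
    have hℓ0 : (ℓ : K) ≠ 0 := by exact_mod_cast hℓ.ne_zero
    have h2 : (c : K) = 1 / (ℓ : K) := by
      rw [eq_div_iff hℓ0, mul_comm]; exact h1
    have h3 : IsIntegral ℤ (((y.natAbs ^ e : ℕ) : K) / (ℓ : K)) := by
      rw [h2] at he
      have h4 : ((y.natAbs : ℕ) : K) = (y : K) ∨ ((y.natAbs : ℕ) : K) = -(y : K) := by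
        rcases Int.natAbs_eq y with h | h
        · left
          conv_rhs => rw [h]
          simp
        · right
          conv_rhs => rw [h]
          simp
      rcases h4 with h4 | h4
      · rw [Nat.cast_pow, h4]
        rw [mul_one_div] at he
        exact he
      · rw [Nat.cast_pow, h4, neg_pow]
        rw [mul_one_div] at he
        have h5 : (-1 : K) ^ e * (y : K) ^ e / (ℓ : K) = (-1) ^ e * ((y : K) ^ e / (ℓ : K)) := by
          ring
        rw [h5]
        exact ((isIntegral_one.neg).pow _).mul he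
    exact hℓy (hℓ.dvd_of_dvd_pow (dvd_of_integral_div hℓ.pos h3))
  obtain ⟨M, hM, hℓM⟩ := exists_max_ideal_of_mem_nonunits hnu
  let _ : Field (Algebra.adjoin (𝓞 K) Z ⧸ M) := Ideal.Quotient.field M
  have hzero : (ℓ : Algebra.adjoin (𝓞 K) Z ⧸ M) = 0 := by
    rw [← map_natCast (Ideal.Quotient.mk M)]
    exact Ideal.Quotient.eq_zero_iff_mem.mpr hℓM
  have hchar : CharP (Algebra.adjoin (𝓞 K) Z ⧸ M) ℓ := by
    refine ⟨fun a => ⟨fun ha => ?_, ?_⟩⟩
    · by_contra hna
      have hcop : IsCoprime (ℓ : ℤ) (a : ℤ) :=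
        Nat.isCoprime_iff_coprime.mpr ((Nat.Prime.coprime_iff_not_dvd hℓ).mpr hna)
      obtain ⟨u, w, huw⟩ := hcop
      have h6 : ((u * ℓ + w * a : ℤ) : Algebra.adjoin (𝓞 K) Z ⧸ M) = 1 := by rw [huw]; simp
      push_cast at h6
      rw [hzero, ha, mul_zero, mul_zero, add_zero] at h6
      exact one_ne_zero h6.symm
    · rintro ⟨b, rfl⟩
      push_cast
      rw [hzero, zero_mul]
  refine ⟨AlgebraicClosure (Algebra.adjoin (𝓞 K) Z ⧸ M), inferInstance, inferInstance,
    inferInstance, ⟨(algebraMap (Algebra.adjoin (𝓞 K) Z ⧸ M) _).comp (Ideal.Quotient.mk M)⟩⟩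

end Reduce

section Backward

variable {F : Type*} [Field F] [NumberField F] {O : Type} [CommRing O] [HopfAlgebra ℤ O]
  [Algebra.FiniteType ℤ O]
  (A : HopfAction ℤ Gal(AlgebraicClosure F/F) O)

theorem residual_of_exists (hfree : @Module.Free ℤ O _ _ Algebra.toModule)
    (hA : IsOpen (A.act.ker : Set Gal(AlgebraicClosure F/F)))
    (S : Finset (HeightOneSpectrum (𝓞 F)))
    (φ : HeightOneSpectrum (𝓞 F) → Gal(AlgebraicClosure F/F))
    {K : Type} [Field K] [CharZero K] [IsAlgClosed K] [Algebra.IsAlgebraic ℚ K]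
    (x : ∀ v, A.inv (φ v) →+* 𝓞 K)
    (r : Gal(AlgebraicClosure F/F) →* A.LGroup K) (hr : IsAdmissibleDisc A r)
    (hconj : ∀ v, v ∉ S → IsConjAt A r v (φ v) ((algebraMap (𝓞 K) K).comp (x v))) :
    ∃ m : ℕ, 0 < m ∧ ∀ ℓ : ℕ, ℓ.Prime → ¬ ℓ ∣ m → ∃ D : ResData A S φ x ℓ, CharP D.k ℓ := by
  classical
  obtain ⟨Φ₀, hΦ₀⟩ := ‹Algebra.FiniteType ℤ O›.out
  obtain ⟨Φ, hΦfin, hΦ₀Φ, hΦst⟩ := exists_stable (A := A) hA Φ₀.finite_toSet
  obtain ⟨n, ρ, hρ, -⟩ := exists_matRepL A hΦfin hΦst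
  have hΦ : Algebra.adjoin ℤ Φ = ⊤ := by
    rw [eq_top_iff, ← hΦ₀]
    exact Algebra.adjoin_mono hΦ₀Φ
  let N : Subgroup Gal(AlgebraicClosure F/F) := kerU ρ.toMatRep r
  have hNo : IsOpen (N : Set Gal(AlgebraicClosure F/F)) :=
    kerU_open ρ.toMatRep hA r hr.proj hr.cont
  have hNn : N.Normal := kerU_normal ρ.toMatRep r
  have hNfin : N.FiniteIndex := by
    have h2 : Finite (Gal(AlgebraicClosure F/F) ⧸ N) := Subgroup.quotient_finite_of_isOpen _ hNo
    exact Subgroup.finiteIndex_of_finite_quotient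
  have hN : ∀ γ ∈ N, (r γ).left = 1 := by
    intro γ hγ
    refine ρ.left_eq_one hΦ hρ ?_ hγ.2
    rw [hr.proj]
    exact hγ.1
  have hrc : ∀ γ, ∀ u ∈ N, (r (γ * u)).left = (r γ).left := by
    intro γ u hu
    rw [map_mul, SemidirectProduct.mul_left, hN u hu, map_one, mul_one]
  have hfq : Finite (Gal(AlgebraicClosure F/F) ⧸ N) := Subgroup.quotient_finite_of_isOpen _ hNo
  let Z : Set K := ⋃ c : Gal(AlgebraicClosure F/F) ⧸ N, ⋃ f ∈ Φ, {(r (Quotient.out c)).left.hom f}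
  have hZ : Z.Finite := by
    refine Set.finite_iUnion fun c => ?_
    exact hΦfin.biUnion fun f _ => Set.finite_singleton _
  have hZmem : ∀ γ, ∀ f ∈ Φ, (r γ).left.hom f ∈ Z := by
    intro γ f hf
    refine Set.mem_iUnion.mpr ⟨QuotientGroup.mk γ, Set.mem_iUnion₂.mpr ⟨f, hf, ?_⟩⟩
    have h1 : (Quotient.out (QuotientGroup.mk γ : Gal(AlgebraicClosure F/F) ⧸ N))⁻¹ * γ ∈ N := by
      rw [← QuotientGroup.eq]
      exact Quotient.out_eq _
    have h2 := hrc (Quotient.out (QuotientGroup.mk γ : Gal(AlgebraicClosure F/F) ⧸ N)) _ h1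
    rw [mul_inv_cancel_left] at h2
    rw [h2]
    rfl
  obtain ⟨m, hm, hred⟩ := exists_reduction Z hZ
  refine ⟨m * N.index, Nat.mul_pos hm (Nat.pos_of_ne_zero hNfin.index_ne_zero),
    fun ℓ hℓ hℓm => ?_⟩
  have hℓ1 : ¬ ℓ ∣ m := fun h => hℓm (h.mul_right _)
  have hℓ2 : ¬ ℓ ∣ N.index := fun h => hℓm (h.mul_left _)
  obtain ⟨k, fk, ck, pk, ⟨g⟩⟩ := hred ℓ hℓ hℓ1
  let C := Algebra.adjoin (𝓞 K) Z
  have hall : ∀ γ f, (r γ).left.hom f ∈ C := by
    intro γ f
    have h1 : Algebra.adjoin ℤ Φ ≤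
        (Algebra.adjoin ℤ (C : Set K)).comap (r γ).left.hom := by
      refine Algebra.adjoin_le fun f hf => ?_
      exact Algebra.subset_adjoin (Algebra.subset_adjoin (hZmem γ f hf))
    have h2 : (r γ).left.hom f ∈ Algebra.adjoin ℤ (C : Set K) := by
      have h3 : f ∈ Algebra.adjoin ℤ Φ := by rw [hΦ]; trivial
      exact h1 h3
    have h4 : Algebra.adjoin ℤ (C : Set K) ≤
        subalgebraOfSubring C.toSubring := Algebra.adjoin_le fun x hx => hx
    exact h4 h2
  let inc : C →ₐ[ℤ] K := toZ C.val.toRingHom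
  obtain ⟨rC, hrC⟩ := exists_corestrict A inc Subtype.val_injective r (by
    intro γ f
    exact ⟨⟨_, hall γ f⟩, rfl⟩)
  have hval : ∀ γ f, ((rC γ).left.hom f : K) = (r γ).left.hom f := by
    intro γ f
    exact congrArg (fun z : A.LGroup K => z.left.hom f) (hrC γ)
  have hright : ∀ γ, (rC γ).right = γ := by
    intro γ
    have h1 := congrArg SemidirectProduct.right (hrC γ)
    rw [A.mapL_right, hr.proj] at h1
    exact h1
  have hleft : ∀ γ, (r γ).left = 1 → (rC γ).left = 1 := by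
    intro γ h
    have h2 : (A.mapL inc (rC γ)).left = (A.mapL inc (SemidirectProduct.inr γ)).left := by
      rw [hrC γ, h]
      simp
    have h3 : rC γ = SemidirectProduct.inr γ := by
      apply mapL_injective A (φ := inc) Subtype.val_injective
      refine SemidirectProduct.ext h2 ?_
      rw [A.mapL_right, A.mapL_right, hright]
      rfl
    rw [h3]; rfl
  let π : 𝓞 K →+* k := g.comp (algebraMap (𝓞 K) C)
  let r' : Gal(AlgebraicClosure F/F) →* A.LGroup k := (A.mapL (toZ g)).comp rC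
  have hr'l : ∀ γ, (r γ).left = 1 → (r' γ).left = 1 := by
    intro γ h
    change Pts.map (toZ g) (rC γ).left = 1
    rw [hleft γ h, map_one]
  have hr'r : ∀ γ, (r' γ).right = γ := hright
  refine ⟨⟨k, fk, ck, fun m hm => by
    rw [Ne, CharP.cast_eq_zero_iff k ℓ]; exact hm, π, r', ⟨hr'r, fun f => ?_⟩,
    fun v hv hvℓ => ⟨?_, ?_, ?_⟩⟩, pk⟩
  · have h1 : IsLocallyConstant fun γ => (rC γ).left.hom f := by
      rw [IsLocallyConstant.iff_exists_open]
      intro γ
      obtain ⟨U, hU, hγU, hUc⟩ := (IsLocallyConstant.iff_exists_open _).mp (hr.cont f) γ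
      refine ⟨U, hU, hγU, fun γ' hγ' => ?_⟩
      apply Subtype.val_injective
      rw [hval, hval]
      exact hUc γ' hγ'
    exact h1.comp g
  · intro P u hu
    exact hr'l u ((hconj v hv).unram P u hu)
  · have hpow : (φ v) ^ N.index ∈ N := Subgroup.pow_index_mem _ _
    refine isSemisimpleElt_of_pow hA (N := N.index) ?_ ?_ ?_
    · rw [Ne, CharP.cast_eq_zero_iff k ℓ]
      exact hℓ2
    · rw [← map_pow]; exact hr'l _ (hN _ hpow)
    · rw [hr'r]; exact hpow.1
  · intro f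
    change g ((rC (φ v)).left.hom (f : O)) = g (algebraMap (𝓞 K) C (x v f))
    congr 1
    apply Subtype.val_injective
    rw [hval]
    exact (hconj v hv).value f

end Backward

end Pool.Agent.Lib.MP_666dc0_nt.OverB
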