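import Pool.Agent.Lib.MP_666dc0_nt.BMain

open TensorProduct Coalgebra Polynomial NumberField IsDedekindDomain
open scoped TensorProduct Matrix NumberField Pointwise

namespace Pool.Agent.Lib.MP_666dc0_nt.OverB

set_option linter.unusedSectionVars false

section Semi

variable {B O : Type} [CommRing B] [IsDomain B] [IsPrincipalIdealRing B] [CommRing O]
  [HopfAlgebra B O] [Module.Free B O] {Γ : Type*} [Group Γ] [TopologicalSpace Γ]
  [IsTopologicalGroup Γ] [CompactSpace Γ] {A : HopfAction B Γ O}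

/-- Elements of finite order prime to the characteristic are semisimple. -/
lemma isSemisimpleElt_of_pow (hA : IsOpen (A.act.ker : Set Γ)) {k : Type} [Field k] [Algebra B k]
    {y : A.LGroup k} {N : ℕ} (hN : (N : k) ≠ 0) (h1 : (y ^ N).left = 1)
    (h2 : A.act (y.right ^ N) = 1) : A.IsSemisimpleElt y := by
  refine isSemisimpleElt_of_squarefree (fun Φ hΦ => exists_stable hA hΦ) fun n ρ => ?_
  have hN0 : N ≠ 0 := fun h => hN (by rw [h, Nat.cast_zero])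
  refine ⟨X ^ N - C 1, (separable_X_pow_sub_C (1 : k) hN one_ne_zero).squarefree, ?_⟩
  have h3 : ρ.ev k y ^ N = 1 := by
    rw [← map_pow]
    exact ρ.ev_eq_one h1 (by rw [A.pow_right]; exact h2)
  simp [h3]

lemma exists_counit {B O : Type} [CommRing B] [CommRing O] [HopfAlgebra B O] (f : O) :
    ∃ z : B, ∀ (R : Type) [CommRing R] [Algebra B R], (1 : Pts B O R).hom f = algebraMap B R z :=
  ⟨counit f, fun _ _ _ => rfl⟩

end Semi

section Forward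

lemma free_of_free {O : Type*} [AddCommGroup O] (M₁ M₂ : Module ℤ O)
    (h : @Module.Free ℤ O _ _ M₁) : @Module.Free ℤ O _ _ M₂ := by
  have h1 : M₁ = M₂ := Subsingleton.elim _ _
  subst h1
  exact h

variable {F : Type*} [Field F] [NumberField F] {O : Type} [CommRing O] [HopfAlgebra ℤ O]
  [Algebra.FiniteType ℤ O]
  (A : HopfAction ℤ Gal(AlgebraicClosure F/F) O)

theorem exists_of_residual (hfree : @Module.Free ℤ O _ _ Algebra.toModule) (hA : IsOpen (A.act.ker : Set Gal(AlgebraicClosure F/F)))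
    (S : Finset (HeightOneSpectrum (𝓞 F)))
    (hS : ∀ v, v ∉ S → ∀ P u, IsInertiaAt v P u → A.act u = 1)
    (φ : HeightOneSpectrum (𝓞 F) → Gal(AlgebraicClosure F/F))
    (hφ : ∀ v, v ∉ S → ∃ P : Ideal (𝓞 (AlgebraicClosure F)), IsOver v P ∧
      (IsFrob v P (φ v) ∨ IsFrob v P (φ v)⁻¹))
    {K : Type} [Field K] [CharZero K] [IsAlgClosed K] [Algebra.IsAlgebraic ℚ K]
    (x : ∀ v, A.inv (φ v) →+* 𝓞 K)
    (hx : {v | v ∉ S ∧ ¬ IsTorsionPt A (φ v) (x v)}.Finite)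
    (hinf : {ℓ : ℕ | ℓ.Prime ∧ Nonempty (ResData A S φ x ℓ)}.Infinite) :
    ∃ r : Gal(AlgebraicClosure F/F) →* A.LGroup K, IsAdmissibleDisc A r ∧
      ∀ v, v ∉ S → IsConjAt A r v (φ v) ((algebraMap (𝓞 K) K).comp (x v)) := by
  classical
  -- a matrix representation
  obtain ⟨Φ₀, hΦ₀⟩ := ‹Algebra.FiniteType ℤ O›.out
  obtain ⟨Φ, hΦfin, hΦ₀Φ, hΦst⟩ := exists_stable (A := A) hA Φ₀.finite_toSet
  obtain ⟨n, ρ, hρ, -⟩ := exists_matRepL A hΦfin hΦst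
  have hΦ : Algebra.adjoin ℤ Φ = ⊤ := by
    rw [eq_top_iff, ← hΦ₀]
    exact Algebra.adjoin_mono hΦ₀Φ
  -- two primes
  obtain ⟨p, ⟨hp, ⟨D₀⟩⟩⟩ := hinf.nonempty
  obtain ⟨q, ⟨hq, ⟨D₁⟩⟩, hqp⟩ := hinf.exists_notMem_finite (Set.finite_singleton p)
  have hpq : p ≠ q := fun h => hqp h.symm
  obtain ⟨M, hM, hMb⟩ := exists_bound_order ρ hA hp hq hpq D₀ D₁
  -- eigenvalues
  let T : Set (HeightOneSpectrum (𝓞 F)) := ({v | v ∉ S ∧ ¬ IsTorsionPt A (φ v) (x v)} ∪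
    {v | (p : 𝓞 F) ∈ v.asIdeal}) ∪ {v | (q : 𝓞 F) ∈ v.asIdeal}
  have hT : T.Finite := (hx.union (finite_mem_nat p hp.pos)).union (finite_mem_nat q hq.pos)
  have hs : ∀ v, ∃ s : Multiset (𝓞 K), v ∉ S → v ∉ T → (∀ c ∈ s, c ^ M = 1) ∧
      ∀ (ℓ : ℕ) (D : ResData A S φ x ℓ), v ∉ S → (ℓ : 𝓞 F) ∉ v.asIdeal → ∀ j : ℕ,
        ((ρ.ev D.k (D.r (φ v))) ^ j = 1 ↔ ∀ c ∈ s, D.π c ^ j = 1) := by
    intro v
    by_cases hv : v ∉ S ∧ v ∉ T
    · obtain ⟨hvS, hvT⟩ := hv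
      simp only [T, Set.mem_union, Set.mem_ofPred_eq, not_or, not_and, not_not] at hvT
      obtain ⟨⟨h1, h2⟩, h3⟩ := hvT
      obtain ⟨s, hs1, hs2⟩ := exists_eigen ρ hA v (h1 hvS)
      exact ⟨s, fun _ _ => ⟨hMb v hvS h2 h3 s hs1 hs2, hs2⟩⟩
    · exact ⟨0, fun h1 h2 => absurd ⟨h1, h2⟩ hv⟩
  choose s hs using hs
  -- the good primes
  let Λ : Set ℕ := {ℓ : ℕ | ℓ.Prime ∧ Nonempty (ResData A S φ x ℓ)} \ {ℓ | ℓ ∣ M}
  have hdiv : {ℓ : ℕ | ℓ ∣ M}.Finite := by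
    refine (Finset.range (M + 1)).finite_toSet.subset fun ℓ hℓ => ?_
    simp only [Finset.coe_range, Set.mem_Iio]
    have := Nat.le_of_dvd hM hℓ
    omega
  have hΛ : Λ.Infinite := hinf.sdiff hdiv
  let D : ∀ ℓ : Λ, ResData A S φ x ℓ := fun ℓ => ℓ.2.1.2.some
  have hprime : ∀ ℓ : Λ, (ℓ : ℕ).Prime := fun ℓ => ℓ.2.1.1
  have hinfΛ : Infinite Λ := hΛ.to_subtype
  obtain ⟨ℓ₀⟩ : Nonempty Λ := inferInstance
  let N : Subgroup Gal(AlgebraicClosure F/F) := kerU ρ.toMatRep (D ℓ₀).r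
  have hNeq : ∀ ℓ : Λ, kerU ρ.toMatRep (D ℓ).r = N := by
    intro ℓ
    apply le_antisymm
    · exact kerU_le ρ hA hφ T hT M s hs (hprime ℓ) (hprime ℓ₀) (D ℓ) (D ℓ₀)
        ((D ℓ).pk M ℓ.2.2)
    · exact kerU_le ρ hA hφ T hT M s hs (hprime ℓ₀) (hprime ℓ) (D ℓ₀) (D ℓ)
        ((D ℓ₀).pk M ℓ₀.2.2)
  have hNo : IsOpen (N : Set Gal(AlgebraicClosure F/F)) :=
    kerU_open ρ.toMatRep hA (D ℓ₀).r (D ℓ₀).adm.proj (D ℓ₀).adm.cont
  have hNn : N.Normal := kerU_normal ρ.toMatRep (D ℓ₀).r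
  have hNact : ∀ γ ∈ N, A.act γ = 1 := fun γ hγ => hγ.1
  have hNfin : N.FiniteIndex := by
    have h2 : Finite (Gal(AlgebraicClosure F/F) ⧸ N) := Subgroup.quotient_finite_of_isOpen _ hNo
    exact Subgroup.finiteIndex_of_finite_quotient
  have hN : ∀ (ℓ : Λ), ∀ γ ∈ N, ((D ℓ).r γ).left = 1 := by
    intro ℓ γ hγ
    have h1 : γ ∈ kerU ρ.toMatRep (D ℓ).r := by rw [hNeq]; exact hγ
    refine ρ.left_eq_one hΦ hρ ?_ h1.2
    rw [(D ℓ).adm.proj]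
    exact h1.1
  have hchar : ∀ n : ℕ, 0 < n → {ℓ : Λ | (n : (D ℓ).k) = 0}.Finite := by
    intro n hn
    have h1 : {ℓ : ℕ | ℓ ∣ n}.Finite := by
      refine (Finset.range (n + 1)).finite_toSet.subset fun ℓ hℓ => ?_
      simp only [Finset.coe_range, Set.mem_Iio]
      have := Nat.le_of_dvd hn hℓ
      omega
    refine (h1.preimage (Subtype.val_injective.injOn (s := Set.univ)
      |>.mono (Set.subset_univ _))).subset ?_
    intro ℓ hℓ
    by_contra hndvd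
    exact (D ℓ).pk n hndvd hℓ
  obtain ⟨r₀, hr₀, hlim⟩ := exists_limit A (fun ℓ : Λ => (D ℓ).k) hchar (fun ℓ => (D ℓ).π)
    (fun ℓ => (D ℓ).r) (fun ℓ γ => (D ℓ).adm.proj γ) N hN
  have hr₀N : ∀ γ ∈ N, (r₀ γ).left = 1 := by
    intro γ hγ
    ext f
    obtain ⟨z, hz⟩ := exists_counit (B := ℤ) f
    have h1 := hlim γ f ((z : ℤ) : 𝓞 K) (by
      convert Set.finite_empty
      ext ℓ
      simp only [Set.mem_ofPred_eq, Set.mem_empty_iff_false, iff_false, not_not]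
      rw [hN ℓ γ hγ, hz, eq_intCast, map_intCast])
    rw [h1, hz, eq_intCast]
    simp
  have hr₀c : ∀ γ, ∀ u ∈ N, (r₀ (γ * u)).left = (r₀ γ).left := by
    intro γ u hu
    rw [map_mul, SemidirectProduct.mul_left, hr₀N u hu, map_one, mul_one]
  refine ⟨r₀, ⟨hr₀, fun f => ?_⟩, fun v hv => ?_⟩
  · rw [IsLocallyConstant.iff_exists_open]
    intro γ
    refine ⟨γ • (N : Set Gal(AlgebraicClosure F/F)), hNo.smul γ, ⟨1, one_mem _, by simp⟩, ?_⟩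
    rintro _ ⟨u, hu, rfl⟩
    change (r₀ (γ * u)).left.hom f = _
    rw [hr₀c γ u hu]
  · have hvfin : {ℓ : Λ | ((ℓ : ℕ) : 𝓞 F) ∈ v.asIdeal}.Finite := by
      refine Set.Subsingleton.finite ?_
      intro ℓ hℓ ℓ' hℓ'
      exact Subtype.ext (eq_of_mem_prime v (hprime ℓ) (hprime ℓ') hℓ hℓ')
    obtain ⟨ℓ, hℓ⟩ := hvfin.exists_notMem
    refine ⟨?_, ?_, ?_⟩
    · intro P u hu
      apply hr₀N
      rw [← hNeq ℓ]
      have h1 := ((D ℓ).conj v hv hℓ).unram P u hu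
      refine ⟨hS v hv P u hu, ?_⟩
      change ρ.ev _ ((D ℓ).r u) = 1
      apply ρ.ev_eq_one h1
      rw [(D ℓ).adm.proj]
      exact hS v hv P u hu
    · have hpow : (φ v) ^ N.index ∈ N := Subgroup.pow_index_mem _ _
      refine isSemisimpleElt_of_pow hA (N := N.index) ?_ ?_ ?_
      · exact_mod_cast hNfin.index_ne_zero
      · rw [← map_pow]; exact hr₀N _ hpow
      · rw [hr₀]; exact hNact _ hpow
    · intro f
      refine hlim (φ v) f (x v f) (hvfin.subset ?_)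
      intro ℓ hne
      by_contra hℓ
      exact hne (((D ℓ).conj v hv hℓ).value f)

end Forward

end Pool.Agent.Lib.MP_666dc0_nt.OverB
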