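import Pool.Agent.Lib.MP_666dc0_nt.BOpen

open TensorProduct Coalgebra Polynomial NumberField IsDedekindDomain
open scoped TensorProduct Matrix NumberField Pointwise

namespace Pool.Agent.Lib.MP_666dc0_nt.OverB

set_option linter.unusedSectionVars false

section Main

variable {F : Type*} [Field F] [NumberField F] {O : Type} [CommRing O] [HopfAlgebra ℤ O]
  (A : HopfAction ℤ Gal(AlgebraicClosure F/F) O) (S : Finset (HeightOneSpectrum (𝓞 F)))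
  (φ : HeightOneSpectrum (𝓞 F) → Gal(AlgebraicClosure F/F)) {K : Type} [Field K]
  (x : ∀ v, A.inv (φ v) →+* 𝓞 K)

/-- A homomorphism modulo `ℓ` with the reductions of the given classes. -/
structure ResData (ℓ : ℕ) where
  k : Type
  fk : Field k
  ck : IsAlgClosed k
  pk : ∀ m : ℕ, ¬ ℓ ∣ m → (m : k) ≠ 0
  π : 𝓞 K →+* k
  r : Gal(AlgebraicClosure F/F) →* A.LGroup k
  adm : IsAdmissibleDisc A r
  conj : ∀ v, v ∉ S → (ℓ : 𝓞 F) ∉ v.asIdeal → IsConjAt A r v (φ v) (π.comp (x v))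

attribute [instance] ResData.fk ResData.ck

variable {A S φ x} {n : ℕ} (ρ : MatRepL A n)

lemma eq_of_mem_prime (v : HeightOneSpectrum (𝓞 F)) {p q : ℕ} (hp : p.Prime) (hq : q.Prime)
    (h1 : (p : 𝓞 F) ∈ v.asIdeal) (h2 : (q : 𝓞 F) ∈ v.asIdeal) : p = q := by
  by_contra hne
  have hcop : Nat.Coprime p q := (Nat.coprime_primes hp hq).mpr hne
  have h3 := Nat.isCoprime_iff_coprime.mpr hcop
  obtain ⟨a, b, hab⟩ := h3
  apply v.isPrime.ne_top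
  rw [Ideal.eq_top_iff_one]
  have h4 : ((a * p + b * q : ℤ) : 𝓞 F) = 1 := by rw [hab]; simp
  push_cast at h4
  rw [← h4]
  exact add_mem (Ideal.mul_mem_left _ _ h1) (Ideal.mul_mem_left _ _ h2)

lemma finite_mem_nat (n : ℕ) (hn : 0 < n) :
    {v : HeightOneSpectrum (𝓞 F) | (n : 𝓞 F) ∈ v.asIdeal}.Finite :=
  finite_mem (by exact_mod_cast hn.ne')

/-- The data of the eigenvalues at the good places. -/
lemma exists_eigen [IsAlgClosed K] (hA : IsOpen (A.act.ker : Set Gal(AlgebraicClosure F/F)))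
    (v : HeightOneSpectrum (𝓞 F)) (hv : IsTorsionPt A (φ v) (x v)) :
    ∃ s : Multiset (𝓞 K), (∃ M : ℕ, 0 < M ∧ ∀ c ∈ s, c ^ M = 1) ∧
      ∀ (ℓ : ℕ) (D : ResData A S φ x ℓ), v ∉ S → (ℓ : 𝓞 F) ∉ v.asIdeal → ∀ j : ℕ,
        ((ρ.ev D.k (D.r (φ v))) ^ j = 1 ↔ ∀ c ∈ s, D.π c ^ j = 1) := by
  obtain ⟨t, ht, htm, htx⟩ := hv
  obtain ⟨s, hs1, hs2⟩ := exists_eigenvalues ρ (φ v) (exists_pow_act hA (φ v)) (x v) t ht htm htx
  refine ⟨s, hs1, fun ℓ D hvS hvℓ j => ?_⟩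
  have hc := D.conj v hvS hvℓ
  exact hs2 D.k D.π (D.r (φ v)) (D.adm.proj _) hc.semisimple (fun f => hc.value f) j

lemma ResData.pow_index [Algebra.FiniteType ℤ O]
    (hA : IsOpen (A.act.ker : Set Gal(AlgebraicClosure F/F))) {ℓ : ℕ} (D : ResData A S φ x ℓ) :
    ∃ m : ℕ, 0 < m ∧ ∀ γ, ρ.ev D.k (D.r γ) ^ m = 1 := by
  have h1 := kerU_open ρ.toMatRep hA D.r D.adm.proj D.adm.cont
  have h2 : Finite (Gal(AlgebraicClosure F/F) ⧸ kerU ρ.toMatRep D.r) :=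
    Subgroup.quotient_finite_of_isOpen _ h1
  have h3 : (kerU ρ.toMatRep D.r).FiniteIndex := Subgroup.finiteIndex_of_finite_quotient
  have h4 := kerU_normal ρ.toMatRep D.r
  refine ⟨(kerU ρ.toMatRep D.r).index, Nat.pos_of_ne_zero h3.index_ne_zero, fun γ => ?_⟩
  have h5 := (Subgroup.pow_index_mem (kerU ρ.toMatRep D.r) γ).2
  rw [← map_pow, ← map_pow]
  exact h5

/-- The orders of the good classes are bounded. -/
lemma exists_bound_order [Algebra.FiniteType ℤ O] [IsAlgClosed K]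
    (hA : IsOpen (A.act.ker : Set Gal(AlgebraicClosure F/F)))
    {p q : ℕ} (hp : p.Prime) (hq : q.Prime) (hpq : p ≠ q)
    (D : ResData A S φ x p) (D' : ResData A S φ x q) :
    ∃ M : ℕ, 0 < M ∧ ∀ (v : HeightOneSpectrum (𝓞 F)), v ∉ S → (p : 𝓞 F) ∉ v.asIdeal →
      (q : 𝓞 F) ∉ v.asIdeal → ∀ s : Multiset (𝓞 K), (∃ M' : ℕ, 0 < M' ∧ ∀ c ∈ s, c ^ M' = 1) →
      (∀ (ℓ : ℕ) (D : ResData A S φ x ℓ), v ∉ S → (ℓ : 𝓞 F) ∉ v.asIdeal → ∀ j : ℕ,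
        ((ρ.ev D.k (D.r (φ v))) ^ j = 1 ↔ ∀ c ∈ s, D.π c ^ j = 1)) → ∀ c ∈ s, c ^ M = 1 := by
  obtain ⟨m, hm, hm'⟩ := D.pow_index ρ hA
  obtain ⟨m₁, hm₁, hm₁'⟩ := D'.pow_index ρ hA
  refine ⟨m * m₁, Nat.mul_pos hm hm₁, ?_⟩
  rintro v hvS hvp hvq s ⟨M', hM', hs⟩ hs2 c hc
  have h1 : D.π (c ^ m) = 1 := by
    rw [map_pow]; exact (hs2 p D hvS hvp m).mp (hm' _) c hc
  have h2 : D'.π (c ^ m₁) = 1 := by
    rw [map_pow]; exact (hs2 q D' hvS hvq m₁).mp (hm₁' _) c hc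
  obtain ⟨a, ha⟩ := exists_pow_eq_one_of_map D.π p hp D.pk (m := M') hM' (by
    rw [← pow_mul, mul_comm, pow_mul, hs c hc, one_pow]) h1
  obtain ⟨b, hb⟩ := exists_pow_eq_one_of_map D'.π q hq D'.pk (m := M') hM' (by
    rw [← pow_mul, mul_comm, pow_mul, hs c hc, one_pow]) h2
  have h3 : (c ^ (m * m₁)) ^ (p ^ a) = 1 := by
    rw [← pow_mul, mul_right_comm, pow_mul, pow_mul, ha, one_pow]
  have h4 : (c ^ (m * m₁)) ^ (q ^ b) = 1 := by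
    rw [← pow_mul, mul_comm m m₁, mul_right_comm, pow_mul, pow_mul, hb, one_pow]
  have hcop : Nat.Coprime (p ^ a) (q ^ b) :=
    Nat.Coprime.pow _ _ ((Nat.coprime_primes hp hq).mpr hpq)
  have h5 := Nat.dvd_gcd (orderOf_dvd_of_pow_eq_one h3) (orderOf_dvd_of_pow_eq_one h4)
  rw [hcop.gcd_eq_one, Nat.dvd_one, orderOf_eq_one_iff] at h5
  exact h5

/-- The kernels of the reductions agree. -/
lemma kerU_le [Algebra.FiniteType ℤ O] [IsAlgClosed K]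
    (hA : IsOpen (A.act.ker : Set Gal(AlgebraicClosure F/F)))
    (hφ : ∀ v, v ∉ S → ∃ P : Ideal (𝓞 (AlgebraicClosure F)), IsOver v P ∧
      (IsFrob v P (φ v) ∨ IsFrob v P (φ v)⁻¹))
    (T : Set (HeightOneSpectrum (𝓞 F))) (hT : T.Finite) (M : ℕ)
    (s : HeightOneSpectrum (𝓞 F) → Multiset (𝓞 K))
    (hs : ∀ v, v ∉ S → v ∉ T → (∀ c ∈ s v, c ^ M = 1) ∧
      ∀ (ℓ : ℕ) (D : ResData A S φ x ℓ), v ∉ S → (ℓ : 𝓞 F) ∉ v.asIdeal → ∀ j : ℕ,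
        ((ρ.ev D.k (D.r (φ v))) ^ j = 1 ↔ ∀ c ∈ s v, D.π c ^ j = 1))
    {p q : ℕ} (hp : p.Prime) (hq : q.Prime)
    (D : ResData A S φ x p) (D' : ResData A S φ x q) (hpM : (M : D.k) ≠ 0) :
    kerU ρ.toMatRep D.r ≤ kerU ρ.toMatRep D'.r := by
  classical
  intro γ hγ
  have ho := kerU_open ρ.toMatRep hA D.r D.adm.proj D.adm.cont
  have ho' := kerU_open ρ.toMatRep hA D'.r D'.adm.proj D'.adm.cont
  have hn := kerU_normal ρ.toMatRep D.r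
  have hn' := kerU_normal ρ.toMatRep D'.r
  have hfin := (hT.union (finite_mem_nat (F := F) p hp.pos)).union (finite_mem_nat (F := F) q hq.pos)
  obtain ⟨v, hv, δ, j, hj⟩ := exists_frob_mem (kerU ρ.toMatRep D.r ⊓ kerU ρ.toMatRep D'.r)
    inferInstance (ho.inter ho') (S ∪ hfin.toFinset) φ (fun v hv => hφ v (fun h =>
      hv (Finset.mem_union_left _ h))) γ
  simp only [Finset.mem_union, Set.Finite.mem_toFinset, Set.mem_union, Set.mem_ofPred_eq,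
    not_or] at hv
  obtain ⟨hvS, ⟨hvT, hvp⟩, hvq⟩ := hv
  obtain ⟨hs1, hs2⟩ := hs v hvS hvT
  have key : ∀ (ℓ : ℕ) (D : ResData A S φ x ℓ), γ⁻¹ * (δ * φ v ^ j * δ⁻¹) ∈ kerU ρ.toMatRep D.r →
      (ρ.ev D.k (D.r γ) = 1 ↔ ρ.ev D.k (D.r (φ v)) ^ j = 1) := by
    intro ℓ D hmem
    have h1 := hmem.2
    change ρ.ev D.k (D.r (γ⁻¹ * (δ * φ v ^ j * δ⁻¹))) = 1 at h1
    have h2 : ρ.ev D.k (D.r γ) = ρ.ev D.k (D.r (δ * φ v ^ j * δ⁻¹)) := by
      have h3 : ρ.ev D.k (D.r γ) * ρ.ev D.k (D.r (γ⁻¹ * (δ * φ v ^ j * δ⁻¹))) =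
          ρ.ev D.k (D.r (δ * φ v ^ j * δ⁻¹)) := by
        rw [← map_mul, ← map_mul, mul_inv_cancel_left]
      rw [h1, mul_one] at h3
      exact h3
    rw [h2, ← map_pow, ← map_pow]
    constructor
    · intro h
      have h4 : φ v ^ j = δ⁻¹ * (δ * φ v ^ j * δ⁻¹) * δ := by group
      rw [h4, map_mul, map_mul, map_mul, map_mul, h, mul_one, ← map_mul, ← map_mul,
        inv_mul_cancel, map_one, map_one]
    · intro h
      rw [map_mul, map_mul, map_mul, map_mul, h, mul_one, ← map_mul, ← map_mul,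
        mul_inv_cancel, map_one, map_one]
  refine ⟨hγ.1, ?_⟩
  change ρ.ev D'.k (D'.r γ) = 1
  rw [key q D' hj.2, hs2 q D' hvS hvq j]
  have h1 := (hs2 p D hvS hvp j).mp ((key p D hj.1).mp hγ.2)
  intro c hc
  have h2 : c ^ j = 1 := eq_one_of_map_eq_one D.π (m := M) hpM (by
    rw [← pow_mul, mul_comm, pow_mul, hs1 c hc, one_pow]) (by rw [map_pow]; exact h1 c hc)
  rw [← map_pow, h2, map_one]

end Main

end Pool.Agent.Lib.MP_666dc0_nt.OverB
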