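import Mathlib

open TensorProduct WithConv NumberField IsDedekindDomain
open scoped TensorProduct NumberField

namespace Pool.Agent.Lib.MP_666dc0_nt

section Points

/-- `Pts O R` is the group `Ĝ(R)` of `R`-points of the affine group scheme `Ĝ = Spec O` over `ℚ`,
where `O` is a commutative Hopf algebra over `ℚ`: a point is a homomorphism of `ℚ`-algebras
`hom : O → R`, and `hom f` is the value at the point of the regular function `f`. -/
@[ext] structure Pts (O R : Type) [CommRing O] [HopfAlgebra ℚ O] [CommRing R] [Algebra ℚ R] :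
    Type where
  hom : O →ₐ[ℚ] R

variable {O R S : Type} [CommRing O] [HopfAlgebra ℚ O] [CommRing R] [Algebra ℚ R]
  [CommRing S] [Algebra ℚ S]

namespace Pts

noncomputable instance : Mul (Pts O R) where
  mul g h := ⟨(Algebra.TensorProduct.lift g.hom h.hom (fun _ _ => Commute.all _ _)).comp
    (Bialgebra.comulAlgHom ℚ O)⟩

noncomputable instance : One (Pts O R) where
  one := ⟨(Algebra.ofId ℚ R).comp (Bialgebra.counitAlgHom ℚ O)⟩

noncomputable instance : Inv (Pts O R) where
  inv g := ⟨g.hom.comp (HopfAlgebra.antipodeAlgHom ℚ O)⟩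

lemma mul_hom_eq (g h : Pts O R) : (g * h).hom = (toConv g.hom * toConv h.hom).ofConv := by
  ext f
  exact (AlgHom.convMul_apply (toConv g.hom) (toConv h.hom) f).symm

lemma mul_hom_apply (g h : Pts O R) (f : O) : (g * h).hom f =
    Algebra.TensorProduct.lift g.hom h.hom (fun _ _ => Commute.all _ _)
      (CoalgebraStruct.comul (R := ℚ) f) := rfl

lemma one_hom_apply (f : O) : (1 : Pts O R).hom f = algebraMap ℚ R (CoalgebraStruct.counit f) := rfl

lemma inv_hom_apply (g : Pts O R) (f : O) : g⁻¹.hom f = g.hom (HopfAlgebra.antipode ℚ f) := rfl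

lemma one_hom_eq : (1 : Pts O R).hom = (1 : WithConv (O →ₐ[ℚ] R)).ofConv := rfl

lemma comp_mul (φ : R →ₐ[ℚ] S) (g h : Pts O R) :
    (⟨φ.comp (g * h).hom⟩ : Pts O S) = ⟨φ.comp g.hom⟩ * ⟨φ.comp h.hom⟩ := by
  ext1
  rw [mul_hom_eq, mul_hom_eq]
  exact AlgHom.comp_convMul_distrib φ _ _

/-- The group structure on `Ĝ(R)`. -/
noncomputable instance : Group (Pts O R) where
  mul_assoc g h k := by
    ext1
    simp only [mul_hom_eq, toConv_ofConv, mul_assoc]
  one_mul g := by
    ext1
    simp only [mul_hom_eq, one_hom_eq, toConv_ofConv, one_mul, ofConv_toConv]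
  mul_one g := by
    ext1
    simp only [mul_hom_eq, one_hom_eq, toConv_ofConv, mul_one, ofConv_toConv]
  inv_mul_cancel g := by
    have h1 : (⟨g.hom.comp (⟨HopfAlgebra.antipodeAlgHom ℚ O⟩ * ⟨AlgHom.id ℚ O⟩ : Pts O O).hom⟩ :
        Pts O R) = g⁻¹ * g := by
      rw [comp_mul]
      rfl
    rw [← h1]
    have h2 : (⟨HopfAlgebra.antipodeAlgHom ℚ O⟩ * ⟨AlgHom.id ℚ O⟩ : Pts O O) = 1 := by
      ext1
      rw [mul_hom_eq, AlgHom.antipode_id_cancel]
      rfl
    rw [h2]
    ext f
    rw [AlgHom.comp_apply, one_hom_apply, one_hom_apply, AlgHom.commutes]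

/-- Functoriality of `Ĝ(R)` in `R`. -/
noncomputable def map (φ : R →ₐ[ℚ] S) : Pts O R →* Pts O S where
  toFun g := ⟨φ.comp g.hom⟩
  map_one' := by
    ext f
    rw [AlgHom.comp_apply, one_hom_apply, one_hom_apply, AlgHom.commutes]
  map_mul' := comp_mul φ

@[simp] lemma map_hom_apply (φ : R →ₐ[ℚ] S) (g : Pts O R) (f : O) :
    (map φ g).hom f = φ (g.hom f) := rfl

end Pts

/-- An action of a group `Γ` on the affine group scheme `Ĝ = Spec O` by automorphisms over `ℚ`,
written in terms of regular functions: `act γ f` is the function `g ↦ f(γ⁻¹ g)`. -/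
structure HopfAction (Γ : Type*) [Group Γ] (O : Type) [CommRing O] [HopfAlgebra ℚ O] where
  /-- the action on regular functions -/
  act : Γ →* (O ≃ₐ[ℚ] O)
  comul_act : ∀ (γ : Γ) (f : O), CoalgebraStruct.comul (R := ℚ) (act γ f) =
    TensorProduct.map (act γ).toLinearMap (act γ).toLinearMap (CoalgebraStruct.comul (R := ℚ) f)
  counit_act : ∀ (γ : Γ) (f : O), CoalgebraStruct.counit (R := ℚ) (act γ f) =
    CoalgebraStruct.counit (R := ℚ) f

namespace HopfAction

variable {Γ : Type*} [Group Γ] (A : HopfAction Γ O)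

/-- The action of `Γ` on `Ĝ(R)`: `(γ g)(f) = g(act γ⁻¹ f)`. -/
noncomputable def onPts (R : Type) [CommRing R] [Algebra ℚ R] : Γ →* MulAut (Pts O R) where
  toFun γ :=
    { toFun := fun g => ⟨g.hom.comp (A.act γ⁻¹).toAlgHom⟩
      invFun := fun g => ⟨g.hom.comp (A.act γ).toAlgHom⟩
      left_inv := fun g => by
        ext f
        change g.hom (A.act γ⁻¹ (A.act γ f)) = g.hom f
        rw [← AlgEquiv.mul_apply, ← map_mul, inv_mul_cancel, map_one, AlgEquiv.one_apply]
      right_inv := fun g => by
        ext f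
        change g.hom (A.act γ (A.act γ⁻¹ f)) = g.hom f
        rw [← AlgEquiv.mul_apply, ← map_mul, mul_inv_cancel, map_one, AlgEquiv.one_apply]
      map_mul' := fun g h => by
        ext f
        change (g * h).hom (A.act γ⁻¹ f) = _
        rw [Pts.mul_hom_apply, Pts.mul_hom_apply, A.comul_act]
        generalize CoalgebraStruct.comul (R := ℚ) f = z
        induction z using TensorProduct.induction_on with
        | zero => simp
        | tmul a b => simp
        | add a b ha hb => simp only [map_add, ha, hb] }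
  map_one' := by
    ext g f
    change g.hom (A.act 1⁻¹ f) = g.hom f
    rw [inv_one, map_one, AlgEquiv.one_apply]
  map_mul' γ δ := by
    ext g f
    change g.hom (A.act (γ * δ)⁻¹ f) = g.hom (A.act δ⁻¹ (A.act γ⁻¹ f))
    rw [mul_inv_rev, map_mul, AlgEquiv.mul_apply]

@[simp] lemma onPts_hom_apply (γ : Γ) (g : Pts O R) (f : O) :
    (A.onPts R γ g).hom f = g.hom (A.act γ⁻¹ f) := rfl

/-- The group `ᴸG(R) = Ĝ(R) ⋊ Γ`. -/
abbrev LGroup (R : Type) [CommRing R] [Algebra ℚ R] : Type _ := Pts O R ⋊[A.onPts R] Γ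

/-- The algebra of regular functions `f` on `Ĝ` such that `(g, σ) ↦ f(g)` is invariant under
conjugation by `Ĝ`; it is the coordinate ring of the quotient of the coset `Ĝ ⋊ σ` by conjugation
under `Ĝ`. -/
noncomputable def inv (σ : Γ) : Subalgebra ℚ O where
  carrier := {f | ∀ (R : Type) [CommRing R] [Algebra ℚ R] (x g : Pts O R),
    (x * g * (A.onPts R σ x)⁻¹).hom f = g.hom f}
  mul_mem' := fun {a b} ha hb R _ _ x g => by
    rw [map_mul, map_mul, ha R x g, hb R x g]
  add_mem' := fun {a b} ha hb R _ _ x g => by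
    rw [map_add, map_add, ha R x g, hb R x g]
  algebraMap_mem' := fun q R _ _ x g => by
    rw [AlgHom.commutes, AlgHom.commutes]

lemma mem_inv {σ : Γ} {f : O} : f ∈ A.inv σ ↔ ∀ (R : Type) [CommRing R] [Algebra ℚ R]
    (x g : Pts O R), (x * g * (A.onPts R σ x)⁻¹).hom f = g.hom f := Iff.rfl

/-- The comorphism of the map `x ↦ g σ(x)` from `Ĝ` to itself over the field `K`, as a `K`-linear
endomorphism of `K ⊗ O`. -/
noncomputable def transl {K : Type} [Field K] [Algebra ℚ K] (g : Pts O K) (σ : Γ) :
    Module.End K (K ⊗[ℚ] O) :=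
  LinearMap.liftBaseChange K
    ((TensorProduct.map g.hom.toLinearMap (A.act σ⁻¹).toLinearMap).comp
      (CoalgebraStruct.comul (R := ℚ) (A := O)))

/-- The element `(g, σ)` of `ᴸG(K)` is semisimple. -/
def IsSemisimpleElt {K : Type} [Field K] [Algebra ℚ K] (x : A.LGroup K) : Prop :=
  Module.End.IsSemisimple (A.transl x.left x.right)

end HopfAction

end Points
section Primes

variable {F A : Type*} [Field F] [NumberField F] [Field A] [Algebra F A]

/-- `P` is a prime ideal of the ring of integers of `A` above the finite place `v` of `F`. -/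
def IsOver (v : HeightOneSpectrum (𝓞 F)) (P : Ideal (𝓞 A)) : Prop :=
  P.IsPrime ∧ P.comap (algebraMap (𝓞 F) (𝓞 A)) = v.asIdeal

/-- `φ` is an arithmetic Frobenius element at the prime `P` above `v`. -/
def IsFrob (v : HeightOneSpectrum (𝓞 F)) (P : Ideal (𝓞 A)) (φ : Gal(A/F)) : Prop :=
  ∀ x : 𝓞 A, φ • x - x ^ Nat.card (𝓞 F ⧸ v.asIdeal) ∈ P

end Primes

section Defs

/-- The affine group scheme `Ĝ = Spec O` over `ℚ` is linearly reductive: there is a linear
functional `I` on `O` with `I(1) = 1` that is invariant under right translations,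
`(I ⊗ id)(Δ f) = I(f) 1` (a normalised invariant integral). -/
def LinearlyReductive (O : Type) [CommRing O] [HopfAlgebra ℚ O] : Prop :=
  ∃ I : O →ₗ[ℚ] ℚ, I 1 = 1 ∧ ∀ f : O,
    TensorProduct.lid ℚ O (LinearMap.rTensor O I (CoalgebraStruct.comul (R := ℚ) f)) =
      algebraMap ℚ O (I f)

variable {F : Type*} [Field F] [NumberField F] {O : Type} [CommRing O] [HopfAlgebra ℚ O]
  (A : HopfAction Gal(AlgebraicClosure F/F) O)

/-- The prime `P` of the ring of integers of `F̄` lies above the finite place `v` of `F` and `u`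
is in the inertia group at `P`. -/
def IsInertiaAt (v : HeightOneSpectrum (𝓞 F)) (P : Ideal (𝓞 (AlgebraicClosure F)))
    (u : Gal(AlgebraicClosure F/F)) : Prop :=
  IsOver v P ∧ ∀ x : 𝓞 (AlgebraicClosure F), u • x - x ∈ P

/-- An admissible homomorphism `r : Γ_F → ᴸG(K)` for a topological field `K`: it is compatible
with the projections to `Γ_F` and continuous for the topology of `K` (each regular function
`f` on `Ĝ` gives a continuous function `γ ↦ f(r(γ))`). -/
structure IsAdmissible {K : Type} [Field K] [Algebra ℚ K] [TopologicalSpace K]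
    (r : Gal(AlgebraicClosure F/F) →* A.LGroup K) : Prop where
  proj : ∀ γ, (r γ).right = γ
  cont : ∀ f : O, Continuous fun γ => (r γ).left.hom f

/-- The restriction of `r` to the decomposition groups at `v` is conjugate to the point `x` of
the quotient of `Ĝ ⋊ φ` by `Ĝ`-conjugation, where `φ` is a Frobenius element at `v`: it is trivial
on the inertia groups at `v`, the element `r(φ)` is semisimple and every invariant function `f`
takes the value `x(f)` at `r(φ)`. -/
structure IsConjAt {K : Type} [Field K] [Algebra ℚ K]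
    (r : Gal(AlgebraicClosure F/F) →* A.LGroup K) (v : HeightOneSpectrum (𝓞 F))
    (φ : Gal(AlgebraicClosure F/F)) (x : A.inv φ →+* K) : Prop where
  unram : ∀ P u, IsInertiaAt v P u → (r u).left = 1
  semisimple : A.IsSemisimpleElt (r φ)
  value : ∀ f : A.inv φ, (r φ).left.hom (f : O) = x f

end Defs

end Pool.Agent.Lib.MP_666dc0_nt
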