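import Pool.Agent.Lib.MP_666dc0_nt.BProd
import Pool.Agent.Lib.MP_666dc0_nt.Mg.G019

open TensorProduct Coalgebra Polynomial NumberField IsDedekindDomain
open scoped TensorProduct Matrix NumberField Pointwise

namespace Pool.Agent.Lib.MP_666dc0_nt.OverB

set_option linter.unusedSectionVars false

section Cheb

variable {F : Type*} [Field F] [NumberField F]

/-- Every element of the Galois group is congruent, modulo an open normal subgroup, to a conjugate
of a power of a Frobenius element. -/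
theorem exists_frob_mem (U : Subgroup Gal(AlgebraicClosure F/F)) (hUn : U.Normal)
    (hUo : IsOpen (U : Set Gal(AlgebraicClosure F/F))) (S : Finset (HeightOneSpectrum (𝓞 F)))
    (φ : HeightOneSpectrum (𝓞 F) → Gal(AlgebraicClosure F/F))
    (hφ : ∀ v, v ∉ S → ∃ P : Ideal (𝓞 (AlgebraicClosure F)), IsOver v P ∧
      (IsFrob v P (φ v) ∨ IsFrob v P (φ v)⁻¹)) (γ : Gal(AlgebraicClosure F/F)) :
    ∃ v, v ∉ S ∧ ∃ (δ : Gal(AlgebraicClosure F/F)) (j : ℕ), γ⁻¹ * (δ * φ v ^ j * δ⁻¹) ∈ U := by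
  classical
  have hUc : IsClosed (U : Set Gal(AlgebraicClosure F/F)) := Subgroup.isClosed_of_isOpen U hUo
  let Uc : ClosedSubgroup Gal(AlgebraicClosure F/F) := ⟨U, hUc⟩
  let K : IntermediateField F (AlgebraicClosure F) := IntermediateField.fixedField U
  have hKU : K.fixingSubgroup = U := InfiniteGalois.fixingSubgroup_fixedField Uc
  have hfd : FiniteDimensional F K := by
    rw [← InfiniteGalois.isOpen_iff_finite]
    rw [hKU]; exact hUo
  have hgal : IsGalois F K := by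
    rw [← InfiniteGalois.normal_iff_isGalois]
    rw [hKU]; exact hUn
  have hker : (AlgEquiv.restrictNormalHom (F := F) (K₁ := AlgebraicClosure F) K).ker = U := by
    rw [IntermediateField.restrictNormalHom_ker, hKU]
  have : NumberField K := NumberField.of_module_finite F K
  let τ := AlgEquiv.restrictNormalHom (F := F) (K₁ := AlgebraicClosure F) K γ
  obtain ⟨w, hw1, hw2, φw, hφw, hτ⟩ := exists_frob_zpowers (F := F) (L := K) S.finite_toSet τ
  have hv : undr F w ∉ S := by simpa using hw1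
  refine ⟨undr F w, hv, ?_⟩
  obtain ⟨P, hP, hfr⟩ := hφ _ hv
  rcases hfr with hfr | hfr
  · obtain ⟨δ, hδ⟩ := frob_conj K w hw2 φw hφw P hP _ hfr
    rw [← mem_powers_iff_mem_zpowers] at hτ
    obtain ⟨j, hj⟩ := hτ
    refine ⟨δ, j, ?_⟩
    rw [← hker, MonoidHom.mem_ker, ← conj_pow, map_mul, map_pow, hδ, map_inv]
    change _⁻¹ * φw ^ j = 1
    rw [inv_mul_eq_one]
    exact hj.symm
  · obtain ⟨δ, hδ⟩ := frob_conj K w hw2 φw hφw P hP _ hfr
    have hτ' := inv_mem hτ
    rw [← mem_powers_iff_mem_zpowers] at hτ'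
    obtain ⟨j, hj⟩ := hτ'
    refine ⟨δ, j, ?_⟩
    have h1 : AlgEquiv.restrictNormalHom K (δ * φ (undr F w) * δ⁻¹) = φw⁻¹ := by
      have h0 : δ * φ (undr F w) * δ⁻¹ = (δ * (φ (undr F w))⁻¹ * δ⁻¹)⁻¹ := by group
      rw [h0, map_inv, hδ]
    rw [← hker, MonoidHom.mem_ker, ← conj_pow, map_mul, map_pow, h1, map_inv, inv_pow]
    rw [inv_mul_eq_one]
    have h2 : φw ^ j = τ⁻¹ := hj
    rw [h2, inv_inv]

end Cheb

section Open

variable {B O : Type} [CommRing B] [CommRing O] [HopfAlgebra B O] {Γ : Type*} [Group Γ]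
  [TopologicalSpace Γ] [IsTopologicalGroup Γ] [CompactSpace Γ] {A : HopfAction B Γ O} {n : ℕ}
  (ρ : MatRep A n)

/-- The kernel of a homomorphism to the L-group in a matrix representation. -/
noncomputable def kerU (ρ : MatRep A n) {k : Type} [Field k] [Algebra B k] (r : Γ →* A.LGroup k) : Subgroup Γ :=
  A.act.ker ⊓ ((ρ.ev k).comp r).ker

lemma mem_kerU {k : Type} [Field k] [Algebra B k] {r : Γ →* A.LGroup k} {γ : Γ} :
    γ ∈ kerU ρ r ↔ A.act γ = 1 ∧ ρ.ev k (r γ) = 1 := Iff.rfl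

lemma kerU_normal {k : Type} [Field k] [Algebra B k] (r : Γ →* A.LGroup k) :
    (kerU ρ r).Normal := by
  unfold kerU
  infer_instance

lemma kerU_open [Algebra.FiniteType B O] (hA : IsOpen (A.act.ker : Set Γ)) {k : Type} [Field k]
    [Algebra B k] (r : Γ →* A.LGroup k) (hr : ∀ γ, (r γ).right = γ)
    (hc : ∀ f : O, IsLocallyConstant fun γ => (r γ).left.hom f) :
    IsOpen (kerU ρ r : Set Γ) := by
  obtain ⟨Φ, hΦ⟩ := ‹Algebra.FiniteType B O›.out
  have h1 : IsOpen (⋂ f ∈ Φ, {γ | (r γ).left.hom f = (1 : Pts B O k).hom f}) := by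
    refine Set.Finite.isOpen_biInter Φ.finite_toSet fun f _ => ?_
    exact (hc f).isOpen_fiber _
  refine Subgroup.isOpen_of_mem_nhds _ (g := 1) ?_
  refine Filter.mem_of_superset ((hA.inter h1).mem_nhds ⟨one_mem _, ?_⟩) ?_
  · refine Set.mem_iInter₂.mpr fun f _ => ?_
    change (r 1).left.hom f = _
    rw [map_one]; rfl
  · rintro γ ⟨hγ1, hγ2⟩
    refine ⟨hγ1, ?_⟩
    change ρ.ev k (r γ) = 1
    apply ρ.ev_eq_one
    · ext f
      have h2 : Algebra.adjoin B (Φ : Set O) ≤ AlgHom.equalizer (r γ).left.hom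
          (1 : Pts B O k).hom := Algebra.adjoin_le fun f hf => Set.mem_iInter₂.mp hγ2 f hf
      rw [hΦ] at h2
      exact h2 (Algebra.mem_top (x := f))
    · rw [hr]; exact hγ1

lemma exists_pow_act (hA : IsOpen (A.act.ker : Set Γ)) (σ : Γ) :
    ∃ N : ℕ, 0 < N ∧ A.act (σ ^ N) = 1 := by
  have h1 : Finite (Γ ⧸ A.act.ker) := Subgroup.quotient_finite_of_isOpen _ hA
  have h2 : A.act.ker.FiniteIndex := Subgroup.finiteIndex_of_finite_quotient
  exact ⟨A.act.ker.index, Nat.pos_of_ne_zero h2.index_ne_zero,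
    MonoidHom.mem_ker.mp (Subgroup.pow_index_mem _ σ)⟩

end Open

end Pool.Agent.Lib.MP_666dc0_nt.OverB
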