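import Pool.Agent.Lib.MP_666dc0_nt.BTwo

open TensorProduct Coalgebra Polynomial NumberField IsDedekindDomain Topology
open scoped TensorProduct Matrix NumberField Pointwise

namespace Pool.Agent.Lib.MP_666dc0_nt.OverB

set_option linter.unusedSectionVars false

section Pair

variable {F : Type*} [Field F] [NumberField F] {O : Type} [CommRing O] [HopfAlgebra ℤ O]
  [Algebra.FiniteType ℤ O]
  (A : HopfAction ℤ Gal(AlgebraicClosure F/F) O)

/-- Two homomorphisms in characteristic zero for two different primes give one over `ℚ̄`. -/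
theorem exists_of_two (hfree : @Module.Free ℤ O _ _ Algebra.toModule)
    (hA : IsOpen (A.act.ker : Set Gal(AlgebraicClosure F/F)))
    (S : Finset (HeightOneSpectrum (𝓞 F)))
    (hS : ∀ v, v ∉ S → ∀ P u, IsInertiaAt v P u → A.act u = 1)
    (φ : HeightOneSpectrum (𝓞 F) → Gal(AlgebraicClosure F/F))
    (hφ : ∀ v, v ∉ S → ∃ P : Ideal (𝓞 (AlgebraicClosure F)), IsOver v P ∧
      (IsFrob v P (φ v) ∨ IsFrob v P (φ v)⁻¹))
    {K : Type} [Field K] [CharZero K] [IsAlgClosed K] [Algebra.IsAlgebraic ℚ K]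
    (x : ∀ v, A.inv (φ v) →+* 𝓞 K)
    (hx : {v | v ∉ S ∧ ¬ IsTorsionPt A (φ v) (x v)}.Finite) {p q : ℕ} (hp : p.Prime)
    (hq : q.Prime) (hpq : p ≠ q) (D₀ : ResData A S φ x p) (hD₀ : CharZero D₀.k)
    (D₁ : ResData A S φ x q) (hD₁ : CharZero D₁.k) :
    ∃ r : Gal(AlgebraicClosure F/F) →* A.LGroup K, IsAdmissibleDisc A r ∧
      ∀ v, v ∉ S → IsConjAt A r v (φ v) ((algebraMap (𝓞 K) K).comp (x v)) := by
  classical
  obtain ⟨Φ₀, hΦ₀⟩ := ‹Algebra.FiniteType ℤ O›.out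
  obtain ⟨Φ, hΦfin, hΦ₀Φ, hΦst⟩ := exists_stable (A := A) hA Φ₀.finite_toSet
  obtain ⟨n, ρ, hρ, -⟩ := exists_matRepL A hΦfin hΦst
  have hΦ : Algebra.adjoin ℤ Φ = ⊤ := by
    rw [eq_top_iff, ← hΦ₀]
    exact Algebra.adjoin_mono hΦ₀Φ
  obtain ⟨M, hM, hMb⟩ := exists_bound_order ρ hA hp hq hpq D₀ D₁
  let T : Set (HeightOneSpectrum (𝓞 F)) := ({v | v ∉ S ∧ ¬ IsTorsionPt A (φ v) (x v)} ∪
    {v | (p : 𝓞 F) ∈ v.asIdeal}) ∪ {v | (q : 𝓞 F) ∈ v.asIdeal}
  have hT : T.Finite := (hx.union (finite_mem_nat p hp.pos)).union (finite_mem_nat q hq.pos)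
  have hs : ∀ v, ∃ s : Multiset (𝓞 K), v ∉ S → v ∉ T → (∀ c ∈ s, c ^ M = 1) ∧
      ∀ (ℓ : ℕ) (D : ResData A S φ x ℓ), v ∉ S → (ℓ : 𝓞 F) ∉ v.asIdeal → ∀ j : ℕ,
        ((ρ.ev D.k (D.r (φ v))) ^ j = 1 ↔ ∀ c ∈ s, D.π c ^ j = 1) := by
    intro v
    by_cases hv : v ∉ S ∧ v ∉ T
    · obtain ⟨hvS, hvT⟩ := hv
      simp only [T, Set.mem_union, Set.mem_ofPred_eq, not_or, not_and, not_not] at hvT
      obtain ⟨⟨h1, h2⟩, h3⟩ := hvT
      obtain ⟨s, hs1, hs2⟩ := exists_eigen ρ hA v (h1 hvS)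
      exact ⟨s, fun _ _ => ⟨hMb v hvS h2 h3 s hs1 hs2, hs2⟩⟩
    · exact ⟨0, fun h1 h2 => absurd ⟨h1, h2⟩ hv⟩
  choose s hs using hs
  let N : Subgroup Gal(AlgebraicClosure F/F) := kerU ρ.toMatRep D₀.r
  have hNeq : kerU ρ.toMatRep D₁.r = N := by
    apply le_antisymm
    · exact kerU_le ρ hA hφ T hT M s hs hq hp D₁ D₀ (by exact_mod_cast hM.ne')
    · exact kerU_le ρ hA hφ T hT M s hs hp hq D₀ D₁ (by exact_mod_cast hM.ne')
  have hNo : IsOpen (N : Set Gal(AlgebraicClosure F/F)) :=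
    kerU_open ρ.toMatRep hA D₀.r D₀.adm.proj D₀.adm.cont
  have hNn : N.Normal := kerU_normal ρ.toMatRep D₀.r
  have hNfin : N.FiniteIndex := by
    have h2 : Finite (Gal(AlgebraicClosure F/F) ⧸ N) := Subgroup.quotient_finite_of_isOpen _ hNo
    exact Subgroup.finiteIndex_of_finite_quotient
  have hleft : ∀ (ℓ : ℕ) (D : ResData A S φ x ℓ), kerU ρ.toMatRep D.r = N → ∀ γ ∈ N,
      (D.r γ).left = 1 := by
    intro ℓ D hD γ hγ
    rw [← hD] at hγ
    refine ρ.left_eq_one hΦ hρ ?_ hγ.2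
    rw [D.adm.proj]
    exact hγ.1
  obtain ⟨r₀, h₀, hd₀⟩ := exists_descent A D₀.π D₀.r D₀.adm.proj N (hleft p D₀ rfl)
  obtain ⟨r₁, h₁, hd₁⟩ := exists_descent A D₁.π D₁.r D₁.adm.proj N (hleft q D₁ hNeq)
  have hone : ∀ γ ∈ N, (r₀ γ).left = 1 ∧ (r₁ γ).left = 1 := by
    intro γ hγ
    constructor
    · ext f
      obtain ⟨z, hz⟩ := exists_counit (B := ℤ) f
      have h1 := hd₀ γ f ((z : ℤ) : 𝓞 K) (by
        rw [hleft p D₀ rfl γ hγ, hz, eq_intCast, map_intCast])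
      rw [h1, hz, eq_intCast]
      simp
    · ext f
      obtain ⟨z, hz⟩ := exists_counit (B := ℤ) f
      have h1 := hd₁ γ f ((z : ℤ) : 𝓞 K) (by
        rw [hleft q D₁ hNeq γ hγ, hz, eq_intCast, map_intCast])
      rw [h1, hz, eq_intCast]
      simp
  have hc₀ : ∀ γ, ∀ u ∈ N, (r₀ (γ * u)).left = (r₀ γ).left := by
    intro γ u hu
    rw [map_mul, SemidirectProduct.mul_left, (hone u hu).1, map_one, mul_one]
  have hc₁ : ∀ γ, ∀ u ∈ N, (r₁ (γ * u)).left = (r₁ γ).left := by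
    intro γ u hu
    rw [map_mul, SemidirectProduct.mul_left, (hone u hu).2, map_one, mul_one]
  have hval₀ : ∀ v, v ∉ S → (p : 𝓞 F) ∉ v.asIdeal → ∀ f : A.inv (φ v),
      (r₀ (φ v)).left.hom (f : O) = (x v f : K) := fun v hv hvp f =>
    hd₀ _ _ _ ((D₀.conj v hv hvp).value f)
  have hval₁ : ∀ v, v ∉ S → (q : 𝓞 F) ∉ v.asIdeal → ∀ f : A.inv (φ v),
      (r₁ (φ v)).left.hom (f : O) = (x v f : K) := fun v hv hvq f =>
    hd₁ _ _ _ ((D₁.conj v hv hvq).value f)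
  have hmatch : ∀ γ, A.Matched r₀ r₁ γ := by
    intro γ
    obtain ⟨v, hv, δ, j, hj⟩ := exists_frob_mem N hNn hNo (S ∪ hT.toFinset) φ
      (fun v hv => hφ v fun h => hv (Finset.mem_union_left _ h)) γ
    simp only [T, Finset.mem_union, Set.Finite.mem_toFinset, Set.mem_union, Set.mem_ofPred_eq,
      not_or] at hv
    obtain ⟨hvS, ⟨-, hvp⟩, hvq⟩ := hv
    have h3 : A.Matched r₀ r₁ (φ v) := by
      intro f hf
      rw [hval₀ v hvS hvp ⟨f, hf⟩, hval₁ v hvS hvq ⟨f, hf⟩]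
    have h4 := HopfAction.Matched.transport A h₀ h₁ h3 δ j
    have h5 : γ * (γ⁻¹ * (δ * φ v ^ j * δ⁻¹)) = δ * φ v ^ j * δ⁻¹ := mul_inv_cancel_left _ _
    intro f hf
    have h6 : f ∈ A.inv (δ * φ v ^ j * δ⁻¹) := by
      rw [← h5, inv_congr' A (δ := γ)]
      · exact hf
      · rw [map_mul]
        have h7 : A.act (γ⁻¹ * (δ * φ v ^ j * δ⁻¹)) = 1 := hj.1
        rw [h7, mul_one]
    have h8 := h4 f h6
    rw [← h5, hc₀ _ _ hj, hc₁ _ _ hj] at h8
    exact h8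
  refine ⟨r₀, ⟨h₀, fun f => ?_⟩, fun v hv => ⟨?_, ?_, ?_⟩⟩
  · rw [IsLocallyConstant.iff_exists_open]
    intro γ
    refine ⟨γ • (N : Set Gal(AlgebraicClosure F/F)), hNo.smul γ, ⟨1, one_mem _, by simp⟩, ?_⟩
    rintro _ ⟨u, hu, rfl⟩
    change (r₀ (γ * u)).left.hom f = _
    rw [hc₀ γ u hu]
  · intro P u hu
    refine (hone u ?_).1
    have hact := hS v hv P u hu
    by_cases hvp : (p : 𝓞 F) ∈ v.asIdeal
    · have hvq : (q : 𝓞 F) ∉ v.asIdeal := fun h => hpq (eq_of_mem_prime v hp hq hvp h)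
      rw [← hNeq]
      refine ⟨hact, ?_⟩
      change ρ.ev _ (D₁.r u) = 1
      apply ρ.ev_eq_one ((D₁.conj v hv hvq).unram P u hu)
      rw [D₁.adm.proj]
      exact hact
    · refine ⟨hact, ?_⟩
      change ρ.ev _ (D₀.r u) = 1
      apply ρ.ev_eq_one ((D₀.conj v hv hvp).unram P u hu)
      rw [D₀.adm.proj]
      exact hact
  · have hpow : (φ v) ^ N.index ∈ N := Subgroup.pow_index_mem _ _
    refine isSemisimpleElt_of_pow hA (N := N.index) ?_ ?_ ?_
    · exact_mod_cast hNfin.index_ne_zero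
    · rw [← map_pow]; exact (hone _ hpow).1
    · rw [h₀]; exact hpow.1
  · intro f
    by_cases hvp : (p : 𝓞 F) ∈ v.asIdeal
    · have hvq : (q : 𝓞 F) ∉ v.asIdeal := fun h => hpq (eq_of_mem_prime v hp hq hvp h)
      rw [hmatch (φ v) f f.2]
      exact hval₁ v hv hvq f
    · exact hval₀ v hv hvp f

/-- A homomorphism over `ℚ̄` gives homomorphisms over all algebraic closures of `ℚ_ℓ`, and
the classes are defined over a number field. -/
theorem galoisRep_of_disc (hfree : @Module.Free ℤ O _ _ Algebra.toModule)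
    (hA : IsOpen (A.act.ker : Set Gal(AlgebraicClosure F/F)))
    (S : Finset (HeightOneSpectrum (𝓞 F)))
    (φ : HeightOneSpectrum (𝓞 F) → Gal(AlgebraicClosure F/F))
    {K : Type} [Field K] [CharZero K] [IsAlgClosed K] [Algebra.IsAlgebraic ℚ K]
    (x : ∀ v, A.inv (φ v) →+* 𝓞 K)
    (r : Gal(AlgebraicClosure F/F) →* A.LGroup K) (hr : IsAdmissibleDisc A r)
    (hconj : ∀ v, v ∉ S → IsConjAt A r v (φ v) ((algebraMap (𝓞 K) K).comp (x v))) :
    (∃ E : IntermediateField ℚ K, FiniteDimensional ℚ E ∧ ∀ v, v ∉ S → ∀ f, (x v f : K) ∈ E) ∧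
      ∀ (ℓ : ℕ) {L : Type} [NormedField L] [CharZero L] (ι : K →+* L),
        HasGaloisRep A S φ x ℓ ι := by
  classical
  obtain ⟨Φ₀, hΦ₀⟩ := ‹Algebra.FiniteType ℤ O›.out
  obtain ⟨Φ, hΦfin, hΦ₀Φ, hΦst⟩ := exists_stable (A := A) hA Φ₀.finite_toSet
  obtain ⟨n, ρ, hρ, -⟩ := exists_matRepL A hΦfin hΦst
  have hΦ : Algebra.adjoin ℤ Φ = ⊤ := by
    rw [eq_top_iff, ← hΦ₀]
    exact Algebra.adjoin_mono hΦ₀Φ
  let N : Subgroup Gal(AlgebraicClosure F/F) := kerU ρ.toMatRep r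
  have hNo : IsOpen (N : Set Gal(AlgebraicClosure F/F)) :=
    kerU_open ρ.toMatRep hA r hr.proj hr.cont
  have hNn : N.Normal := kerU_normal ρ.toMatRep r
  have hfq : Finite (Gal(AlgebraicClosure F/F) ⧸ N) := Subgroup.quotient_finite_of_isOpen _ hNo
  have hNfin : N.FiniteIndex := Subgroup.finiteIndex_of_finite_quotient
  have hN : ∀ γ ∈ N, (r γ).left = 1 := by
    intro γ hγ
    refine ρ.left_eq_one hΦ hρ ?_ hγ.2
    rw [hr.proj]
    exact hγ.1
  have hrc : ∀ γ, ∀ u ∈ N, (r (γ * u)).left = (r γ).left := by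
    intro γ u hu
    rw [map_mul, SemidirectProduct.mul_left, hN u hu, map_one, mul_one]
  constructor
  · let Z : Set K := ⋃ c : Gal(AlgebraicClosure F/F) ⧸ N, ⋃ f ∈ Φ,
      {(r (Quotient.out c)).left.hom f}
    have hZ : Z.Finite := by
      refine Set.finite_iUnion fun c => ?_
      exact hΦfin.biUnion fun f _ => Set.finite_singleton _
    have hZmem : ∀ γ, ∀ f ∈ Φ, (r γ).left.hom f ∈ Z := by
      intro γ f hf
      refine Set.mem_iUnion.mpr ⟨QuotientGroup.mk γ, Set.mem_iUnion₂.mpr ⟨f, hf, ?_⟩⟩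
      have h1 : (Quotient.out (QuotientGroup.mk γ : Gal(AlgebraicClosure F/F) ⧸ N))⁻¹ * γ ∈ N := by
        rw [← QuotientGroup.eq]
        exact Quotient.out_eq _
      have h2 := hrc (Quotient.out (QuotientGroup.mk γ : Gal(AlgebraicClosure F/F) ⧸ N)) _ h1
      rw [mul_inv_cancel_left] at h2
      rw [h2]
      rfl
    have hfinZ : Finite Z := hZ
    refine ⟨IntermediateField.adjoin ℚ Z, ?_, fun v hv f => ?_⟩
    · exact IntermediateField.finiteDimensional_adjoin fun z _ =>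
        Algebra.IsIntegral.isIntegral z
    · have h2 : (x v f : K) = (r (φ v)).left.hom (f : O) := ((hconj v hv).value f).symm
      rw [h2]
      have h3 : Algebra.adjoin ℤ Φ ≤ (Algebra.adjoin ℤ ((IntermediateField.adjoin ℚ Z :
          IntermediateField ℚ K) : Set K)).comap (r (φ v)).left.hom := by
        refine Algebra.adjoin_le fun g hg => ?_
        exact Algebra.subset_adjoin (IntermediateField.subset_adjoin ℚ Z (hZmem _ g hg))
      have h4 : (r (φ v)).left.hom (f : O) ∈ Algebra.adjoin ℤ ((IntermediateField.adjoin ℚ Z :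
          IntermediateField ℚ K) : Set K) := by
        have h5 : (f : O) ∈ Algebra.adjoin ℤ Φ := by rw [hΦ]; trivial
        exact h3 h5
      have h6 : Algebra.adjoin ℤ ((IntermediateField.adjoin ℚ Z :
          IntermediateField ℚ K) : Set K) ≤ subalgebraOfSubring
            (IntermediateField.adjoin ℚ Z).toSubfield.toSubring := Algebra.adjoin_le fun y hy => hy
      exact h6 h4
  · intro ℓ L _ _ ι
    let r' : Gal(AlgebraicClosure F/F) →* A.LGroup L := (A.mapL (toZ ι)).comp r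
    have hr'r : ∀ γ, (r' γ).right = γ := hr.proj
    have hr'l : ∀ γ, (r γ).left = 1 → (r' γ).left = 1 := by
      intro γ h
      change Pts.map (toZ ι) (r γ).left = 1
      rw [h, map_one]
    refine ⟨r', ⟨hr'r, fun f => ?_⟩, fun v hv _ => ⟨?_, ?_, ?_⟩⟩
    · exact ((hr.cont f).comp ι).continuous
    · intro P u hu
      exact hr'l u ((hconj v hv).unram P u hu)
    · have hpow : (φ v) ^ N.index ∈ N := Subgroup.pow_index_mem _ _
      refine isSemisimpleElt_of_pow hA (N := N.index) ?_ ?_ ?_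
      · exact_mod_cast hNfin.index_ne_zero
      · rw [← map_pow]; exact hr'l _ (hN _ hpow)
      · rw [hr'r]; exact hpow.1
    · intro f
      exact congrArg ι ((hconj v hv).value f)

end Pair

end Pool.Agent.Lib.MP_666dc0_nt.OverB
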