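import Pool.Agent.Lib.MP_666dc0_nt.BRoots

open TensorProduct Coalgebra Polynomial
open scoped TensorProduct Matrix NumberField

namespace Pool.Agent.Lib.MP_666dc0_nt.OverB

set_option linter.unusedSectionVars false

/-- A ring homomorphism as a homomorphism of `ℤ`-algebras. -/
def toZ {R S : Type*} [CommRing R] [CommRing S] [Algebra ℤ R] [Algebra ℤ S] (f : R →+* S) :
    R →ₐ[ℤ] S :=
  { f with
    commutes' := fun n => by
      change f (algebraMap ℤ R n) = algebraMap ℤ S n
      rw [eq_intCast (algebraMap ℤ R), eq_intCast (algebraMap ℤ S), map_intCast] }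

@[simp] lemma toZ_apply {R S : Type*} [CommRing R] [CommRing S] [Algebra ℤ R] [Algebra ℤ S]
    (f : R →+* S) (x : R) : toZ f x = f x := rfl

section Field

variable {K : Type} [Field K] [CharZero K]

lemma isAlgebraic_int [Algebra.IsAlgebraic ℚ K] : Algebra.IsAlgebraic ℤ K :=
  (IsFractionRing.comap_isAlgebraic_iff (A := ℤ) (K := ℚ) (C := K)).mpr inferInstance

lemma exists_mul_eq_nat [Algebra.IsAlgebraic ℚ K] (a : 𝓞 K) (ha : a ≠ 0) :
    ∃ (n : ℕ) (b : 𝓞 K), 0 < n ∧ a * b = n := by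
  have halg : Algebra.IsAlgebraic ℤ K := isAlgebraic_int
  have ha' : (a : K) ≠ 0 := fun h => ha (NumberField.RingOfIntegers.coe_injective (by
    change (a : K) = _
    rw [h, map_zero]))
  obtain ⟨m, hm, hint⟩ := (halg.isAlgebraic ((a : K)⁻¹)).exists_integral_multiple
  obtain ⟨b, hb⟩ : ∃ b : 𝓞 K, (b : K) = m • (a : K)⁻¹ := ⟨⟨_, hint⟩, rfl⟩
  have h1 : a * b = (m : 𝓞 K) := by
    apply NumberField.RingOfIntegers.coe_injective
    rw [map_mul]
    change (a : K) * (b : K) = _
    rw [hb, mul_smul_comm, mul_inv_cancel₀ ha']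
    simp
  rcases lt_or_gt_of_ne hm with h2 | h2
  · refine ⟨m.natAbs, -b, Int.natAbs_pos.mpr hm, ?_⟩
    rw [mul_neg, h1]
    have h3 : ((m.natAbs : ℤ) : 𝓞 K) = ((-m : ℤ) : 𝓞 K) := by
      rw [Int.ofNat_natAbs_of_nonpos h2.le]
    rw [Int.cast_natCast] at h3
    rw [h3]; push_cast; ring
  · refine ⟨m.natAbs, b, Int.natAbs_pos.mpr hm, ?_⟩
    rw [h1]
    have h3 : ((m.natAbs : ℤ) : 𝓞 K) = (m : 𝓞 K) := by
      rw [Int.natAbs_of_nonneg h2.le]
    rw [Int.cast_natCast] at h3
    rw [h3]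

/-- Extending a homomorphism from the integers of `K` to a field of characteristic zero. -/
lemma exists_extend_field [Algebra.IsAlgebraic ℚ K] {L : Type*} [Field L] [CharZero L]
    (π : 𝓞 K →+* L) : ∃ φ : K →+* L, ∀ a : 𝓞 K, φ a = π a := by
  have hinj : Function.Injective π := by
    rw [injective_iff_map_eq_zero]
    intro a ha
    by_contra h
    obtain ⟨n, b, hn, hab⟩ := exists_mul_eq_nat a h
    have h1 := congrArg π hab
    rw [map_mul, ha, zero_mul, map_natCast] at h1
    exact hn.ne' (by exact_mod_cast h1.symm)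
  have halg : Algebra.IsAlgebraic ℤ K := isAlgebraic_int
  have hfrac : IsFractionRing (𝓞 K) K :=
    integralClosure.isFractionRing_of_algebraic (A := ℤ) (L := K) (fun x hx => by
      simpa using hx)
  exact ⟨IsFractionRing.lift hinj, fun a => IsFractionRing.lift_algebraMap hinj a⟩

/-- A finitely generated algebra over an algebraically closed field has a point. -/
lemma exists_point [IsAlgClosed K] {L : Type*} [Field L] [Algebra K L] (Z : Set L)
    (hZ : Z.Finite) : Nonempty (Algebra.adjoin K Z →ₐ[K] K) := by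
  have hft : Algebra.FiniteType K (Algebra.adjoin K Z) := by
    rw [← Subalgebra.fg_iff_finiteType]
    exact ⟨hZ.toFinset, by simp⟩
  obtain ⟨M, hM⟩ := Ideal.exists_maximal (Algebra.adjoin K Z)
  let _ : Field (Algebra.adjoin K Z ⧸ M) := Ideal.Quotient.field M
  have hft2 : Algebra.FiniteType K (Algebra.adjoin K Z ⧸ M) :=
    hft.of_surjective (Ideal.Quotient.mkₐ K M) (Ideal.Quotient.mkₐ_surjective K M)
  have hfin : Module.Finite K (Algebra.adjoin K Z ⧸ M) := finite_of_finite_type_of_isJacobsonRing _ _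
  have hbij : Function.Bijective (algebraMap K (Algebra.adjoin K Z ⧸ M)) :=
    IsAlgClosed.algebraMap_bijective_of_isIntegral
  let e : K ≃ₐ[K] (Algebra.adjoin K Z ⧸ M) := AlgEquiv.ofBijective (Algebra.ofId _ _) hbij
  exact ⟨e.symm.toAlgHom.comp (Ideal.Quotient.mkₐ K M)⟩

end Field

section Prod

variable {O : Type} [CommRing O] [HopfAlgebra ℤ O] {Γ : Type*} [Group Γ] (A : HopfAction ℤ Γ O)
  {ι : Type} (k : ι → Type) [∀ i, Field (k i)]

/-- The finitely supported elements of a product of fields. -/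
def finIdeal : Ideal (∀ i, k i) where
  carrier := {a | {i | a i ≠ 0}.Finite}
  zero_mem' := by simp
  add_mem' := by
    intro a b ha hb
    refine (ha.union hb).subset ?_
    intro i hi
    by_contra h
    simp only [Set.mem_union, Set.mem_ofPred_eq, not_or, not_not] at h
    exact hi (by rw [Pi.add_apply, h.1, h.2, add_zero])
  smul_mem' := by
    intro c a ha
    refine Set.Finite.subset ha ?_
    intro i hi h
    exact hi (by rw [smul_eq_mul, Pi.mul_apply, h, mul_zero])

lemma mem_finIdeal {a : ∀ i, k i} : a ∈ finIdeal k ↔ {i | a i ≠ 0}.Finite := Iff.rfl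

lemma finIdeal_ne_top [Infinite ι] : finIdeal k ≠ ⊤ := by
  rw [Ideal.ne_top_iff_one, mem_finIdeal]
  have h : {i | (1 : ∀ i, k i) i ≠ 0} = Set.univ := by
    ext i; simp
  rw [h]
  exact Set.infinite_univ

/-- The product of homomorphisms. -/
lemma exists_prod (r : ∀ i, Γ →* A.LGroup (k i)) (hr : ∀ i γ, (r i γ).right = γ) :
    ∃ R : Γ →* A.LGroup (∀ i, k i), (∀ γ, (R γ).right = γ) ∧
      ∀ γ f i, (R γ).left.hom f i = (r i γ).left.hom f := by
  let R : Γ → A.LGroup (∀ i, k i) := fun γ =>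
    ⟨⟨toZ (RingHom.pi fun i => ((r i γ).left.hom : O →+* k i))⟩, γ⟩
  have h1 : ∀ γ i, A.mapL (toZ (Pi.evalRingHom k i)) (R γ) = r i γ := by
    intro γ i
    refine SemidirectProduct.ext ?_ ?_
    · ext f; rfl
    · exact (hr i γ).symm
  have hext : ∀ x y : A.LGroup (∀ i, k i), x.right = y.right →
      (∀ i, A.mapL (toZ (Pi.evalRingHom k i)) x =
        A.mapL (toZ (Pi.evalRingHom k i)) y) → x = y := by
    intro x y hxy h
    refine SemidirectProduct.ext ?_ hxy
    ext f i
    exact congrArg (fun z : A.LGroup (k i) => z.left.hom f) (h i)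
  refine ⟨{ toFun := R
            map_one' := hext _ _ rfl (fun i => by rw [h1, map_one, map_one])
            map_mul' := fun γ δ => hext _ _ rfl (fun i => by
              rw [h1, map_mul, map_mul, h1, h1]) }, fun γ => rfl, fun γ f i => rfl⟩

/-- **Descent to `ℚ̄` of homomorphisms with finite image.** -/
theorem exists_descent [Algebra.FiniteType ℤ O] {K : Type} [Field K] [CharZero K] [IsAlgClosed K]
    [Algebra.IsAlgebraic ℚ K] {L : Type} [Field L] [CharZero L] (π : 𝓞 K →+* L)
    (r : Γ →* A.LGroup L) (hr : ∀ γ, (r γ).right = γ) (N : Subgroup Γ) [N.FiniteIndex]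
    (hN : ∀ γ ∈ N, (r γ).left = 1) :
    ∃ r₀ : Γ →* A.LGroup K, (∀ γ, (r₀ γ).right = γ) ∧
      ∀ γ f (a : 𝓞 K), (r γ).left.hom f = π a → (r₀ γ).left.hom f = (a : K) := by
  classical
  obtain ⟨φ, hφ⟩ := exists_extend_field π
  let _ : Algebra K L := φ.toAlgebra
  obtain ⟨Φ, hΦ⟩ := ‹Algebra.FiniteType ℤ O›.out
  have hRc : ∀ γ, ∀ u ∈ N, (r (γ * u)).left = (r γ).left := by
    intro γ u hu
    rw [map_mul, SemidirectProduct.mul_left, hN u hu, map_one, mul_one]
  let Z : Set L := ⋃ c : Γ ⧸ N, ⋃ f ∈ Φ, {(r (Quotient.out c)).left.hom f}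
  have hZ : Z.Finite := by
    refine Set.finite_iUnion fun c => ?_
    exact Φ.finite_toSet.biUnion fun f _ => Set.finite_singleton _
  have hZmem : ∀ γ, ∀ f ∈ Φ, (r γ).left.hom f ∈ Z := by
    intro γ f hf
    refine Set.mem_iUnion.mpr ⟨QuotientGroup.mk γ, Set.mem_iUnion₂.mpr ⟨f, hf, ?_⟩⟩
    have h1 : (Quotient.out (QuotientGroup.mk γ : Γ ⧸ N))⁻¹ * γ ∈ N := by
      rw [← QuotientGroup.eq]
      exact Quotient.out_eq _
    have h2 := hRc (Quotient.out (QuotientGroup.mk γ : Γ ⧸ N)) _ h1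
    rw [mul_inv_cancel_left] at h2
    rw [h2]
    rfl
  let C := Algebra.adjoin K Z
  have hall : ∀ γ f, (r γ).left.hom f ∈ C := by
    intro γ f
    have h1 : Algebra.adjoin ℤ (Φ : Set O) ≤
        (Algebra.adjoin ℤ (C : Set L)).comap (r γ).left.hom := by
      refine Algebra.adjoin_le fun f hf => ?_
      exact Algebra.subset_adjoin (Algebra.subset_adjoin (hZmem γ f hf))
    have h2 : (r γ).left.hom f ∈ Algebra.adjoin ℤ (C : Set L) := by
      have h3 : f ∈ Algebra.adjoin ℤ (Φ : Set O) := by rw [hΦ]; trivial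
      exact h1 h3
    have h4 : Algebra.adjoin ℤ (C : Set L) ≤
        subalgebraOfSubring C.toSubring := Algebra.adjoin_le fun x hx => hx
    exact h4 h2
  obtain ⟨ψ⟩ := exists_point (K := K) Z hZ
  let inc : C →ₐ[ℤ] L := toZ C.val.toRingHom
  obtain ⟨rC, hrC⟩ := exists_corestrict A inc Subtype.val_injective r (by
    intro γ f
    exact ⟨⟨_, hall γ f⟩, rfl⟩)
  refine ⟨(A.mapL (toZ ψ.toRingHom)).comp rC, ?_, ?_⟩
  · intro γ
    have h1 := congrArg SemidirectProduct.right (hrC γ)
    rw [A.mapL_right] at h1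
    change (A.mapL _ (rC γ)).right = γ
    rw [A.mapL_right, h1]
    exact hr γ
  · intro γ f a ha
    have h1 : ((rC γ).left.hom f : L) = π a := by
      have h2 := congrArg (fun z : A.LGroup L => z.left.hom f) (hrC γ)
      change ((rC γ).left.hom f : L) = (r γ).left.hom f at h2
      rw [h2, ha]
    have h4 : (rC γ).left.hom f = algebraMap K C (a : K) := by
      apply Subtype.val_injective
      rw [h1]
      exact (hφ a).symm
    change ψ ((rC γ).left.hom f) = _
    rw [h4, AlgHom.commutes]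
    rfl

/-- **Limits of homomorphisms with finite image**: infinitely many homomorphisms over fields of
growing characteristic, trivial on one subgroup of finite index, have a common lift to
characteristic zero. -/
theorem exists_limit [Algebra.FiniteType ℤ O] {K : Type} [Field K] [CharZero K] [IsAlgClosed K]
    [Algebra.IsAlgebraic ℚ K] [Infinite ι] (hchar : ∀ n : ℕ, 0 < n → {i | (n : k i) = 0}.Finite)
    (π : ∀ i, 𝓞 K →+* k i) (r : ∀ i, Γ →* A.LGroup (k i)) (hr : ∀ i γ, (r i γ).right = γ)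
    (N : Subgroup Γ) [N.FiniteIndex] (hN : ∀ i, ∀ γ ∈ N, (r i γ).left = 1) :
    ∃ r₀ : Γ →* A.LGroup K, (∀ γ, (r₀ γ).right = γ) ∧
      ∀ γ f (a : 𝓞 K), {i | (r i γ).left.hom f ≠ π i a}.Finite → (r₀ γ).left.hom f = (a : K) := by
  classical
  obtain ⟨R, hR1, hR2⟩ := exists_prod A k r hr
  obtain ⟨M, hM, hIM⟩ := Ideal.exists_le_maximal _ (finIdeal_ne_top k)
  let _ : Field ((∀ i, k i) ⧸ M) := Ideal.Quotient.field M
  have hzero : ∀ a : ∀ i, k i, {i | a i ≠ 0}.Finite → Ideal.Quotient.mk M a = 0 := by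
    intro a ha
    rw [Ideal.Quotient.eq_zero_iff_mem]
    exact hIM ha
  have hcz : CharZero ((∀ i, k i) ⧸ M) := by
    refine charZero_of_inj_zero fun n hn => ?_
    by_contra hn0
    have hpos : 0 < n := Nat.pos_of_ne_zero hn0
    have h1 : Ideal.Quotient.mk M (((n : ∀ i, k i) * fun i => ((n : k i))⁻¹) - 1) = 0 := by
      apply hzero
      refine (hchar n hpos).subset ?_
      intro i hi
      by_contra h
      apply hi
      simp only [Set.mem_ofPred_eq] at h
      simp [mul_inv_cancel₀ h]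
    rw [map_sub, map_mul, map_natCast, hn, zero_mul, map_one, zero_sub, neg_eq_zero] at h1
    exact one_ne_zero h1
  let pL : 𝓞 K →+* ((∀ i, k i) ⧸ M) := (Ideal.Quotient.mk M).comp (RingHom.pi π)
  let q : (∀ i, k i) →ₐ[ℤ] ((∀ i, k i) ⧸ M) := toZ (Ideal.Quotient.mk M)
  let rL : Γ →* A.LGroup ((∀ i, k i) ⧸ M) := (A.mapL q).comp R
  have hRN : ∀ γ ∈ N, (rL γ).left = 1 := by
    intro γ hγ
    have h1 : (R γ).left = 1 := by
      ext f i
      rw [hR2, hN i γ hγ, Pts.one_hom_apply, Pts.one_hom_apply, eq_intCast, eq_intCast]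
      rfl
    change Pts.map q (R γ).left = 1
    rw [h1, map_one]
  obtain ⟨r₀, h₀, hd⟩ := exists_descent A pL rL (fun γ => hR1 γ) N hRN
  refine ⟨r₀, h₀, fun γ f a ha => hd γ f a ?_⟩
  change Ideal.Quotient.mk M ((R γ).left.hom f) = Ideal.Quotient.mk M (RingHom.pi π a)
  rw [← sub_eq_zero, ← map_sub]
  apply hzero
  refine ha.subset ?_
  intro i hi h3
  apply hi
  rw [Pi.sub_apply, hR2, h3]
  simp

end Prod

end Pool.Agent.Lib.MP_666dc0_nt.OverB
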