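import Pool.Agent.Lib.MP_666dc0_nt.BDefs

open TensorProduct Coalgebra Polynomial
open scoped TensorProduct Matrix

namespace Pool.Agent.Lib.MP_666dc0_nt.OverB

set_option linter.unusedSectionVars false

section Transport

variable {B O R S : Type} [CommRing B] [CommRing O] [HopfAlgebra B O] [CommRing R] [Algebra B R]
  [CommRing S] [Algebra B S] {Γ : Type*} [Group Γ] (A : HopfAction B Γ O)

namespace Pts

/-- The universal point. -/
noncomputable def univ (B O : Type) [CommRing B] [CommRing O] [HopfAlgebra B O] : Pts B O O :=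
  ⟨AlgHom.id B O⟩

lemma map_univ (g : Pts B O R) : map g.hom (univ B O) = g := rfl

end Pts

namespace HopfAction

lemma onPts_map (φ : R →ₐ[B] S) (γ : Γ) (g : Pts B O R) :
    Pts.map φ (A.onPts R γ g) = A.onPts S γ (Pts.map φ g) := rfl

/-- Functoriality of the L-group. -/
noncomputable def mapL (φ : R →ₐ[B] S) : A.LGroup R →* A.LGroup S :=
  SemidirectProduct.map (Pts.map φ) (MonoidHom.id Γ) (fun γ => by ext g f; rfl)

@[simp] lemma mapL_left (φ : R →ₐ[B] S) (x : A.LGroup R) : (A.mapL φ x).left = Pts.map φ x.left := rfl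
@[simp] lemma mapL_right (φ : R →ₐ[B] S) (x : A.LGroup R) : (A.mapL φ x).right = x.right := rfl

lemma pow_left_hom (g : Pts B O R) (σ : Γ) (k : ℕ) (f : O) :
    (((⟨g, σ⟩ : A.LGroup R) ^ k).left).hom f =
      g.hom ((((⟨Pts.univ B O, σ⟩ : A.LGroup O) ^ k).left).hom f) := by
  have h1 : (⟨g, σ⟩ : A.LGroup R) = A.mapL g.hom ⟨Pts.univ B O, σ⟩ := by
    ext1
    · rw [mapL_left, Pts.map_univ]
    · rfl
  rw [h1, ← map_pow, mapL_left, Pts.map_hom_apply]

lemma pow_right (x : A.LGroup R) (k : ℕ) : (x ^ k).right = x.right ^ k :=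
  map_pow (SemidirectProduct.rightHom (φ := A.onPts R)) x k

lemma conj_inl_left (x : Pts B O R) (y : A.LGroup R) :
    (SemidirectProduct.inl x * y * (SemidirectProduct.inl x)⁻¹ : A.LGroup R).left =
      x * y.left * (A.onPts R y.right x)⁻¹ := by
  simp

lemma conj_inr_left (δ : Γ) (y : A.LGroup R) :
    (SemidirectProduct.inr δ * y * (SemidirectProduct.inr δ)⁻¹ : A.LGroup R).left =
      A.onPts R δ y.left := by
  simp

lemma conj_inr_right (δ : Γ) (y : A.LGroup R) :
    (SemidirectProduct.inr δ * y * (SemidirectProduct.inr δ)⁻¹ : A.LGroup R).right =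
      δ * y.right * δ⁻¹ := by
  simp

/-- The transported function. -/
noncomputable def transF (σ δ : Γ) (k : ℕ) (f : O) : O :=
  (((⟨Pts.univ B O, σ⟩ : A.LGroup O) ^ k).left).hom (A.act δ⁻¹ f)

lemma transF_eval (σ δ : Γ) (k : ℕ) (f : O) (g : Pts B O R) :
    g.hom (A.transF σ δ k f) =
      ((SemidirectProduct.inr δ * (⟨g, σ⟩ : A.LGroup R) ^ k * (SemidirectProduct.inr δ)⁻¹ :
        A.LGroup R).left).hom f := by
  rw [transF, ← pow_left_hom, conj_inr_left, onPts_hom_apply]

lemma transF_mem (σ δ : Γ) (k : ℕ) {f : O} (hf : f ∈ A.inv (δ * σ ^ k * δ⁻¹)) :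
    A.transF σ δ k f ∈ A.inv σ := by
  intro R _ _ x g
  rw [transF_eval, transF_eval]
  have h1 : (⟨x * g * (A.onPts R σ x)⁻¹, σ⟩ : A.LGroup R) =
      SemidirectProduct.inl x * ⟨g, σ⟩ * (SemidirectProduct.inl x)⁻¹ := by
    ext1
    · rw [conj_inl_left]
    · simp
  have h2 : (SemidirectProduct.inr δ * (⟨x * g * (A.onPts R σ x)⁻¹, σ⟩ : A.LGroup R) ^ k *
      (SemidirectProduct.inr δ)⁻¹ : A.LGroup R) =
      SemidirectProduct.inl (A.onPts R δ x) *
        (SemidirectProduct.inr δ * (⟨g, σ⟩ : A.LGroup R) ^ k * (SemidirectProduct.inr δ)⁻¹) *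
        (SemidirectProduct.inl (A.onPts R δ x))⁻¹ := by
    rw [h1, conj_pow, SemidirectProduct.inl_aut]
    simp only [mul_assoc, mul_inv_rev, map_inv, inv_inv, inv_mul_cancel_left]
  rw [h2, conj_inl_left, conj_inr_right, pow_right]
  exact hf R _ _

/-- Two homomorphisms to the L-group match at `γ`. -/
def Matched (r₁ r₂ : Γ →* A.LGroup R) (γ : Γ) : Prop :=
  ∀ f ∈ A.inv γ, (r₁ γ).left.hom f = (r₂ γ).left.hom f

lemma eval_conj_pow (r : Γ →* A.LGroup R) (hr : ∀ γ, (r γ).right = γ) (σ δ : Γ) (k : ℕ) {f : O}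
    (hf : f ∈ A.inv (δ * σ ^ k * δ⁻¹)) :
    (r (δ * σ ^ k * δ⁻¹)).left.hom f = (r σ).left.hom (A.transF σ δ k f) := by
  rw [transF_eval]
  have h1 : (⟨(r σ).left, σ⟩ : A.LGroup R) = r σ := by
    ext1
    · rfl
    · exact (hr σ).symm
  rw [h1]
  have h2 : r (δ * σ ^ k * δ⁻¹) = SemidirectProduct.inl (r δ).left *
      (SemidirectProduct.inr δ * (r σ) ^ k * (SemidirectProduct.inr δ)⁻¹) *
      (SemidirectProduct.inl (r δ).left)⁻¹ := by
    have h3 : r δ = SemidirectProduct.inl (r δ).left * SemidirectProduct.inr δ := by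
      conv_lhs => rw [← SemidirectProduct.inl_left_mul_inr_right (r δ), hr]
    rw [map_mul, map_mul, map_pow, map_inv]
    conv_lhs => rw [h3]
    simp only [mul_assoc, mul_inv_rev]
  rw [h2, conj_inl_left, conj_inr_right, pow_right, hr]
  exact hf R _ _

theorem Matched.transport {r₁ r₂ : Γ →* A.LGroup R} (h₁ : ∀ γ, (r₁ γ).right = γ)
    (h₂ : ∀ γ, (r₂ γ).right = γ) {σ : Γ} (h : A.Matched r₁ r₂ σ) (δ : Γ) (k : ℕ) :
    A.Matched r₁ r₂ (δ * σ ^ k * δ⁻¹) := by
  intro f hf
  rw [A.eval_conj_pow r₁ h₁ σ δ k hf, A.eval_conj_pow r₂ h₂ σ δ k hf]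
  exact h _ (A.transF_mem σ δ k hf)

end HopfAction
end Transport

section Slices

variable {B O : Type} [CommRing B] [CommRing O] [HopfAlgebra B O]

/-- Slice map `id ⊗ μ`. -/
noncomputable def sl (μ : O →ₗ[B] B) : O ⊗[B] O →ₗ[B] O :=
  (TensorProduct.rid B O).toLinearMap ∘ₗ LinearMap.lTensor O μ

/-- Slice map `ξ ⊗ id`. -/
noncomputable def sr (ξ : O →ₗ[B] B) : O ⊗[B] O →ₗ[B] O :=
  (TensorProduct.lid B O).toLinearMap ∘ₗ LinearMap.rTensor O ξ

@[simp] lemma sl_tmul (μ : O →ₗ[B] B) (x y : O) : sl μ (x ⊗ₜ y) = μ y • x := by simp [sl]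
@[simp] lemma sr_tmul (ξ : O →ₗ[B] B) (x y : O) : sr ξ (x ⊗ₜ y) = ξ x • y := by simp [sr]

/-- Convolution of functionals. -/
noncomputable def convF (μ ν : O →ₗ[B] B) : O →ₗ[B] B :=
  LinearMap.mul' B B ∘ₗ TensorProduct.map μ ν ∘ₗ comul

lemma sl_comul_sl (μ ν : O →ₗ[B] B) (f : O) :
    sl μ (comul (sl ν (comul f))) = sl (convF μ ν) (comul f) := by
  let S : (O ⊗[B] O) ⊗[B] O →ₗ[B] O := (TensorProduct.rid B O).toLinearMap ∘ₗ TensorProduct.map (sl μ) ν
  let S' : O ⊗[B] (O ⊗[B] O) →ₗ[B] O := (TensorProduct.rid B O).toLinearMap ∘ₗ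
    TensorProduct.map LinearMap.id (LinearMap.mul' B B ∘ₗ TensorProduct.map μ ν)
  have hA : ∀ z : O ⊗[B] O, sl μ (comul (sl ν z)) = S (LinearMap.rTensor O comul z) := by
    intro z
    induction z using TensorProduct.induction_on with
    | zero => simp
    | tmul x y => simp [S]
    | add x y hx hy => simp only [map_add, hx, hy]
  have hB : ∀ w : (O ⊗[B] O) ⊗[B] O, S w = S' (TensorProduct.assoc B O O O w) := by
    intro w
    induction w using TensorProduct.induction_on with
    | zero => simp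
    | tmul x y =>
      induction x using TensorProduct.induction_on with
      | zero => simp
      | tmul x z => simp [S, S', smul_smul, mul_comm]
      | add a b ha hb => simp only [TensorProduct.add_tmul, map_add, ha, hb]
    | add x y hx hy => simp only [map_add, hx, hy]
  have hC : ∀ z : O ⊗[B] O, S' (LinearMap.lTensor O comul z) = sl (convF μ ν) z := by
    intro z
    induction z using TensorProduct.induction_on with
    | zero => simp
    | tmul x y => simp [S', convF]
    | add x y hx hy => simp only [map_add, hx, hy]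
  rw [hA, hB, coassoc_apply, hC]

lemma comul_sr (ξ : O →ₗ[B] B) (f : O) : comul (R := B) (sr ξ (comul f)) =
    TensorProduct.map (sr ξ) LinearMap.id (LinearMap.rTensor O comul (comul f)) := by
  let Sr : O ⊗[B] (O ⊗[B] O) →ₗ[B] O ⊗[B] O :=
    (TensorProduct.lid B (O ⊗[B] O)).toLinearMap ∘ₗ LinearMap.rTensor (O ⊗[B] O) ξ
  have hA : ∀ z : O ⊗[B] O, comul (R := B) (sr ξ z) = Sr (LinearMap.lTensor O comul z) := by
    intro z
    induction z using TensorProduct.induction_on with
    | zero => simp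
    | tmul x y => simp [Sr]
    | add x y hx hy => simp only [map_add, hx, hy]
  have hB : ∀ w : (O ⊗[B] O) ⊗[B] O, TensorProduct.map (sr ξ) LinearMap.id w =
      Sr (TensorProduct.assoc B O O O w) := by
    intro w
    induction w using TensorProduct.induction_on with
    | zero => simp
    | tmul x y =>
      induction x using TensorProduct.induction_on with
      | zero => simp
      | tmul x z => simp [Sr, TensorProduct.smul_tmul']
      | add a b ha hb => simp only [TensorProduct.add_tmul, map_add, ha, hb]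
    | add x y hx hy => simp only [map_add, hx, hy]
  rw [hA, ← coassoc_apply, hB]

lemma sr_ext [Module.Free B O] {x y : O ⊗[B] O} (h : ∀ μ : O →ₗ[B] B, sr μ x = sr μ y) : x = y := by
  let b := Module.Free.chooseBasis B O
  apply (TensorProduct.equivFinsuppOfBasisLeft (N := O) b).injective
  ext i
  have h1 : ∀ z : O ⊗[B] O, (TensorProduct.equivFinsuppOfBasisLeft b) z i = sr (b.coord i) z := by
    intro z
    induction z using TensorProduct.induction_on with
    | zero => simp
    | tmul x y => rw [TensorProduct.equivFinsuppOfBasisLeft_apply_tmul_apply, sr_tmul]; rfl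
    | add x y hx hy => rw [map_add, map_add, Finsupp.add_apply, hx, hy]
  rw [h1, h1, h]

lemma sr_comul_sr (μ ν : O →ₗ[B] B) (f : O) :
    sr μ (comul (sr ν (comul f))) = sr (convF ν μ) (comul f) := by
  let S : O ⊗[B] (O ⊗[B] O) →ₗ[B] O := (TensorProduct.lid B O).toLinearMap ∘ₗ TensorProduct.map ν (sr μ)
  let S' : (O ⊗[B] O) ⊗[B] O →ₗ[B] O := (TensorProduct.lid B O).toLinearMap ∘ₗ
    TensorProduct.map (LinearMap.mul' B B ∘ₗ TensorProduct.map ν μ) LinearMap.id
  have hA : ∀ z : O ⊗[B] O, sr μ (comul (sr ν z)) = S (LinearMap.lTensor O comul z) := by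
    intro z
    induction z using TensorProduct.induction_on with
    | zero => simp
    | tmul x y => simp [S]
    | add x y hx hy => simp only [map_add, hx, hy]
  have hB : ∀ w : (O ⊗[B] O) ⊗[B] O, S (TensorProduct.assoc B O O O w) = S' w := by
    intro w
    induction w using TensorProduct.induction_on with
    | zero => simp
    | tmul x y =>
      induction x using TensorProduct.induction_on with
      | zero => simp
      | tmul x z => simp [S, S', smul_smul, mul_comm]
      | add a b ha hb => simp only [TensorProduct.add_tmul, map_add, ha, hb]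
    | add x y hx hy => simp only [map_add, hx, hy]
  have hC : ∀ z : O ⊗[B] O, S' (LinearMap.rTensor O comul z) = sr (convF ν μ) z := by
    intro z
    induction z using TensorProduct.induction_on with
    | zero => simp
    | tmul x y => simp [S', convF]
    | add x y hx hy => simp only [map_add, hx, hy]
  rw [hA, ← coassoc_apply, hB, hC]

lemma comul_sl (ξ : O →ₗ[B] B) (f : O) : comul (R := B) (sl ξ (comul f)) =
    TensorProduct.map LinearMap.id (sl ξ) (LinearMap.lTensor O comul (comul f)) := by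
  let Sr : (O ⊗[B] O) ⊗[B] O →ₗ[B] O ⊗[B] O :=
    (TensorProduct.rid B (O ⊗[B] O)).toLinearMap ∘ₗ LinearMap.lTensor (O ⊗[B] O) ξ
  have hA : ∀ z : O ⊗[B] O, comul (R := B) (sl ξ z) = Sr (LinearMap.rTensor O comul z) := by
    intro z
    induction z using TensorProduct.induction_on with
    | zero => simp
    | tmul x y => simp [Sr]
    | add x y hx hy => simp only [map_add, hx, hy]
  have hB : ∀ w : (O ⊗[B] O) ⊗[B] O, TensorProduct.map LinearMap.id (sl ξ)
      (TensorProduct.assoc B O O O w) = Sr w := by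
    intro w
    induction w using TensorProduct.induction_on with
    | zero => simp
    | tmul x y =>
      induction x using TensorProduct.induction_on with
      | zero => simp
      | tmul x z => simp [Sr]
      | add a b ha hb => simp only [TensorProduct.add_tmul, map_add, ha, hb]
    | add x y hx hy => simp only [map_add, hx, hy]
  rw [hA, ← hB, coassoc_apply]

end Slices

section Rep

variable {B O : Type} [CommRing B] [CommRing O] [HopfAlgebra B O] {Γ : Type*} [Group Γ]

/-- A matrix representation of `Ĝ ⋊ Γ` whose matrix coefficients span given functions. -/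
structure MatRep (A : HopfAction B Γ O) (n : ℕ) where
  /-- matrix coefficients -/
  a : Matrix (Fin n) (Fin n) O
  /-- the representation of `Γ` -/
  P : Γ →* Matrix (Fin n) (Fin n) B
  comul_a : ∀ i j, comul (R := B) (a i j) = ∑ k, a i k ⊗ₜ[B] a k j
  counit_a : ∀ i j, counit (R := B) (a i j) = if i = j then 1 else 0
  act_a : ∀ γ i j, ∑ k, P γ k j • a i k = ∑ k, P γ i k • A.act γ (a k j)
  P_eq : ∀ γ, A.act γ = 1 → P γ = 1

end Rep

section RepEval

variable {B O : Type} [CommRing B] [CommRing O] [HopfAlgebra B O] {Γ : Type*} [Group Γ] {A : HopfAction B Γ O}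
  {n : ℕ} (ρ : MatRep A n) {R S : Type} [CommRing R] [Algebra B R] [CommRing S] [Algebra B S]

namespace MatRep

/-- The matrix of a point of `Ĝ`. -/
noncomputable def gm (g : Pts B O R) : Matrix (Fin n) (Fin n) R := ρ.a.map g.hom

/-- The matrix of an element of `Γ`. -/
noncomputable def pm (R : Type) [CommRing R] [Algebra B R] : Γ →* Matrix (Fin n) (Fin n) R :=
  (RingHom.mapMatrix (algebraMap B R)).toMonoidHom.comp ρ.P

lemma pm_apply (γ : Γ) (i j : Fin n) : ρ.pm R γ i j = algebraMap B R (ρ.P γ i j) := rfl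

lemma gm_mul (g h : Pts B O R) : ρ.gm (g * h) = ρ.gm g * ρ.gm h := by
  ext i j
  rw [gm, Matrix.map_apply, Pts.mul_hom_apply, ρ.comul_a, map_sum, Matrix.mul_apply]
  refine Finset.sum_congr rfl fun k _ => ?_
  simp [gm]

lemma gm_one : ρ.gm (1 : Pts B O R) = 1 := by
  ext i j
  rw [gm, Matrix.map_apply, Pts.one_hom_apply, ρ.counit_a, Matrix.one_apply]
  split_ifs <;> simp

/-- `gm` as a homomorphism. -/
noncomputable def gmHom (R : Type) [CommRing R] [Algebra B R] :
    Pts B O R →* Matrix (Fin n) (Fin n) R where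
  toFun := ρ.gm
  map_one' := ρ.gm_one
  map_mul' := ρ.gm_mul

lemma act_a' (γ : Γ) : ρ.pm O γ * ρ.a = (ρ.a.map (A.act γ⁻¹)) * ρ.pm O γ := by
  have h1 : ρ.a * ρ.pm O γ⁻¹ = ρ.pm O γ⁻¹ * ρ.a.map (A.act γ⁻¹) := by
    ext i j
    rw [Matrix.mul_apply, Matrix.mul_apply]
    have := ρ.act_a γ⁻¹ i j
    simp only [Algebra.smul_def] at this
    convert this using 2 with k hk k hk
    · rw [mul_comm]; rfl
    · rfl
  have h2 : ρ.pm O γ * ρ.pm O γ⁻¹ = 1 := by rw [← map_mul, mul_inv_cancel, map_one]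
  have h3 : ρ.pm O γ⁻¹ * ρ.pm O γ = 1 := by rw [← map_mul, inv_mul_cancel, map_one]
  calc ρ.pm O γ * ρ.a = ρ.pm O γ * (ρ.a * ρ.pm O γ⁻¹) * ρ.pm O γ := by
        rw [mul_assoc, mul_assoc, h3, mul_one]
    _ = ρ.pm O γ * (ρ.pm O γ⁻¹ * ρ.a.map (A.act γ⁻¹)) * ρ.pm O γ := by rw [h1]
    _ = _ := by rw [← mul_assoc, h2, one_mul]

lemma pm_map (φ : R →ₐ[B] S) (γ : Γ) : (ρ.pm R γ).map φ = ρ.pm S γ := by
  ext i j
  rw [Matrix.map_apply, pm_apply, pm_apply, AlgHom.commutes]

lemma pm_mul_gm (γ : Γ) (g : Pts B O R) : ρ.pm R γ * ρ.gm g = ρ.gm (A.onPts R γ g) * ρ.pm R γ := by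
  have h1 := congrArg (fun M : Matrix (Fin n) (Fin n) O => M.map g.hom) (ρ.act_a' γ)
  rw [Matrix.map_mul, Matrix.map_mul, pm_map] at h1
  exact h1

/-- The matrix representation of the L-group. -/
noncomputable def ev (R : Type) [CommRing R] [Algebra B R] :
    A.LGroup R →* Matrix (Fin n) (Fin n) R where
  toFun x := ρ.gm x.left * ρ.pm R x.right
  map_one' := by
    rw [SemidirectProduct.one_left, SemidirectProduct.one_right, gm_one, map_one, mul_one]
  map_mul' x y := by
    rw [SemidirectProduct.mul_left, SemidirectProduct.mul_right, gm_mul, map_mul, mul_assoc,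
      mul_assoc, ← mul_assoc (ρ.gm (A.onPts R x.right y.left)), ← pm_mul_gm, mul_assoc]

lemma ev_apply (x : A.LGroup R) : ρ.ev R x = ρ.gm x.left * ρ.pm R x.right := rfl

lemma ev_mapL (φ : R →ₐ[B] S) (x : A.LGroup R) : ρ.ev S (A.mapL φ x) = (ρ.ev R x).map φ := by
  rw [ev_apply, ev_apply, Matrix.map_mul, pm_map]
  rfl

end MatRep
end RepEval

section Eqv

variable {B O R : Type} [CommRing B] [CommRing O] [HopfAlgebra B O] [CommRing R] [Algebra B R]
  {Γ : Type*} [Group Γ] (A : HopfAction B Γ O)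

lemma onPts_congr' {γ δ : Γ} (h : A.act γ = A.act δ) (R : Type) [CommRing R] [Algebra B R]
    (x : Pts B O R) : A.onPts R γ x = A.onPts R δ x := by
  ext f
  rw [HopfAction.onPts_hom_apply, HopfAction.onPts_hom_apply, map_inv, map_inv, h]

lemma inv_congr' {γ δ : Γ} (h : A.act γ = A.act δ) : A.inv γ = A.inv δ := by
  ext f
  rw [A.mem_inv, A.mem_inv]
  constructor
  · intro hf R _ _ x g
    rw [← onPts_congr' A h]
    exact hf R x g
  · intro hf R _ _ x g
    rw [onPts_congr' A h]
    exact hf R x g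

namespace HopfAction

/-- Two elements of the L-group have the same image in `Γ` and the same invariants. -/
def Eqv (x y : A.LGroup R) : Prop := x.right = y.right ∧ ∀ f ∈ A.inv x.right, x.left.hom f = y.left.hom f

variable {A}

lemma Eqv.refl (x : A.LGroup R) : A.Eqv x x := ⟨rfl, fun _ _ => rfl⟩

lemma Eqv.symm {x y : A.LGroup R} (h : A.Eqv x y) : A.Eqv y x :=
  ⟨h.1.symm, fun f hf => (h.2 f (by rw [h.1]; exact hf)).symm⟩

lemma Eqv.trans {x y z : A.LGroup R} (h : A.Eqv x y) (h' : A.Eqv y z) : A.Eqv x z :=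
  ⟨h.1.trans h'.1, fun f hf => (h.2 f hf).trans (h'.2 f (by rw [← h.1]; exact hf))⟩

lemma Eqv.conj_pow_inr {x y : A.LGroup R} (h : A.Eqv x y) (δ : Γ) (k : ℕ) :
    A.Eqv (SemidirectProduct.inr δ * x ^ k * (SemidirectProduct.inr δ)⁻¹)
      (SemidirectProduct.inr δ * y ^ k * (SemidirectProduct.inr δ)⁻¹) := by
  have hx : x = ⟨x.left, x.right⟩ := rfl
  have hy : y = ⟨y.left, x.right⟩ := by rw [h.1]
  have hr : (SemidirectProduct.inr δ * x ^ k * (SemidirectProduct.inr δ)⁻¹ : A.LGroup R).right =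
      δ * x.right ^ k * δ⁻¹ := by rw [A.conj_inr_right, A.pow_right]
  refine ⟨?_, fun f hf => ?_⟩
  · rw [hr, A.conj_inr_right, A.pow_right, h.1]
  · rw [hr] at hf
    have h1 := A.transF_eval x.right δ k f x.left
    have h2 := A.transF_eval x.right δ k f y.left
    rw [← hx] at h1
    rw [← hy] at h2
    rw [← h1, ← h2]
    exact h.2 _ (A.transF_mem x.right δ k hf)

lemma Eqv.pow {x y : A.LGroup R} (h : A.Eqv x y) (k : ℕ) : A.Eqv (x ^ k) (y ^ k) := by
  have := h.conj_pow_inr 1 k
  simpa using this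

lemma Eqv.conj_inr {x y : A.LGroup R} (h : A.Eqv x y) (δ : Γ) :
    A.Eqv (SemidirectProduct.inr δ * x * (SemidirectProduct.inr δ)⁻¹)
      (SemidirectProduct.inr δ * y * (SemidirectProduct.inr δ)⁻¹) := by
  have := h.conj_pow_inr δ 1
  simpa only [pow_one] using this

lemma eqv_conj_inl (x : A.LGroup R) (g : Pts B O R) :
    A.Eqv (SemidirectProduct.inl g * x * (SemidirectProduct.inl g)⁻¹) x := by
  refine ⟨by simp, fun f hf => ?_⟩
  have hr : (SemidirectProduct.inl g * x * (SemidirectProduct.inl g)⁻¹ : A.LGroup R).right =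
    x.right := by simp
  rw [hr] at hf
  rw [A.conj_inl_left]
  exact hf R _ _

lemma eqv_conj_conj_inr (x z : A.LGroup R) :
    A.Eqv (z * x * z⁻¹) (SemidirectProduct.inr z.right * x * (SemidirectProduct.inr z.right)⁻¹) := by
  have h3 : z = SemidirectProduct.inl z.left * SemidirectProduct.inr z.right :=
    (SemidirectProduct.inl_left_mul_inr_right z).symm
  have h4 : z * x * z⁻¹ = SemidirectProduct.inl z.left *
      (SemidirectProduct.inr z.right * x * (SemidirectProduct.inr z.right)⁻¹) *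
      (SemidirectProduct.inl z.left)⁻¹ := by
    conv_lhs => rw [h3]
    simp only [mul_assoc, mul_inv_rev]
  rw [h4]
  exact eqv_conj_inl _ _

lemma Eqv.conj {x y z z' : A.LGroup R} (h : A.Eqv x y) (hz : z.right = z'.right) :
    A.Eqv (z * x * z⁻¹) (z' * y * z'⁻¹) := by
  have h1 := eqv_conj_conj_inr (A := A) x z
  have h2 := eqv_conj_conj_inr (A := A) y z'
  rw [hz] at h1
  exact h1.trans ((h.conj_inr _).trans h2.symm)

lemma inr_comm {z : Γ} (hz : A.act z = 1) (g : Pts B O R) :
    (SemidirectProduct.inr z * SemidirectProduct.inl g : A.LGroup R) =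
      SemidirectProduct.inl g * SemidirectProduct.inr z := by
  have h1 : A.onPts R z g = g := by
    have h2 := onPts_congr' A (γ := z) (δ := 1) (by rw [hz, map_one]) R g
    rw [h2, map_one]; rfl
  refine SemidirectProduct.ext ?_ ?_
  · simp [h1]
  · simp

lemma Eqv.mul_inr {x y : A.LGroup R} (h : A.Eqv x y) {z : Γ} (hz : A.act z = 1) :
    A.Eqv (x * SemidirectProduct.inr z) (y * SemidirectProduct.inr z) := by
  refine ⟨by simp [h.1], fun f hf => ?_⟩
  have h1 : A.inv (x * SemidirectProduct.inr z : A.LGroup R).right = A.inv x.right := by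
    apply inv_congr'
    simp [hz]
  rw [h1] at hf
  have h2 := h.2 f hf
  simpa using h2

end HopfAction

namespace MatRep

variable {A} {n : ℕ} (ρ : MatRep A n)

/-- The trace function of a matrix representation on the coset of `γ`. -/
noncomputable def trF (γ : Γ) : O := (ρ.a * ρ.pm O γ).trace

lemma trF_eval (x : A.LGroup R) : x.left.hom (ρ.trF x.right) = (ρ.ev R x).trace := by
  rw [trF, MatRep.ev_apply]
  have h1 : (ρ.gm x.left * ρ.pm R x.right) = (ρ.a * ρ.pm O x.right).map x.left.hom := by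
    rw [Matrix.map_mul, pm_map]; rfl
  rw [h1]
  exact AddMonoidHom.map_trace (x.left.hom : O →+* R).toAddMonoidHom _

lemma trF_mem (γ : Γ) : ρ.trF γ ∈ A.inv γ := by
  intro R _ _ x g
  have h1 := ρ.trF_eval (⟨x * g * (A.onPts R γ x)⁻¹, γ⟩ : A.LGroup R)
  have h2 := ρ.trF_eval (⟨g, γ⟩ : A.LGroup R)
  change (x * g * (A.onPts R γ x)⁻¹).hom (ρ.trF γ) = _ at h1
  change g.hom (ρ.trF γ) = _ at h2
  rw [h1, h2]
  have h3 : (⟨x * g * (A.onPts R γ x)⁻¹, γ⟩ : A.LGroup R) =
      SemidirectProduct.inl x * ⟨g, γ⟩ * (SemidirectProduct.inl x)⁻¹ := by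
    ext1
    · rw [A.conj_inl_left]
    · simp
  rw [h3, map_mul, map_mul, Matrix.trace_mul_cycle, ← map_mul, inv_mul_cancel, map_one, one_mul]

lemma trace_eq {x y : A.LGroup R} (h : A.Eqv x y) : (ρ.ev R x).trace = (ρ.ev R y).trace := by
  rw [← trF_eval, ← trF_eval, ← h.1]
  exact h.2 _ (ρ.trF_mem _)

lemma pm_one {z : Γ} (hz : A.act z = 1) : ρ.pm R z = 1 := by
  change (ρ.P z).map (algebraMap B R) = 1
  rw [ρ.P_eq z hz]; simp

lemma ev_inr {z : Γ} (hz : A.act z = 1) : ρ.ev R (SemidirectProduct.inr z) = 1 := by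
  rw [ev_apply]
  simp [pm_one ρ hz, gm_one]

lemma ev_eq_one {x : A.LGroup R} (hx : x.left = 1) (hz : A.act x.right = 1) : ρ.ev R x = 1 := by
  rw [ev_apply, hx, gm_one, pm_one ρ hz, one_mul]

lemma left_eq_one {Φ : Set O} (hΦ : Algebra.adjoin B Φ = ⊤)
    (hρ : ∀ f ∈ Φ, f ∈ Submodule.span B (Set.range fun ij : Fin n × Fin n => ρ.a ij.1 ij.2))
    {x : A.LGroup R} (hz : A.act x.right = 1) (h : ρ.ev R x = 1) : x.left = 1 := by
  rw [ev_apply, pm_one ρ hz, mul_one] at h
  have h1 : ∀ f ∈ Φ, x.left.hom f = (1 : Pts B O R).hom f := by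
    intro f hf
    have h2 : Submodule.span B (Set.range fun ij : Fin n × Fin n => ρ.a ij.1 ij.2) ≤
        LinearMap.eqLocus x.left.hom.toLinearMap (1 : Pts B O R).hom.toLinearMap := by
      rw [Submodule.span_le]
      rintro _ ⟨⟨i, j⟩, rfl⟩
      have h3 := congrFun (congrFun h i) j
      have h4 := congrFun (congrFun (ρ.gm_one (R := R)) i) j
      change x.left.hom (ρ.a i j) = (1 : Pts B O R).hom (ρ.a i j)
      rw [← h4] at h3
      exact h3
    exact h2 (hρ f hf)
  ext f
  have h5 : Algebra.adjoin B Φ ≤ AlgHom.equalizer x.left.hom (1 : Pts B O R).hom :=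
    Algebra.adjoin_le fun f hf => h1 f hf
  rw [hΦ] at h5
  exact h5 (Algebra.mem_top (x := f))

end MatRep

end Eqv

/-- A finitely generated submodule of a free module over a principal ideal domain is contained in
a direct summand with a finite basis, with the same rank. -/
theorem exists_dual_system {B M : Type*} [CommRing B] [IsDomain B] [IsPrincipalIdealRing B]
    [AddCommGroup M] [Module B M] [Module.Free B M] (V : Submodule B M) (hV : V.FG) :
    ∃ (n : ℕ) (e : Fin n → M) (ξ : Fin n → (M →ₗ[B] B)),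
      (∀ i j, ξ i (e j) = if i = j then 1 else 0) ∧ (∀ v ∈ V, v = ∑ i, ξ i v • e i) ∧
      ∀ i, ∃ a : B, a ≠ 0 ∧ a • e i ∈ V := by
  classical
  obtain ⟨s, hs⟩ := hV
  let β := Module.Free.chooseBasis B M
  let t : Finset (Module.Free.ChooseBasisIndex B M) := s.biUnion fun v => (β.repr v).support
  let p : M →ₗ[B] (t → B) := LinearMap.pi fun i => β.coord i
  let q : (t → B) →ₗ[B] M := Fintype.linearCombination B (fun i : t => β i)
  have hpq : ∀ c, p (q c) = c := by
    intro c
    ext i
    simp only [p, q, LinearMap.pi_apply, Fintype.linearCombination_apply, map_sum, map_smul,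
      Module.Basis.coord_apply, Module.Basis.repr_self, Finsupp.single_apply, smul_eq_mul]
    rw [Finset.sum_eq_single i]
    · simp
    · intro j _ hj
      rw [if_neg (fun h => hj (Subtype.ext h)), mul_zero]
    · intro h; exact absurd (Finset.mem_univ _) h
  have hqp : ∀ v ∈ V, q (p v) = v := by
    intro v hv
    have h1 : V ≤ LinearMap.eqLocus (q ∘ₗ p) LinearMap.id := by
      rw [← hs, Submodule.span_le]
      intro v hv
      change q (p v) = v
      simp only [p, q, LinearMap.pi_apply, Fintype.linearCombination_apply,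
        Module.Basis.coord_apply]
      conv_rhs => rw [← β.linearCombination_repr v, Finsupp.linearCombination_apply, Finsupp.sum]
      rw [Finset.sum_coe_sort t (fun i => β.repr v i • β i)]
      symm
      refine Finset.sum_subset ?_ ?_
      · intro i hi
        exact Finset.mem_biUnion.mpr ⟨v, hv, hi⟩
      · intro i _ hi
        rw [Finsupp.notMem_support_iff.mp hi, zero_smul]
    exact h1 hv
  obtain ⟨n, bM, bN, f, a, snf⟩ := Submodule.smithNormalForm (Pi.basisFun B t) (V.map p)
  refine ⟨n, fun i => q (bM (f i)), fun i => bM.coord (f i) ∘ₗ p, ?_, ?_, ?_⟩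
  · intro i j
    rw [LinearMap.comp_apply, hpq, Module.Basis.coord_apply, Module.Basis.repr_self,
      Finsupp.single_apply]
    simp only [f.injective.eq_iff, eq_comm]
  · intro v hv
    have h1 : p v ∈ V.map p := ⟨v, hv, rfl⟩
    have h2 := congrArg Subtype.val (bN.sum_repr ⟨p v, h1⟩)
    rw [Submodule.coe_sum] at h2
    simp only [Submodule.coe_smul, snf] at h2
    have h3 : ∀ i, bM.coord (f i) (p v) = bN.repr ⟨p v, h1⟩ i * a i := by
      intro i
      conv_lhs => rw [← h2]
      rw [map_sum, Finset.sum_eq_single i]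
      · rw [map_smul, map_smul, Module.Basis.coord_apply, Module.Basis.repr_self,
          Finsupp.single_eq_same, smul_eq_mul, smul_eq_mul, mul_one]
      · intro j _ hj
        rw [map_smul, map_smul, Module.Basis.coord_apply, Module.Basis.repr_self,
          Finsupp.single_apply, if_neg (fun h => hj (f.injective h)), smul_zero, smul_zero]
      · intro h; exact absurd (Finset.mem_univ _) h
    have h4 : p v = ∑ i, bM.coord (f i) (p v) • bM (f i) := by
      conv_lhs => rw [← h2]
      refine Finset.sum_congr rfl fun i _ => ?_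
      rw [h3, smul_smul]
    conv_lhs => rw [← hqp v hv, h4]
    rw [map_sum]
    refine Finset.sum_congr rfl fun i _ => ?_
    rw [map_smul]
    rfl
  · intro i
    refine ⟨a i, ?_, ?_⟩
    · intro h0
      have h1 := snf i
      rw [h0, zero_smul] at h1
      exact bN.ne_zero i (Subtype.ext h1)
    · rw [← map_smul, ← snf]
      obtain ⟨v, hv, hv'⟩ := (bN i).2
      rw [← hv', hqp v hv]
      exact hv

section Rep

variable {B O : Type} [CommRing B] [CommRing O] [HopfAlgebra B O] {Γ : Type*} [Group Γ] (A : HopfAction B Γ O)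

/-- The finite-dimensional subspace generated by the left translates of a set of functions. -/
def transSpanL (B : Type) {O : Type} [CommRing B] [CommRing O] [HopfAlgebra B O] (Φ : Set O) :
    Submodule B O :=
  Submodule.span B {x | ∃ f ∈ Φ, ∃ μ : O →ₗ[B] B, x = sr μ (comul f)}

lemma sr_counit (f : O) : sr (B := B) counit (comul f) = f := by
  simp [sr]

lemma subset_transSpanL {Φ : Set O} {f : O} (hf : f ∈ Φ) : f ∈ transSpanL B Φ :=
  Submodule.subset_span ⟨f, hf, counit, (sr_counit f).symm⟩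

lemma transSpanL_fg [IsNoetherianRing B] {Φ : Set O} (hΦ : Φ.Finite) : (transSpanL B Φ).FG := by
  classical
  have h1 : ∀ f : O, ∃ s : Finset O, ∀ μ : O →ₗ[B] B, sr μ (comul f) ∈
      Submodule.span B (s : Set O) := by
    intro f
    generalize (comul (R := B) f) = z
    induction z using TensorProduct.induction_on with
    | zero => exact ⟨∅, fun μ => by simp⟩
    | tmul x y => exact ⟨{y}, fun μ => by
        rw [sr_tmul]; exact Submodule.smul_mem _ _ (Submodule.subset_span (by simp))⟩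
    | add x y hx hy =>
      obtain ⟨s, hs⟩ := hx
      obtain ⟨t, ht⟩ := hy
      refine ⟨s ∪ t, fun μ => ?_⟩
      rw [map_add]
      exact add_mem (Submodule.span_mono (by simp) (hs μ)) (Submodule.span_mono (by simp) (ht μ))
  choose s hs using h1
  have h2 : (Submodule.span B ((hΦ.toFinset.biUnion s : Finset O) : Set O)).FG :=
    Submodule.fg_span (Finset.finite_toSet _)
  refine h2.of_le (Submodule.span_le.mpr ?_)
  rintro _ ⟨f, hf, μ, rfl⟩
  refine Submodule.span_mono ?_ (hs f μ)
  intro x hx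
  rw [Finset.mem_coe, Finset.mem_biUnion]
  exact ⟨f, by simpa using hf, hx⟩

lemma sr_transSpanL {Φ : Set O} (μ : O →ₗ[B] B) {v : O} (hv : v ∈ transSpanL B Φ) :
    sr μ (comul v) ∈ transSpanL B Φ := by
  have h1 : transSpanL B Φ ≤ (transSpanL B Φ).comap (sr μ ∘ₗ comul) := by
    refine Submodule.span_le.mpr ?_
    rintro _ ⟨f, hf, ν, rfl⟩
    refine Submodule.subset_span ⟨f, hf, convF ν μ, ?_⟩
    exact sr_comul_sr μ ν f
  exact h1 hv

lemma act_transSpanL {Φ : Set O} (hΦ : ∀ γ, ∀ f ∈ Φ, A.act γ f ∈ Φ) (γ : Γ) {v : O}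
    (hv : v ∈ transSpanL B Φ) : A.act γ v ∈ transSpanL B Φ := by
  have h1 : transSpanL B Φ ≤ (transSpanL B Φ).comap (A.act γ).toLinearMap := by
    refine Submodule.span_le.mpr ?_
    rintro _ ⟨f, hf, μ, rfl⟩
    refine Submodule.subset_span ⟨A.act γ f, hΦ γ f hf, μ ∘ₗ (A.act γ⁻¹).toLinearMap, ?_⟩
    rw [A.comul_act]
    generalize (comul (R := B) f) = z
    induction z using TensorProduct.induction_on with
    | zero => simp
    | tmul x y => simp
    | add x y hx hy => simp only [map_add, hx, hy]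
  exact h1 hv

/-- A matrix representation realised on functions by left translations. -/
structure MatRepL (A : HopfAction B Γ O) (n : ℕ) extends MatRep A n where
  /-- the functions -/
  e : Fin n → O
  /-- dual functionals -/
  ξ : Fin n → (O →ₗ[B] B)
  ξ_e : ∀ i j, ξ i (e j) = if i = j then 1 else 0
  comul_e : ∀ j, comul (R := B) (e j) = ∑ i, a j i ⊗ₜ[B] e i
  act_e : ∀ γ j, A.act γ⁻¹ (e j) = ∑ i, P γ j i • e i

theorem exists_matRepL [IsDomain B] [IsPrincipalIdealRing B] [Module.Free B O] {Φ : Set O}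
    (hfin : Φ.Finite) (hΦ : ∀ γ, ∀ f ∈ Φ, A.act γ f ∈ Φ) :
    ∃ (n : ℕ) (ρ : MatRepL A n), (∀ f ∈ Φ, f ∈ Submodule.span B (Set.range fun ij : Fin n × Fin n =>
      ρ.a ij.1 ij.2)) ∧ ∀ f ∈ Φ, f ∈ Submodule.span B (Set.range ρ.e) := by
  classical
  have htf : Module.IsTorsionFree B O := inferInstance
  obtain ⟨n, e, ξ, hξe, hsum, hsat⟩ := exists_dual_system (transSpanL B Φ) (transSpanL_fg hfin)
  have hsum' : ∀ (T : O →ₗ[B] O), (∀ v ∈ transSpanL B Φ, T v ∈ transSpanL B Φ) → ∀ j,
      T (e j) = ∑ i, ξ i (T (e j)) • e i := by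
    intro T hT j
    obtain ⟨c, hc, hcj⟩ := hsat j
    have h1 := hsum _ (hT _ hcj)
    simp only [map_smul, smul_eq_mul, mul_smul] at h1
    rw [← Finset.smul_sum] at h1
    exact smul_right_injective O hc h1
  let a : Matrix (Fin n) (Fin n) O := fun j i => sl (ξ i) (comul (e j))
  have hslsr : ∀ (μ ν : O →ₗ[B] B) (z : O ⊗[B] O), μ (sl ν z) = ν (sr μ z) := by
    intro μ ν z
    induction z using TensorProduct.induction_on with
    | zero => simp
    | tmul x y => simp [mul_comm]
    | add x y hx hy => simp only [map_add, hx, hy]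
  have hcomul : ∀ j, comul (R := B) (e j) = ∑ i, a j i ⊗ₜ[B] e i := by
    intro j
    apply sr_ext
    intro μ
    rw [map_sum]
    refine (hsum' (sr μ ∘ₗ comul) (fun v hv => sr_transSpanL μ hv) j).trans ?_
    refine Finset.sum_congr rfl fun i _ => ?_
    rw [sr_tmul]
    congr 1
    exact (hslsr μ (ξ i) _).symm
  let Q : Γ → Matrix (Fin n) (Fin n) B := fun γ i j => ξ i (A.act γ (e j))
  have hact : ∀ γ j, A.act γ (e j) = ∑ i, Q γ i j • e i := fun γ j =>
    hsum' (A.act γ).toLinearMap (fun v hv => act_transSpanL A hΦ γ hv) j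
  have hQmul : ∀ γ δ, Q (γ * δ) = Q γ * Q δ := by
    intro γ δ
    ext i j
    change ξ i (A.act (γ * δ) (e j)) = _
    rw [map_mul, AlgEquiv.mul_apply, hact δ j, map_sum, map_sum, Matrix.mul_apply]
    refine Finset.sum_congr rfl fun k _ => ?_
    rw [map_smul, map_smul, smul_eq_mul, mul_comm]
  have hQone : Q 1 = 1 := by
    ext i j
    change ξ i (A.act 1 (e j)) = _
    rw [map_one, AlgEquiv.one_apply, hξe, Matrix.one_apply]
  let P : Γ →* Matrix (Fin n) (Fin n) B :=
    { toFun := fun γ => (Q γ⁻¹)ᵀ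
      map_one' := by rw [inv_one, hQone, Matrix.transpose_one]
      map_mul' := fun γ δ => by rw [mul_inv_rev, hQmul, Matrix.transpose_mul] }
  have hPQ : ∀ γ i j, P γ i j = Q γ⁻¹ j i := fun γ i j => rfl
  have hcomul_a : ∀ i j, comul (R := B) (a i j) = ∑ k, a i k ⊗ₜ[B] a k j := by
    intro i j
    change comul (R := B) (sl (ξ j) (comul (e i))) = _
    rw [comul_sl]
    conv_lhs => rw [hcomul i]
    rw [map_sum, map_sum]
    refine Finset.sum_congr rfl fun k _ => ?_
    rw [LinearMap.lTensor_tmul, TensorProduct.map_tmul]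
    rfl
  have hact_inv : ∀ γ j, A.act γ⁻¹ (e j) = ∑ i, P γ j i • e i := fun γ j => hact γ⁻¹ j
  refine ⟨n, ⟨⟨a, P, hcomul_a, ?_, ?_, ?_⟩, e, ξ, hξe, hcomul, hact_inv⟩, ?_, ?_⟩
  · intro i j
    change counit (R := B) (sl (ξ j) (comul (e i))) = _
    rw [hslsr, sr_counit, hξe]
    simp only [eq_comm]
  · intro γ i j
    have h1 : sl (ξ j) (comul (R := B) (A.act γ⁻¹ (e i))) = ∑ k, P γ i k • a k j := by
      rw [hact_inv γ i, map_sum, map_sum]
      refine Finset.sum_congr rfl fun k _ => ?_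
      rw [map_smul, map_smul]
    have h2 : sl (ξ j) (comul (R := B) (A.act γ⁻¹ (e i))) = ∑ k, P γ k j • A.act γ⁻¹ (a i k) := by
      rw [A.comul_act, hcomul i, map_sum, map_sum]
      refine Finset.sum_congr rfl fun k _ => ?_
      rw [TensorProduct.map_tmul, sl_tmul]
      change ξ j (A.act γ⁻¹ (e k)) • _ = _
      rfl
    have h3 := congrArg (A.act γ) (h1.symm.trans h2)
    rw [map_sum, map_sum] at h3
    simp only [map_smul] at h3
    have h4 : ∀ x : O, A.act γ (A.act γ⁻¹ x) = x := fun x => by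
      rw [← AlgEquiv.mul_apply, ← map_mul, mul_inv_cancel, map_one, AlgEquiv.one_apply]
    simp only [h4] at h3
    exact h3.symm
  · intro γ hγ
    ext i j
    change ξ j (A.act γ⁻¹ (e i)) = _
    rw [map_inv, hγ, inv_one, AlgEquiv.one_apply, hξe, Matrix.one_apply]
    simp only [eq_comm]
  · intro f hf
    rw [hsum f (subset_transSpanL hf)]
    refine Submodule.sum_mem _ fun j _ => Submodule.smul_mem _ _ ?_
    have h3 : e j = ∑ i, counit (R := B) (e i) • a j i := by
      have h4 := congrArg (LinearMap.lTensor O (counit (R := B) (A := O))) (hcomul j)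
      rw [lTensor_counit_comul, map_sum] at h4
      have h5 := congrArg (TensorProduct.rid B O) h4
      rw [map_sum] at h5
      simpa using h5
    change e j ∈ Submodule.span B (Set.range fun ij : Fin n × Fin n => a ij.1 ij.2)
    rw [h3]
    exact Submodule.sum_mem _ fun i _ => Submodule.smul_mem _ _ (Submodule.subset_span ⟨(j, i), rfl⟩)
  · intro f hf
    rw [hsum f (subset_transSpanL hf)]
    exact Submodule.sum_mem _ fun j _ => Submodule.smul_mem _ _ (Submodule.subset_span ⟨j, rfl⟩)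


section Embed

variable {A} {K : Type} [Field K] [Algebra B K] {n : ℕ} (ρ : MatRepL A n)

namespace MatRepL

/-- The embedding of `Kⁿ` in `K ⊗ O`. -/
noncomputable def emb (K : Type) [Field K] [Algebra B K] : (Fin n → K) →ₗ[K] K ⊗[B] O :=
  Fintype.linearCombination K (fun j => (1 : K) ⊗ₜ[B] ρ.e j)

lemma emb_apply (v : Fin n → K) : ρ.emb K v = ∑ j, v j ⊗ₜ[B] ρ.e j := by
  rw [emb, Fintype.linearCombination_apply]
  refine Finset.sum_congr rfl fun j _ => ?_
  rw [TensorProduct.smul_tmul', smul_eq_mul, mul_one]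

lemma emb_injective : Function.Injective (ρ.emb K) := by
  intro v w h
  ext i
  have h1 := congrArg (fun z => (TensorProduct.rid B K) (LinearMap.lTensor K (ρ.ξ i) z)) h
  simp only [emb_apply, map_sum, LinearMap.lTensor_tmul, ρ.ξ_e, TensorProduct.rid_tmul] at h1
  simpa using h1

lemma transl_emb (x : A.LGroup K) (v : Fin n → K) :
    A.transl x.left x.right (ρ.emb K v) = ρ.emb K ((ρ.ev K x)ᵀ *ᵥ v) := by
  have h1 : ∀ (c : K) j, A.transl x.left x.right (c ⊗ₜ[B] ρ.e j) =
      ∑ k, (c * ρ.ev K x j k) ⊗ₜ[B] ρ.e k := by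
    intro c j
    rw [HopfAction.transl, LinearMap.liftBaseChange_tmul, LinearMap.comp_apply, ρ.comul_e, map_sum]
    simp only [TensorProduct.map_tmul]
    have h2 : ∀ i, (x.left.hom.toLinearMap (ρ.a j i)) ⊗ₜ[B] ((A.act x.right⁻¹).toLinearMap (ρ.e i)) =
        ∑ k, (x.left.hom (ρ.a j i) * algebraMap B K (ρ.P x.right i k)) ⊗ₜ[B] ρ.e k := by
      intro i
      change (x.left.hom (ρ.a j i)) ⊗ₜ[B] (A.act x.right⁻¹ (ρ.e i)) = _
      rw [ρ.act_e, TensorProduct.tmul_sum]
      refine Finset.sum_congr rfl fun k _ => ?_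
      rw [TensorProduct.tmul_smul, TensorProduct.smul_tmul', Algebra.smul_def, mul_comm]
    rw [Finset.sum_congr rfl fun i _ => h2 i, Finset.sum_comm, Finset.smul_sum]
    refine Finset.sum_congr rfl fun k _ => ?_
    rw [← TensorProduct.sum_tmul, TensorProduct.smul_tmul', smul_eq_mul]
    congr 2
  rw [emb_apply, map_sum, emb_apply]
  rw [Finset.sum_congr rfl fun j _ => h1 (v j) j, Finset.sum_comm]
  refine Finset.sum_congr rfl fun k _ => ?_
  rw [← TensorProduct.sum_tmul]
  congr 1
  rw [Matrix.mulVec, dotProduct]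
  exact Finset.sum_congr rfl fun j _ => mul_comm _ _

end MatRepL

end Embed

end Rep

end Pool.Agent.Lib.MP_666dc0_nt.OverB
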