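import Pool.Agent.Lib.MP_666dc0_nt.Mg.G015

open TensorProduct Coalgebra Polynomial
open scoped TensorProduct Matrix NumberField

namespace Pool.Agent.Lib.MP_666dc0_nt.OverB

set_option linter.unusedSectionVars false

section Charpoly

variable {B O : Type} [CommRing B] [CommRing O] [HopfAlgebra B O] {Γ : Type*} [Group Γ]
  {A : HopfAction B Γ O} {n : ℕ} (ρ : MatRep A n) {R : Type} [CommRing R] [Algebra B R]

/-- The universal characteristic polynomial on the coset of `γ`. -/
noncomputable def MatRep.cpF (γ : Γ) : O[X] := (ρ.a * ρ.pm O γ).charpoly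

lemma cpF_eval (x : A.LGroup R) :
    (ρ.cpF x.right).map (x.left.hom : O →+* R) = (ρ.ev R x).charpoly := by
  rw [MatRep.cpF, ← Matrix.charpoly_map, MatRep.ev_apply]
  congr 1
  have h1 : (ρ.gm x.left * ρ.pm R x.right) = (ρ.a * ρ.pm O x.right).map x.left.hom := by
    rw [Matrix.map_mul, ρ.pm_map]; rfl
  rw [h1]
  rfl

lemma charpoly_conj_inl (x : A.LGroup R) (g : Pts B O R) :
    (ρ.ev R (SemidirectProduct.inl g * x * (SemidirectProduct.inl g)⁻¹)).charpoly =
      (ρ.ev R x).charpoly := by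
  rw [map_mul, Matrix.charpoly_mul_comm, ← map_mul, ← mul_assoc, inv_mul_cancel, one_mul]

lemma cpF_coeff_mem (γ : Γ) (i : ℕ) : (ρ.cpF γ).coeff i ∈ A.inv γ := by
  intro R _ _ x g
  have h1 := cpF_eval ρ (⟨x * g * (A.onPts R γ x)⁻¹, γ⟩ : A.LGroup R)
  have h2 := cpF_eval ρ (⟨g, γ⟩ : A.LGroup R)
  have h3 : (⟨x * g * (A.onPts R γ x)⁻¹, γ⟩ : A.LGroup R) =
      SemidirectProduct.inl x * ⟨g, γ⟩ * (SemidirectProduct.inl x)⁻¹ := by
    ext1
    · rw [A.conj_inl_left]
    · simp
  have h4 := charpoly_conj_inl ρ (⟨g, γ⟩ : A.LGroup R) x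
  rw [← h3, ← h1, ← h2] at h4
  have h5 := congrArg (fun p : R[X] => p.coeff i) h4
  simp only [Polynomial.coeff_map] at h5
  exact h5

lemma exists_cp (γ : Γ) : ∃ q : (A.inv γ)[X], q.map ((A.inv γ).val : A.inv γ →+* O) = ρ.cpF γ := by
  rw [← Polynomial.mem_lifts, Polynomial.lifts_iff_coeff_lifts]
  intro i
  exact ⟨⟨_, cpF_coeff_mem ρ γ i⟩, rfl⟩

end Charpoly

section Roots

lemma eq_one_of_map_eq_one {R k : Type*} [CommRing R] [IsDomain R] [Field k] (π : R →+* k)
    {ζ : R} {m : ℕ} (hm : (m : k) ≠ 0) (h1 : ζ ^ m = 1) (h2 : π ζ = 1) : ζ = 1 := by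
  by_contra h
  have h3 : (∑ i ∈ Finset.range m, ζ ^ i) * (ζ - 1) = 0 := by
    rw [geom_sum_mul, h1, sub_self]
  rcases mul_eq_zero.mp h3 with h4 | h4
  · apply hm
    have h5 := congrArg π h4
    rw [map_sum, map_zero] at h5
    simp only [map_pow, h2, one_pow, Finset.sum_const, Finset.card_range, nsmul_eq_mul,
      mul_one] at h5
    exact h5
  · exact h (sub_eq_zero.mp h4)

lemma exists_pow_eq_one_of_map {R k : Type*} [CommRing R] [IsDomain R] [Field k] (π : R →+* k)
    (p : ℕ) (hp : p.Prime) (hk : ∀ m : ℕ, ¬ p ∣ m → (m : k) ≠ 0) {ζ : R} {m : ℕ} (hm : 0 < m)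
    (h1 : ζ ^ m = 1) (h2 : π ζ = 1) : ∃ a : ℕ, ζ ^ (p ^ a) = 1 := by
  obtain ⟨a, m', hm', rfl⟩ := Nat.exists_eq_pow_mul_and_not_dvd hm.ne' p hp.ne_one
  exact ⟨a, eq_one_of_map_eq_one π (m := m') (hk m' hm') (by rw [← pow_mul, h1]) (by
    rw [map_pow, h2, one_pow])⟩

lemma pow_eq_one_iff_roots {k : Type*} [Field k] [IsAlgClosed k] {n : ℕ}
    (X' : Matrix (Fin n) (Fin n) k) (hss : ∃ p : k[X], Squarefree p ∧ aeval X' p = 0) (j : ℕ)
    (s : Multiset k) (hs : X'.charpoly = (s.map (fun c => X - C c)).prod) :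
    X' ^ j = 1 ↔ ∀ c ∈ s, c ^ j = 1 := by
  classical
  constructor
  · intro h c hc
    have h1 : X'.charpoly.eval c = 0 := by
      rw [hs, eval_multiset_prod, Multiset.map_map]
      apply Multiset.prod_eq_zero
      rw [Multiset.mem_map]
      exact ⟨c, hc, by simp⟩
    rw [Matrix.eval_charpoly, ← Matrix.exists_mulVec_eq_zero_iff] at h1
    obtain ⟨v, hv0, hv⟩ := h1
    have h2 : X' *ᵥ v = c • v := by
      rw [Matrix.sub_mulVec, sub_eq_zero] at hv
      rw [← hv, Matrix.scalar_apply]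
      ext i
      simp [Matrix.mulVec_diagonal]
    have h3 : ∀ i : ℕ, (X' ^ i) *ᵥ v = c ^ i • v := by
      intro i
      induction i with
      | zero => simp
      | succ i ih => rw [pow_succ, ← Matrix.mulVec_mulVec, h2, Matrix.mulVec_smul, ih, smul_smul,
          pow_succ, mul_comm]
    have h4 := h3 j
    rw [h, Matrix.one_mulVec] at h4
    have h5 : (c ^ j - 1) • v = 0 := by rw [sub_smul, ← h4, one_smul, sub_self]
    rcases smul_eq_zero.mp h5 with h6 | h6
    · exact sub_eq_zero.mp h6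
    · exact absurd h6 hv0
  · intro h
    rcases Nat.eq_zero_or_pos j with rfl | hj
    · rw [pow_zero]
    obtain ⟨p, hp1, hp2⟩ := hss
    have hm1 : minpoly k X' ∣ p := minpoly.dvd k X' hp2
    have hm2 : Squarefree (minpoly k X') := hp1.squarefree_of_dvd hm1
    have hm0 : minpoly k X' ≠ 0 := hm2.ne_zero
    have hne : (X ^ j - C (1 : k)) ≠ 0 := X_pow_sub_C_ne_zero hj 1
    have hdvd : minpoly k X' ∣ X ^ j - C (1 : k) := by
      refine (IsAlgClosed.splits (minpoly k X')).dvd_of_roots_le_roots hm0 ?_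
      have hnd : (minpoly k X').roots.Nodup := by
        rw [Multiset.nodup_iff_count_le_one]
        intro a
        rw [count_roots]
        by_contra hlt
        push Not at hlt
        have h7 : (X - C a) ^ 2 ∣ minpoly k X' :=
          (pow_dvd_pow _ hlt).trans (pow_rootMultiplicity_dvd _ _)
        rw [sq] at h7
        have h8 := hm2 _ h7
        exact not_isUnit_X_sub_C a h8
      rw [Multiset.le_iff_subset hnd]
      intro c hc
      rw [mem_roots hm0] at hc
      have h9 : X'.charpoly.IsRoot c := hc.dvd (Matrix.minpoly_dvd_charpoly X')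
      rw [IsRoot, hs, eval_multiset_prod, Multiset.map_map, Multiset.prod_eq_zero_iff,
        Multiset.mem_map] at h9
      obtain ⟨c', hc', h10⟩ := h9
      simp only [Function.comp_apply, eval_sub, eval_X, eval_C, sub_eq_zero] at h10
      subst h10
      rw [mem_roots hne]
      simp [h c hc']
    have h11 := aeval_eq_zero_of_dvd_aeval_eq_zero hdvd (minpoly.aeval k X')
    simpa [sub_eq_zero] using h11

lemma exists_int_roots {K : Type*} [Field K] [IsAlgClosed K] (g : (𝓞 K)[X]) (hg : g.Monic)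
    (M : ℕ) (hM : 0 < M) (h : ∀ ζ : K, (g.map (algebraMap (𝓞 K) K)).IsRoot ζ → ζ ^ M = 1) :
    ∃ s : Multiset (𝓞 K), g = (s.map (fun c => X - C c)).prod ∧ ∀ c ∈ s, c ^ M = 1 := by
  have hint : ∀ ζ ∈ (g.map (algebraMap (𝓞 K) K)).roots, ζ ^ M = 1 := by
    intro ζ hζ
    exact h ζ (isRoot_of_mem_roots hζ)
  have hlift : ∃ s : Multiset (𝓞 K), s.map (algebraMap (𝓞 K) K) =
      (g.map (algebraMap (𝓞 K) K)).roots := by
    generalize (g.map (algebraMap (𝓞 K) K)).roots = s' at hint
    induction s' using Multiset.induction_on with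
    | empty => exact ⟨0, rfl⟩
    | cons a s' ih =>
      obtain ⟨s, hs⟩ := ih (fun ζ hζ => hint ζ (Multiset.mem_cons_of_mem hζ))
      have ha : IsIntegral ℤ a := by
        refine IsIntegral.of_pow hM ?_
        rw [hint a (Multiset.mem_cons_self a s')]
        exact isIntegral_one
      refine ⟨⟨a, ha⟩ ::ₘ s, ?_⟩
      rw [Multiset.map_cons, hs]
      rfl
  obtain ⟨s, hs⟩ := hlift
  have hinj : Function.Injective (algebraMap (𝓞 K) K) := NumberField.RingOfIntegers.coe_injective
  refine ⟨s, ?_, ?_⟩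
  · apply Polynomial.map_injective _ hinj
    rw [(IsAlgClosed.splits (g.map (algebraMap (𝓞 K) K))).eq_prod_roots_of_monic (hg.map _), ← hs,
      Polynomial.map_multiset_prod, Multiset.map_map, Multiset.map_map]
    congr 1
    refine Multiset.map_congr rfl fun c _ => ?_
    simp
  · intro c hc
    apply hinj
    rw [map_pow, map_one]
    exact hint _ (by rw [← hs]; exact Multiset.mem_map_of_mem _ hc)

end Roots

section Compare

variable {O : Type} [CommRing O] [HopfAlgebra ℤ O] {Γ : Type*} [Group Γ]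
  {A : HopfAction ℤ Γ O} {n : ℕ} (ρ : MatRepL A n)

/-- The eigenvalues of a torsion point, and what they say about points with the same reduction. -/
theorem exists_eigenvalues {K : Type} [Field K] [IsAlgClosed K] (σ : Γ) (hσ : ∃ N : ℕ, 0 < N ∧
    A.act (σ ^ N) = 1) (x : A.inv σ →+* 𝓞 K) (t : A.LGroup K) (ht : t.right = σ)
    (htm : ∃ m : ℕ, 0 < m ∧ (t ^ m).left = 1) (htx : ∀ f : A.inv σ, t.left.hom (f : O) = (x f : K)) :
    ∃ s : Multiset (𝓞 K), (∃ M : ℕ, 0 < M ∧ ∀ c ∈ s, c ^ M = 1) ∧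
      ∀ (k : Type) [Field k] [IsAlgClosed k] (π : 𝓞 K →+* k) (y : A.LGroup k), y.right = σ →
        A.IsSemisimpleElt y → (∀ f : A.inv σ, y.left.hom (f : O) = π (x f)) → ∀ j : ℕ,
          ((ρ.ev k y) ^ j = 1 ↔ ∀ c ∈ s, π c ^ j = 1) := by
  classical
  obtain ⟨N, hN, hN'⟩ := hσ
  obtain ⟨m, hm, hm'⟩ := htm
  subst ht
  obtain ⟨q, hq⟩ := exists_cp ρ.toMatRep t.right
  have hq' : ∀ (k : Type) [Field k] (π : 𝓞 K →+* k) (y : A.LGroup k), y.right = t.right →
      (∀ f : A.inv t.right, y.left.hom (f : O) = π (x f)) →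
      (ρ.ev k y).charpoly = (q.map x).map π := by
    intro k _ π y hy hyx
    rw [← cpF_eval ρ.toMatRep y, hy, ← hq, Polynomial.map_map, Polynomial.map_map]
    congr 1
    ext f
    exact hyx f
  have hT : (ρ.ev K t).charpoly = (q.map x).map (algebraMap (𝓞 K) K) := by
    rw [← cpF_eval ρ.toMatRep t, ← hq, Polynomial.map_map, Polynomial.map_map]
    congr 1
    ext f
    exact htx f
  have hTM : (ρ.ev K t) ^ (m * N) = 1 := by
    rw [← map_pow]
    apply ρ.ev_eq_one
    · rw [pow_mul]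
      have h1 : t ^ m = SemidirectProduct.inr (t ^ m).right := by
        refine SemidirectProduct.ext ?_ ?_
        · rw [hm']; simp
        · simp
      have h2 : (SemidirectProduct.inr (t ^ m).right : A.LGroup K) ^ N =
          SemidirectProduct.inr ((t ^ m).right ^ N) := (map_pow _ _ _).symm
      rw [h1, h2, SemidirectProduct.left_inr]
    · rw [A.pow_right, mul_comm, pow_mul, map_pow, hN', one_pow]
  have hmon : (q.map x).Monic := by
    have h1 := (ρ.ev K t).charpoly_monic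
    rw [hT] at h1
    exact monic_of_injective NumberField.RingOfIntegers.coe_injective h1
  have hroot : ∀ ζ : K, ((q.map x).map (algebraMap (𝓞 K) K)).IsRoot ζ → ζ ^ (m * N) = 1 := by
    intro ζ hζ
    rw [← hT, IsRoot, Matrix.eval_charpoly, ← Matrix.exists_mulVec_eq_zero_iff] at hζ
    obtain ⟨v, hv0, hv⟩ := hζ
    have h2 : (ρ.ev K t) *ᵥ v = ζ • v := by
      rw [Matrix.sub_mulVec, sub_eq_zero] at hv
      rw [← hv, Matrix.scalar_apply]
      ext i
      simp [Matrix.mulVec_diagonal]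
    have h3 : ∀ i : ℕ, ((ρ.ev K t) ^ i) *ᵥ v = ζ ^ i • v := by
      intro i
      induction i with
      | zero => simp
      | succ i ih => rw [pow_succ, ← Matrix.mulVec_mulVec, h2, Matrix.mulVec_smul, ih, smul_smul,
          pow_succ, mul_comm]
    have h4 := h3 (m * N)
    rw [hTM, Matrix.one_mulVec] at h4
    have h5 : (ζ ^ (m * N) - 1) • v = 0 := by rw [sub_smul, ← h4, one_smul, sub_self]
    rcases smul_eq_zero.mp h5 with h6 | h6
    · exact sub_eq_zero.mp h6
    · exact absurd h6 hv0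
  obtain ⟨s, hs1, hs2⟩ := exists_int_roots (q.map x) hmon (m * N) (Nat.mul_pos hm hN) hroot
  refine ⟨s, ⟨m * N, Nat.mul_pos hm hN, hs2⟩, ?_⟩
  intro k _ _ π y hy hss hyx j
  have h1 := hq' k π y hy hyx
  rw [hs1, Polynomial.map_multiset_prod, Multiset.map_map] at h1
  rw [pow_eq_one_iff_roots (ρ.ev k y) (exists_squarefree_of_isSemisimpleElt ρ hss) j (s.map π)]
  · simp
  · rw [h1, Multiset.map_map]
    congr 1
    refine Multiset.map_congr rfl fun c _ => ?_
    simp

end Compare

end Pool.Agent.Lib.MP_666dc0_nt.OverB
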