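import Pool.Agent.Lib.MP_666dc0_nt.BAdic

open TensorProduct Coalgebra Polynomial NumberField IsDedekindDomain Topology
open scoped TensorProduct Matrix NumberField Pointwise

namespace Pool.Agent.Lib.MP_666dc0_nt.OverB

set_option linter.unusedSectionVars false

section Cont

variable {B O : Type} [CommRing B] [CommRing O] [HopfAlgebra B O] {Γ : Type*} [Group Γ]
  [TopologicalSpace Γ] [IsTopologicalGroup Γ] {A : HopfAction B Γ O} {n : ℕ} (ρ : MatRep A n)

lemma continuous_pm (hker : IsOpen (A.act.ker : Set Γ)) (R : Type) [CommRing R] [Algebra B R]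
    [TopologicalSpace R] (i j : Fin n) : Continuous fun γ => ρ.pm R γ i j := by
  apply IsLocallyConstant.continuous
  rw [IsLocallyConstant.iff_exists_open]
  intro γ
  refine ⟨γ • (A.act.ker : Set Γ), hker.smul γ, ⟨1, one_mem _, by simp⟩, ?_⟩
  rintro _ ⟨u, hu, rfl⟩
  change ρ.pm R (γ * u) i j = _
  have h1 : ρ.P u = 1 := ρ.P_eq u hu
  have h2 : ρ.pm R u = 1 := by
    change (ρ.P u).map (algebraMap B R) = 1
    rw [h1]; simp
  rw [map_mul, h2, mul_one]

lemma continuous_ev (hker : IsOpen (A.act.ker : Set Γ)) {R : Type} [CommRing R] [Algebra B R]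
    [TopologicalSpace R] [IsTopologicalRing R] (r : Γ →* A.LGroup R)
    (hr : ∀ γ, (r γ).right = γ) (hc : ∀ f, Continuous fun γ => (r γ).left.hom f) (i j : Fin n) :
    Continuous fun γ => ρ.ev R (r γ) i j := by
  have h1 : (fun γ => ρ.ev R (r γ) i j) =
      fun γ => ∑ k, (r γ).left.hom (ρ.a i k) * ρ.pm R γ k j := by
    ext γ
    rw [MatRep.ev_apply, Matrix.mul_apply, hr]
    rfl
  rw [h1]
  exact continuous_finsetSum _ fun k _ => (hc _).mul (continuous_pm ρ hker R k j)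

end Cont

section Adic

variable {F : Type*} [Field F] [NumberField F] {O : Type} [CommRing O] [HopfAlgebra ℤ O]
  {A : HopfAction ℤ Gal(AlgebraicClosure F/F) O} {n : ℕ} (ρ : MatRep A n)

/-- An `ℓ`-adic homomorphism whose Frobenius elements have finite order has open kernel. -/
theorem kerU_open_of_torsion {L : Type} [NormedField L] [IsUltrametricDist L] {c : ℝ}
    (hc0 : 0 < c) (hc1 : c ≤ 1) (hcq : ∀ q : ℕ, q.Prime → c ≤ ‖(q : L)‖)
    (hA : IsOpen (A.act.ker : Set Gal(AlgebraicClosure F/F)))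
    (r : Gal(AlgebraicClosure F/F) →* A.LGroup L) (hr : IsAdmissible A r)
    (T : Finset (HeightOneSpectrum (𝓞 F)))
    (φ : HeightOneSpectrum (𝓞 F) → Gal(AlgebraicClosure F/F))
    (hφ : ∀ v, v ∉ T → ∃ P : Ideal (𝓞 (AlgebraicClosure F)), IsOver v P ∧
      (IsFrob v P (φ v) ∨ IsFrob v P (φ v)⁻¹))
    (htor : ∀ v, v ∉ T → ∃ M : ℕ, 0 < M ∧ ρ.ev L (r (φ v)) ^ M = 1) :
    IsOpen (kerU ρ r : Set Gal(AlgebraicClosure F/F)) := by
  classical
  let D : Gal(AlgebraicClosure F/F) →* Matrix (Fin n) (Fin n) L := (ρ.ev L).comp r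
  have hD : ∀ i j, Continuous fun γ => D γ i j := fun i j =>
    continuous_ev ρ hA r hr.proj hr.cont i j
  -- open normal subgroups
  have hnorm : ∀ s ∈ 𝓝 (1 : Gal(AlgebraicClosure F/F)), ∃ U : Subgroup Gal(AlgebraicClosure F/F),
      U.Normal ∧ IsOpen (U : Set Gal(AlgebraicClosure F/F)) ∧
      (U : Set Gal(AlgebraicClosure F/F)) ⊆ s := by
    intro s hs
    obtain ⟨E, hE1, hE2, hE3⟩ := (krullTopology_mem_nhds_one_iff_of_normal F _ s).mp hs
    refine ⟨E.fixingSubgroup, ?_, IntermediateField.fixingSubgroup_isOpen E, hE3⟩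
    rw [← IntermediateField.restrictNormalHom_ker]
    infer_instance
  have hs : (A.act.ker : Set Gal(AlgebraicClosure F/F)) ∩
      {γ | ∀ i j, ‖D γ i j - (1 : Matrix (Fin n) (Fin n) L) i j‖ < c} ∈
        𝓝 (1 : Gal(AlgebraicClosure F/F)) := by
    refine Filter.inter_mem (hA.mem_nhds (one_mem _)) ?_
    have h1 : {γ | ∀ i j, ‖D γ i j - (1 : Matrix (Fin n) (Fin n) L) i j‖ < c} =
        ⋂ i, ⋂ j, {γ | ‖D γ i j - (1 : Matrix (Fin n) (Fin n) L) i j‖ < c} := by
      ext γ; simp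
    rw [h1]
    refine IsOpen.mem_nhds ?_ ?_
    · refine isOpen_iInter_of_finite fun i => isOpen_iInter_of_finite fun j => ?_
      exact isOpen_lt ((hD i j).sub continuous_const).norm continuous_const
    · simp only [Set.mem_iInter, Set.mem_ofPred_eq]
      intro i j
      rw [map_one, sub_self, norm_zero]
      exact hc0
  obtain ⟨U, hUn, hUo, hUs⟩ := hnorm _ hs
  have hUfin : U.FiniteIndex := by
    have h2 : Finite (Gal(AlgebraicClosure F/F) ⧸ U) := Subgroup.quotient_finite_of_isOpen _ hUo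
    exact Subgroup.finiteIndex_of_finite_quotient
  have hU1 : ∀ u ∈ U, ∀ i j, ‖D u i j - (1 : Matrix (Fin n) (Fin n) L) i j‖ < c := fun u hu =>
    (hUs hu).2
  have htf := eq_one_of_pow D U hc1 hcq hU1
  -- Frobenius elements
  have hfrob : ∀ v, v ∉ T → D (φ v) ^ U.index = 1 := by
    intro v hv
    obtain ⟨M, hM, hM'⟩ := htor v hv
    rw [← map_pow]
    refine htf M hM _ (Subgroup.pow_index_mem _ _) ?_
    rw [map_pow, ← pow_mul, mul_comm, pow_mul]
    change (ρ.ev L (r (φ v)) ^ M) ^ U.index = 1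
    rw [hM', one_pow]
  -- all elements
  have hall : ∀ γ, D γ ^ U.index = 1 := by
    intro γ
    by_contra hne
    have hopen : IsOpen {γ' | D (γ' ^ U.index) ≠ 1} := by
      have hcl : IsClosed {γ' | D (γ' ^ U.index) = 1} := by
        have h1 : {γ' | D (γ' ^ U.index) = 1} =
            ⋂ i, ⋂ j, {γ' | D (γ' ^ U.index) i j = (1 : Matrix (Fin n) (Fin n) L) i j} := by
          ext γ'
          simp only [Set.mem_ofPred_eq, Set.mem_iInter]
          exact ⟨fun h i j => by rw [h], fun h => by ext i j; exact h i j⟩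
        rw [h1]
        refine isClosed_iInter fun i => isClosed_iInter fun j => ?_
        exact isClosed_eq ((hD i j).comp (continuous_pow _)) continuous_const
      exact hcl.isOpen_compl
    have hmem : {δ | γ * δ ∈ {γ' | D (γ' ^ U.index) ≠ 1}} ∈ 𝓝 (1 : Gal(AlgebraicClosure F/F)) := by
      refine (hopen.preimage (continuous_const_mul γ)).mem_nhds ?_
      simp only [Set.mem_preimage, Set.mem_ofPred_eq, mul_one]
      rw [map_pow]
      exact hne
    obtain ⟨W, hWn, hWo, hWs⟩ := hnorm _ hmem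
    obtain ⟨v, hv, δ, j, hj⟩ := exists_frob_mem W hWn hWo T φ hφ γ
    have h2 := hWs hj
    simp only [Set.mem_ofPred_eq, mul_inv_cancel_left] at h2
    apply h2
    rw [conj_pow, ← pow_mul, mul_comm j, pow_mul, map_mul, map_mul, map_pow, map_pow,
      hfrob v hv, one_pow, mul_one, ← map_mul, mul_inv_cancel, map_one]
  refine Subgroup.isOpen_mono (H₁ := U) ?_ hUo
  intro u hu
  refine ⟨(hUs hu).1, ?_⟩
  change D u = 1
  exact htf U.index (Nat.pos_of_ne_zero hUfin.index_ne_zero) u hu (hall u)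

/-- An `ℓ-adic` homomorphism attached to classes of finite order gives residual data. -/
theorem HasGaloisRep.resData [Algebra.FiniteType ℤ O]
    (hfree : @Module.Free ℤ O _ _ Algebra.toModule)
    (hA : IsOpen (A.act.ker : Set Gal(AlgebraicClosure F/F)))
    (S : Finset (HeightOneSpectrum (𝓞 F)))
    (φ : HeightOneSpectrum (𝓞 F) → Gal(AlgebraicClosure F/F))
    (hφ : ∀ v, v ∉ S → ∃ P : Ideal (𝓞 (AlgebraicClosure F)), IsOver v P ∧
      (IsFrob v P (φ v) ∨ IsFrob v P (φ v)⁻¹))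
    {K : Type} [Field K] [CharZero K] [IsAlgClosed K] [Algebra.IsAlgebraic ℚ K]
    (x : ∀ v, A.inv (φ v) →+* 𝓞 K)
    (hx : {v | v ∉ S ∧ ¬ IsTorsionPt A (φ v) (x v)}.Finite) {ℓ : ℕ} (hℓ : 0 < ℓ)
    {L : Type} [NormedField L] [IsUltrametricDist L] [IsAlgClosed L] [CharZero L] {c : ℝ}
    (hc0 : 0 < c) (hc1 : c ≤ 1) (hcq : ∀ q : ℕ, q.Prime → c ≤ ‖(q : L)‖) (ι : K →+* L)
    (h : HasGaloisRep A S φ x ℓ ι) : ∃ D : ResData A S φ x ℓ, CharZero D.k := by
  classical
  obtain ⟨r, hr, hconj⟩ := h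
  obtain ⟨Φ₀, hΦ₀⟩ := ‹Algebra.FiniteType ℤ O›.out
  obtain ⟨Φ, hΦfin, hΦ₀Φ, hΦst⟩ := exists_stable (A := A) hA Φ₀.finite_toSet
  obtain ⟨n, ρ, hρ, -⟩ := exists_matRepL A hΦfin hΦst
  have hΦ : Algebra.adjoin ℤ Φ = ⊤ := by
    rw [eq_top_iff, ← hΦ₀]
    exact Algebra.adjoin_mono hΦ₀Φ
  have hfin := hx.union (finite_mem_nat (F := F) ℓ hℓ)
  have hopen := kerU_open_of_torsion ρ.toMatRep hc0 hc1 hcq hA r hr (S ∪ hfin.toFinset) φ
    (fun v hv => hφ v fun h => hv (Finset.mem_union_left _ h)) (by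
      intro v hv
      simp only [Finset.mem_union, Set.Finite.mem_toFinset, Set.mem_union, Set.mem_ofPred_eq,
        not_or, not_and, not_not] at hv
      obtain ⟨hvS, hvx, hvℓ⟩ := hv
      obtain ⟨t, ht, htm, htx⟩ := hvx hvS
      obtain ⟨s, ⟨M, hM, hs1⟩, hs2⟩ := exists_eigenvalues ρ (φ v) (exists_pow_act hA (φ v)) (x v)
        t ht htm htx
      have hc := hconj v hvS hvℓ
      refine ⟨M, hM, ?_⟩
      refine (hs2 L (ι.comp (algebraMap (𝓞 K) K)) (r (φ v)) (hr.proj _) hc.semisimple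
        (fun f => hc.value f) M).mpr fun c hc => ?_
      rw [← map_pow, hs1 c hc, map_one])
  refine ⟨⟨L, inferInstance, inferInstance, fun m hm => ?_, ι.comp (algebraMap (𝓞 K) K), r,
    ⟨hr.proj, fun f => ?_⟩, hconj⟩, inferInstance⟩
  · have : m ≠ 0 := fun h0 => hm (by rw [h0]; exact dvd_zero _)
    exact_mod_cast this
  · rw [IsLocallyConstant.iff_exists_open]
    intro γ
    refine ⟨γ • (kerU ρ.toMatRep r : Set Gal(AlgebraicClosure F/F)), hopen.smul γ,
      ⟨1, one_mem _, by simp⟩, ?_⟩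
    rintro _ ⟨u, hu, rfl⟩
    change (r (γ * u)).left.hom f = _
    have h1 : (r u).left = 1 := by
      refine ρ.left_eq_one hΦ hρ ?_ hu.2
      rw [hr.proj]
      exact hu.1
    rw [map_mul, SemidirectProduct.mul_left, h1, map_one, mul_one]

end Adic

end Pool.Agent.Lib.MP_666dc0_nt.OverB
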