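import Pool.Agent.Lib.MP_666dc0_nt.CFin

open TensorProduct Coalgebra Polynomial NumberField IsDedekindDomain Topology
open scoped TensorProduct Matrix NumberField Pointwise

namespace Pool.Agent.Lib.MP_666dc0_nt.OverB

set_option linter.unusedSectionVars false

section Cont

variable {X : Type*} [TopologicalSpace X] {R : Type*} [CommRing R] [TopologicalSpace R]
  [IsTopologicalRing R]

/-- Polynomials with continuously varying coefficients. -/
def ContPoly (p : X → R[X]) : Prop := ∀ i, Continuous fun a => (p a).coeff i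

lemma ContPoly.add {p q : X → R[X]} (hp : ContPoly p) (hq : ContPoly q) :
    ContPoly fun a => p a + q a := by
  intro i
  simp only [coeff_add]
  exact (hp i).add (hq i)

lemma ContPoly.sub {p q : X → R[X]} (hp : ContPoly p) (hq : ContPoly q) :
    ContPoly fun a => p a - q a := by
  intro i
  simp only [coeff_sub]
  exact (hp i).sub (hq i)

lemma ContPoly.mul {p q : X → R[X]} (hp : ContPoly p) (hq : ContPoly q) :
    ContPoly fun a => p a * q a := by
  intro i
  simp only [coeff_mul]
  exact continuous_finsetSum _ fun k _ => (hp _).mul (hq _)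

lemma ContPoly.const (q : R[X]) : ContPoly fun _ : X => q := fun _ => continuous_const

lemma ContPoly.C {f : X → R} (hf : Continuous f) : ContPoly fun a => Polynomial.C (f a) := by
  intro i
  simp only [coeff_C]
  split_ifs
  · exact hf
  · exact continuous_const

lemma ContPoly.sum {ι : Type*} (s : Finset ι) {p : ι → X → R[X]} (hp : ∀ j ∈ s, ContPoly (p j)) :
    ContPoly fun a => ∑ j ∈ s, p j a := by
  intro i
  simp only [finsetSum_coeff]
  exact continuous_finsetSum _ fun j hj => hp j hj i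

lemma ContPoly.prod {ι : Type*} (s : Finset ι) {p : ι → X → R[X]} (hp : ∀ j ∈ s, ContPoly (p j)) :
    ContPoly fun a => ∏ j ∈ s, p j a := by
  classical
  induction s using Finset.induction_on with
  | empty => simpa using ContPoly.const (X := X) (1 : R[X])
  | insert b s hb ih =>
    simp only [Finset.prod_insert hb]
    exact (hp b (Finset.mem_insert_self _ _)).mul
      (ih fun j hj => hp j (Finset.mem_insert_of_mem hj))

lemma contPoly_charpoly {n : ℕ} {D : X → Matrix (Fin n) (Fin n) R}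
    (hD : ∀ i j, Continuous fun a => D a i j) : ContPoly fun a => (D a).charpoly := by
  have h1 : (fun a => (D a).charpoly) = fun a => ∑ σ : Equiv.Perm (Fin n),
      Polynomial.C ((Equiv.Perm.sign σ : ℤ) : R) * ∏ i, (D a).charmatrix (σ i) i := by
    ext1 a
    rw [Matrix.charpoly, Matrix.det_apply]
    refine Finset.sum_congr rfl fun σ _ => ?_
    rw [Units.smul_def, zsmul_eq_mul]
    simp
  rw [h1]
  refine ContPoly.sum _ fun σ _ => (ContPoly.const _).mul (ContPoly.prod _ fun i _ => ?_)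
  by_cases h : σ i = i
  · simp only [h, Matrix.charmatrix_apply_eq]
    exact (ContPoly.const _).sub (ContPoly.C (hD i i))
  · simp only [Matrix.charmatrix_apply_ne _ _ _ h]
    intro k
    simp only [coeff_neg]
    exact (ContPoly.C (hD (σ i) i) k).neg

end Cont

section Adic

variable {F : Type*} [Field F] [NumberField F] {O : Type} [CommRing O] [HopfAlgebra ℤ O]
  {A : HopfAction ℤ Gal(AlgebraicClosure F/F) O} {n : ℕ} (ρ : MatRepL A n)

/-- An `ℓ`-adic homomorphism whose Frobenius elements have finite order or characteristic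
polynomial in a finite set has open kernel. -/
theorem kerU_open_of_mixed {L : Type} [NormedField L] [IsUltrametricDist L] [IsAlgClosed L]
    {c : ℝ} (hc0 : 0 < c) (hc1 : c ≤ 1) (hcq : ∀ q : ℕ, q.Prime → c ≤ ‖(q : L)‖)
    (hA : IsOpen (A.act.ker : Set Gal(AlgebraicClosure F/F)))
    (r : Gal(AlgebraicClosure F/F) →* A.LGroup L) (hr : IsAdmissible A r)
    {T : Set (HeightOneSpectrum (𝓞 F))} (hT : HasDens T 0)
    (φ : HeightOneSpectrum (𝓞 F) → Gal(AlgebraicClosure F/F))
    (hφ : ∀ v, v ∉ T → ∃ P : Ideal (𝓞 (AlgebraicClosure F)), IsOver v P ∧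
      (IsFrob v P (φ v) ∨ IsFrob v P (φ v)⁻¹))
    (𝒬 : Set L[X]) (h𝒬 : 𝒬.Finite)
    (htor : ∀ v, v ∉ T → (∃ M : ℕ, 0 < M ∧ ρ.ev L (r (φ v)) ^ M = 1) ∨
      ((ρ.ev L (r (φ v))).charpoly ∈ 𝒬 ∧ A.IsSemisimpleElt (r (φ v)))) :
    IsOpen (kerU ρ.toMatRep r : Set Gal(AlgebraicClosure F/F)) := by
  classical
  let D : Gal(AlgebraicClosure F/F) →* Matrix (Fin n) (Fin n) L := (ρ.ev L).comp r
  have hD : ∀ i j, Continuous fun γ => D γ i j := fun i j =>
    continuous_ev ρ.toMatRep hA r hr.proj hr.cont i j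
  have hcp : ContPoly fun γ => (D γ).charpoly := contPoly_charpoly hD
  -- open normal subgroups
  have hnorm : ∀ s ∈ 𝓝 (1 : Gal(AlgebraicClosure F/F)), ∃ U : Subgroup Gal(AlgebraicClosure F/F),
      U.Normal ∧ IsOpen (U : Set Gal(AlgebraicClosure F/F)) ∧
      (U : Set Gal(AlgebraicClosure F/F)) ⊆ s := by
    intro s hs
    obtain ⟨E, hE1, hE2, hE3⟩ := (krullTopology_mem_nhds_one_iff_of_normal F _ s).mp hs
    refine ⟨E.fixingSubgroup, ?_, IntermediateField.fixingSubgroup_isOpen E, hE3⟩
    rw [← IntermediateField.restrictNormalHom_ker]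
    infer_instance
  have hs : ((A.act.ker : Set Gal(AlgebraicClosure F/F)) ∩
      {γ | ∀ i j, ‖D γ i j - (1 : Matrix (Fin n) (Fin n) L) i j‖ < c}) ∩
      (⋂ Q ∈ 𝒬 \ {(1 : Matrix (Fin n) (Fin n) L).charpoly}, {γ | (D γ).charpoly ≠ Q}) ∈
        𝓝 (1 : Gal(AlgebraicClosure F/F)) := by
    refine Filter.inter_mem (Filter.inter_mem (hA.mem_nhds (one_mem _)) ?_) ?_
    · have h1 : {γ | ∀ i j, ‖D γ i j - (1 : Matrix (Fin n) (Fin n) L) i j‖ < c} =
          ⋂ i, ⋂ j, {γ | ‖D γ i j - (1 : Matrix (Fin n) (Fin n) L) i j‖ < c} := by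
        ext γ; simp
      rw [h1]
      refine IsOpen.mem_nhds ?_ ?_
      · refine isOpen_iInter_of_finite fun i => isOpen_iInter_of_finite fun j => ?_
        exact isOpen_lt ((hD i j).sub continuous_const).norm continuous_const
      · simp only [Set.mem_iInter, Set.mem_ofPred_eq]
        intro i j
        rw [map_one, sub_self, norm_zero]
        exact hc0
    · refine (Filter.biInter_mem (h𝒬.sdiff)).mpr fun Q hQ => ?_
      obtain ⟨i, hi⟩ : ∃ i, (1 : Matrix (Fin n) (Fin n) L).charpoly.coeff i ≠ Q.coeff i := by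
        by_contra hcon
        push Not at hcon
        exact hQ.2 (Polynomial.ext hcon).symm
      have h2 : IsOpen {γ | (D γ).charpoly.coeff i ≠ Q.coeff i} :=
        isOpen_ne_fun (hcp i) continuous_const
      refine Filter.mem_of_superset (h2.mem_nhds ?_) ?_
      · change (D 1).charpoly.coeff i ≠ Q.coeff i
        rw [map_one]
        exact hi
      · intro γ hγ h
        exact hγ (by rw [h])
  obtain ⟨U, hUn, hUo, hUs⟩ := hnorm _ hs
  have hU1 : ∀ u ∈ U, ∀ i j, ‖D u i j - (1 : Matrix (Fin n) (Fin n) L) i j‖ < c := fun u hu =>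
    (hUs hu).1.2
  have htf := eq_one_of_pow D U hc1 hcq hU1
  have hN : (kerU ρ.toMatRep r).Normal := kerU_normal ρ.toMatRep r
  have hNcl : IsClosed (kerU ρ.toMatRep r : Set Gal(AlgebraicClosure F/F)) := by
    have h1 : (kerU ρ.toMatRep r : Set Gal(AlgebraicClosure F/F)) =
        (A.act.ker : Set Gal(AlgebraicClosure F/F)) ∩
          ⋂ i, ⋂ j, {γ' | D γ' i j = (1 : Matrix (Fin n) (Fin n) L) i j} := by
      ext γ'
      simp only [Set.mem_inter_iff, Set.mem_ofPred_eq, Set.mem_iInter, SetLike.mem_coe]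
      refine and_congr Iff.rfl ?_
      change D γ' = 1 ↔ _
      exact ⟨fun h i j => by rw [h], fun h => by ext i j; exact h i j⟩
    rw [h1]
    refine (Subgroup.isClosed_of_isOpen _ hA).inter ?_
    exact isClosed_iInter fun i => isClosed_iInter fun j => isClosed_eq (hD i j) continuous_const
  refine Subgroup.isOpen_mono (H₁ := U) ?_ hUo
  intro u hu
  by_contra hne
  have hmem : {δ | u * δ ∈ (kerU ρ.toMatRep r : Set Gal(AlgebraicClosure F/F))ᶜ} ∈
      𝓝 (1 : Gal(AlgebraicClosure F/F)) := by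
    refine (hNcl.isOpen_compl.preimage (continuous_const_mul u)).mem_nhds ?_
    simp only [Set.mem_preimage, mul_one, Set.mem_compl_iff, SetLike.mem_coe]
    exact hne
  obtain ⟨W, hWn, hWo, hWs⟩ := hnorm _ hmem
  have hsup : ¬ U ≤ kerU ρ.toMatRep r ⊔ W := by
    intro hle
    have h1 := hle hu
    rw [Subgroup.mem_sup_of_normal_right] at h1
    obtain ⟨a, ha, w, hw, haw⟩ := h1
    have h2 := hWs (W.inv_mem hw)
    apply h2
    rw [← haw, mul_inv_cancel_right]
    exact ha
  obtain ⟨v, hvT, hvU, hvN⟩ := exists_frob_sep U (kerU ρ.toMatRep r ⊔ W) hUn inferInstance hUo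
    (Subgroup.isOpen_mono le_sup_right hWo) hsup hT φ hφ
  apply hvN
  refine Subgroup.mem_sup_left ⟨(hUs hvU).1.1, ?_⟩
  change D (φ v) = 1
  rcases htor v hvT with ⟨M, hM, hM'⟩ | ⟨h1, h2⟩
  · exact htf M hM _ hvU hM'
  · refine ev_eq_one_of_charpoly ρ L (r (φ v)) h2 ?_
    by_contra h3
    have h4 := (hUs hvU).2
    rw [Set.mem_iInter₂] at h4
    exact h4 _ ⟨h1, h3⟩ rfl

end Adic

end Pool.Agent.Lib.MP_666dc0_nt.OverB
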