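import Pool.Agent.Lib.MP_666dc0_nt.BDefs

open NumberField IsDedekindDomain Filter Topology
open scoped NumberField

namespace Pool.Agent.Lib.MP_666dc0_nt.OverB

section Defs

/-- The set `T` of places of `F` has Dirichlet density zero: the quotient of the sum of
`N(v) ^ (-s)` over `v ∈ T` by `log (1 / (s - 1))` tends to zero for `s → 1+`. -/
def DensityZero {F : Type*} [Field F] [NumberField F] (T : Set (HeightOneSpectrum (𝓞 F))) : Prop :=
  Tendsto (fun s : ℝ => (∑' v : T, (Ideal.absNorm v.1.asIdeal : ℝ) ^ (-s)) /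
    Real.log (1 / (s - 1))) (𝓝[>] 1) (𝓝 0)

variable {F : Type*} [Field F] [NumberField F] {O : Type} [CommRing O] [HopfAlgebra ℤ O]
  (A : HopfAction ℤ Gal(AlgebraicClosure F/F) O)

/-- The integral point `x` of the quotient of `Ĝ ⋊ φ` by `Ĝ`-conjugation is defined over the
subfield `E` of `K = ℚ̄`, and the conjugates of the value `x(f)` of each invariant function `f`
at `x` are bounded by the given constant `C f`. -/
def IsBoundedPt {K : Type} [Field K] [CharZero K] (E : IntermediateField ℚ K) (C : O → ℝ)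
    (φ : Gal(AlgebraicClosure F/F)) (x : A.inv φ →+* 𝓞 K) : Prop :=
  ∀ f : A.inv φ, (x f : K) ∈ E ∧ ∀ τ : K →+* ℂ, ‖τ (x f)‖ ≤ C f

end Defs

end Pool.Agent.Lib.MP_666dc0_nt.OverB
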