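import Pool.Agent.Lib.MP_666dc0_nt.CMain

open TensorProduct Coalgebra Polynomial NumberField IsDedekindDomain Topology
open scoped TensorProduct Matrix NumberField Pointwise

namespace Pool.Agent.Lib.MP_666dc0_nt.OverB

set_option linter.unusedSectionVars false

section Assembly

variable {F : Type*} [Field F] [NumberField F] {O : Type} [CommRing O] [HopfAlgebra ℤ O]
  [Algebra.FiniteType ℤ O]
  (A : HopfAction ℤ Gal(AlgebraicClosure F/F) O)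

theorem exists_of_residual_good (hfree : @Module.Free ℤ O _ _ Algebra.toModule) (hA : IsOpen (A.act.ker : Set Gal(AlgebraicClosure F/F)))
    (S : Finset (HeightOneSpectrum (𝓞 F)))
    (hS : ∀ v, v ∉ S → ∀ P u, IsInertiaAt v P u → A.act u = 1)
    (φ : HeightOneSpectrum (𝓞 F) → Gal(AlgebraicClosure F/F))
    (hφ : ∀ v, v ∉ S → ∃ P : Ideal (𝓞 (AlgebraicClosure F)), IsOver v P ∧
      (IsFrob v P (φ v) ∨ IsFrob v P (φ v)⁻¹))
    {K : Type} [Field K] [CharZero K] [IsAlgClosed K] [Algebra.IsAlgebraic ℚ K]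
    (x : ∀ v, A.inv (φ v) →+* 𝓞 K)
    (hgood : ∀ {n : ℕ} (ρ : MatRepL A n) v, v ∉ S → GoodAt ρ (φ v) (x v))
    (hinf : {ℓ : ℕ | ℓ.Prime ∧ Nonempty (ResData A S φ x ℓ)}.Infinite) :
    ∃ r : Gal(AlgebraicClosure F/F) →* A.LGroup K, IsAdmissibleDisc A r ∧
      ∀ v, v ∉ S → IsConjAt A r v (φ v) ((algebraMap (𝓞 K) K).comp (x v)) := by
  classical
  -- a matrix representation
  obtain ⟨Φ₀, hΦ₀⟩ := ‹Algebra.FiniteType ℤ O›.out
  obtain ⟨Φ, hΦfin, hΦ₀Φ, hΦst⟩ := exists_stable (A := A) hA Φ₀.finite_toSet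
  obtain ⟨n, ρ, hρ, -⟩ := exists_matRepL A hΦfin hΦst
  have hΦ : Algebra.adjoin ℤ Φ = ⊤ := by
    rw [eq_top_iff, ← hΦ₀]
    exact Algebra.adjoin_mono hΦ₀Φ
  -- two primes
  obtain ⟨p, ⟨hp, ⟨D₀⟩⟩⟩ := hinf.nonempty
  obtain ⟨q, ⟨hq, ⟨D₁⟩⟩, hqp⟩ := hinf.exists_notMem_finite (Set.finite_singleton p)
  have hpq : p ≠ q := fun h => hqp h.symm
  obtain ⟨M, hM, hMb⟩ := exists_bound_order ρ hA hp hq hpq D₀ D₁
  -- eigenvalues
  let T : Set (HeightOneSpectrum (𝓞 F)) := {v | (p : 𝓞 F) ∈ v.asIdeal} ∪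
    {v | (q : 𝓞 F) ∈ v.asIdeal}
  have hT : T.Finite := (finite_mem_nat p hp.pos).union (finite_mem_nat q hq.pos)
  have hs : ∀ v, ∃ s : Multiset (𝓞 K), v ∉ S → v ∉ T → (∀ c ∈ s, c ^ M = 1) ∧
      ∀ (ℓ : ℕ) (D : ResData A S φ x ℓ), v ∉ S → (ℓ : 𝓞 F) ∉ v.asIdeal → ∀ j : ℕ,
        ((ρ.ev D.k (D.r (φ v))) ^ j = 1 ↔ ∀ c ∈ s, D.π c ^ j = 1) := by
    intro v
    by_cases hv : v ∉ S ∧ v ∉ T
    · obtain ⟨hvS, hvT⟩ := hv
      simp only [T, Set.mem_union, Set.mem_ofPred_eq, not_or] at hvT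
      obtain ⟨h2, h3⟩ := hvT
      obtain ⟨s, hs1, hs2⟩ := (hgood ρ v hvS).eigen (S := S) (ρ := ρ)
      exact ⟨s, fun _ _ => ⟨hMb v hvS h2 h3 s hs1 hs2, hs2⟩⟩
    · exact ⟨0, fun h1 h2 => absurd ⟨h1, h2⟩ hv⟩
  choose s hs using hs
  -- the good primes
  let Λ : Set ℕ := {ℓ : ℕ | ℓ.Prime ∧ Nonempty (ResData A S φ x ℓ)} \ {ℓ | ℓ ∣ M}
  have hdiv : {ℓ : ℕ | ℓ ∣ M}.Finite := by
    refine (Finset.range (M + 1)).finite_toSet.subset fun ℓ hℓ => ?_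
    simp only [Finset.coe_range, Set.mem_Iio]
    have := Nat.le_of_dvd hM hℓ
    omega
  have hΛ : Λ.Infinite := hinf.sdiff hdiv
  let D : ∀ ℓ : Λ, ResData A S φ x ℓ := fun ℓ => ℓ.2.1.2.some
  have hprime : ∀ ℓ : Λ, (ℓ : ℕ).Prime := fun ℓ => ℓ.2.1.1
  have hinfΛ : Infinite Λ := hΛ.to_subtype
  obtain ⟨ℓ₀⟩ : Nonempty Λ := inferInstance
  let N : Subgroup Gal(AlgebraicClosure F/F) := kerU ρ.toMatRep (D ℓ₀).r
  have hNeq : ∀ ℓ : Λ, kerU ρ.toMatRep (D ℓ).r = N := by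
    intro ℓ
    apply le_antisymm
    · exact kerU_le ρ hA hφ T hT M s hs (hprime ℓ) (hprime ℓ₀) (D ℓ) (D ℓ₀)
        ((D ℓ).pk M ℓ.2.2)
    · exact kerU_le ρ hA hφ T hT M s hs (hprime ℓ₀) (hprime ℓ) (D ℓ₀) (D ℓ)
        ((D ℓ₀).pk M ℓ₀.2.2)
  have hNo : IsOpen (N : Set Gal(AlgebraicClosure F/F)) :=
    kerU_open ρ.toMatRep hA (D ℓ₀).r (D ℓ₀).adm.proj (D ℓ₀).adm.cont
  have hNn : N.Normal := kerU_normal ρ.toMatRep (D ℓ₀).r
  have hNact : ∀ γ ∈ N, A.act γ = 1 := fun γ hγ => hγ.1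
  have hNfin : N.FiniteIndex := by
    have h2 : Finite (Gal(AlgebraicClosure F/F) ⧸ N) := Subgroup.quotient_finite_of_isOpen _ hNo
    exact Subgroup.finiteIndex_of_finite_quotient
  have hN : ∀ (ℓ : Λ), ∀ γ ∈ N, ((D ℓ).r γ).left = 1 := by
    intro ℓ γ hγ
    have h1 : γ ∈ kerU ρ.toMatRep (D ℓ).r := by rw [hNeq]; exact hγ
    refine ρ.left_eq_one hΦ hρ ?_ h1.2
    rw [(D ℓ).adm.proj]
    exact h1.1
  have hchar : ∀ n : ℕ, 0 < n → {ℓ : Λ | (n : (D ℓ).k) = 0}.Finite := by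
    intro n hn
    have h1 : {ℓ : ℕ | ℓ ∣ n}.Finite := by
      refine (Finset.range (n + 1)).finite_toSet.subset fun ℓ hℓ => ?_
      simp only [Finset.coe_range, Set.mem_Iio]
      have := Nat.le_of_dvd hn hℓ
      omega
    refine (h1.preimage (Subtype.val_injective.injOn (s := Set.univ)
      |>.mono (Set.subset_univ _))).subset ?_
    intro ℓ hℓ
    by_contra hndvd
    exact (D ℓ).pk n hndvd hℓ
  obtain ⟨r₀, hr₀, hlim⟩ := exists_limit A (fun ℓ : Λ => (D ℓ).k) hchar (fun ℓ => (D ℓ).π)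
    (fun ℓ => (D ℓ).r) (fun ℓ γ => (D ℓ).adm.proj γ) N hN
  have hr₀N : ∀ γ ∈ N, (r₀ γ).left = 1 := by
    intro γ hγ
    ext f
    obtain ⟨z, hz⟩ := exists_counit (B := ℤ) f
    have h1 := hlim γ f ((z : ℤ) : 𝓞 K) (by
      convert Set.finite_empty
      ext ℓ
      simp only [Set.mem_ofPred_eq, Set.mem_empty_iff_false, iff_false, not_not]
      rw [hN ℓ γ hγ, hz, eq_intCast, map_intCast])
    rw [h1, hz, eq_intCast]
    simp
  have hr₀c : ∀ γ, ∀ u ∈ N, (r₀ (γ * u)).left = (r₀ γ).left := by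
    intro γ u hu
    rw [map_mul, SemidirectProduct.mul_left, hr₀N u hu, map_one, mul_one]
  refine ⟨r₀, ⟨hr₀, fun f => ?_⟩, fun v hv => ?_⟩
  · rw [IsLocallyConstant.iff_exists_open]
    intro γ
    refine ⟨γ • (N : Set Gal(AlgebraicClosure F/F)), hNo.smul γ, ⟨1, one_mem _, by simp⟩, ?_⟩
    rintro _ ⟨u, hu, rfl⟩
    change (r₀ (γ * u)).left.hom f = _
    rw [hr₀c γ u hu]
  · have hvfin : {ℓ : Λ | ((ℓ : ℕ) : 𝓞 F) ∈ v.asIdeal}.Finite := by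
      refine Set.Subsingleton.finite ?_
      intro ℓ hℓ ℓ' hℓ'
      exact Subtype.ext (eq_of_mem_prime v (hprime ℓ) (hprime ℓ') hℓ hℓ')
    obtain ⟨ℓ, hℓ⟩ := hvfin.exists_notMem
    refine ⟨?_, ?_, ?_⟩
    · intro P u hu
      apply hr₀N
      rw [← hNeq ℓ]
      have h1 := ((D ℓ).conj v hv hℓ).unram P u hu
      refine ⟨hS v hv P u hu, ?_⟩
      change ρ.ev _ ((D ℓ).r u) = 1
      apply ρ.ev_eq_one h1
      rw [(D ℓ).adm.proj]
      exact hS v hv P u hu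
    · have hpow : (φ v) ^ N.index ∈ N := Subgroup.pow_index_mem _ _
      refine isSemisimpleElt_of_pow hA (N := N.index) ?_ ?_ ?_
      · exact_mod_cast hNfin.index_ne_zero
      · rw [← map_pow]; exact hr₀N _ hpow
      · rw [hr₀]; exact hNact _ hpow
    · intro f
      refine hlim (φ v) f (x v f) (hvfin.subset ?_)
      intro ℓ hne
      by_contra hℓ
      exact hne (((D ℓ).conj v hv hℓ).value f)

/-- Two homomorphisms in characteristic zero for two different primes give one over `ℚ̄`. -/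
theorem exists_of_two_good (hfree : @Module.Free ℤ O _ _ Algebra.toModule)
    (hA : IsOpen (A.act.ker : Set Gal(AlgebraicClosure F/F)))
    (S : Finset (HeightOneSpectrum (𝓞 F)))
    (hS : ∀ v, v ∉ S → ∀ P u, IsInertiaAt v P u → A.act u = 1)
    (φ : HeightOneSpectrum (𝓞 F) → Gal(AlgebraicClosure F/F))
    (hφ : ∀ v, v ∉ S → ∃ P : Ideal (𝓞 (AlgebraicClosure F)), IsOver v P ∧
      (IsFrob v P (φ v) ∨ IsFrob v P (φ v)⁻¹))
    {K : Type} [Field K] [CharZero K] [IsAlgClosed K] [Algebra.IsAlgebraic ℚ K]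
    (x : ∀ v, A.inv (φ v) →+* 𝓞 K)
    (hgood : ∀ {n : ℕ} (ρ : MatRepL A n) v, v ∉ S → GoodAt ρ (φ v) (x v)) {p q : ℕ} (hp : p.Prime)
    (hq : q.Prime) (hpq : p ≠ q) (D₀ : ResData A S φ x p) (hD₀ : CharZero D₀.k)
    (D₁ : ResData A S φ x q) (hD₁ : CharZero D₁.k) :
    ∃ r : Gal(AlgebraicClosure F/F) →* A.LGroup K, IsAdmissibleDisc A r ∧
      ∀ v, v ∉ S → IsConjAt A r v (φ v) ((algebraMap (𝓞 K) K).comp (x v)) := by
  classical
  obtain ⟨Φ₀, hΦ₀⟩ := ‹Algebra.FiniteType ℤ O›.out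
  obtain ⟨Φ, hΦfin, hΦ₀Φ, hΦst⟩ := exists_stable (A := A) hA Φ₀.finite_toSet
  obtain ⟨n, ρ, hρ, -⟩ := exists_matRepL A hΦfin hΦst
  have hΦ : Algebra.adjoin ℤ Φ = ⊤ := by
    rw [eq_top_iff, ← hΦ₀]
    exact Algebra.adjoin_mono hΦ₀Φ
  obtain ⟨M, hM, hMb⟩ := exists_bound_order ρ hA hp hq hpq D₀ D₁
  let T : Set (HeightOneSpectrum (𝓞 F)) := {v | (p : 𝓞 F) ∈ v.asIdeal} ∪
    {v | (q : 𝓞 F) ∈ v.asIdeal}
  have hT : T.Finite := (finite_mem_nat p hp.pos).union (finite_mem_nat q hq.pos)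
  have hs : ∀ v, ∃ s : Multiset (𝓞 K), v ∉ S → v ∉ T → (∀ c ∈ s, c ^ M = 1) ∧
      ∀ (ℓ : ℕ) (D : ResData A S φ x ℓ), v ∉ S → (ℓ : 𝓞 F) ∉ v.asIdeal → ∀ j : ℕ,
        ((ρ.ev D.k (D.r (φ v))) ^ j = 1 ↔ ∀ c ∈ s, D.π c ^ j = 1) := by
    intro v
    by_cases hv : v ∉ S ∧ v ∉ T
    · obtain ⟨hvS, hvT⟩ := hv
      simp only [T, Set.mem_union, Set.mem_ofPred_eq, not_or] at hvT
      obtain ⟨h2, h3⟩ := hvT
      obtain ⟨s, hs1, hs2⟩ := (hgood ρ v hvS).eigen (S := S) (ρ := ρ)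
      exact ⟨s, fun _ _ => ⟨hMb v hvS h2 h3 s hs1 hs2, hs2⟩⟩
    · exact ⟨0, fun h1 h2 => absurd ⟨h1, h2⟩ hv⟩
  choose s hs using hs
  let N : Subgroup Gal(AlgebraicClosure F/F) := kerU ρ.toMatRep D₀.r
  have hNeq : kerU ρ.toMatRep D₁.r = N := by
    apply le_antisymm
    · exact kerU_le ρ hA hφ T hT M s hs hq hp D₁ D₀ (by exact_mod_cast hM.ne')
    · exact kerU_le ρ hA hφ T hT M s hs hp hq D₀ D₁ (by exact_mod_cast hM.ne')
  have hNo : IsOpen (N : Set Gal(AlgebraicClosure F/F)) :=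
    kerU_open ρ.toMatRep hA D₀.r D₀.adm.proj D₀.adm.cont
  have hNn : N.Normal := kerU_normal ρ.toMatRep D₀.r
  have hNfin : N.FiniteIndex := by
    have h2 : Finite (Gal(AlgebraicClosure F/F) ⧸ N) := Subgroup.quotient_finite_of_isOpen _ hNo
    exact Subgroup.finiteIndex_of_finite_quotient
  have hleft : ∀ (ℓ : ℕ) (D : ResData A S φ x ℓ), kerU ρ.toMatRep D.r = N → ∀ γ ∈ N,
      (D.r γ).left = 1 := by
    intro ℓ D hD γ hγ
    rw [← hD] at hγ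
    refine ρ.left_eq_one hΦ hρ ?_ hγ.2
    rw [D.adm.proj]
    exact hγ.1
  obtain ⟨r₀, h₀, hd₀⟩ := exists_descent A D₀.π D₀.r D₀.adm.proj N (hleft p D₀ rfl)
  obtain ⟨r₁, h₁, hd₁⟩ := exists_descent A D₁.π D₁.r D₁.adm.proj N (hleft q D₁ hNeq)
  have hone : ∀ γ ∈ N, (r₀ γ).left = 1 ∧ (r₁ γ).left = 1 := by
    intro γ hγ
    constructor
    · ext f
      obtain ⟨z, hz⟩ := exists_counit (B := ℤ) f
      have h1 := hd₀ γ f ((z : ℤ) : 𝓞 K) (by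
        rw [hleft p D₀ rfl γ hγ, hz, eq_intCast, map_intCast])
      rw [h1, hz, eq_intCast]
      simp
    · ext f
      obtain ⟨z, hz⟩ := exists_counit (B := ℤ) f
      have h1 := hd₁ γ f ((z : ℤ) : 𝓞 K) (by
        rw [hleft q D₁ hNeq γ hγ, hz, eq_intCast, map_intCast])
      rw [h1, hz, eq_intCast]
      simp
  have hc₀ : ∀ γ, ∀ u ∈ N, (r₀ (γ * u)).left = (r₀ γ).left := by
    intro γ u hu
    rw [map_mul, SemidirectProduct.mul_left, (hone u hu).1, map_one, mul_one]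
  have hc₁ : ∀ γ, ∀ u ∈ N, (r₁ (γ * u)).left = (r₁ γ).left := by
    intro γ u hu
    rw [map_mul, SemidirectProduct.mul_left, (hone u hu).2, map_one, mul_one]
  have hval₀ : ∀ v, v ∉ S → (p : 𝓞 F) ∉ v.asIdeal → ∀ f : A.inv (φ v),
      (r₀ (φ v)).left.hom (f : O) = (x v f : K) := fun v hv hvp f =>
    hd₀ _ _ _ ((D₀.conj v hv hvp).value f)
  have hval₁ : ∀ v, v ∉ S → (q : 𝓞 F) ∉ v.asIdeal → ∀ f : A.inv (φ v),
      (r₁ (φ v)).left.hom (f : O) = (x v f : K) := fun v hv hvq f =>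
    hd₁ _ _ _ ((D₁.conj v hv hvq).value f)
  have hmatch : ∀ γ, A.Matched r₀ r₁ γ := by
    intro γ
    obtain ⟨v, hv, δ, j, hj⟩ := exists_frob_mem N hNn hNo (S ∪ hT.toFinset) φ
      (fun v hv => hφ v fun h => hv (Finset.mem_union_left _ h)) γ
    simp only [T, Finset.mem_union, Set.Finite.mem_toFinset, Set.mem_union, Set.mem_ofPred_eq,
      not_or] at hv
    obtain ⟨hvS, hvp, hvq⟩ := hv
    have h3 : A.Matched r₀ r₁ (φ v) := by
      intro f hf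
      rw [hval₀ v hvS hvp ⟨f, hf⟩, hval₁ v hvS hvq ⟨f, hf⟩]
    have h4 := HopfAction.Matched.transport A h₀ h₁ h3 δ j
    have h5 : γ * (γ⁻¹ * (δ * φ v ^ j * δ⁻¹)) = δ * φ v ^ j * δ⁻¹ := mul_inv_cancel_left _ _
    intro f hf
    have h6 : f ∈ A.inv (δ * φ v ^ j * δ⁻¹) := by
      rw [← h5, inv_congr' A (δ := γ)]
      · exact hf
      · rw [map_mul]
        have h7 : A.act (γ⁻¹ * (δ * φ v ^ j * δ⁻¹)) = 1 := hj.1
        rw [h7, mul_one]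
    have h8 := h4 f h6
    rw [← h5, hc₀ _ _ hj, hc₁ _ _ hj] at h8
    exact h8
  refine ⟨r₀, ⟨h₀, fun f => ?_⟩, fun v hv => ⟨?_, ?_, ?_⟩⟩
  · rw [IsLocallyConstant.iff_exists_open]
    intro γ
    refine ⟨γ • (N : Set Gal(AlgebraicClosure F/F)), hNo.smul γ, ⟨1, one_mem _, by simp⟩, ?_⟩
    rintro _ ⟨u, hu, rfl⟩
    change (r₀ (γ * u)).left.hom f = _
    rw [hc₀ γ u hu]
  · intro P u hu
    refine (hone u ?_).1
    have hact := hS v hv P u hu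
    by_cases hvp : (p : 𝓞 F) ∈ v.asIdeal
    · have hvq : (q : 𝓞 F) ∉ v.asIdeal := fun h => hpq (eq_of_mem_prime v hp hq hvp h)
      rw [← hNeq]
      refine ⟨hact, ?_⟩
      change ρ.ev _ (D₁.r u) = 1
      apply ρ.ev_eq_one ((D₁.conj v hv hvq).unram P u hu)
      rw [D₁.adm.proj]
      exact hact
    · refine ⟨hact, ?_⟩
      change ρ.ev _ (D₀.r u) = 1
      apply ρ.ev_eq_one ((D₀.conj v hv hvp).unram P u hu)
      rw [D₀.adm.proj]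
      exact hact
  · have hpow : (φ v) ^ N.index ∈ N := Subgroup.pow_index_mem _ _
    refine isSemisimpleElt_of_pow hA (N := N.index) ?_ ?_ ?_
    · exact_mod_cast hNfin.index_ne_zero
    · rw [← map_pow]; exact (hone _ hpow).1
    · rw [h₀]; exact hpow.1
  · intro f
    by_cases hvp : (p : 𝓞 F) ∈ v.asIdeal
    · have hvq : (q : 𝓞 F) ∉ v.asIdeal := fun h => hpq (eq_of_mem_prime v hp hq hvp h)
      rw [hmatch (φ v) f f.2]
      exact hval₁ v hv hvq f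
    · exact hval₀ v hv hvp f


/-- The classes of a homomorphism with values in the points over `ℚ̄` are bounded. -/
theorem bounded_of_disc
    {K : Type} [Field K] [CharZero K] [Algebra.IsAlgebraic ℚ K]
    (r : Gal(AlgebraicClosure F/F) →* A.LGroup K) (hr : IsAdmissibleDisc A r) :
    ∃ C : O → ℝ, ∀ f γ, ∀ τ : K →+* ℂ, ‖τ ((r γ).left.hom f)‖ ≤ C f := by
  have h1 : ∀ f : O, ∃ B : ℝ, ∀ γ, ∀ τ : K →+* ℂ, ‖τ ((r γ).left.hom f)‖ ≤ B := by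
    intro f
    have h2 : (Set.range fun γ => (r γ).left.hom f).Finite := (hr.cont f).range_finite
    choose b hb using fun z : K => exists_conj_bound z
    obtain ⟨B, hB⟩ := (h2.image b).bddAbove
    exact ⟨B, fun γ τ => (hb _ τ).trans (hB ⟨_, ⟨γ, rfl⟩, rfl⟩)⟩
  choose C hC using h1
  exact ⟨C, hC⟩

end Assembly

end Pool.Agent.Lib.MP_666dc0_nt.OverB
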