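import Pool.Agent.Lib.MP_666dc0_nt.BOpen

open Filter Topology NumberField IsDedekindDomain
open scoped NumberField BigOperators Pointwise

namespace Pool.Agent.Lib.MP_666dc0_nt
section FrobDensity
set_option linter.unusedSectionVars false
variable {F : Type*} [Field F] [NumberField F] {L : Type*} [Field L] [NumberField L] [Algebra F L]

/-- The primes above a set of density zero have density zero. -/
lemma HasDens.preimage_zero {S : Set (HeightOneSpectrum (𝓞 F))} (hS : HasDens S 0) :
    HasDens ((undr F (L := L)) ⁻¹' S) 0 := by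
  classical
  have h0 := Filter.Tendsto.const_mul (Module.finrank F L : ℝ) hS
  rw [mul_zero] at h0
  refine tendsto_of_tendsto_of_tendsto_of_le_of_le' tendsto_const_nhds h0 ?_ ?_
  · filter_upwards [self_mem_nhdsWithin, tendsto_log_atTop.eventually_gt_atTop 0] with s hs hl
    exact div_nonneg (pSum_nonneg s _) hl.le
  · filter_upwards [self_mem_nhdsWithin, tendsto_log_atTop.eventually_gt_atTop 0] with s hs hl
    have hs' : 1 < s := hs
    rw [← mul_div_assoc]
    refine div_le_div_of_nonneg_right ?_ hl.le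
    rw [pSum_fibre (K := F) _ hs', pSum, ← tsum_mul_left]
    refine (summable_fibre _ hs').tsum_le_tsum (fun v => ?_) ((summable_ind hs' S).mul_left _)
    have : Fintype {w : HeightOneSpectrum (𝓞 L) // undr F w = v} := Fintype.ofFinite _
    rw [tsum_fintype]
    by_cases hv : v ∈ S
    · rw [Set.indicator_of_mem hv]
      calc ∑ w : {w : HeightOneSpectrum (𝓞 L) // undr F w = v},
            ((undr F (L := L)) ⁻¹' S).indicator (nrm s) w.1
          ≤ ∑ w : {w : HeightOneSpectrum (𝓞 L) // undr F w = v}, nrm s v := by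
            refine Finset.sum_le_sum fun w _ => ?_
            rw [Set.indicator_apply]
            split_ifs with h
            · rw [nrm_eq_pow (K := F), w.2]
              have h0 := nrm_pos s v
              have h1 := nrm_le_half hs'.le v
              have h2 := inertiaDeg_pos' (K := F) w.1
              calc nrm s v ^ (w.1.asIdeal.inertiaDeg (𝓞 F)) ≤ nrm s v ^ 1 :=
                    pow_le_pow_of_le_one h0.le (by linarith) h2
                _ = nrm s v := pow_one _
            · exact (nrm_pos s v).le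
        _ = (Nat.card {w : HeightOneSpectrum (𝓞 L) // undr F w = v} : ℝ) * nrm s v := by
            rw [Finset.sum_const, nsmul_eq_mul, Nat.card_eq_fintype_card, Finset.card_univ]
        _ ≤ Module.finrank F L * nrm s v := by
            have h1 : Nat.card {w : HeightOneSpectrum (𝓞 L) // undr F w = v} ≤
                Module.finrank F L := by
              rw [card_fibre]; exact ncard_primesOver_le L v
            have h2 := (nrm_pos s v).le
            gcongr
    · rw [Set.indicator_of_notMem hv, mul_zero]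
      refine (Finset.sum_eq_zero fun w _ => ?_).le
      rw [Set.indicator_of_notMem]
      intro hw
      apply hv
      have : undr F w.1 ∈ S := hw
      rwa [w.2] at this

/-- The density theorem of Frobenius (existence): every cyclic subgroup of a Galois group is
generated by a Frobenius element at a prime outside a given set of density zero, unramified. -/
theorem exists_frob_zpowers_eq [IsGalois F L] {S : Set (HeightOneSpectrum (𝓞 F))}
    (hS : HasDens S 0)
    (γ : Gal(L/F)) : ∃ w : HeightOneSpectrum (𝓞 L), undr F w ∉ S ∧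
      w.asIdeal.inertia Gal(L/F) = ⊥ ∧ ∃ φ : Gal(L/F),
        IsArithFrobAt (𝓞 F) φ w.asIdeal ∧ γ ∈ Subgroup.zpowers φ ∧ φ ∈ Subgroup.zpowers γ := by
  classical
  let K := IntermediateField.fixedField (Subgroup.zpowers γ)
  have hγfix : ∀ x : K, γ x = x := fun x => x.2 ⟨γ, Subgroup.mem_zpowers γ⟩
  let γ' : Gal(L/K) := AlgEquiv.ofRingEquiv (f := γ.toRingEquiv) (fun x => hγfix x)
  have hγ' : ∀ x : L, γ' x = γ x := fun x => rfl
  have hpow : ∀ (i : ℤ) (x : L), (γ' ^ i) x = (γ ^ i) x := by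
    have h1 : ∀ (i : ℕ) (x : L), (γ' ^ i) x = (γ ^ i) x := by
      intro i
      induction i with
      | zero => intro x; simp
      | succ i ih => intro x; rw [pow_succ, pow_succ, AlgEquiv.mul_apply, AlgEquiv.mul_apply, ih, hγ']
    intro i x
    obtain ⟨i, rfl | rfl⟩ := i.eq_nat_or_neg
    · rw [zpow_natCast, zpow_natCast, h1]
    · rw [zpow_neg, zpow_neg, zpow_natCast, zpow_natCast]
      apply (γ' ^ i).injective
      rw [← AlgEquiv.mul_apply, mul_inv_cancel, h1, ← AlgEquiv.mul_apply, mul_inv_cancel]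
      rfl
  have hres : ∀ τ : Gal(L/K), τ.restrictScalars F ∈ Subgroup.zpowers γ := by
    intro τ
    have h1 : (τ.restrictScalars F) ∈ K.fixingSubgroup := by
      rw [IntermediateField.mem_fixingSubgroup_iff]
      intro x hx
      exact τ.commutes ⟨x, hx⟩
    rwa [IntermediateField.fixingSubgroup_fixedField] at h1
  have htop : Subgroup.zpowers γ' = ⊤ := by
    rw [eq_top_iff]
    intro τ _
    obtain ⟨i, hi⟩ := Subgroup.mem_zpowers_iff.mp (hres τ)
    refine Subgroup.mem_zpowers_iff.mpr ⟨i, ?_⟩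
    ext x
    rw [hpow, hi]
    rfl
  obtain ⟨B, d, hd, hB, hB2⟩ := hasDens_generator (K := K) (L := L) γ' htop
  have h1 : HasDens {v : HeightOneSpectrum (𝓞 K) | 2 ≤ v.asIdeal.inertiaDeg (𝓞 F)} 0 :=
    hasDens_inertiaDeg_ge_two F
  have h2 : HasDens ((undr F (L := K)) ⁻¹' S) 0 := hS.preimage_zero
  have h4 : ((undr K (L := L)) '' {w | w.asIdeal.inertia Gal(L/F) ≠ ⊥}).Finite :=
    (finite_inertia F L).image _
  have h5 := hB.diff_zero (h1.union_zero (h2.union_zero (hasDens_finite h4)))
  obtain ⟨v, hvB, hv⟩ := h5.nonempty hd.ne'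
  simp only [Set.mem_union, not_or] at hv
  obtain ⟨hv1, hv2, hv3⟩ := hv
  obtain ⟨w, hwv, -, φ, hφ, hφtop⟩ := hB2 v hvB
  have hf : v.asIdeal.inertiaDeg (𝓞 F) = 1 := by
    have h6 := inertiaDeg_pos' (K := F) v
    have h7 : ¬ (2 ≤ v.asIdeal.inertiaDeg (𝓞 F)) := hv1
    omega
  have hund : undr F w = undr F v := by rw [← hwv, undr_undr]
  refine ⟨w, ?_, ?_, φ.restrictScalars F, ?_, ?_, hres φ⟩
  · rw [hund]; exact hv2
  · by_contra h
    exact hv3 ⟨w, h, hwv⟩
  · intro x
    have h8 := hφ x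
    have h9 : Nat.card (𝓞 K ⧸ w.asIdeal.under (𝓞 K)) = Nat.card (𝓞 F ⧸ w.asIdeal.under (𝓞 F)) := by
      have h10 : Nat.card (𝓞 K ⧸ w.asIdeal.under (𝓞 K)) = Ideal.absNorm v.asIdeal := by
        rw [← card_quot_eq_absNorm, ← hwv]; rfl
      have h11 : Nat.card (𝓞 F ⧸ w.asIdeal.under (𝓞 F)) = Ideal.absNorm (undr F v).asIdeal := by
        rw [← card_quot_eq_absNorm, ← hund]; rfl
      rw [h10, h11, absNorm_eq_pow (K := F) v, hf, pow_one]
    rw [h9] at h8
    exact h8
  · have h12 : γ' ∈ Subgroup.zpowers φ := by rw [hφtop]; exact Subgroup.mem_top _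
    obtain ⟨i, hi⟩ := Subgroup.mem_zpowers_iff.mp h12
    refine Subgroup.mem_zpowers_iff.mpr ⟨i, ?_⟩
    have h13 : (φ ^ i).restrictScalars F = (φ.restrictScalars F) ^ i :=
      map_zpow (AlgEquiv.restrictScalarsHom F) φ i
    rw [← h13, hi]
    rfl

end FrobDensity

namespace OverB

section Sep

variable {F : Type*} [Field F] [NumberField F]

/-- An open normal subgroup which is not contained in another one contains a Frobenius element,
at a place outside a given set of density zero, that is not in the other one. -/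
theorem exists_frob_sep (U U' : Subgroup Gal(AlgebraicClosure F/F)) (hUn : U.Normal)
    (hUn' : U'.Normal) (hUo : IsOpen (U : Set Gal(AlgebraicClosure F/F)))
    (hUo' : IsOpen (U' : Set Gal(AlgebraicClosure F/F))) (hne : ¬ U ≤ U')
    {S : Set (HeightOneSpectrum (𝓞 F))} (hS : HasDens S 0)
    (φ : HeightOneSpectrum (𝓞 F) → Gal(AlgebraicClosure F/F))
    (hφ : ∀ v, v ∉ S → ∃ P : Ideal (𝓞 (AlgebraicClosure F)), IsOver v P ∧
      (IsFrob v P (φ v) ∨ IsFrob v P (φ v)⁻¹)) :
    ∃ v, v ∉ S ∧ φ v ∈ U ∧ φ v ∉ U' := by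
  classical
  obtain ⟨γ, hγ, hγ'⟩ := SetLike.not_le_iff_exists.mp hne
  have hWn : (U ⊓ U').Normal := inferInstance
  have hWo : IsOpen ((U ⊓ U' : Subgroup Gal(AlgebraicClosure F/F)) :
    Set Gal(AlgebraicClosure F/F)) := hUo.inter hUo'
  have hWc : IsClosed ((U ⊓ U' : Subgroup Gal(AlgebraicClosure F/F)) :
    Set Gal(AlgebraicClosure F/F)) := Subgroup.isClosed_of_isOpen _ hWo
  let Uc : ClosedSubgroup Gal(AlgebraicClosure F/F) := ⟨U ⊓ U', hWc⟩
  let K : IntermediateField F (AlgebraicClosure F) := IntermediateField.fixedField (U ⊓ U')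
  have hKU : K.fixingSubgroup = U ⊓ U' := InfiniteGalois.fixingSubgroup_fixedField Uc
  have hfd : FiniteDimensional F K := by
    rw [← InfiniteGalois.isOpen_iff_finite]
    rw [hKU]; exact hWo
  have hgal : IsGalois F K := by
    rw [← InfiniteGalois.normal_iff_isGalois]
    rw [hKU]; exact hWn
  have hker : (AlgEquiv.restrictNormalHom (F := F) (K₁ := AlgebraicClosure F) K).ker = U ⊓ U' := by
    rw [IntermediateField.restrictNormalHom_ker, hKU]
  have : NumberField K := NumberField.of_module_finite F K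
  let τ := AlgEquiv.restrictNormalHom (F := F) (K₁ := AlgebraicClosure F) K γ
  obtain ⟨w, hv, hw2, φw, hφw, hτ, hτ'⟩ := exists_frob_zpowers_eq (F := F) (L := K) hS τ
  -- membership of a conjugate of the Frobenius element
  have key : ∀ ψ : Gal(AlgebraicClosure F/F), AlgEquiv.restrictNormalHom K ψ = φw →
      ψ ∈ U ∧ ψ ∉ U' := by
    intro ψ hψ
    obtain ⟨i, hi⟩ := Subgroup.mem_zpowers_iff.mp hτ
    obtain ⟨j, hj⟩ := Subgroup.mem_zpowers_iff.mp hτ'
    have h1 : (γ ^ j)⁻¹ * ψ ∈ U ⊓ U' := by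
      rw [← hker, MonoidHom.mem_ker, map_mul, map_inv, map_zpow, hψ]
      change (τ ^ j)⁻¹ * φw = 1
      rw [hj, inv_mul_cancel]
    have h2 : (ψ ^ i)⁻¹ * γ ∈ U ⊓ U' := by
      rw [← hker, MonoidHom.mem_ker, map_mul, map_inv, map_zpow, hψ]
      change (φw ^ i)⁻¹ * τ = 1
      rw [hi, inv_mul_cancel]
    refine ⟨?_, fun h => hγ' ?_⟩
    · have h3 := U.mul_mem (U.zpow_mem hγ j) h1.1
      rwa [mul_inv_cancel_left] at h3
    · have h3 := U'.mul_mem (U'.zpow_mem h i) h2.2
      rwa [mul_inv_cancel_left] at h3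
  have conj_mem : ∀ (V : Subgroup Gal(AlgebraicClosure F/F)), V.Normal → ∀ δ ψ,
      (δ * ψ * δ⁻¹ ∈ V ↔ ψ ∈ V) := by
    intro V hV δ ψ
    constructor
    · intro h
      have := hV.conj_mem _ h δ⁻¹
      have h2 : δ⁻¹ * (δ * ψ * δ⁻¹) * δ⁻¹⁻¹ = ψ := by group
      rwa [h2] at this
    · intro h
      exact hV.conj_mem _ h δ
  refine ⟨undr F w, hv, ?_⟩
  obtain ⟨P, hP, hfr⟩ := hφ _ hv
  rcases hfr with hfr | hfr
  · obtain ⟨δ, hδ⟩ := frob_conj K w hw2 φw hφw P hP _ hfr
    obtain ⟨h1, h2⟩ := key _ hδ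
    rw [conj_mem U hUn] at h1
    rw [conj_mem U' hUn'] at h2
    exact ⟨h1, h2⟩
  · obtain ⟨δ, hδ⟩ := frob_conj K w hw2 φw hφw P hP _ hfr
    obtain ⟨h1, h2⟩ := key _ hδ
    rw [conj_mem U hUn, inv_mem_iff] at h1
    rw [conj_mem U' hUn', inv_mem_iff] at h2
    exact ⟨h1, h2⟩

end Sep

end OverB

end Pool.Agent.Lib.MP_666dc0_nt
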