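import Pool.Agent.Lib.MP_666dc0_nt.BPair
import Pool.Agent.Lib.MP_666dc0_nt.CGen

open TensorProduct Coalgebra Polynomial NumberField IsDedekindDomain
open scoped TensorProduct Matrix NumberField Pointwise

namespace Pool.Agent.Lib.MP_666dc0_nt.OverB

set_option linter.unusedSectionVars false

section Cpx

variable {O : Type} [CommRing O] [HopfAlgebra ℤ O] {Γ : Type*} [Group Γ]
  {A : HopfAction ℤ Γ O} {n : ℕ} (ρ : MatRep A n) {K : Type} [Field K]

/-- The characteristic polynomial of a point of the quotient of the coset of `σ`. -/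
noncomputable def MatRep.cpx (σ : Γ) (x : A.inv σ →+* 𝓞 K) : (𝓞 K)[X] :=
  (Classical.choose (exists_cp ρ σ)).map x

lemma cpx_spec (σ : Γ) (x : A.inv σ →+* 𝓞 K) (k : Type) [Field k] (π : 𝓞 K →+* k)
    (y : A.LGroup k) (hy : y.right = σ) (hyx : ∀ f : A.inv σ, y.left.hom (f : O) = π (x f)) :
    (ρ.ev k y).charpoly = (ρ.cpx σ x).map π := by
  have hq := Classical.choose_spec (exists_cp ρ σ)
  subst hy
  rw [← cpF_eval ρ y, ← hq, MatRep.cpx, Polynomial.map_map, Polynomial.map_map]
  congr 1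
  ext f
  exact hyx f

lemma cpx_coeff (σ : Γ) (x : A.inv σ →+* 𝓞 K) (i : ℕ) : ∃ f : A.inv σ,
    (f : O) = (ρ.cpF σ).coeff i ∧ (ρ.cpx σ x).coeff i = x f := by
  have hq := Classical.choose_spec (exists_cp ρ σ)
  refine ⟨(Classical.choose (exists_cp ρ σ)).coeff i, ?_, ?_⟩
  · have h1 := congrArg (fun p : O[X] => p.coeff i) hq
    simp only [Polynomial.coeff_map] at h1
    exact h1
  · rw [MatRep.cpx, Polynomial.coeff_map]

lemma cpx_monic (σ : Γ) (x : A.inv σ →+* 𝓞 K) : (ρ.cpx σ x).Monic := by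
  have hq := Classical.choose_spec (exists_cp ρ σ)
  have h1 : (Classical.choose (exists_cp ρ σ)).Monic := by
    refine monic_of_injective (f := ((A.inv σ).val : A.inv σ →+* O)) Subtype.val_injective ?_
    rw [hq]
    exact Matrix.charpoly_monic _
  exact h1.map x

lemma cpx_natDegree_le (σ : Γ) (x : A.inv σ →+* 𝓞 K) : (ρ.cpx σ x).natDegree ≤ n := by
  have hq := Classical.choose_spec (exists_cp ρ σ)
  refine (Polynomial.natDegree_map_le).trans ?_
  have h1 : (Classical.choose (exists_cp ρ σ)).natDegree = (ρ.cpF σ).natDegree := by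
    have h0 := congrArg Polynomial.natDegree hq
    rwa [Polynomial.natDegree_map_eq_of_injective
      (f := ((A.inv σ).val : A.inv σ →+* O)) Subtype.val_injective _] at h0
  rw [h1]
  rcases subsingleton_or_nontrivial O with h | h
  · have : ρ.cpF σ = 0 := Subsingleton.elim _ _
    rw [this]; simp
  · exact (Matrix.charpoly_natDegree_eq_dim _).le.trans (by simp)

/-- Two elements with the same action have the same universal characteristic polynomial. -/
lemma cpF_congr {σ τ : Γ} (h : A.act σ = A.act τ) : ρ.cpF σ = ρ.cpF τ := by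
  have h1 : ρ.P (σ⁻¹ * τ) = 1 := ρ.P_eq _ (by rw [map_mul, map_inv, h, inv_mul_cancel])
  have h2 : ρ.P τ = ρ.P σ := by
    have h3 : τ = σ * (σ⁻¹ * τ) := by group
    rw [h3, map_mul, h1, mul_one]
  have h3 : ρ.pm O τ = ρ.pm O σ := by
    change (ρ.P τ).map (algebraMap ℤ O) = (ρ.P σ).map (algebraMap ℤ O)
    rw [h2]
  rw [MatRep.cpF, MatRep.cpF, h3]

lemma finite_range_coeff {R : Type*} [Semiring R] (p : R[X]) :
    (Set.range fun i : ℕ => p.coeff i).Finite := by
  refine ((p.support.finite_toSet.image p.coeff).union (Set.finite_singleton 0)).subset ?_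
  rintro _ ⟨i, rfl⟩
  by_cases h : p.coeff i = 0
  · right; exact h
  · left; exact ⟨i, by simpa using h, rfl⟩

lemma finite_cpF_coeff [TopologicalSpace Γ] [IsTopologicalGroup Γ] [CompactSpace Γ]
    (hA : IsOpen (A.act.ker : Set Γ)) :
    (⋃ σ : Γ, Set.range fun i : ℕ => (ρ.cpF σ).coeff i).Finite := by
  have h1 := finite_range_act (A := A) hA
  have h2 : (Set.range fun σ : Γ => ρ.cpF σ).Finite := by
    classical
    have h3 : ∀ a : Set.range A.act, ∃ σ : Γ, A.act σ = a := fun a => a.2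
    choose g hg using h3
    have h4 : Finite (Set.range A.act) := h1
    refine (Set.finite_range fun a : Set.range A.act => ρ.cpF (g a)).subset ?_
    rintro _ ⟨σ, rfl⟩
    exact ⟨⟨A.act σ, σ, rfl⟩, cpF_congr ρ (hg _)⟩
  have h5 : (⋃ p ∈ Set.range fun σ : Γ => ρ.cpF σ, Set.range fun i : ℕ => p.coeff i).Finite :=
    h2.biUnion fun p _ => finite_range_coeff p
  refine h5.subset ?_
  intro z hz
  obtain ⟨σ, hσ⟩ := Set.mem_iUnion.mp hz
  exact Set.mem_iUnion₂.mpr ⟨_, ⟨σ, rfl⟩, hσ⟩

lemma finite_polys {R : Type*} [Semiring R] (Z : Set R) (hZ : Z.Finite) (n : ℕ) :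
    {p : R[X] | p.natDegree ≤ n ∧ ∀ i, p.coeff i ∈ Z}.Finite := by
  refine Set.Finite.of_finite_image (f := fun p : R[X] => fun i : Fin (n + 1) => p.coeff i)
    ((Set.Finite.pi' fun _ => hZ).subset ?_) ?_
  · rintro _ ⟨p, ⟨-, hp⟩, rfl⟩ i
    exact hp _
  · rintro p ⟨hp, -⟩ q ⟨hq, -⟩ h
    ext i
    by_cases hi : i < n + 1
    · exact congrFun h ⟨i, hi⟩
    · rw [coeff_eq_zero_of_natDegree_lt (by omega), coeff_eq_zero_of_natDegree_lt (by omega)]

end Cpx

section Northcott

variable {K : Type} [Field K] [CharZero K] [Algebra.IsAlgebraic ℚ K]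

/-- Algebraic integers in a number field with bounded conjugates are finite in number. -/
lemma finite_bounded (E : IntermediateField ℚ K) [FiniteDimensional ℚ E] (B : ℝ) :
    {z : 𝓞 K | (z : K) ∈ E ∧ ∀ τ : K →+* ℂ, ‖τ z‖ ≤ B}.Finite := by
  have : NumberField E := { to_charZero := inferInstance, to_finiteDimensional := inferInstance }
  have h1 := NumberField.Embeddings.finite_of_norm_le E ℂ B
  have h2 := h1.image (fun z : E => (z : K))
  refine Set.Finite.of_finite_image (f := fun z : 𝓞 K => (z : K)) (h2.subset ?_) ?_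
  · rintro _ ⟨z, ⟨hz1, hz2⟩, rfl⟩
    refine ⟨⟨z, hz1⟩, ⟨?_, ?_⟩, rfl⟩
    · have h3 : IsIntegral ℤ (z : K) := z.isIntegral_coe
      have h4 : IsIntegral ℤ (algebraMap E K ⟨z, hz1⟩) := h3
      exact (isIntegral_algebraMap_iff (algebraMap E K).injective).mp h4
    · intro φ
      have halg : Algebra.IsAlgebraic E K := Algebra.IsAlgebraic.tower_top (K := ℚ) E
      algebraize [φ]
      let τ : K →ₐ[E] ℂ := IsAlgClosed.lift
      have h5 : τ (algebraMap E K ⟨z, hz1⟩) = φ ⟨z, hz1⟩ := τ.commutes _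
      rw [← h5]
      exact hz2 (τ : K →+* ℂ)
  · intro z _ z' _ h
    exact NumberField.RingOfIntegers.coe_injective h

/-- The conjugates of an algebraic number are bounded. -/
lemma exists_conj_bound (z : K) : ∃ B : ℝ, ∀ τ : K →+* ℂ, ‖τ z‖ ≤ B := by
  classical
  have hz : IsIntegral ℚ z := Algebra.IsIntegral.isIntegral z
  have hfin : ((minpoly ℚ z).rootSet ℂ).Finite := (minpoly ℚ z).rootSet_finite ℂ
  obtain ⟨B, hB⟩ := (hfin.image fun w => ‖w‖).bddAbove
  refine ⟨B, fun τ => hB ⟨τ z, ?_, rfl⟩⟩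
  rw [Polynomial.mem_rootSet]
  refine ⟨minpoly.ne_zero hz, ?_⟩
  have h1 : (algebraMap ℚ ℂ) = τ.comp (algebraMap ℚ K) := Subsingleton.elim _ _
  rw [Polynomial.aeval_def, h1, ← Polynomial.hom_eval₂, ← Polynomial.aeval_def, minpoly.aeval,
    map_zero]

/-- A nonzero algebraic integer is killed only by homomorphisms in finitely many
characteristics. -/
lemma exists_bad_nat (b : 𝓞 K) (hb : b ≠ 0) : ∃ N : ℕ, 0 < N ∧ ∀ (k : Type) [Field k]
    (π : 𝓞 K →+* k), π b = 0 → (N : k) = 0 := by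
  have hint : IsIntegral ℤ b := NumberField.RingOfIntegers.isIntegral b
  have h0 : (minpoly ℤ b).coeff 0 ≠ 0 := by
    intro h
    rw [← X_dvd_iff] at h
    obtain ⟨q, hq⟩ := h
    have h1 := minpoly.aeval ℤ b
    rw [hq, map_mul, aeval_X] at h1
    have h2 : aeval b q = 0 := (mul_eq_zero.mp h1).resolve_left hb
    have h3 := minpoly.monic hint
    rw [hq] at h3
    have h4 : q.Monic := Monic.of_mul_monic_left monic_X h3
    have h5 := minpoly.min ℤ b h4 h2
    rw [hq, mul_comm, Polynomial.degree_mul, Polynomial.degree_X,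
      Polynomial.degree_eq_natDegree h4.ne_zero] at h5
    have h6 : q.natDegree + 1 ≤ q.natDegree := by exact_mod_cast h5
    omega
  refine ⟨((minpoly ℤ b).coeff 0).natAbs, Int.natAbs_pos.mpr h0, fun k _ π hπ => ?_⟩
  have h1 : (aeval b (minpoly ℤ b) : 𝓞 K) = 0 := minpoly.aeval ℤ b
  rw [Polynomial.aeval_eq_sum_range, Finset.sum_range_succ'] at h1
  have h2 := congrArg π h1
  rw [map_add, map_sum, map_zero] at h2
  have h3 : ∀ i ∈ Finset.range (minpoly ℤ b).natDegree,
      π ((minpoly ℤ b).coeff (i + 1) • b ^ (i + 1)) = 0 := by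
    intro i _
    rw [pow_succ, zsmul_eq_mul, map_mul, map_mul, hπ, mul_zero, mul_zero]
  rw [Finset.sum_eq_zero h3, zero_add, pow_zero, zsmul_eq_mul, mul_one, map_intCast] at h2
  rcases Int.natAbs_eq ((minpoly ℤ b).coeff 0) with h | h
  · rw [h, Int.cast_natCast] at h2; exact h2
  · rw [h, Int.cast_neg, neg_eq_zero, Int.cast_natCast] at h2; exact h2

end Northcott

section Good

variable {O : Type} [CommRing O] [HopfAlgebra ℤ O] {Γ : Type*} [Group Γ]
  {A : HopfAction ℤ Γ O} {n : ℕ} (ρ : MatRepL A n) {K : Type} [Field K]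

/-- The characteristic polynomial of the class is a product of `X - c`, `c` roots of unity. -/
def GoodAt (σ : Γ) (x : A.inv σ →+* 𝓞 K) : Prop :=
  ∃ s : Multiset (𝓞 K), (∃ M : ℕ, 0 < M ∧ ∀ c ∈ s, c ^ M = 1) ∧
    ρ.cpx σ x = (s.map fun c => X - C c).prod

lemma eigen_of_cpx {σ : Γ} {x : A.inv σ →+* 𝓞 K} {s : Multiset (𝓞 K)}
    (hs : ρ.cpx σ x = (s.map fun c => X - C c).prod) (k : Type) [Field k] [IsAlgClosed k]
    (π : 𝓞 K →+* k) (y : A.LGroup k) (hy : y.right = σ) (hss : A.IsSemisimpleElt y)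
    (hyx : ∀ f : A.inv σ, y.left.hom (f : O) = π (x f)) (j : ℕ) :
    (ρ.ev k y) ^ j = 1 ↔ ∀ c ∈ s, π c ^ j = 1 := by
  have h1 := cpx_spec ρ.toMatRep σ x k π y hy hyx
  rw [hs, Polynomial.map_multiset_prod, Multiset.map_map] at h1
  rw [pow_eq_one_iff_roots (ρ.ev k y) (exists_squarefree_of_isSemisimpleElt ρ hss) j (s.map π)]
  · simp
  · rw [h1, Multiset.map_map]
    congr 1
    refine Multiset.map_congr rfl fun c _ => ?_
    simp

/-- Monic polynomials over the ring of integers of an algebraically closed field split. -/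
lemma exists_int_roots' [IsAlgClosed K] (g : (𝓞 K)[X]) (hg : g.Monic) :
    ∃ s : Multiset (𝓞 K), g = (s.map (fun c => X - C c)).prod := by
  have hinj : Function.Injective (algebraMap (𝓞 K) K) := NumberField.RingOfIntegers.coe_injective
  have hint : ∀ ζ ∈ (g.map (algebraMap (𝓞 K) K)).roots, IsIntegral ℤ ζ := by
    intro ζ hζ
    have h1 := isRoot_of_mem_roots hζ
    have h2 : IsIntegral (𝓞 K) ζ := by
      refine ⟨g, hg, ?_⟩
      rw [← Polynomial.eval_map]
      exact h1
    have h3 : Algebra.IsIntegral ℤ (𝓞 K) := inferInstance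
    exact isIntegral_trans (R := ℤ) (A := 𝓞 K) ζ h2
  have hlift : ∃ s : Multiset (𝓞 K), s.map (algebraMap (𝓞 K) K) =
      (g.map (algebraMap (𝓞 K) K)).roots := by
    generalize (g.map (algebraMap (𝓞 K) K)).roots = s' at hint
    induction s' using Multiset.induction_on with
    | empty => exact ⟨0, rfl⟩
    | cons a s' ih =>
      obtain ⟨s, hs⟩ := ih (fun ζ hζ => hint ζ (Multiset.mem_cons_of_mem hζ))
      refine ⟨⟨a, hint a (Multiset.mem_cons_self a s')⟩ ::ₘ s, ?_⟩
      rw [Multiset.map_cons, hs]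
      rfl
  obtain ⟨s, hs⟩ := hlift
  refine ⟨s, Polynomial.map_injective _ hinj ?_⟩
  rw [(IsAlgClosed.splits (g.map (algebraMap (𝓞 K) K))).eq_prod_roots_of_monic (hg.map _), ← hs,
    Polynomial.map_multiset_prod, Multiset.map_map, Multiset.map_map]
  congr 1
  refine Multiset.map_congr rfl fun c _ => ?_
  simp

lemma multiset_prod_inj {R : Type*} [CommRing R] [IsDomain R] {s t : Multiset R}
    (h : (s.map fun c => X - C c).prod = (t.map fun c => X - C c).prod) : s = t := by
  have := congrArg Polynomial.roots h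
  rwa [Polynomial.roots_multiset_prod_X_sub_C, Polynomial.roots_multiset_prod_X_sub_C] at this

/-- A semisimple element whose characteristic polynomial is that of the identity. -/
lemma ev_eq_one_of_charpoly (k : Type) [Field k] [IsAlgClosed k] (y : A.LGroup k)
    (hss : A.IsSemisimpleElt y) (h : (ρ.ev k y).charpoly = (1 : Matrix (Fin n) (Fin n) k).charpoly) :
    ρ.ev k y = 1 := by
  have h1 : (ρ.ev k y).charpoly = ((Multiset.replicate n (1 : k)).map fun c => X - C c).prod := by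
    rw [h, Matrix.charpoly_one]
    simp
  have h2 := (pow_eq_one_iff_roots (ρ.ev k y) (exists_squarefree_of_isSemisimpleElt ρ hss) 1
    (Multiset.replicate n 1) h1).mpr (fun c hc => by
      rw [Multiset.eq_of_mem_replicate hc, one_pow])
  rwa [pow_one] at h2

/-- Torsion classes are good. -/
lemma goodAt_of_torsion [IsAlgClosed K] (σ : Γ) (hσ : ∃ N : ℕ, 0 < N ∧
    A.act (σ ^ N) = 1) (x : A.inv σ →+* 𝓞 K) (t : A.LGroup K) (ht : t.right = σ)
    (htm : ∃ m : ℕ, 0 < m ∧ (t ^ m).left = 1) (htx : ∀ f : A.inv σ, t.left.hom (f : O) = (x f : K)) :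
    GoodAt ρ σ x := by
  obtain ⟨N, hN, hN'⟩ := hσ
  obtain ⟨m, hm, hm'⟩ := htm
  subst ht
  have hT : (ρ.ev K t).charpoly = (ρ.cpx t.right x).map (algebraMap (𝓞 K) K) :=
    cpx_spec ρ.toMatRep t.right x K (algebraMap (𝓞 K) K) t rfl htx
  have hTM : (ρ.ev K t) ^ (m * N) = 1 := by
    rw [← map_pow]
    apply ρ.ev_eq_one
    · rw [pow_mul]
      have h1 : t ^ m = SemidirectProduct.inr (t ^ m).right := by
        refine SemidirectProduct.ext ?_ ?_
        · rw [hm']; simp
        · simp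
      have h2 : (SemidirectProduct.inr (t ^ m).right : A.LGroup K) ^ N =
          SemidirectProduct.inr ((t ^ m).right ^ N) := (map_pow _ _ _).symm
      rw [h1, h2, SemidirectProduct.left_inr]
    · rw [A.pow_right, mul_comm, pow_mul, map_pow, hN', one_pow]
  have hroot : ∀ ζ : K, ((ρ.cpx t.right x).map (algebraMap (𝓞 K) K)).IsRoot ζ →
      ζ ^ (m * N) = 1 := by
    intro ζ hζ
    rw [← hT, IsRoot, Matrix.eval_charpoly, ← Matrix.exists_mulVec_eq_zero_iff] at hζ
    obtain ⟨v, hv0, hv⟩ := hζ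
    have h2 : (ρ.ev K t) *ᵥ v = ζ • v := by
      rw [Matrix.sub_mulVec, sub_eq_zero] at hv
      rw [← hv, Matrix.scalar_apply]
      ext i
      simp [Matrix.mulVec_diagonal]
    have h3 : ∀ i : ℕ, ((ρ.ev K t) ^ i) *ᵥ v = ζ ^ i • v := by
      intro i
      induction i with
      | zero => simp
      | succ i ih => rw [pow_succ, ← Matrix.mulVec_mulVec, h2, Matrix.mulVec_smul, ih, smul_smul,
          pow_succ, mul_comm]
    have h4 := h3 (m * N)
    rw [hTM, Matrix.one_mulVec] at h4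
    have h5 : (ζ ^ (m * N) - 1) • v = 0 := by rw [sub_smul, ← h4, one_smul, sub_self]
    rcases smul_eq_zero.mp h5 with h6 | h6
    · exact sub_eq_zero.mp h6
    · exact absurd h6 hv0
  obtain ⟨s, hs1, hs2⟩ := exists_int_roots (ρ.cpx t.right x) (cpx_monic ρ.toMatRep _ x) (m * N)
    (Nat.mul_pos hm hN) hroot
  exact ⟨s, ⟨m * N, Nat.mul_pos hm hN, hs2⟩, hs1⟩

end Good

end Pool.Agent.Lib.MP_666dc0_nt.OverB
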