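import Pool.Agent.Lib.MP_666dc0_nt.RepEval

open TensorProduct Coalgebra
open scoped TensorProduct Matrix

namespace Pool.Agent.Lib.MP_666dc0_nt

section Eqv

variable {O R : Type} [CommRing O] [HopfAlgebra ℚ O] [CommRing R] [Algebra ℚ R]
  {Γ : Type*} [Group Γ] (A : HopfAction Γ O)

lemma onPts_congr' {γ δ : Γ} (h : A.act γ = A.act δ) (R : Type) [CommRing R] [Algebra ℚ R]
    (x : Pts O R) : A.onPts R γ x = A.onPts R δ x := by
  ext f
  rw [HopfAction.onPts_hom_apply, HopfAction.onPts_hom_apply, map_inv, map_inv, h]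

lemma inv_congr' {γ δ : Γ} (h : A.act γ = A.act δ) : A.inv γ = A.inv δ := by
  ext f
  rw [A.mem_inv, A.mem_inv]
  constructor
  · intro hf R _ _ x g
    rw [← onPts_congr' A h]
    exact hf R x g
  · intro hf R _ _ x g
    rw [onPts_congr' A h]
    exact hf R x g

namespace HopfAction

/-- Two elements of the L-group have the same image in `Γ` and the same invariants. -/
def Eqv (x y : A.LGroup R) : Prop := x.right = y.right ∧ ∀ f ∈ A.inv x.right, x.left.hom f = y.left.hom f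

variable {A}

lemma Eqv.refl (x : A.LGroup R) : A.Eqv x x := ⟨rfl, fun _ _ => rfl⟩

lemma Eqv.symm {x y : A.LGroup R} (h : A.Eqv x y) : A.Eqv y x :=
  ⟨h.1.symm, fun f hf => (h.2 f (by rw [h.1]; exact hf)).symm⟩

lemma Eqv.trans {x y z : A.LGroup R} (h : A.Eqv x y) (h' : A.Eqv y z) : A.Eqv x z :=
  ⟨h.1.trans h'.1, fun f hf => (h.2 f hf).trans (h'.2 f (by rw [← h.1]; exact hf))⟩

lemma Eqv.conj_pow_inr {x y : A.LGroup R} (h : A.Eqv x y) (δ : Γ) (k : ℕ) :
    A.Eqv (SemidirectProduct.inr δ * x ^ k * (SemidirectProduct.inr δ)⁻¹)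
      (SemidirectProduct.inr δ * y ^ k * (SemidirectProduct.inr δ)⁻¹) := by
  have hx : x = ⟨x.left, x.right⟩ := rfl
  have hy : y = ⟨y.left, x.right⟩ := by rw [h.1]
  have hr : (SemidirectProduct.inr δ * x ^ k * (SemidirectProduct.inr δ)⁻¹ : A.LGroup R).right =
      δ * x.right ^ k * δ⁻¹ := by rw [A.conj_inr_right, A.pow_right]
  refine ⟨?_, fun f hf => ?_⟩
  · rw [hr, A.conj_inr_right, A.pow_right, h.1]
  · rw [hr] at hf
    have h1 := A.transF_eval x.right δ k f x.left
    have h2 := A.transF_eval x.right δ k f y.left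
    rw [← hx] at h1
    rw [← hy] at h2
    rw [← h1, ← h2]
    exact h.2 _ (A.transF_mem x.right δ k hf)

lemma Eqv.pow {x y : A.LGroup R} (h : A.Eqv x y) (k : ℕ) : A.Eqv (x ^ k) (y ^ k) := by
  have := h.conj_pow_inr 1 k
  simpa using this

lemma Eqv.conj_inr {x y : A.LGroup R} (h : A.Eqv x y) (δ : Γ) :
    A.Eqv (SemidirectProduct.inr δ * x * (SemidirectProduct.inr δ)⁻¹)
      (SemidirectProduct.inr δ * y * (SemidirectProduct.inr δ)⁻¹) := by
  have := h.conj_pow_inr δ 1
  simpa only [pow_one] using this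

lemma eqv_conj_inl (x : A.LGroup R) (g : Pts O R) :
    A.Eqv (SemidirectProduct.inl g * x * (SemidirectProduct.inl g)⁻¹) x := by
  refine ⟨by simp, fun f hf => ?_⟩
  have hr : (SemidirectProduct.inl g * x * (SemidirectProduct.inl g)⁻¹ : A.LGroup R).right =
    x.right := by simp
  rw [hr] at hf
  rw [A.conj_inl_left]
  exact hf R _ _

lemma eqv_conj_conj_inr (x z : A.LGroup R) :
    A.Eqv (z * x * z⁻¹) (SemidirectProduct.inr z.right * x * (SemidirectProduct.inr z.right)⁻¹) := by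
  have h3 : z = SemidirectProduct.inl z.left * SemidirectProduct.inr z.right :=
    (SemidirectProduct.inl_left_mul_inr_right z).symm
  have h4 : z * x * z⁻¹ = SemidirectProduct.inl z.left *
      (SemidirectProduct.inr z.right * x * (SemidirectProduct.inr z.right)⁻¹) *
      (SemidirectProduct.inl z.left)⁻¹ := by
    conv_lhs => rw [h3]
    simp only [mul_assoc, mul_inv_rev]
  rw [h4]
  exact eqv_conj_inl _ _

lemma Eqv.conj {x y z z' : A.LGroup R} (h : A.Eqv x y) (hz : z.right = z'.right) :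
    A.Eqv (z * x * z⁻¹) (z' * y * z'⁻¹) := by
  have h1 := eqv_conj_conj_inr (A := A) x z
  have h2 := eqv_conj_conj_inr (A := A) y z'
  rw [hz] at h1
  exact h1.trans ((h.conj_inr _).trans h2.symm)

lemma inr_comm {z : Γ} (hz : A.act z = 1) (g : Pts O R) :
    (SemidirectProduct.inr z * SemidirectProduct.inl g : A.LGroup R) =
      SemidirectProduct.inl g * SemidirectProduct.inr z := by
  have h1 : A.onPts R z g = g := by
    have h2 := onPts_congr' A (γ := z) (δ := 1) (by rw [hz, map_one]) R g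
    rw [h2, map_one]; rfl
  refine SemidirectProduct.ext ?_ ?_
  · simp [h1]
  · simp

lemma Eqv.mul_inr {x y : A.LGroup R} (h : A.Eqv x y) {z : Γ} (hz : A.act z = 1) :
    A.Eqv (x * SemidirectProduct.inr z) (y * SemidirectProduct.inr z) := by
  refine ⟨by simp [h.1], fun f hf => ?_⟩
  have h1 : A.inv (x * SemidirectProduct.inr z : A.LGroup R).right = A.inv x.right := by
    apply inv_congr'
    simp [hz]
  rw [h1] at hf
  have h2 := h.2 f hf
  simpa using h2

end HopfAction

namespace MatRep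

variable {A} {n : ℕ} (ρ : MatRep A n)

/-- The trace function of a matrix representation on the coset of `γ`. -/
noncomputable def trF (γ : Γ) : O := (ρ.a * ρ.pm O γ).trace

lemma trF_eval (x : A.LGroup R) : x.left.hom (ρ.trF x.right) = (ρ.ev R x).trace := by
  rw [trF, MatRep.ev_apply]
  have h1 : (ρ.gm x.left * ρ.pm R x.right) = (ρ.a * ρ.pm O x.right).map x.left.hom := by
    rw [Matrix.map_mul, pm_map]; rfl
  rw [h1]
  exact AddMonoidHom.map_trace (x.left.hom : O →+* R).toAddMonoidHom _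

lemma trF_mem (γ : Γ) : ρ.trF γ ∈ A.inv γ := by
  intro R _ _ x g
  have h1 := ρ.trF_eval (⟨x * g * (A.onPts R γ x)⁻¹, γ⟩ : A.LGroup R)
  have h2 := ρ.trF_eval (⟨g, γ⟩ : A.LGroup R)
  change (x * g * (A.onPts R γ x)⁻¹).hom (ρ.trF γ) = _ at h1
  change g.hom (ρ.trF γ) = _ at h2
  rw [h1, h2]
  have h3 : (⟨x * g * (A.onPts R γ x)⁻¹, γ⟩ : A.LGroup R) =
      SemidirectProduct.inl x * ⟨g, γ⟩ * (SemidirectProduct.inl x)⁻¹ := by
    ext1
    · rw [A.conj_inl_left]
    · simp
  rw [h3, map_mul, map_mul, Matrix.trace_mul_cycle, ← map_mul, inv_mul_cancel, map_one, one_mul]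

lemma trace_eq {x y : A.LGroup R} (h : A.Eqv x y) : (ρ.ev R x).trace = (ρ.ev R y).trace := by
  rw [← trF_eval, ← trF_eval, ← h.1]
  exact h.2 _ (ρ.trF_mem _)

lemma pm_one {z : Γ} (hz : A.act z = 1) : ρ.pm R z = 1 := by
  change (ρ.P z).map (algebraMap ℚ R) = 1
  rw [ρ.P_eq z hz]; simp

lemma ev_inr {z : Γ} (hz : A.act z = 1) : ρ.ev R (SemidirectProduct.inr z) = 1 := by
  rw [ev_apply]
  simp [pm_one ρ hz, gm_one]

lemma ev_eq_one {x : A.LGroup R} (hx : x.left = 1) (hz : A.act x.right = 1) : ρ.ev R x = 1 := by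
  rw [ev_apply, hx, gm_one, pm_one ρ hz, one_mul]

lemma left_eq_one {Φ : Set O} (hΦ : Algebra.adjoin ℚ Φ = ⊤)
    (hρ : ∀ f ∈ Φ, f ∈ Submodule.span ℚ (Set.range fun ij : Fin n × Fin n => ρ.a ij.1 ij.2))
    {x : A.LGroup R} (hz : A.act x.right = 1) (h : ρ.ev R x = 1) : x.left = 1 := by
  rw [ev_apply, pm_one ρ hz, mul_one] at h
  have h1 : ∀ f ∈ Φ, x.left.hom f = (1 : Pts O R).hom f := by
    intro f hf
    have h2 : Submodule.span ℚ (Set.range fun ij : Fin n × Fin n => ρ.a ij.1 ij.2) ≤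
        LinearMap.eqLocus x.left.hom.toLinearMap (1 : Pts O R).hom.toLinearMap := by
      rw [Submodule.span_le]
      rintro _ ⟨⟨i, j⟩, rfl⟩
      have h3 := congrFun (congrFun h i) j
      have h4 := congrFun (congrFun (ρ.gm_one (R := R)) i) j
      change x.left.hom (ρ.a i j) = (1 : Pts O R).hom (ρ.a i j)
      rw [← h4] at h3
      exact h3
    exact h2 (hρ f hf)
  ext f
  have h5 : Algebra.adjoin ℚ Φ ≤ AlgHom.equalizer x.left.hom (1 : Pts O R).hom :=
    Algebra.adjoin_le fun f hf => h1 f hf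
  rw [hΦ] at h5
  exact h5 (Algebra.mem_top (x := f))

end MatRep

end Eqv
end Pool.Agent.Lib.MP_666dc0_nt
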