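import Pool.Agent.Lib.MP_666dc0_nt.BRep

/-!
# Interpolation of homomorphisms to L-groups over a base ring: definitions
-/

open TensorProduct NumberField IsDedekindDomain
open scoped TensorProduct NumberField

namespace Pool.Agent.Lib.MP_666dc0_nt.OverB

variable {B : Type} [CommRing B]

/-- The matrix representation `ρ` of `Ĝ ⋊ Γ` over the domain `B` is faithful on the generic fibre
of `Ĝ`: every regular function on `Ĝ` has a non-zero multiple that is a polynomial, with
coefficients in `B`, in the coefficients of `ρ` and of its inverse. -/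
def IsFaithfulRep {Γ : Type*} [Group Γ] {O : Type} [CommRing O] [HopfAlgebra B O]
    {A : HopfAction B Γ O} {n : ℕ} (ρ : MatRep A n) : Prop :=
  ∀ f : O, ∃ b : B, b ≠ 0 ∧ b • f ∈ Algebra.adjoin B ({f | ∃ i j, f = ρ.a i j} ∪
    {f | ∃ i j, f = HopfAlgebra.antipode B (ρ.a i j)})

variable {F : Type*} [Field F] [NumberField F] {O : Type} [CommRing O] [HopfAlgebra B O]
  (A : HopfAction B Gal(AlgebraicClosure F/F) O)

/-- Let `R` be a commutative topological `B`-algebra and let `w v f ∈ R` be a family of values
(`v` a finite place, `f` an invariant function on the coset `Ĝ ⋊ φ v`). The homomorphism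
`r : Γ_F → ᴸG(R)` is attached to the family `w`: it is compatible with the projections to `Γ_F`,
continuous (each regular function `f` on `Ĝ` gives a continuous function `γ ↦ f(r(γ))` with
values in `R`), and for all `v ∉ S` it is trivial on the inertia groups at `v` and every invariant
function `f` takes the value `w v f` at `r(φ v)`. -/
structure IsAttachedTo (S : Finset (HeightOneSpectrum (𝓞 F)))
    (φ : HeightOneSpectrum (𝓞 F) → Gal(AlgebraicClosure F/F)) {R : Type} [CommRing R]
    [Algebra B R] [TopologicalSpace R] (w : ∀ v, A.inv (φ v) → R)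
    (r : Gal(AlgebraicClosure F/F) →* A.LGroup R) : Prop where
  proj : ∀ γ, (r γ).right = γ
  cont : ∀ f : O, Continuous fun γ => (r γ).left.hom f
  unram : ∀ v, v ∉ S → ∀ P u, IsInertiaAt v P u → (r u).left = 1
  value : ∀ v, v ∉ S → ∀ f : A.inv (φ v), (r (φ v)).left.hom (f : O) = w v f

/-- Let `T` be a commutative ring with a topology and `x v f ∈ T` a family of elements (`v` a finite
place, `f` an invariant function on the coset `Ĝ ⋊ φ v`). The element `t ∈ T` is detected by Galois
representations if there are a commutative Hausdorff topological `B`-algebra `R`, a continuous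
ring homomorphism `e : T → R` with `e(t) ≠ 0` and a homomorphism `r : Γ_F → ᴸG(R)` attached to
the family of values `e(x v f)`. -/
inductive IsDetected (S : Finset (HeightOneSpectrum (𝓞 F)))
    (φ : HeightOneSpectrum (𝓞 F) → Gal(AlgebraicClosure F/F)) {T : Type} [CommRing T]
    [TopologicalSpace T] (x : ∀ v, A.inv (φ v) → T) (t : T) : Prop
  | intro {R : Type} [CommRing R] [Algebra B R] [TopologicalSpace R] [T2Space R] (e : T →+* R)
      (he : Continuous e) (ht : e t ≠ 0) (r : Gal(AlgebraicClosure F/F) →* A.LGroup R)
      (hr : IsAttachedTo A S φ (fun v f => e (x v f)) r) : IsDetected S φ x t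

variable {A}

/-- The element `r(γ)` is semisimple if `ρ'(γ)` is semisimple for some linear representation `ρ'`
of `Γ_F` over the field `K` with the same trace as the composition of `r` and the matrix
representation `ρ` of the L-group (for example the semisimplification of this composition). -/
def SemisimpleCriterion {n : ℕ} (ρ : MatRep A n) {K : Type} [Field K] [Algebra B K]
    (r : Gal(AlgebraicClosure F/F) →* A.LGroup K) : Prop :=
  ∀ (γ : Gal(AlgebraicClosure F/F)) (m : ℕ)
    (ρ' : Gal(AlgebraicClosure F/F) →* Matrix (Fin m) (Fin m) K),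
    (∀ δ, (ρ' δ).trace = (ρ.ev K (r δ)).trace) →
    Module.End.IsSemisimple (Matrix.toLin' (ρ' γ)) → A.IsSemisimpleElt (r γ)

end Pool.Agent.Lib.MP_666dc0_nt.OverB
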