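import Pool.Agent.Lib.MP_666dc0_nt.Defs

open TensorProduct
open scoped TensorProduct

namespace Pool.Agent.Lib.MP_666dc0_nt

section Transport

variable {O R S : Type} [CommRing O] [HopfAlgebra ℚ O] [CommRing R] [Algebra ℚ R]
  [CommRing S] [Algebra ℚ S] {Γ : Type*} [Group Γ] (A : HopfAction Γ O)

namespace Pts

/-- The universal point. -/
noncomputable def univ (O : Type) [CommRing O] [HopfAlgebra ℚ O] : Pts O O := ⟨AlgHom.id ℚ O⟩

lemma map_univ (g : Pts O R) : map g.hom (univ O) = g := rfl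

end Pts

namespace HopfAction

lemma onPts_map (φ : R →ₐ[ℚ] S) (γ : Γ) (g : Pts O R) :
    Pts.map φ (A.onPts R γ g) = A.onPts S γ (Pts.map φ g) := rfl

/-- Functoriality of the L-group. -/
noncomputable def mapL (φ : R →ₐ[ℚ] S) : A.LGroup R →* A.LGroup S :=
  SemidirectProduct.map (Pts.map φ) (MonoidHom.id Γ) (fun γ => by ext g f; rfl)

@[simp] lemma mapL_left (φ : R →ₐ[ℚ] S) (x : A.LGroup R) : (A.mapL φ x).left = Pts.map φ x.left := rfl
@[simp] lemma mapL_right (φ : R →ₐ[ℚ] S) (x : A.LGroup R) : (A.mapL φ x).right = x.right := rfl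

lemma pow_left_hom (g : Pts O R) (σ : Γ) (k : ℕ) (f : O) :
    (((⟨g, σ⟩ : A.LGroup R) ^ k).left).hom f =
      g.hom ((((⟨Pts.univ O, σ⟩ : A.LGroup O) ^ k).left).hom f) := by
  have h1 : (⟨g, σ⟩ : A.LGroup R) = A.mapL g.hom ⟨Pts.univ O, σ⟩ := by
    ext1
    · rw [mapL_left, Pts.map_univ]
    · rfl
  rw [h1, ← map_pow, mapL_left, Pts.map_hom_apply]

lemma pow_right (x : A.LGroup R) (k : ℕ) : (x ^ k).right = x.right ^ k :=
  map_pow (SemidirectProduct.rightHom (φ := A.onPts R)) x k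

lemma conj_inl_left (x : Pts O R) (y : A.LGroup R) :
    (SemidirectProduct.inl x * y * (SemidirectProduct.inl x)⁻¹ : A.LGroup R).left =
      x * y.left * (A.onPts R y.right x)⁻¹ := by
  simp

lemma conj_inr_left (δ : Γ) (y : A.LGroup R) :
    (SemidirectProduct.inr δ * y * (SemidirectProduct.inr δ)⁻¹ : A.LGroup R).left =
      A.onPts R δ y.left := by
  simp

lemma conj_inr_right (δ : Γ) (y : A.LGroup R) :
    (SemidirectProduct.inr δ * y * (SemidirectProduct.inr δ)⁻¹ : A.LGroup R).right =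
      δ * y.right * δ⁻¹ := by
  simp

/-- The transported function. -/
noncomputable def transF (σ δ : Γ) (k : ℕ) (f : O) : O :=
  (((⟨Pts.univ O, σ⟩ : A.LGroup O) ^ k).left).hom (A.act δ⁻¹ f)

lemma transF_eval (σ δ : Γ) (k : ℕ) (f : O) (g : Pts O R) :
    g.hom (A.transF σ δ k f) =
      ((SemidirectProduct.inr δ * (⟨g, σ⟩ : A.LGroup R) ^ k * (SemidirectProduct.inr δ)⁻¹ :
        A.LGroup R).left).hom f := by
  rw [transF, ← pow_left_hom, conj_inr_left, onPts_hom_apply]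

lemma transF_mem (σ δ : Γ) (k : ℕ) {f : O} (hf : f ∈ A.inv (δ * σ ^ k * δ⁻¹)) :
    A.transF σ δ k f ∈ A.inv σ := by
  intro R _ _ x g
  rw [transF_eval, transF_eval]
  have h1 : (⟨x * g * (A.onPts R σ x)⁻¹, σ⟩ : A.LGroup R) =
      SemidirectProduct.inl x * ⟨g, σ⟩ * (SemidirectProduct.inl x)⁻¹ := by
    ext1
    · rw [conj_inl_left]
    · simp
  have h2 : (SemidirectProduct.inr δ * (⟨x * g * (A.onPts R σ x)⁻¹, σ⟩ : A.LGroup R) ^ k *
      (SemidirectProduct.inr δ)⁻¹ : A.LGroup R) =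
      SemidirectProduct.inl (A.onPts R δ x) *
        (SemidirectProduct.inr δ * (⟨g, σ⟩ : A.LGroup R) ^ k * (SemidirectProduct.inr δ)⁻¹) *
        (SemidirectProduct.inl (A.onPts R δ x))⁻¹ := by
    rw [h1, conj_pow, SemidirectProduct.inl_aut]
    simp only [mul_assoc, mul_inv_rev, map_inv, inv_inv, inv_mul_cancel_left]
  rw [h2, conj_inl_left, conj_inr_right, pow_right]
  exact hf R _ _

/-- Two homomorphisms to the L-group match at `γ`. -/
def Matched (r₁ r₂ : Γ →* A.LGroup R) (γ : Γ) : Prop :=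
  ∀ f ∈ A.inv γ, (r₁ γ).left.hom f = (r₂ γ).left.hom f

lemma eval_conj_pow (r : Γ →* A.LGroup R) (hr : ∀ γ, (r γ).right = γ) (σ δ : Γ) (k : ℕ) {f : O}
    (hf : f ∈ A.inv (δ * σ ^ k * δ⁻¹)) :
    (r (δ * σ ^ k * δ⁻¹)).left.hom f = (r σ).left.hom (A.transF σ δ k f) := by
  rw [transF_eval]
  have h1 : (⟨(r σ).left, σ⟩ : A.LGroup R) = r σ := by
    ext1
    · rfl
    · exact (hr σ).symm
  rw [h1]
  have h2 : r (δ * σ ^ k * δ⁻¹) = SemidirectProduct.inl (r δ).left *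
      (SemidirectProduct.inr δ * (r σ) ^ k * (SemidirectProduct.inr δ)⁻¹) *
      (SemidirectProduct.inl (r δ).left)⁻¹ := by
    have h3 : r δ = SemidirectProduct.inl (r δ).left * SemidirectProduct.inr δ := by
      conv_lhs => rw [← SemidirectProduct.inl_left_mul_inr_right (r δ), hr]
    rw [map_mul, map_mul, map_pow, map_inv]
    conv_lhs => rw [h3]
    simp only [mul_assoc, mul_inv_rev]
  rw [h2, conj_inl_left, conj_inr_right, pow_right, hr]
  exact hf R _ _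

theorem Matched.transport {r₁ r₂ : Γ →* A.LGroup R} (h₁ : ∀ γ, (r₁ γ).right = γ)
    (h₂ : ∀ γ, (r₂ γ).right = γ) {σ : Γ} (h : A.Matched r₁ r₂ σ) (δ : Γ) (k : ℕ) :
    A.Matched r₁ r₂ (δ * σ ^ k * δ⁻¹) := by
  intro f hf
  rw [A.eval_conj_pow r₁ h₁ σ δ k hf, A.eval_conj_pow r₂ h₂ σ δ k hf]
  exact h _ (A.transF_mem σ δ k hf)

end HopfAction
end Transport
end Pool.Agent.Lib.MP_666dc0_nt
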