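import Pool.Agent.Lib.MP_666dc0_nt.RepEval

open TensorProduct Coalgebra
open scoped TensorProduct Matrix

namespace Pool.Agent.Lib.MP_666dc0_nt
section Slices

variable {O : Type} [CommRing O] [HopfAlgebra ℚ O]

lemma sr_ext {x y : O ⊗[ℚ] O} (h : ∀ μ : O →ₗ[ℚ] ℚ, sr μ x = sr μ y) : x = y := by
  let b := Module.Free.chooseBasis ℚ O
  apply (TensorProduct.equivFinsuppOfBasisLeft (N := O) b).injective
  ext i
  have h1 : ∀ z : O ⊗[ℚ] O, (TensorProduct.equivFinsuppOfBasisLeft b) z i = sr (b.coord i) z := by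
    intro z
    induction z using TensorProduct.induction_on with
    | zero => simp
    | tmul x y => rw [TensorProduct.equivFinsuppOfBasisLeft_apply_tmul_apply, sr_tmul]; rfl
    | add x y hx hy => rw [map_add, map_add, Finsupp.add_apply, hx, hy]
  rw [h1, h1, h]

lemma sr_comul_sr (μ ν : O →ₗ[ℚ] ℚ) (f : O) :
    sr μ (comul (sr ν (comul f))) = sr (convF ν μ) (comul f) := by
  let S : O ⊗[ℚ] (O ⊗[ℚ] O) →ₗ[ℚ] O := (TensorProduct.lid ℚ O).toLinearMap ∘ₗ TensorProduct.map ν (sr μ)
  let S' : (O ⊗[ℚ] O) ⊗[ℚ] O →ₗ[ℚ] O := (TensorProduct.lid ℚ O).toLinearMap ∘ₗ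
    TensorProduct.map (LinearMap.mul' ℚ ℚ ∘ₗ TensorProduct.map ν μ) LinearMap.id
  have hA : ∀ z : O ⊗[ℚ] O, sr μ (comul (sr ν z)) = S (LinearMap.lTensor O comul z) := by
    intro z
    induction z using TensorProduct.induction_on with
    | zero => simp
    | tmul x y => simp [S]
    | add x y hx hy => simp only [map_add, hx, hy]
  have hB : ∀ w : (O ⊗[ℚ] O) ⊗[ℚ] O, S (TensorProduct.assoc ℚ O O O w) = S' w := by
    intro w
    induction w using TensorProduct.induction_on with
    | zero => simp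
    | tmul x y =>
      induction x using TensorProduct.induction_on with
      | zero => simp
      | tmul x z => simp [S, S', smul_smul, mul_comm]
      | add a b ha hb => simp only [TensorProduct.add_tmul, map_add, ha, hb]
    | add x y hx hy => simp only [map_add, hx, hy]
  have hC : ∀ z : O ⊗[ℚ] O, S' (LinearMap.rTensor O comul z) = sr (convF ν μ) z := by
    intro z
    induction z using TensorProduct.induction_on with
    | zero => simp
    | tmul x y => simp [S', convF]
    | add x y hx hy => simp only [map_add, hx, hy]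
  rw [hA, ← coassoc_apply, hB, hC]

lemma comul_sl (ξ : O →ₗ[ℚ] ℚ) (f : O) : comul (R := ℚ) (sl ξ (comul f)) =
    TensorProduct.map LinearMap.id (sl ξ) (LinearMap.lTensor O comul (comul f)) := by
  let Sr : (O ⊗[ℚ] O) ⊗[ℚ] O →ₗ[ℚ] O ⊗[ℚ] O :=
    (TensorProduct.rid ℚ (O ⊗[ℚ] O)).toLinearMap ∘ₗ LinearMap.lTensor (O ⊗[ℚ] O) ξ
  have hA : ∀ z : O ⊗[ℚ] O, comul (R := ℚ) (sl ξ z) = Sr (LinearMap.rTensor O comul z) := by
    intro z
    induction z using TensorProduct.induction_on with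
    | zero => simp
    | tmul x y => simp [Sr]
    | add x y hx hy => simp only [map_add, hx, hy]
  have hB : ∀ w : (O ⊗[ℚ] O) ⊗[ℚ] O, TensorProduct.map LinearMap.id (sl ξ)
      (TensorProduct.assoc ℚ O O O w) = Sr w := by
    intro w
    induction w using TensorProduct.induction_on with
    | zero => simp
    | tmul x y =>
      induction x using TensorProduct.induction_on with
      | zero => simp
      | tmul x z => simp [Sr]
      | add a b ha hb => simp only [TensorProduct.add_tmul, map_add, ha, hb]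
    | add x y hx hy => simp only [map_add, hx, hy]
  rw [hA, ← hB, coassoc_apply]

end Slices

section Rep

variable {O : Type} [CommRing O] [HopfAlgebra ℚ O] {Γ : Type*} [Group Γ] (A : HopfAction Γ O)

/-- The finite-dimensional subspace generated by the left translates of a set of functions. -/
def transSpanL (Φ : Set O) : Submodule ℚ O :=
  Submodule.span ℚ {x | ∃ f ∈ Φ, ∃ μ : O →ₗ[ℚ] ℚ, x = sr μ (comul f)}

lemma sr_counit (f : O) : sr counit (comul f) = f := by
  simp [sr]

lemma subset_transSpanL {Φ : Set O} {f : O} (hf : f ∈ Φ) : f ∈ transSpanL Φ :=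
  Submodule.subset_span ⟨f, hf, counit, (sr_counit f).symm⟩

lemma transSpanL_fg {Φ : Set O} (hΦ : Φ.Finite) : (transSpanL Φ).FG := by
  classical
  have h1 : ∀ f : O, ∃ s : Finset O, ∀ μ : O →ₗ[ℚ] ℚ, sr μ (comul f) ∈
      Submodule.span ℚ (s : Set O) := by
    intro f
    generalize (comul (R := ℚ) f) = z
    induction z using TensorProduct.induction_on with
    | zero => exact ⟨∅, fun μ => by simp⟩
    | tmul x y => exact ⟨{y}, fun μ => by
        rw [sr_tmul]; exact Submodule.smul_mem _ _ (Submodule.subset_span (by simp))⟩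
    | add x y hx hy =>
      obtain ⟨s, hs⟩ := hx
      obtain ⟨t, ht⟩ := hy
      refine ⟨s ∪ t, fun μ => ?_⟩
      rw [map_add]
      exact add_mem (Submodule.span_mono (by simp) (hs μ)) (Submodule.span_mono (by simp) (ht μ))
  choose s hs using h1
  have h2 : (Submodule.span ℚ ((hΦ.toFinset.biUnion s : Finset O) : Set O)).FG :=
    Submodule.fg_span (Finset.finite_toSet _)
  refine h2.of_le (Submodule.span_le.mpr ?_)
  rintro _ ⟨f, hf, μ, rfl⟩
  refine Submodule.span_mono ?_ (hs f μ)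
  intro x hx
  rw [Finset.mem_coe, Finset.mem_biUnion]
  exact ⟨f, by simpa using hf, hx⟩

lemma sr_transSpanL {Φ : Set O} (μ : O →ₗ[ℚ] ℚ) {v : O} (hv : v ∈ transSpanL Φ) :
    sr μ (comul v) ∈ transSpanL Φ := by
  have h1 : transSpanL Φ ≤ (transSpanL Φ).comap (sr μ ∘ₗ comul) := by
    refine Submodule.span_le.mpr ?_
    rintro _ ⟨f, hf, ν, rfl⟩
    refine Submodule.subset_span ⟨f, hf, convF ν μ, ?_⟩
    exact sr_comul_sr μ ν f
  exact h1 hv

lemma act_transSpanL {Φ : Set O} (hΦ : ∀ γ, ∀ f ∈ Φ, A.act γ f ∈ Φ) (γ : Γ) {v : O}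
    (hv : v ∈ transSpanL Φ) : A.act γ v ∈ transSpanL Φ := by
  have h1 : transSpanL Φ ≤ (transSpanL Φ).comap (A.act γ).toLinearMap := by
    refine Submodule.span_le.mpr ?_
    rintro _ ⟨f, hf, μ, rfl⟩
    refine Submodule.subset_span ⟨A.act γ f, hΦ γ f hf, μ ∘ₗ (A.act γ⁻¹).toLinearMap, ?_⟩
    rw [A.comul_act]
    generalize (comul (R := ℚ) f) = z
    induction z using TensorProduct.induction_on with
    | zero => simp
    | tmul x y => simp
    | add x y hx hy => simp only [map_add, hx, hy]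
  exact h1 hv

/-- A matrix representation realised on functions by left translations. -/
structure MatRepL (A : HopfAction Γ O) (n : ℕ) extends MatRep A n where
  /-- the functions -/
  e : Fin n → O
  /-- dual functionals -/
  ξ : Fin n → (O →ₗ[ℚ] ℚ)
  ξ_e : ∀ i j, ξ i (e j) = if i = j then 1 else 0
  comul_e : ∀ j, comul (R := ℚ) (e j) = ∑ i, a j i ⊗ₜ[ℚ] e i
  act_e : ∀ γ j, A.act γ⁻¹ (e j) = ∑ i, P γ j i • e i

theorem exists_matRepL {Φ : Set O} (hfin : Φ.Finite) (hΦ : ∀ γ, ∀ f ∈ Φ, A.act γ f ∈ Φ) :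
    ∃ (n : ℕ) (ρ : MatRepL A n), (∀ f ∈ Φ, f ∈ Submodule.span ℚ (Set.range fun ij : Fin n × Fin n =>
      ρ.a ij.1 ij.2)) ∧ ∀ f ∈ Φ, f ∈ Submodule.span ℚ (Set.range ρ.e) := by
  classical
  set V := transSpanL Φ with hV
  have hVfg : Module.Finite ℚ V := Module.Finite.iff_fg.mpr (transSpanL_fg hfin)
  let b := Module.finBasis ℚ V
  set n := Module.finrank ℚ V
  let e : Fin n → O := fun i => (b i : O)
  have heV : ∀ i, e i ∈ V := fun i => (b i).2
  have hξ : ∀ i, ∃ ξ : O →ₗ[ℚ] ℚ, ξ ∘ₗ V.subtype = b.coord i := fun i =>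
    LinearMap.exists_extend (b.coord i)
  choose ξ hξ using hξ
  have hξ' : ∀ i (v : O) (hv : v ∈ V), ξ i v = b.repr ⟨v, hv⟩ i := fun i v hv => by
    have := LinearMap.congr_fun (hξ i) ⟨v, hv⟩
    exact this
  have hξe : ∀ i j, ξ i (e j) = if i = j then 1 else 0 := fun i j => by
    rw [hξ' i (e j) (heV j)]
    have : (⟨e j, heV j⟩ : V) = b j := rfl
    rw [this, b.repr_self, Finsupp.single_apply]
    simp only [eq_comm]
  have hsum : ∀ v ∈ V, v = ∑ i, ξ i v • e i := by
    intro v hv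
    have h1 := congrArg Subtype.val (b.sum_repr ⟨v, hv⟩)
    rw [Submodule.coe_sum] at h1
    simp only [Submodule.coe_smul] at h1
    refine h1.symm.trans (Finset.sum_congr rfl fun i _ => ?_)
    rw [hξ' i v hv]
  let a : Matrix (Fin n) (Fin n) O := fun j i => sl (ξ i) (comul (e j))
  have hslsr : ∀ (μ ν : O →ₗ[ℚ] ℚ) (z : O ⊗[ℚ] O), μ (sl ν z) = ν (sr μ z) := by
    intro μ ν z
    induction z using TensorProduct.induction_on with
    | zero => simp
    | tmul x y => simp [mul_comm]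
    | add x y hx hy => simp only [map_add, hx, hy]
  have hcomul : ∀ j, comul (R := ℚ) (e j) = ∑ i, a j i ⊗ₜ[ℚ] e i := by
    intro j
    apply sr_ext
    intro μ
    rw [map_sum, hsum _ (sr_transSpanL μ (heV j))]
    refine Finset.sum_congr rfl fun i _ => ?_
    rw [sr_tmul]
    congr 1
    exact (hslsr μ (ξ i) _).symm
  let Q : Γ → Matrix (Fin n) (Fin n) ℚ := fun γ i j => ξ i (A.act γ (e j))
  have hact : ∀ γ j, A.act γ (e j) = ∑ i, Q γ i j • e i := fun γ j =>
    hsum _ (act_transSpanL A hΦ γ (heV j))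
  have hQmul : ∀ γ δ, Q (γ * δ) = Q γ * Q δ := by
    intro γ δ
    ext i j
    change ξ i (A.act (γ * δ) (e j)) = _
    rw [map_mul, AlgEquiv.mul_apply, hact δ j, map_sum, map_sum, Matrix.mul_apply]
    refine Finset.sum_congr rfl fun k _ => ?_
    rw [map_smul, map_smul, smul_eq_mul, mul_comm]
  have hQone : Q 1 = 1 := by
    ext i j
    change ξ i (A.act 1 (e j)) = _
    rw [map_one, AlgEquiv.one_apply, hξe, Matrix.one_apply]
  let P : Γ →* Matrix (Fin n) (Fin n) ℚ :=
    { toFun := fun γ => (Q γ⁻¹)ᵀ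
      map_one' := by rw [inv_one, hQone, Matrix.transpose_one]
      map_mul' := fun γ δ => by rw [mul_inv_rev, hQmul, Matrix.transpose_mul] }
  have hPQ : ∀ γ i j, P γ i j = Q γ⁻¹ j i := fun γ i j => rfl
  have hcomul_a : ∀ i j, comul (R := ℚ) (a i j) = ∑ k, a i k ⊗ₜ[ℚ] a k j := by
    intro i j
    change comul (R := ℚ) (sl (ξ j) (comul (e i))) = _
    rw [comul_sl]
    conv_lhs => rw [hcomul i]
    rw [map_sum, map_sum]
    refine Finset.sum_congr rfl fun k _ => ?_
    rw [LinearMap.lTensor_tmul, TensorProduct.map_tmul]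
    rfl
  have hact_inv : ∀ γ j, A.act γ⁻¹ (e j) = ∑ i, P γ j i • e i := fun γ j => hact γ⁻¹ j
  refine ⟨n, ⟨⟨a, P, hcomul_a, ?_, ?_, ?_⟩, e, ξ, hξe, hcomul, hact_inv⟩, ?_, ?_⟩
  · intro i j
    change counit (R := ℚ) (sl (ξ j) (comul (e i))) = _
    rw [hslsr, sr_counit, hξe]
    simp only [eq_comm]
  · intro γ i j
    have h1 : sl (ξ j) (comul (R := ℚ) (A.act γ⁻¹ (e i))) = ∑ k, P γ i k • a k j := by
      rw [hact_inv γ i, map_sum, map_sum]
      refine Finset.sum_congr rfl fun k _ => ?_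
      rw [map_smul, map_smul]
    have h2 : sl (ξ j) (comul (R := ℚ) (A.act γ⁻¹ (e i))) = ∑ k, P γ k j • A.act γ⁻¹ (a i k) := by
      rw [A.comul_act, hcomul i, map_sum, map_sum]
      refine Finset.sum_congr rfl fun k _ => ?_
      rw [TensorProduct.map_tmul, sl_tmul]
      change ξ j (A.act γ⁻¹ (e k)) • _ = _
      rfl
    have h3 := congrArg (A.act γ) (h1.symm.trans h2)
    rw [map_sum, map_sum] at h3
    simp only [map_smul] at h3
    have h4 : ∀ x : O, A.act γ (A.act γ⁻¹ x) = x := fun x => by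
      rw [← AlgEquiv.mul_apply, ← map_mul, mul_inv_cancel, map_one, AlgEquiv.one_apply]
    simp only [h4] at h3
    exact h3.symm
  · intro γ hγ
    ext i j
    change ξ j (A.act γ⁻¹ (e i)) = _
    rw [map_inv, hγ, inv_one, AlgEquiv.one_apply, hξe, Matrix.one_apply]
    simp only [eq_comm]
  · intro f hf
    rw [hsum f (subset_transSpanL hf)]
    refine Submodule.sum_mem _ fun j _ => Submodule.smul_mem _ _ ?_
    have h3 : e j = ∑ i, counit (R := ℚ) (e i) • a j i := by
      have h4 := congrArg (LinearMap.lTensor O (counit (R := ℚ) (A := O))) (hcomul j)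
      rw [lTensor_counit_comul, map_sum] at h4
      have h5 := congrArg (TensorProduct.rid ℚ O) h4
      rw [map_sum] at h5
      simpa using h5
    change e j ∈ Submodule.span ℚ (Set.range fun ij : Fin n × Fin n => a ij.1 ij.2)
    rw [h3]
    exact Submodule.sum_mem _ fun i _ => Submodule.smul_mem _ _ (Submodule.subset_span ⟨(j, i), rfl⟩)
  · intro f hf
    rw [hsum f (subset_transSpanL hf)]
    exact Submodule.sum_mem _ fun j _ => Submodule.smul_mem _ _ (Submodule.subset_span ⟨j, rfl⟩)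


section Embed

variable {A} {K : Type} [Field K] [Algebra ℚ K] {n : ℕ} (ρ : MatRepL A n)

namespace MatRepL

/-- The embedding of `Kⁿ` in `K ⊗ O`. -/
noncomputable def emb (K : Type) [Field K] [Algebra ℚ K] : (Fin n → K) →ₗ[K] K ⊗[ℚ] O :=
  Fintype.linearCombination K (fun j => (1 : K) ⊗ₜ[ℚ] ρ.e j)

lemma emb_apply (v : Fin n → K) : ρ.emb K v = ∑ j, v j ⊗ₜ[ℚ] ρ.e j := by
  rw [emb, Fintype.linearCombination_apply]
  refine Finset.sum_congr rfl fun j _ => ?_
  rw [TensorProduct.smul_tmul', smul_eq_mul, mul_one]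

lemma emb_injective : Function.Injective (ρ.emb K) := by
  intro v w h
  ext i
  have h1 := congrArg (fun z => (TensorProduct.rid ℚ K) (LinearMap.lTensor K (ρ.ξ i) z)) h
  simp only [emb_apply, map_sum, LinearMap.lTensor_tmul, ρ.ξ_e, TensorProduct.rid_tmul] at h1
  simpa using h1

lemma transl_emb (x : A.LGroup K) (v : Fin n → K) :
    A.transl x.left x.right (ρ.emb K v) = ρ.emb K ((ρ.ev K x)ᵀ *ᵥ v) := by
  have h1 : ∀ (c : K) j, A.transl x.left x.right (c ⊗ₜ[ℚ] ρ.e j) =
      ∑ k, (c * ρ.ev K x j k) ⊗ₜ[ℚ] ρ.e k := by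
    intro c j
    rw [HopfAction.transl, LinearMap.liftBaseChange_tmul, LinearMap.comp_apply, ρ.comul_e, map_sum]
    simp only [TensorProduct.map_tmul]
    have h2 : ∀ i, (x.left.hom.toLinearMap (ρ.a j i)) ⊗ₜ[ℚ] ((A.act x.right⁻¹).toLinearMap (ρ.e i)) =
        ∑ k, (x.left.hom (ρ.a j i) * algebraMap ℚ K (ρ.P x.right i k)) ⊗ₜ[ℚ] ρ.e k := by
      intro i
      change (x.left.hom (ρ.a j i)) ⊗ₜ[ℚ] (A.act x.right⁻¹ (ρ.e i)) = _
      rw [ρ.act_e, TensorProduct.tmul_sum]
      refine Finset.sum_congr rfl fun k _ => ?_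
      rw [TensorProduct.tmul_smul, TensorProduct.smul_tmul', Algebra.smul_def, mul_comm]
    rw [Finset.sum_congr rfl fun i _ => h2 i, Finset.sum_comm, Finset.smul_sum]
    refine Finset.sum_congr rfl fun k _ => ?_
    rw [← TensorProduct.sum_tmul, TensorProduct.smul_tmul', smul_eq_mul]
    congr 2
  rw [emb_apply, map_sum, emb_apply]
  rw [Finset.sum_congr rfl fun j _ => h1 (v j) j, Finset.sum_comm]
  refine Finset.sum_congr rfl fun k _ => ?_
  rw [← TensorProduct.sum_tmul]
  congr 1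
  rw [Matrix.mulVec, dotProduct]
  exact Finset.sum_congr rfl fun j _ => mul_comm _ _

end MatRepL

end Embed

end Rep
end Pool.Agent.Lib.MP_666dc0_nt
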