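import Pool.Agent.Lib.MP_666dc0_nt.CAdic
import Pool.Agent.Lib.MP_666dc0_nt.CDefs

open TensorProduct Coalgebra Polynomial NumberField IsDedekindDomain Topology
open scoped TensorProduct Matrix NumberField Pointwise

namespace Pool.Agent.Lib.MP_666dc0_nt.OverB

set_option linter.unusedSectionVars false

section Bounded

variable {F : Type*} [Field F] [NumberField F] {O : Type} [CommRing O] [HopfAlgebra ℤ O]
  (A : HopfAction ℤ Gal(AlgebraicClosure F/F) O)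

variable {A} {n : ℕ} (ρ : MatRepL A n) {K : Type} [Field K] [CharZero K]
  [Algebra.IsAlgebraic ℚ K]

/-- The characteristic polynomials of the bounded classes are finite in number. -/
lemma exists_finite_cpx (hA : IsOpen (A.act.ker : Set Gal(AlgebraicClosure F/F)))
    (E : IntermediateField ℚ K) [FiniteDimensional ℚ E] (C : O → ℝ) :
    ∃ PP : Set (𝓞 K)[X], PP.Finite ∧ ∀ (σ : Gal(AlgebraicClosure F/F)) (x : A.inv σ →+* 𝓞 K),
      IsBoundedPt A E C σ x → ρ.cpx σ x ∈ PP := by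
  obtain ⟨B, hB⟩ := ((finite_cpF_coeff ρ.toMatRep hA).image C).bddAbove
  refine ⟨_, finite_polys _ (finite_bounded E B) n, fun σ x hx => ⟨cpx_natDegree_le _ σ x,
    fun i => ?_⟩⟩
  obtain ⟨f, hf1, hf2⟩ := cpx_coeff ρ.toMatRep σ x i
  rw [hf2]
  refine ⟨(hx f).1, fun τ => ((hx f).2 τ).trans (hB ⟨_, ?_, rfl⟩)⟩
  rw [hf1]
  exact Set.mem_iUnion.mpr ⟨σ, i, rfl⟩

variable [IsAlgClosed K] {S : Finset (HeightOneSpectrum (𝓞 F))}
  {φ : HeightOneSpectrum (𝓞 F) → Gal(AlgebraicClosure F/F)} {x : ∀ v, A.inv (φ v) →+* 𝓞 K}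

lemma GoodAt.eigen {v : HeightOneSpectrum (𝓞 F)} (hv : GoodAt ρ (φ v) (x v)) :
    ∃ s : Multiset (𝓞 K), (∃ M : ℕ, 0 < M ∧ ∀ c ∈ s, c ^ M = 1) ∧
      ∀ (ℓ : ℕ) (D : ResData A S φ x ℓ), v ∉ S → (ℓ : 𝓞 F) ∉ v.asIdeal → ∀ j : ℕ,
        ((ρ.ev D.k (D.r (φ v))) ^ j = 1 ↔ ∀ c ∈ s, D.π c ^ j = 1) := by
  obtain ⟨s, hs1, hs2⟩ := hv
  refine ⟨s, hs1, fun ℓ D hvS hvℓ j => ?_⟩
  have hc := D.conj v hvS hvℓ
  exact eigen_of_cpx ρ hs2 D.k D.π (D.r (φ v)) (D.adm.proj _) hc.semisimple (fun f => hc.value f) j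

lemma goodAt_of_isTorsionPt (hA : IsOpen (A.act.ker : Set Gal(AlgebraicClosure F/F)))
    {v : HeightOneSpectrum (𝓞 F)} (hv : IsTorsionPt A (φ v) (x v)) : GoodAt ρ (φ v) (x v) := by
  obtain ⟨t, ht, htm, htx⟩ := hv
  exact goodAt_of_torsion ρ (φ v) (exists_pow_act hA (φ v)) (x v) t ht htm htx

/-- One homomorphism with finite image over a field of characteristic zero. -/
lemma goodAt_of_charZero [Algebra.FiniteType ℤ O]
    (hA : IsOpen (A.act.ker : Set Gal(AlgebraicClosure F/F))) {ℓ : ℕ}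
    (D : ResData A S φ x ℓ) (hD : CharZero D.k) (v : HeightOneSpectrum (𝓞 F)) (hvS : v ∉ S)
    (hvℓ : (ℓ : 𝓞 F) ∉ v.asIdeal) : GoodAt ρ (φ v) (x v) := by
  obtain ⟨s, hs⟩ := exists_int_roots' (ρ.cpx (φ v) (x v)) (cpx_monic ρ.toMatRep _ _)
  obtain ⟨m, hm, hm'⟩ := D.pow_index ρ hA
  have hc := D.conj v hvS hvℓ
  refine ⟨s, ⟨m, hm, fun c hc' => ?_⟩, hs⟩
  have h1 := (eigen_of_cpx ρ hs D.k D.π (D.r (φ v)) (D.adm.proj _) hc.semisimple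
    (fun f => hc.value f) m).mp (hm' _) c hc'
  by_contra h2
  obtain ⟨N, hN, hN'⟩ := exists_bad_nat (c ^ m - 1) (sub_ne_zero.mpr h2)
  have h3 := hN' D.k D.π (by rw [map_sub, map_pow, h1, map_one, sub_self])
  exact hN.ne' (by exact_mod_cast h3)

/-- Homomorphisms modulo infinitely many primes: all classes are good. -/
theorem goodAt_of_infinite [Algebra.FiniteType ℤ O]
    (hA : IsOpen (A.act.ker : Set Gal(AlgebraicClosure F/F)))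
    (hφ : ∀ v, v ∉ S → ∃ P : Ideal (𝓞 (AlgebraicClosure F)), IsOver v P ∧
      (IsFrob v P (φ v) ∨ IsFrob v P (φ v)⁻¹))
    (E : IntermediateField ℚ K) [FiniteDimensional ℚ E] (C : O → ℝ)
    (hx : HasDens {v | v ∉ S ∧ ¬ (IsTorsionPt A (φ v) (x v) ∨ IsBoundedPt A E C (φ v) (x v))} 0)
    (hinf : {ℓ : ℕ | ℓ.Prime ∧ Nonempty (ResData A S φ x ℓ)}.Infinite)
    (v : HeightOneSpectrum (𝓞 F)) (hvS : v ∉ S) : GoodAt ρ (φ v) (x v) := by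
  classical
  obtain ⟨p, ⟨hp, ⟨D₀⟩⟩⟩ := hinf.nonempty
  obtain ⟨q, ⟨hq, ⟨D₁⟩⟩, hqp⟩ := hinf.exists_notMem_finite (Set.finite_singleton p)
  have hpq : p ≠ q := fun h => hqp h.symm
  obtain ⟨M, hM, hMb⟩ := exists_bound_order ρ hA hp hq hpq D₀ D₁
  obtain ⟨PP, hPP, hPP'⟩ := exists_finite_cpx ρ hA E C
  let cp1 : (𝓞 K)[X] := (1 : Matrix (Fin n) (Fin n) (𝓞 K)).charpoly
  -- bad primes for the polynomials
  have hbad : ∀ P : (𝓞 K)[X], ∃ N : ℕ, 0 < N ∧ (P ≠ cp1 → ∀ (k : Type) [Field k] (π : 𝓞 K →+* k),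
      P.map π = (1 : Matrix (Fin n) (Fin n) k).charpoly → (N : k) = 0) := by
    intro P
    by_cases hP : P = cp1
    · exact ⟨1, one_pos, fun h => absurd hP h⟩
    · obtain ⟨i, hi⟩ : ∃ i, P.coeff i ≠ cp1.coeff i := by
        by_contra hcon
        push Not at hcon
        exact hP (Polynomial.ext hcon)
      obtain ⟨N, hN, hN'⟩ := exists_bad_nat (P.coeff i - cp1.coeff i) (sub_ne_zero.mpr hi)
      refine ⟨N, hN, fun _ k _ π h => hN' k π ?_⟩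
      have h1 : (1 : Matrix (Fin n) (Fin n) k).charpoly = cp1.map π := by
        rw [← Matrix.charpoly_map]
        simp
      rw [h1] at h
      rw [map_sub, ← Polynomial.coeff_map, ← Polynomial.coeff_map, h, sub_self]
  choose N hN hN' using hbad
  let Λ : Set ℕ := {ℓ : ℕ | ℓ.Prime ∧ Nonempty (ResData A S φ x ℓ)} \
    ({ℓ | ℓ ∣ M} ∪ ⋃ P ∈ PP, {ℓ | ℓ ∣ N P})
  have hdiv : ∀ m : ℕ, 0 < m → {ℓ : ℕ | ℓ ∣ m}.Finite := by
    intro m hm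
    refine (Finset.range (m + 1)).finite_toSet.subset fun ℓ hℓ => ?_
    simp only [Finset.coe_range, Set.mem_Iio]
    have := Nat.le_of_dvd hm hℓ
    omega
  have hΛ : Λ.Infinite := hinf.sdiff ((hdiv M hM).union (hPP.biUnion fun P _ => hdiv _ (hN P)))
  have hΛ1 : ∀ ℓ ∈ Λ, ¬ ℓ ∣ M := fun ℓ hℓ h => hℓ.2 (Or.inl h)
  have hΛ2 : ∀ ℓ ∈ Λ, ∀ P ∈ PP, ¬ ℓ ∣ N P := fun ℓ hℓ P hP h =>
    hℓ.2 (Or.inr (Set.mem_iUnion₂.mpr ⟨P, hP, h⟩))
  let D : ∀ ℓ : Λ, ResData A S φ x ℓ := fun ℓ => ℓ.2.1.2.some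
  have hprime : ∀ ℓ : Λ, (ℓ : ℕ).Prime := fun ℓ => ℓ.2.1.1
  -- comparison of the kernels
  have hle : ∀ ℓ ℓ' : Λ, kerU ρ.toMatRep (D ℓ).r ≤ kerU ρ.toMatRep (D ℓ').r := by
    intro ℓ ℓ'
    by_contra hne
    have hfin := (((hx.union_zero (hasDens_finite (finite_mem_nat (F := F) p hp.pos))).union_zero
      (hasDens_finite (finite_mem_nat (F := F) q hq.pos))).union_zero
      (hasDens_finite (finite_mem_nat (F := F) _ (hprime ℓ).pos))).union_zero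
      (hasDens_finite (finite_mem_nat (F := F) _ (hprime ℓ').pos))
    obtain ⟨v, hv, hvU, hvU'⟩ := exists_frob_sep (kerU ρ.toMatRep (D ℓ).r)
      (kerU ρ.toMatRep (D ℓ').r) (kerU_normal _ _) (kerU_normal _ _)
      (kerU_open _ hA _ (D ℓ).adm.proj (D ℓ).adm.cont)
      (kerU_open _ hA _ (D ℓ').adm.proj (D ℓ').adm.cont) hne
      ((hasDens_finite S.finite_toSet).union_zero hfin) φ
      (fun v hv => hφ v fun h => hv (Or.inl h))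
    simp only [Finset.mem_coe, Set.mem_union, Set.mem_ofPred_eq,
      not_or, not_and, not_not] at hv
    obtain ⟨hvS, ⟨⟨⟨hvx, hvp⟩, hvq⟩, hvℓ⟩, hvℓ'⟩ := hv
    apply hvU'
    refine ⟨hvU.1, ?_⟩
    have h1 : ρ.ev (D ℓ).k ((D ℓ).r (φ v)) = 1 := hvU.2
    change ρ.ev (D ℓ').k ((D ℓ').r (φ v)) = 1
    rcases or_iff_not_imp_left.mpr (hvx hvS) with htor | hbd
    · obtain ⟨s, hs1, hs2⟩ := (goodAt_of_isTorsionPt ρ hA htor).eigen (S := S) (ρ := ρ)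
      have hsM := hMb v hvS hvp hvq s hs1 hs2
      rw [← pow_one (ρ.ev (D ℓ').k ((D ℓ').r (φ v))), hs2 _ (D ℓ') hvS hvℓ' 1]
      intro c hc
      have h2 := (hs2 _ (D ℓ) hvS hvℓ 1).mp (by rw [pow_one]; exact h1) c hc
      rw [pow_one] at h2
      have h3 := eq_one_of_map_eq_one (D ℓ).π (m := M) ((D ℓ).pk M (hΛ1 _ ℓ.2)) (hsM c hc) h2
      rw [h3, map_one, one_pow]
    · have h2 := cpx_spec ρ.toMatRep (φ v) (x v) (D ℓ).k (D ℓ).π _ ((D ℓ).adm.proj _)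
        (((D ℓ).conj v hvS hvℓ).value)
      have h3 : ρ.cpx (φ v) (x v) = cp1 := by
        by_contra hne1
        refine (D ℓ).pk _ (hΛ2 _ ℓ.2 _ (hPP' _ _ hbd)) (hN' _ hne1 (D ℓ).k (D ℓ).π ?_)
        rw [← h2]
        change (ρ.ev (D ℓ).k ((D ℓ).r (φ v))).charpoly = _
        rw [h1]
      have h4 := cpx_spec ρ.toMatRep (φ v) (x v) (D ℓ').k (D ℓ').π _ ((D ℓ').adm.proj _)
        (((D ℓ').conj v hvS hvℓ').value)
      refine ev_eq_one_of_charpoly ρ _ _ ((D ℓ').conj v hvS hvℓ').semisimple ?_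
      change (ρ.ev (D ℓ').k ((D ℓ').r (φ v))).charpoly = _ at h4
      rw [h4, h3, ← Matrix.charpoly_map]
      simp
  have hinfΛ : Infinite Λ := hΛ.to_subtype
  obtain ⟨ℓ₀⟩ : Nonempty Λ := inferInstance
  have hpow : ∃ m : ℕ, 0 < m ∧ ∀ ℓ : Λ, ∀ γ, ρ.ev (D ℓ).k ((D ℓ).r γ) ^ m = 1 := by
    have h1 := kerU_open ρ.toMatRep hA (D ℓ₀).r (D ℓ₀).adm.proj (D ℓ₀).adm.cont
    have h2 : Finite (Gal(AlgebraicClosure F/F) ⧸ kerU ρ.toMatRep (D ℓ₀).r) :=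
      Subgroup.quotient_finite_of_isOpen _ h1
    have h3 : (kerU ρ.toMatRep (D ℓ₀).r).FiniteIndex := Subgroup.finiteIndex_of_finite_quotient
    have h4 := kerU_normal ρ.toMatRep (D ℓ₀).r
    refine ⟨(kerU ρ.toMatRep (D ℓ₀).r).index, Nat.pos_of_ne_zero h3.index_ne_zero, fun ℓ γ => ?_⟩
    have h5 := (hle ℓ₀ ℓ (Subgroup.pow_index_mem (kerU ρ.toMatRep (D ℓ₀).r) γ)).2
    rw [← map_pow, ← map_pow]
    exact h5
  obtain ⟨m, hm, hm'⟩ := hpow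
  obtain ⟨s, hs⟩ := exists_int_roots' (ρ.cpx (φ v) (x v)) (cpx_monic ρ.toMatRep _ _)
  refine ⟨s, ⟨m, hm, fun c hc => ?_⟩, hs⟩
  by_contra h2
  obtain ⟨N', hN1, hN2⟩ := exists_bad_nat (c ^ m - 1) (sub_ne_zero.mpr h2)
  have hfin2 : {ℓ : ℕ | ℓ ∈ Λ ∧ ((ℓ : 𝓞 F) ∈ v.asIdeal ∨ ℓ ∣ N')}.Finite := by
    refine ((Set.Subsingleton.finite (s := {ℓ : ℕ | ℓ ∈ Λ ∧ (ℓ : 𝓞 F) ∈ v.asIdeal}) ?_).union
      (hdiv N' hN1)).subset ?_
    · rintro ℓ ⟨hℓ, h1⟩ ℓ' ⟨hℓ', h1'⟩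
      exact eq_of_mem_prime v hℓ.1.1 hℓ'.1.1 h1 h1'
    · rintro ℓ ⟨hℓ, h1 | h1⟩
      · exact Or.inl ⟨hℓ, h1⟩
      · exact Or.inr h1
  obtain ⟨ℓ, hℓ, hℓ'⟩ := hΛ.exists_notMem_finite hfin2
  have h3 : (ℓ : 𝓞 F) ∉ v.asIdeal := fun h => hℓ' ⟨hℓ, Or.inl h⟩
  have h4 : ¬ ℓ ∣ N' := fun h => hℓ' ⟨hℓ, Or.inr h⟩
  let Dℓ : ResData A S φ x ℓ := D ⟨ℓ, hℓ⟩
  have hc' := Dℓ.conj v hvS h3
  have h5 := (eigen_of_cpx ρ hs Dℓ.k Dℓ.π (Dℓ.r (φ v)) (Dℓ.adm.proj _) hc'.semisimple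
    (fun f => hc'.value f) m).mp (hm' ⟨ℓ, hℓ⟩ _) c hc
  exact Dℓ.pk N' h4 (hN2 Dℓ.k Dℓ.π (by rw [map_sub, map_pow, h5, map_one, sub_self]))

/-- An `ℓ`-adic homomorphism attached to a mixed family gives residual data. -/
theorem HasGaloisRep.resData' [Algebra.FiniteType ℤ O]
    (hfree : @Module.Free ℤ O _ _ Algebra.toModule)
    (hA : IsOpen (A.act.ker : Set Gal(AlgebraicClosure F/F)))
    (hφ : ∀ v, v ∉ S → ∃ P : Ideal (𝓞 (AlgebraicClosure F)), IsOver v P ∧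
      (IsFrob v P (φ v) ∨ IsFrob v P (φ v)⁻¹))
    (E : IntermediateField ℚ K) [FiniteDimensional ℚ E] (C : O → ℝ)
    (hx : HasDens {v | v ∉ S ∧ ¬ (IsTorsionPt A (φ v) (x v) ∨ IsBoundedPt A E C (φ v) (x v))} 0)
    {ℓ : ℕ} (hℓ : 0 < ℓ)
    {L : Type} [NormedField L] [IsUltrametricDist L] [IsAlgClosed L] [CharZero L] {c : ℝ}
    (hc0 : 0 < c) (hc1 : c ≤ 1) (hcq : ∀ q : ℕ, q.Prime → c ≤ ‖(q : L)‖) (ι : K →+* L)
    (h : HasGaloisRep A S φ x ℓ ι) : ∃ D : ResData A S φ x ℓ, CharZero D.k := by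
  classical
  obtain ⟨r, hr, hconj⟩ := h
  obtain ⟨Φ₀, hΦ₀⟩ := ‹Algebra.FiniteType ℤ O›.out
  obtain ⟨Φ, hΦfin, hΦ₀Φ, hΦst⟩ := exists_stable (A := A) hA Φ₀.finite_toSet
  obtain ⟨n, ρ, hρ, -⟩ := exists_matRepL A hΦfin hΦst
  have hΦ : Algebra.adjoin ℤ Φ = ⊤ := by
    rw [eq_top_iff, ← hΦ₀]
    exact Algebra.adjoin_mono hΦ₀Φ
  obtain ⟨PP, hPP, hPP'⟩ := exists_finite_cpx ρ hA E C
  have hfin := (hasDens_finite S.finite_toSet).union_zero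
    (hx.union_zero (hasDens_finite (finite_mem_nat (F := F) ℓ hℓ)))
  have hopen := kerU_open_of_mixed ρ hc0 hc1 hcq hA r hr hfin φ
    (fun v hv => hφ v fun h => hv (Or.inl h))
    ((fun P => P.map (ι.comp (algebraMap (𝓞 K) K))) '' PP) (hPP.image _) (by
      intro v hv
      simp only [Finset.mem_coe, Set.mem_union, Set.mem_ofPred_eq,
        not_or, not_and, not_not] at hv
      obtain ⟨hvS, hvx, hvℓ⟩ := hv
      have hc := hconj v hvS hvℓ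
      rcases or_iff_not_imp_left.mpr (hvx hvS) with htor | hbd
      · left
        obtain ⟨s, ⟨M, hM, hs1⟩, hs2⟩ := goodAt_of_isTorsionPt ρ hA htor
        refine ⟨M, hM, ?_⟩
        refine (eigen_of_cpx ρ hs2 L (ι.comp (algebraMap (𝓞 K) K)) (r (φ v)) (hr.proj _)
          hc.semisimple (fun f => hc.value f) M).mpr fun c hc => ?_
        rw [← map_pow, hs1 c hc, map_one]
      · right
        refine ⟨⟨_, hPP' _ _ hbd, ?_⟩, hc.semisimple⟩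
        exact (cpx_spec ρ.toMatRep (φ v) (x v) L (ι.comp (algebraMap (𝓞 K) K)) (r (φ v))
          (hr.proj _) (fun f => hc.value f)).symm)
  refine ⟨⟨L, inferInstance, inferInstance, fun m hm => ?_, ι.comp (algebraMap (𝓞 K) K), r,
    ⟨hr.proj, fun f => ?_⟩, hconj⟩, inferInstance⟩
  · have : m ≠ 0 := fun h0 => hm (by rw [h0]; exact dvd_zero _)
    exact_mod_cast this
  · rw [IsLocallyConstant.iff_exists_open]
    intro γ
    refine ⟨γ • (kerU ρ.toMatRep r : Set Gal(AlgebraicClosure F/F)), hopen.smul γ,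
      ⟨1, one_mem _, by simp⟩, ?_⟩
    rintro _ ⟨u, hu, rfl⟩
    change (r (γ * u)).left.hom f = _
    have h1 : (r u).left = 1 := by
      refine ρ.left_eq_one hΦ hρ ?_ hu.2
      rw [hr.proj]
      exact hu.1
    rw [map_mul, SemidirectProduct.mul_left, h1, map_one, mul_one]

end Bounded

end Pool.Agent.Lib.MP_666dc0_nt.OverB
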