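import Pool.Agent.Lib.MP_666dc0_nt.Extend

open TensorProduct Coalgebra Topology NumberField IsDedekindDomain Polynomial
open scoped TensorProduct Matrix Pointwise NumberField

namespace Pool.Agent.Lib.MP_666dc0_nt

set_option linter.unusedSectionVars false

section Conj

variable {F : Type*} [Field F] [NumberField F] {O : Type} [CommRing O] [HopfAlgebra ℚ O]
  {A : HopfAction Gal(AlgebraicClosure F/F) O} {K : Type} [Field K] [Algebra ℚ K]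

/-- The conjugate of a subgroup. -/
def conjSub (V : Subgroup Gal(AlgebraicClosure F/F)) (g : Gal(AlgebraicClosure F/F)) :
    Subgroup Gal(AlgebraicClosure F/F) where
  carrier := {γ | g⁻¹ * γ * g ∈ V}
  mul_mem' := by
    intro a b ha hb
    have h1 := V.mul_mem ha hb
    have h2 : g⁻¹ * a * g * (g⁻¹ * b * g) = g⁻¹ * (a * b) * g := by group
    rw [h2] at h1
    exact h1
  one_mem' := by
    change g⁻¹ * 1 * g ∈ V
    have : g⁻¹ * 1 * g = 1 := by group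
    rw [this]; exact V.one_mem
  inv_mem' := by
    intro a ha
    have h1 := V.inv_mem ha
    have h2 : (g⁻¹ * a * g)⁻¹ = g⁻¹ * a⁻¹ * g := by group
    rw [h2] at h1
    exact h1

lemma mem_conjSub {V : Subgroup Gal(AlgebraicClosure F/F)} {g γ : Gal(AlgebraicClosure F/F)} :
    γ ∈ conjSub V g ↔ g⁻¹ * γ * g ∈ V := Iff.rfl

lemma isOpen_conjSub {V : Subgroup Gal(AlgebraicClosure F/F)}
    (hV : IsOpen (V : Set Gal(AlgebraicClosure F/F))) (g : Gal(AlgebraicClosure F/F)) :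
    IsOpen (conjSub V g : Set Gal(AlgebraicClosure F/F)) := by
  have h1 : Continuous fun γ : Gal(AlgebraicClosure F/F) => g⁻¹ * γ * g := by fun_prop
  exact hV.preimage h1

/-- The conjugate of a homomorphism. -/
noncomputable def conjHom {V : Subgroup Gal(AlgebraicClosure F/F)} (r : V →* A.LGroup K)
    (g : Gal(AlgebraicClosure F/F)) : conjSub V g →* A.LGroup K where
  toFun γ := SemidirectProduct.inr g * r ⟨g⁻¹ * γ * g, γ.2⟩ * (SemidirectProduct.inr g)⁻¹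
  map_one' := by
    have h1 : (⟨g⁻¹ * ((1 : conjSub V g) : Gal(AlgebraicClosure F/F)) * g, (1 : conjSub V g).2⟩ : V) = 1 := by
      apply Subtype.ext
      simp
    rw [h1, map_one, mul_one, mul_inv_cancel]
  map_mul' a b := by
    have h1 : (⟨g⁻¹ * ((a * b : conjSub V g) : Gal(AlgebraicClosure F/F)) * g, (a * b : conjSub V g).2⟩ : V) =
      ⟨g⁻¹ * a * g, a.2⟩ * ⟨g⁻¹ * b * g, b.2⟩ := by
      apply Subtype.ext
      simp [mul_assoc]
    rw [h1, map_mul]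
    group

lemma conjHom_apply {V : Subgroup Gal(AlgebraicClosure F/F)} (r : V →* A.LGroup K)
    (g : Gal(AlgebraicClosure F/F)) (γ : conjSub V g) :
    conjHom r g γ = SemidirectProduct.inr g * r ⟨g⁻¹ * γ * g, γ.2⟩ * (SemidirectProduct.inr g)⁻¹ :=
  rfl

lemma IsAdmissibleOn.conjHom [TopologicalSpace K] {V : Subgroup Gal(AlgebraicClosure F/F)}
    {r : V →* A.LGroup K} (h : IsAdmissibleOn A V r) (g : Gal(AlgebraicClosure F/F)) :
    IsAdmissibleOn A (conjSub V g) (conjHom r g) where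
  proj γ := by
    rw [conjHom_apply, A.conj_inr_right, h.proj]
    group
  cont f := by
    have h1 : (fun γ : conjSub V g => (Pool.Agent.Lib.MP_666dc0_nt.conjHom r g γ).left.hom f) =
        fun γ : conjSub V g => (r ⟨g⁻¹ * γ * g, γ.2⟩).left.hom (A.act g⁻¹ f) := by
      ext γ
      rw [conjHom_apply, A.conj_inr_left, A.onPts_hom_apply]
    rw [h1]
    refine (h.cont _).comp ?_
    refine Continuous.subtype_mk ?_ _
    have h2 : Continuous fun γ : Gal(AlgebraicClosure F/F) => g⁻¹ * γ * g := by fun_prop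
    exact h2.comp continuous_subtype_val

variable {S' : Set (HeightOneSpectrum (𝓞 F))} {φ : HeightOneSpectrum (𝓞 F) → Gal(AlgebraicClosure F/F)}
    {x : ∀ v, A.inv (φ v) →+* K}

lemma Val.conjHom {V : Subgroup Gal(AlgebraicClosure F/F)} {r : V →* A.LGroup K}
    (h : Val A S' φ x V r) (g : Gal(AlgebraicClosure F/F)) :
    Val A S' φ x (conjSub V g) (conjHom r g) := by
  intro v hv P hP δ hδ hF f
  have hP' : IsSplitAt v (g⁻¹ • P) V := by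
    refine ⟨hP.1.smul g⁻¹, stab_conj g fun δ hδ => ?_⟩
    exact hP.2 δ hδ
  have e1 : g⁻¹ * (δ * φ v * δ⁻¹) * g = (g⁻¹ * δ) * φ v * (g⁻¹ * δ)⁻¹ := by group
  have hδ' : (g⁻¹ * δ) * φ v * (g⁻¹ * δ)⁻¹ ∈ V := by rw [← e1]; exact hδ
  have hF' : IsFrob v (g⁻¹ • P) ((g⁻¹ * δ) * φ v * (g⁻¹ * δ)⁻¹) ∨
      IsFrob v (g⁻¹ • P) ((g⁻¹ * δ) * φ v * (g⁻¹ * δ)⁻¹)⁻¹ := by
    rw [← e1]
    rcases hF with h1 | h1
    · left
      have := h1.conj g⁻¹
      rwa [inv_inv] at this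
    · right
      have := h1.conj g⁻¹
      rw [inv_inv] at this
      have e2 : (g⁻¹ * (δ * φ v * δ⁻¹) * g)⁻¹ = g⁻¹ * (δ * φ v * δ⁻¹)⁻¹ * g := by group
      rwa [e2]
  have h2 := h v hv (g⁻¹ • P) hP' (g⁻¹ * δ) hδ' hF' f
  rw [← h2]
  congr 2
  rw [conjHom_apply]
  have e3 : (⟨g⁻¹ * ((⟨δ * φ v * δ⁻¹, hδ⟩ : conjSub V g) : Gal(AlgebraicClosure F/F)) * g,
      (⟨δ * φ v * δ⁻¹, hδ⟩ : conjSub V g).2⟩ : V) = ⟨(g⁻¹ * δ) * φ v * (g⁻¹ * δ)⁻¹, hδ'⟩ :=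
    Subtype.ext e1
  rw [e3, map_mul, map_inv]
  congr 1
  group

end Conj

section Compare

variable {F : Type*} [Field F] [NumberField F] {O : Type} [CommRing O] [HopfAlgebra ℚ O]
  {A : HopfAction Gal(AlgebraicClosure F/F) O} {K : Type} [Field K] [Algebra ℚ K] [CharZero K]
  [TopologicalSpace K] [IsTopologicalRing K] [T1Space K]
  {S' : Set (HeightOneSpectrum (𝓞 F))} {φ : HeightOneSpectrum (𝓞 F) → Gal(AlgebraicClosure F/F)}
    {x : ∀ v, A.inv (φ v) →+* K}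

/-- Two homomorphisms matching the same family have the same kernel on a normal subgroup. -/
theorem left_eq_one_of_member (hS' : S'.Finite)
    (hker : IsOpen (A.act.ker : Set Gal(AlgebraicClosure F/F)))
    (hφ : ∀ v, v ∉ S' → ∃ P : Ideal (𝓞 (AlgebraicClosure F)), IsOver v P ∧
      (IsFrob v P (φ v) ∨ IsFrob v P (φ v)⁻¹)) {n : ℕ} (ρ : MatRepL A n)
    {Φ : Set O} (hΦ : Algebra.adjoin ℚ Φ = ⊤)
    (hρ : ∀ f ∈ Φ, f ∈ Submodule.span ℚ (Set.range fun ij : Fin n × Fin n => ρ.a ij.1 ij.2))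
    {V₁ V₂ : Subgroup Gal(AlgebraicClosure F/F)} {r₁ : V₁ →* A.LGroup K}
    {r₂ : V₂ →* A.LGroup K} (h₁ : Val A S' φ x V₁ r₁) (h₂ : Val A S' φ x V₂ r₂)
    (ha₁ : IsAdmissibleOn A V₁ r₁) (ha₂ : IsAdmissibleOn A V₂ r₂)
    (hV₁ : IsOpen (V₁ : Set Gal(AlgebraicClosure F/F)))
    (hV₂ : IsOpen (V₂ : Set Gal(AlgebraicClosure F/F)))
    (hcr : IsCompletelyReducible r₂)
    (N : Subgroup Gal(AlgebraicClosure F/F)) (hN : N.Normal) (hNV : N ≤ V₁) (hNker : N ≤ A.act.ker)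
    {γ : Gal(AlgebraicClosure F/F)} (hγ : γ ∈ N) (hγ₂ : γ ∈ V₂) (h : (r₁ ⟨γ, hNV hγ⟩).left = 1) :
    (r₂ ⟨γ, hγ₂⟩).left = 1 := by
  have hact : A.act γ = 1 := hNker hγ
  have hev : ρ.ev K (r₁ ⟨γ, hNV hγ⟩) = 1 :=
    ρ.ev_eq_one h (by rw [ha₁.proj]; exact hact)
  have hX : ρ.ev K (r₂ ⟨γ, hγ₂⟩) - 1 = 0 := by
    refine ev_eq_zero ρ r₂ hcr (N.subgroupOf V₂) (hN.subgroupOf V₂) _ ?_ ?_
    · refine Submodule.sub_mem _ (Submodule.subset_span ⟨⟨γ, hγ₂⟩, hγ, rfl⟩)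
        (Submodule.subset_span ⟨1, (N.subgroupOf V₂).one_mem, ?_⟩)
      change ρ.ev K (r₂ 1) = 1
      rw [map_one, map_one]
    · rintro ⟨δ, hδ₂⟩ hδ
      have hδ' : δ ∈ N := hδ
      rw [sub_mul, one_mul, Matrix.trace_sub, ← map_mul, ← map_mul, sub_eq_zero]
      have e1 := ρ.trace_eq (Val.eqv_of_mem hS' hker hφ h₁ h₂ ha₁ ha₂ hV₁ hV₂
        (γ := γ * δ) (hNV (N.mul_mem hγ hδ')) (V₂.mul_mem hγ₂ hδ₂))
      have e2 := ρ.trace_eq (Val.eqv_of_mem hS' hker hφ h₁ h₂ ha₁ ha₂ hV₁ hV₂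
        (γ := δ) (hNV hδ') hδ₂)
      have e3 : r₁ ⟨γ * δ, hNV (N.mul_mem hγ hδ')⟩ = r₁ ⟨γ, hNV hγ⟩ * r₁ ⟨δ, hNV hδ'⟩ := by
        rw [← map_mul]; rfl
      have e4 : (⟨γ, hγ₂⟩ * ⟨δ, hδ₂⟩ : V₂) = ⟨γ * δ, V₂.mul_mem hγ₂ hδ₂⟩ := rfl
      rw [e4, ← e1, ← e2, e3, map_mul, hev, one_mul]
  exact ρ.left_eq_one hΦ hρ (by rw [ha₂.proj]; exact hact) (sub_eq_zero.mp hX)

/-- The kernel of the first member on `N`. -/
def kerOn {V : Subgroup Gal(AlgebraicClosure F/F)} (r : V →* A.LGroup K)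
    (N : Subgroup Gal(AlgebraicClosure F/F)) (hNV : N ≤ V) :
    Subgroup Gal(AlgebraicClosure F/F) where
  carrier := {γ | ∃ h : γ ∈ N, (r ⟨γ, hNV h⟩).left = 1}
  mul_mem' := by
    rintro a b ⟨ha, ha'⟩ ⟨hb, hb'⟩
    refine ⟨N.mul_mem ha hb, ?_⟩
    have e3 : r ⟨a * b, hNV (N.mul_mem ha hb)⟩ = r ⟨a, hNV ha⟩ * r ⟨b, hNV hb⟩ := by
      rw [← map_mul]; rfl
    rw [e3, SemidirectProduct.mul_left, ha', hb', map_one, mul_one]
  one_mem' := ⟨N.one_mem, by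
    have : r ⟨1, hNV N.one_mem⟩ = 1 := map_one r
    rw [this]; rfl⟩
  inv_mem' := by
    rintro a ⟨ha, ha'⟩
    refine ⟨N.inv_mem ha, ?_⟩
    have e3 : r ⟨a⁻¹, hNV (N.inv_mem ha)⟩ = (r ⟨a, hNV ha⟩)⁻¹ := by
      rw [← map_inv]; rfl
    rw [e3, SemidirectProduct.inv_left, ha', inv_one, map_one]

theorem kerOn_normal (hS' : S'.Finite)
    (hker : IsOpen (A.act.ker : Set Gal(AlgebraicClosure F/F)))
    (hφ : ∀ v, v ∉ S' → ∃ P : Ideal (𝓞 (AlgebraicClosure F)), IsOver v P ∧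
      (IsFrob v P (φ v) ∨ IsFrob v P (φ v)⁻¹)) {n : ℕ} (ρ : MatRepL A n)
    {Φ : Set O} (hΦ : Algebra.adjoin ℚ Φ = ⊤)
    (hρ : ∀ f ∈ Φ, f ∈ Submodule.span ℚ (Set.range fun ij : Fin n × Fin n => ρ.a ij.1 ij.2))
    {V : Subgroup Gal(AlgebraicClosure F/F)} {r : V →* A.LGroup K}
    (h₁ : Val A S' φ x V r)
    (ha : IsAdmissibleOn A V r)
    (hV : IsOpen (V : Set Gal(AlgebraicClosure F/F)))
    (hcr : IsCompletelyReducible r)
    (N : Subgroup Gal(AlgebraicClosure F/F)) (hN : N.Normal) (hNV : N ≤ V) (hNker : N ≤ A.act.ker) :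
    (kerOn r N hNV).Normal := by
  refine ⟨?_⟩
  rintro z ⟨hz, hz'⟩ g
  have hgN : g * z * g⁻¹ ∈ N := hN.conj_mem z hz g
  refine ⟨hgN, ?_⟩
  have hNV' : N ≤ conjSub V g := by
    intro γ hγ
    rw [mem_conjSub]
    have := hN.conj_mem γ hγ g⁻¹
    rw [inv_inv] at this
    exact hNV this
  refine left_eq_one_of_member hS' hker hφ ρ hΦ hρ (h₁.conjHom g) h₁ (ha.conjHom g) ha
    (isOpen_conjSub hV g) hV hcr N hN hNV' hNker hgN (hNV hgN) ?_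
  rw [conjHom_apply, A.conj_inr_left]
  have e1 : (⟨g⁻¹ * ((⟨g * z * g⁻¹, hNV' hgN⟩ : conjSub V g) : Gal(AlgebraicClosure F/F)) * g,
    (⟨g * z * g⁻¹, hNV' hgN⟩ : conjSub V g).2⟩ : V) = ⟨z, hNV hz⟩ := by
    apply Subtype.ext
    change g⁻¹ * (g * z * g⁻¹) * g = z
    group
  rw [e1, hz', map_one]

end Compare

end Pool.Agent.Lib.MP_666dc0_nt
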