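import Pool.Agent.Lib.MP_666dc0_nt.Compare

open TensorProduct Coalgebra Topology NumberField IsDedekindDomain Polynomial
open scoped TensorProduct Matrix Pointwise NumberField

namespace Pool.Agent.Lib.MP_666dc0_nt

set_option linter.unusedSectionVars false

section GaloisLemmas

lemma isOpen_normalCore {G : Type*} [Group G] [TopologicalSpace G] [IsTopologicalGroup G]
    [CompactSpace G] (W : Subgroup G) (hW : IsOpen (W : Set G)) :
    IsOpen (W.normalCore : Set G) := by
  have hWfin : W.FiniteIndex := by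
    have := Subgroup.quotient_finite_of_isOpen W hW
    exact Subgroup.finiteIndex_of_finite_quotient (H := W)
  exact Subgroup.isOpen_of_isClosed_of_finiteIndex _
    (Subgroup.normalCore_isClosed W (Subgroup.isClosed_of_isOpen W hW))

variable {F A : Type*} [Field F] [Field A] [Algebra F A] [IsGalois F A]

lemma finite_fixedField (C : Subgroup Gal(A/F)) (hCn : C.Normal)
    (hCo : IsOpen (C : Set Gal(A/F))) :
    (IntermediateField.fixedField C).fixingSubgroup = C ∧
      FiniteDimensional F (IntermediateField.fixedField C) ∧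
        IsGalois F (IntermediateField.fixedField C) := by
  let Cc : ClosedSubgroup Gal(A/F) := ⟨C, Subgroup.isClosed_of_isOpen C hCo⟩
  have h1 : (IntermediateField.fixedField C).fixingSubgroup = C :=
    InfiniteGalois.fixingSubgroup_fixedField Cc
  refine ⟨h1, ?_, ?_⟩
  · rw [← InfiniteGalois.isOpen_iff_finite, h1]; exact hCo
  · rw [← InfiniteGalois.normal_iff_isGalois, h1]; exact hCn

lemma exists_mul_of_disjoint (C : Subgroup Gal(A/F)) (hCn : C.Normal)
    (hCo : IsOpen (C : Set Gal(A/F))) (F' : IntermediateField F A)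
    (hd : F' ⊓ IntermediateField.fixedField C = ⊥) (γ : Gal(A/F)) :
    ∃ h ∈ F'.fixingSubgroup, h⁻¹ * γ ∈ C := by
  let H : Subgroup Gal(A/F) := F'.fixingSubgroup ⊔ C
  have hHo : IsOpen (H : Set Gal(A/F)) := Subgroup.isOpen_mono le_sup_right hCo
  let Hc : ClosedSubgroup Gal(A/F) := ⟨H, Subgroup.isClosed_of_isOpen H hHo⟩
  have h1 : (IntermediateField.fixedField H).fixingSubgroup = H :=
    InfiniteGalois.fixingSubgroup_fixedField Hc
  have h2 : IntermediateField.fixedField H ≤ F' ⊓ IntermediateField.fixedField C := by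
    refine le_inf ?_ (IntermediateField.fixedField_le le_sup_right)
    conv_rhs => rw [← InfiniteGalois.fixedField_fixingSubgroup F']
    exact IntermediateField.fixedField_le le_sup_left
  rw [hd, le_bot_iff] at h2
  rw [h2, IntermediateField.fixingSubgroup_bot] at h1
  have h3 : γ ∈ ((F'.fixingSubgroup ⊔ C : Subgroup Gal(A/F)) : Set Gal(A/F)) := by
    change γ ∈ H
    rw [← h1]; trivial
  rw [Subgroup.mul_normal] at h3
  obtain ⟨h, hh, z, hz, rfl⟩ := h3
  exact ⟨h, hh, by simpa using hz⟩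

end GaloisLemmas

section Core

variable {F : Type*} [Field F] [NumberField F] {O : Type} [CommRing O] [HopfAlgebra ℚ O]
  [Algebra.FiniteType ℚ O]
  {A : HopfAction Gal(AlgebraicClosure F/F) O}

/-- The Frattini property over the whole group. -/
theorem exists_core (hker : IsOpen (A.act.ker : Set Gal(AlgebraicClosure F/F)))
    {n : ℕ} (ρ : MatRep A n)
    {Φ : Set O} (hΦ : Algebra.adjoin ℚ Φ = ⊤)
    (hρ : ∀ f ∈ Φ, f ∈ Submodule.span ℚ (Set.range fun ij : Fin n × Fin n => ρ.a ij.1 ij.2))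
    (ℓ : ℕ) [Fact ℓ.Prime] {V : Subgroup Gal(AlgebraicClosure F/F)}
    {r : V →* A.LGroup (PadicAlgCl ℓ)} (ha : IsAdmissibleOn A V r)
    (hV : IsOpen (V : Set Gal(AlgebraicClosure F/F)))
    (N : Subgroup Gal(AlgebraicClosure F/F)) (hNo : IsOpen (N : Set Gal(AlgebraicClosure F/F)))
    (hNV : N ≤ V) (hNker : N ≤ A.act.ker) :
    ∃ C : Subgroup Gal(AlgebraicClosure F/F), C.Normal ∧
      IsOpen (C : Set Gal(AlgebraicClosure F/F)) ∧
      ∀ H : Subgroup Gal(AlgebraicClosure F/F), IsOpen (H : Set Gal(AlgebraicClosure F/F)) →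
        kerOn r N hNV ≤ H → (∀ γ, ∃ h ∈ H, h⁻¹ * γ ∈ C) → ∀ γ, γ ∈ H := by
  have hVc : IsClosed (V : Set Gal(AlgebraicClosure F/F)) := Subgroup.isClosed_of_isOpen V hV
  have hcomp : CompactSpace V := isCompact_iff_compactSpace.mp hVc.isCompact
  obtain ⟨U, hU1, hU2⟩ := exists_frattini hker ρ ℓ r (fun γ : V => (γ : Gal(AlgebraicClosure F/F)))
    continuous_subtype_val ha.proj ha.cont (N.subgroupOf V) (hNo.preimage continuous_subtype_val)
  let U' : Subgroup Gal(AlgebraicClosure F/F) := U.map V.subtype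
  have hU' : IsOpen (U' : Set Gal(AlgebraicClosure F/F)) :=
    hV.isOpenMap_subtype_val _ hU1
  have hU'V : U' ≤ V := by
    rintro _ ⟨u, -, rfl⟩
    exact u.2
  refine ⟨U'.normalCore, Subgroup.normalCore_normal U', isOpen_normalCore U' hU', ?_⟩
  intro H hH hZ hcov
  have hCV : U'.normalCore ≤ V := (Subgroup.normalCore_le U').trans hU'V
  have h1 : H.subgroupOf V = ⊤ := by
    refine hU2 (H.subgroupOf V) (hH.preimage continuous_subtype_val) ?_ ?_
    · intro γ hγ h1
      refine hZ ⟨hγ, ?_⟩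
      exact ρ.left_eq_one hΦ hρ (by rw [ha.proj]; exact hNker hγ) h1
    · intro γ
      obtain ⟨h, hh, hc⟩ := hcov γ
      have hhV : h ∈ V := by
        have h2 := V.mul_mem γ.2 (V.inv_mem (hCV hc))
        have h3 : (γ : Gal(AlgebraicClosure F/F)) * (h⁻¹ * γ)⁻¹ = h := by group
        rwa [h3] at h2
      refine ⟨⟨h, hhV⟩, hh, ?_⟩
      obtain ⟨u, hu, hu'⟩ := Subgroup.normalCore_le U' hc
      have h4 : u = (⟨h, hhV⟩ : V)⁻¹ * γ := Subtype.ext hu'
      rwa [← h4]
  have hVH : V ≤ H := Subgroup.subgroupOf_eq_top.mp h1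
  intro γ
  obtain ⟨h, hh, hc⟩ := hcov γ
  have h2 := H.mul_mem hh (hVH (hCV hc))
  rwa [mul_inv_cancel_left] at h2

end Core

end Pool.Agent.Lib.MP_666dc0_nt
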