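import Pool.Agent.Lib.MP_666dc0_nt.Mg.G053
import Pool.Agent.Lib.MP_666dc0_nt.Mg.G099

open TensorProduct Coalgebra Topology NumberField IsDedekindDomain Polynomial
open scoped TensorProduct Matrix Pointwise NumberField

namespace Pool.Agent.Lib.MP_666dc0_nt

set_option linter.unusedSectionVars false

section Field

variable {O : Type} [CommRing O] [HopfAlgebra ℚ O] {Γ : Type*} [Group Γ] {A : HopfAction Γ O}
  {G : Type*} [Group G]

lemma exists_corestrictG {R S : Type} [CommRing R] [Algebra ℚ R] [CommRing S] [Algebra ℚ S]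
    (φ : R →ₐ[ℚ] S) (hφ : Function.Injective φ) (r : G →* A.LGroup S)
    (h : ∀ γ f, (r γ).left.hom f ∈ φ.range) :
    ∃ r' : G →* A.LGroup R, ∀ γ, A.mapL φ (r' γ) = r γ := by
  classical
  have h1 : ∀ γ, ∃ x : A.LGroup R, A.mapL φ x = r γ := by
    intro γ
    let e : R ≃ₐ[ℚ] φ.range := AlgEquiv.ofInjective φ hφ
    let g : O →ₐ[ℚ] φ.range := (r γ).left.hom.codRestrict φ.range (h γ)
    refine ⟨⟨⟨e.symm.toAlgHom.comp g⟩, (r γ).right⟩, ?_⟩
    ext f
    · rw [A.mapL_left, Pts.map_hom_apply]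
      change φ (e.symm (g f)) = _
      have h2 : (e (e.symm (g f)) : S) = g f := by rw [e.apply_symm_apply]
      exact h2
    · rfl
  choose x hx using h1
  have hinj := mapL_injective A hφ
  refine ⟨{ toFun := x
            map_one' := hinj (by rw [hx, map_one, map_one])
            map_mul' := fun γ δ => hinj (by rw [hx, map_mul, map_mul, hx, hx]) }, hx⟩

lemma exists_coeff_field [Algebra.FiniteType ℚ O] [TopologicalSpace G] [IsTopologicalGroup G]
    [CompactSpace G] [BaireSpace G] (ℓ : ℕ) [Fact ℓ.Prime] (r : G →* A.LGroup (PadicAlgCl ℓ))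
    (hc : ∀ f : O, Continuous fun γ => (r γ).left.hom f) :
    ∃ L : IntermediateField ℚ_[ℓ] (PadicAlgCl ℓ), FiniteDimensional ℚ_[ℓ] L ∧
      ∀ γ f, (r γ).left.hom f ∈ L := by
  refine exists_field_of_def ℓ (fun γ => (r γ).left.hom) hc (fun L => ?_)
  let V : Subgroup G :=
    { carrier := {γ | ∃ x : A.LGroup L, A.mapL (inclL L) x = r γ}
      mul_mem' := by
        rintro a b ⟨x, hx⟩ ⟨y, hy⟩
        exact ⟨x * y, by rw [map_mul, hx, hy, map_mul]⟩
      one_mem' := ⟨1, by rw [map_one, map_one]⟩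
      inv_mem' := by
        rintro a ⟨x, hx⟩
        exact ⟨x⁻¹, by rw [map_inv, hx, map_inv]⟩ }
  refine ⟨V, fun γ => ⟨?_, fun h => ?_⟩⟩
  · rintro ⟨x, hx⟩ f
    rw [← hx]
    exact (x.left.hom f).2
  · let g : O →ₐ[ℚ] ((L.toSubalgebra).restrictScalars ℚ) :=
      (r γ).left.hom.codRestrict ((L.toSubalgebra).restrictScalars ℚ) h
    refine ⟨⟨⟨(g : O →ₐ[ℚ] L)⟩, (r γ).right⟩, ?_⟩
    refine SemidirectProduct.ext ?_ rfl
    ext f
    rfl

lemma continuous_evG [TopologicalSpace Γ] [IsTopologicalGroup Γ] [TopologicalSpace G] {n : ℕ}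
    (ρ : MatRep A n) (hker : IsOpen (A.act.ker : Set Γ)) {R : Type} [CommRing R] [Algebra ℚ R]
    [TopologicalSpace R] [IsTopologicalRing R] (r : G →* A.LGroup R) (π : G → Γ)
    (hπ : Continuous π) (hr : ∀ γ, (r γ).right = π γ)
    (hc : ∀ f, Continuous fun γ => (r γ).left.hom f) (i j : Fin n) :
    Continuous fun γ => ρ.ev R (r γ) i j := by
  have h1 : (fun γ => ρ.ev R (r γ) i j) =
      fun γ => ∑ k, (r γ).left.hom (ρ.a i k) * ρ.pm R (π γ) k j := by
    ext γ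
    rw [MatRep.ev_apply, Matrix.mul_apply, hr]
    rfl
  rw [h1]
  exact continuous_finsetSum _ fun k _ => (hc _).mul ((continuous_pm ρ hker R k j).comp hπ)

/-- The Frattini property for a homomorphism to the L-group. -/
lemma exists_frattini [Algebra.FiniteType ℚ O] [TopologicalSpace Γ] [IsTopologicalGroup Γ]
    [TopologicalSpace G] [IsTopologicalGroup G]
    [CompactSpace G] [BaireSpace G] (hker : IsOpen (A.act.ker : Set Γ)) {n : ℕ} (ρ : MatRep A n)
    (ℓ : ℕ) [Fact ℓ.Prime] (r : G →* A.LGroup (PadicAlgCl ℓ)) (π : G → Γ)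
    (hπ : Continuous π) (hr : ∀ γ, (r γ).right = π γ)
    (hc : ∀ f : O, Continuous fun γ => (r γ).left.hom f) (N : Subgroup G)
    (hN : IsOpen (N : Set G)) :
    ∃ U : Subgroup G, IsOpen (U : Set G) ∧ ∀ H : Subgroup G, IsOpen (H : Set G) →
      (∀ γ ∈ N, ρ.ev (PadicAlgCl ℓ) (r γ) = 1 → γ ∈ H) → (∀ γ, ∃ h ∈ H, h⁻¹ * γ ∈ U) → H = ⊤ := by
  obtain ⟨L, hLfd, hL⟩ := exists_coeff_field ℓ r hc
  have hinj : Function.Injective (inclL L) := Subtype.val_injective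
  obtain ⟨r', hr'⟩ := exists_corestrictG (inclL L) hinj r (fun γ f => ⟨⟨_, hL γ f⟩, rfl⟩)
  have hf1 : Module.Finite ℚ_[ℓ] (Matrix (Fin n) (Fin n) L) := Module.Finite.matrix
  let D : G →* Matrix (Fin n) (Fin n) L := (ρ.ev L).comp r'
  have hD : Continuous D := by
    refine continuous_matrix fun i j => ?_
    refine continuous_induced_rng.mpr ?_
    have h1 : (Subtype.val ∘ fun γ => D γ i j) = fun γ => ρ.ev (PadicAlgCl ℓ) (r γ) i j := by
      ext γ
      rw [← hr', MatRep.ev_mapL]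
      rfl
    rw [h1]
    exact continuous_evG ρ hker r π hπ hr hc i j
  obtain ⟨U, hU1, hU2⟩ := frattini ℓ D hD N hN
  refine ⟨U, hU1, fun H hH hZ hcov => hU2 H hH (fun γ hγ h1 => hZ γ hγ ?_) hcov⟩
  rw [← hr', MatRep.ev_mapL]
  change (D γ).map (inclL L) = 1
  rw [h1]
  simp

end Field

section Extension

variable {O : Type} [CommRing O] [HopfAlgebra ℚ O] {Γ : Type*} [Group Γ] {A : HopfAction Γ O}
  {R : Type} [CommRing R] [Algebra ℚ R]

/-- Extending a homomorphism which is trivial on the intersection with a normal subgroup. -/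
theorem exists_extension (V : Subgroup Γ) (r : V →* A.LGroup R) (hp : ∀ γ, (r γ).right = γ)
    (Z : Subgroup Γ) (hZn : Z.Normal) (hZ : Z ≤ A.act.ker)
    (hZ1 : ∀ z (_ : z ∈ Z) (hzV : z ∈ V), (r ⟨z, hzV⟩).left = 1)
    (hcov : ∀ γ, ∃ h ∈ V, h⁻¹ * γ ∈ Z) :
    ∃ r' : Γ →* A.LGroup R, ∀ (h : V) (z : Γ), z ∈ Z →
      r' (h * z) = r h * SemidirectProduct.inr z := by
  classical
  choose c hcV hcZ using hcov
  let r' : Γ → A.LGroup R := fun γ => r ⟨c γ, hcV γ⟩ * SemidirectProduct.inr ((c γ)⁻¹ * γ)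
  have hrz : ∀ z (_ : z ∈ Z) (hzV : z ∈ V), r ⟨z, hzV⟩ = SemidirectProduct.inr z := by
    intro z hz hzV
    refine SemidirectProduct.ext ?_ ?_
    · rw [hZ1 z hz hzV]; simp
    · rw [hp]; simp
  have hwd : ∀ (h : V) (z : Γ), z ∈ Z → r' (h * z) = r h * SemidirectProduct.inr z := by
    intro h z hz
    set γ := (h : Γ) * z with hγ
    -- `c γ = h * w`
    have hw : (h : Γ)⁻¹ * c γ ∈ Z := by
      have h1 := hcZ γ
      have h2 : (h : Γ)⁻¹ * c γ = z * ((c γ)⁻¹ * γ)⁻¹ := by rw [hγ]; group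
      rw [h2]
      exact Z.mul_mem hz (Z.inv_mem h1)
    have hwV : (h : Γ)⁻¹ * c γ ∈ V := V.mul_mem (V.inv_mem h.2) (hcV γ)
    have h3 : (⟨c γ, hcV γ⟩ : V) = h * ⟨(h : Γ)⁻¹ * c γ, hwV⟩ := by
      apply Subtype.ext
      simp
    change r ⟨c γ, hcV γ⟩ * SemidirectProduct.inr ((c γ)⁻¹ * γ) = _
    rw [h3, map_mul, hrz _ hw hwV, mul_assoc, ← map_mul]
    congr 2
    rw [hγ]; group
  have hcomm : ∀ (z : Γ) (_ : z ∈ Z) (h : V), (SemidirectProduct.inr z : A.LGroup R) * r h =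
      r h * SemidirectProduct.inr ((h : Γ)⁻¹ * z * h) := by
    intro z hz h
    have h1 : r h = SemidirectProduct.inl (r h).left * SemidirectProduct.inr (h : Γ) := by
      conv_lhs => rw [← SemidirectProduct.inl_left_mul_inr_right (r h), hp]
    rw [h1, ← mul_assoc, HopfAction.inr_comm (hZ hz), mul_assoc, mul_assoc, ← map_mul, ← map_mul]
    congr 2
    group
  refine ⟨{ toFun := r', map_one' := ?_, map_mul' := ?_ }, hwd⟩
  · have h1 := hwd 1 1 Z.one_mem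
    simpa using h1
  · intro γ δ
    have e1 : γ = ((⟨c γ, hcV γ⟩ : V) : Γ) * ((c γ)⁻¹ * γ) := by simp
    have e2 : δ = ((⟨c δ, hcV δ⟩ : V) : Γ) * ((c δ)⁻¹ * δ) := by simp
    set h₁ : V := ⟨c γ, hcV γ⟩
    set h₂ : V := ⟨c δ, hcV δ⟩
    set z₁ := (c γ)⁻¹ * γ
    set z₂ := (c δ)⁻¹ * δ
    have hz₁ : z₁ ∈ Z := hcZ γ
    have hz₂ : z₂ ∈ Z := hcZ δ
    have e3 : γ * δ = ((h₁ * h₂ : V) : Γ) * (((h₂ : Γ)⁻¹ * z₁ * h₂) * z₂) := by
      rw [Subgroup.coe_mul]
      conv_lhs => rw [e1, e2]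
      group
    have hz : ((h₂ : Γ)⁻¹ * z₁ * h₂) * z₂ ∈ Z := by
      refine Z.mul_mem ?_ hz₂
      have := hZn.conj_mem z₁ hz₁ (h₂ : Γ)⁻¹
      rwa [inv_inv] at this
    rw [e3, hwd _ _ hz]
    conv_rhs => rw [e1, e2]
    rw [hwd _ _ hz₁, hwd _ _ hz₂, map_mul, map_mul]
    calc r h₁ * r h₂ * (SemidirectProduct.inr ((h₂ : Γ)⁻¹ * z₁ * h₂) * SemidirectProduct.inr z₂)
        = r h₁ * (r h₂ * SemidirectProduct.inr ((h₂ : Γ)⁻¹ * z₁ * h₂)) *
            SemidirectProduct.inr z₂ := by simp only [mul_assoc]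
      _ = r h₁ * (SemidirectProduct.inr z₁ * r h₂) * SemidirectProduct.inr z₂ := by
          rw [hcomm z₁ hz₁ h₂]
      _ = _ := by simp only [mul_assoc]

end Extension

end Pool.Agent.Lib.MP_666dc0_nt
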