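import Pool.Agent.Lib.MP_666dc0_nt.Mg.G099

open NumberField IsDedekindDomain Pool.Agent.Lib.MP_666dc0_nt
open scoped NumberField

namespace Pool.Agent.Lib.MP_666dc0_nt.FieldOfDef

/-- A place cannot divide two different primes. -/
lemma not_both {F : Type*} [Field F] [NumberField F] (v : HeightOneSpectrum (𝓞 F)) {p q : ℕ}
    (hp : p.Prime) (hq : q.Prime) (hpq : p ≠ q) (h1 : (p : 𝓞 F) ∈ v.asIdeal)
    (h2 : (q : 𝓞 F) ∈ v.asIdeal) : False := by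
  have hc : IsCoprime (p : ℤ) (q : ℤ) :=
    Nat.isCoprime_iff_coprime.mpr ((Nat.coprime_primes hp hq).mpr hpq)
  obtain ⟨a, b, hab⟩ := hc
  have h3 : (1 : 𝓞 F) ∈ v.asIdeal := by
    have h4 : (1 : 𝓞 F) = (a : 𝓞 F) * (p : 𝓞 F) + (b : 𝓞 F) * (q : 𝓞 F) := by
      exact_mod_cast (congrArg (Int.cast : ℤ → 𝓞 F) hab).symm
    rw [h4]
    exact add_mem (v.asIdeal.mul_mem_left _ h1) (v.asIdeal.mul_mem_left _ h2)
  exact v.isPrime.ne_top ((Ideal.eq_top_iff_one _).mpr h3)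

lemma countable_of_finite (E : IntermediateField ℚ ℂ) [FiniteDimensional ℚ E] : Countable E := by
  have h1 := Algebra.IsAlgebraic.cardinalMk_le_max ℚ E
  rw [← Cardinal.mk_le_aleph0_iff]
  simpa using h1

/-- **Main theorem.** Let `F` be a number field, `Ĝ = Spec O` a linearly reductive affine group
scheme of finite type over `ℚ` on which `Γ_F` acts through a finite quotient, unramified outside a
finite set `S` of finite places; `ᴸG = Ĝ ⋊ Γ_F`. For each place `v ∉ S` let `φ v` be an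
(arithmetic or geometric) Frobenius element at `v`, and let `s v` be an arbitrary complex point of
the quotient `X_v` of `Ĝ ⋊ φ v` by `Ĝ`-conjugation. Let `Λ` be a set of primes. The following are
equivalent:

* there is a number field `E ⊂ ℂ` such that `s v` is defined over `E` for all `v ∉ S` not dividing
  some prime of `Λ`, and for every `ℓ ∈ Λ` and every embedding `ι : E → ℚ̄_ℓ` there is an
  admissible `r : Γ_F → ᴸG(ℚ̄_ℓ)` conjugate to `ι(s v)` at all `v ∉ S`, `v ∤ ℓ`;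
* for every `ℓ ∈ Λ` and every field isomorphism `ι : ℂ ≃ ℚ̄_ℓ` there is an admissible
  `r : Γ_F → ᴸG(ℚ̄_ℓ)` conjugate to `ι(s v)` at all `v ∉ S`, `v ∤ ℓ`. -/
theorem result {F : Type*} [Field F] [NumberField F]
    {O : Type} [CommRing O] [HopfAlgebra ℚ O] [Algebra.FiniteType ℚ O]
    (hred : LinearlyReductive O)
    (A : HopfAction Gal(AlgebraicClosure F/F) O)
    (hA : IsOpen (A.act.ker : Set Gal(AlgebraicClosure F/F)))
    (S : Finset (HeightOneSpectrum (𝓞 F)))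
    (hS : ∀ v, v ∉ S → ∀ P u, IsInertiaAt v P u → A.act u = 1)
    (φ : HeightOneSpectrum (𝓞 F) → Gal(AlgebraicClosure F/F))
    (hφ : ∀ v, v ∉ S → ∃ P : Ideal (𝓞 (AlgebraicClosure F)), IsOver v P ∧
      (IsFrob v P (φ v) ∨ IsFrob v P (φ v)⁻¹))
    (s : ∀ v, A.inv (φ v) →+* ℂ)
    (Λ : Set ℕ) (hΛ : ∀ ℓ ∈ Λ, ℓ.Prime) :
    (∃ E : IntermediateField ℚ ℂ, FiniteDimensional ℚ E ∧ ∃ t : ∀ v, A.inv (φ v) →+* E,
      (∀ v, v ∉ S → (∃ ℓ ∈ Λ, (ℓ : 𝓞 F) ∉ v.asIdeal) → ∀ f, (t v f : ℂ) = s v f) ∧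
        ∀ (ℓ : ℕ) [Fact ℓ.Prime], ℓ ∈ Λ → ∀ ι : E →+* PadicAlgCl ℓ,
          ∃ r : Gal(AlgebraicClosure F/F) →* A.LGroup (PadicAlgCl ℓ), IsAdmissible A r ∧
            ∀ v, v ∉ S → (ℓ : 𝓞 F) ∉ v.asIdeal → IsConjAt A r v (φ v) (ι.comp (t v))) ↔
    (∀ (ℓ : ℕ) [Fact ℓ.Prime], ℓ ∈ Λ → ∀ ι : ℂ →+* PadicAlgCl ℓ, Function.Bijective ι →
      ∃ r : Gal(AlgebraicClosure F/F) →* A.LGroup (PadicAlgCl ℓ), IsAdmissible A r ∧
        ∀ v, v ∉ S → (ℓ : 𝓞 F) ∉ v.asIdeal → IsConjAt A r v (φ v) (ι.comp (s v))) := by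
  classical
  let s' : ∀ v, A.inv (φ v) →ₐ[ℚ] ℂ := fun v => (s v).toRatAlgHom
  constructor
  · rintro ⟨E, _, t, ht, h⟩ ℓ _ hℓ ι _
    obtain ⟨r, hr1, hr2⟩ := h ℓ hℓ (ι.comp (algebraMap E ℂ))
    refine ⟨r, hr1, fun v hv hvℓ => ?_⟩
    have h1 := hr2 v hv hvℓ
    have h2 : (ι.comp (algebraMap E ℂ)).comp (t v) = ι.comp (s v) := by
      ext f
      exact congrArg ι (ht v hv ⟨ℓ, hℓ, hvℓ⟩ f)
    rwa [h2] at h1
  · intro h
    -- one field for all places prime to some element of `Λ`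
    have hE : ∃ E : IntermediateField ℚ ℂ, FiniteDimensional ℚ E ∧
        ∀ v, v ∉ S → (∃ ℓ ∈ Λ, (ℓ : 𝓞 F) ∉ v.asIdeal) → ∀ f, s v f ∈ E := by
      have hone : ∀ ℓ ∈ Λ, ∃ E : IntermediateField ℚ ℂ, FiniteDimensional ℚ E ∧
          ∀ v, v ∉ S → (ℓ : 𝓞 F) ∉ v.asIdeal → ∀ f, s v f ∈ E := by
        intro ℓ hℓ
        have : Fact ℓ.Prime := ⟨hΛ ℓ hℓ⟩
        refine exists_numberField_one_prime A S φ hred hA hS hφ s' ℓ fun ι => ?_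
        obtain ⟨r, hr1, hr2⟩ := h ℓ hℓ (ι : ℂ →+* PadicAlgCl ℓ) ι.bijective
        exact ⟨r, hr1, hr2⟩
      by_cases h1 : ∃ ℓ₁, ℓ₁ ∈ Λ
      · obtain ⟨ℓ₁, hℓ₁⟩ := h1
        obtain ⟨E₁, hE₁, hE₁'⟩ := hone ℓ₁ hℓ₁
        by_cases h2 : ∃ ℓ₂ ∈ Λ, ℓ₁ ≠ ℓ₂
        · obtain ⟨ℓ₂, hℓ₂, hne⟩ := h2
          obtain ⟨E₂, hE₂, hE₂'⟩ := hone ℓ₂ hℓ₂
          refine ⟨E₁ ⊔ E₂, inferInstance, fun v hv _ f => ?_⟩
          by_cases h3 : (ℓ₁ : 𝓞 F) ∈ v.asIdeal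
          · have h4 : (ℓ₂ : 𝓞 F) ∉ v.asIdeal := fun h4 =>
              not_both v (hΛ _ hℓ₁) (hΛ _ hℓ₂) hne h3 h4
            exact (le_sup_right : E₂ ≤ E₁ ⊔ E₂) (hE₂' v hv h4 f)
          · exact (le_sup_left : E₁ ≤ E₁ ⊔ E₂) (hE₁' v hv h3 f)
        · refine ⟨E₁, hE₁, fun v hv hv' f => ?_⟩
          obtain ⟨ℓ, hℓ, hℓv⟩ := hv'
          have h3 : ℓ₁ = ℓ := by
            by_contra h4
            exact h2 ⟨ℓ, hℓ, h4⟩
          subst h3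
          exact hE₁' v hv hℓv f
      · exact ⟨⊥, inferInstance, fun v hv hv' f => absurd ⟨hv'.choose, hv'.choose_spec.1⟩ h1⟩
    obtain ⟨E, hEfin, hE⟩ := hE
    have ht : ∀ v, ∃ t : A.inv (φ v) →+* E, (v ∉ S → (∃ ℓ ∈ Λ, (ℓ : 𝓞 F) ∉ v.asIdeal) →
        ∀ f, (t f : ℂ) = s v f) := by
      intro v
      by_cases hv : v ∉ S ∧ ∃ ℓ ∈ Λ, (ℓ : 𝓞 F) ∉ v.asIdeal
      · exact ⟨(s v).codRestrict E (hE v hv.1 hv.2), fun _ _ f => rfl⟩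
      · refine ⟨(algebraMap ℚ E).comp
          (((Bialgebra.counitAlgHom ℚ O).comp (A.inv (φ v)).val : A.inv (φ v) →ₐ[ℚ] ℚ) :
            A.inv (φ v) →+* ℚ), fun h1 h2 => absurd ⟨h1, h2⟩ hv⟩
    choose t ht using ht
    refine ⟨E, hEfin, t, ht, fun ℓ _ hℓ ι => ?_⟩
    have hcount := countable_of_finite E
    obtain ⟨ι', hι'⟩ := exists_iso_extending ℓ Cardinal.mk_le_aleph0 (algebraMap E ℂ) ι
    obtain ⟨r, hr1, hr2⟩ := h ℓ hℓ (ι' : ℂ →+* PadicAlgCl ℓ) ι'.bijective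
    refine ⟨r, hr1, fun v hv hvℓ => ?_⟩
    have h5 := hr2 v hv hvℓ
    have h6 : ι.comp (t v) = (ι' : ℂ →+* PadicAlgCl ℓ).comp (s v) := by
      ext f
      have h7 := hι' (t v f)
      rw [RingHom.comp_apply, ← h7]
      exact congrArg ι' (ht v hv ⟨ℓ, hℓ, hvℓ⟩ f)
    rw [h6]
    exact h5

end Pool.Agent.Lib.MP_666dc0_nt.FieldOfDef
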