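import Pool.Agent.Lib.MP_666dc0_nt.Rep
import Pool.Agent.Lib.MP_666dc0_nt.Transport

open TensorProduct Coalgebra
open scoped TensorProduct

namespace Pool.Agent.Lib.MP_666dc0_nt
section RepEval

variable {O : Type} [CommRing O] [HopfAlgebra ℚ O] {Γ : Type*} [Group Γ] {A : HopfAction Γ O}
  {n : ℕ} (ρ : MatRep A n) {R S : Type} [CommRing R] [Algebra ℚ R] [CommRing S] [Algebra ℚ S]

namespace MatRep

/-- The matrix of a point of `Ĝ`. -/
noncomputable def gm (g : Pts O R) : Matrix (Fin n) (Fin n) R := ρ.a.map g.hom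

/-- The matrix of an element of `Γ`. -/
noncomputable def pm (R : Type) [CommRing R] [Algebra ℚ R] : Γ →* Matrix (Fin n) (Fin n) R :=
  (RingHom.mapMatrix (algebraMap ℚ R)).toMonoidHom.comp ρ.P

lemma pm_apply (γ : Γ) (i j : Fin n) : ρ.pm R γ i j = algebraMap ℚ R (ρ.P γ i j) := rfl

lemma gm_mul (g h : Pts O R) : ρ.gm (g * h) = ρ.gm g * ρ.gm h := by
  ext i j
  rw [gm, Matrix.map_apply, Pts.mul_hom_apply, ρ.comul_a, map_sum, Matrix.mul_apply]
  refine Finset.sum_congr rfl fun k _ => ?_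
  simp [gm]

lemma gm_one : ρ.gm (1 : Pts O R) = 1 := by
  ext i j
  rw [gm, Matrix.map_apply, Pts.one_hom_apply, ρ.counit_a, Matrix.one_apply]
  split_ifs <;> simp

/-- `gm` as a homomorphism. -/
noncomputable def gmHom (R : Type) [CommRing R] [Algebra ℚ R] :
    Pts O R →* Matrix (Fin n) (Fin n) R where
  toFun := ρ.gm
  map_one' := ρ.gm_one
  map_mul' := ρ.gm_mul

lemma act_a' (γ : Γ) : ρ.pm O γ * ρ.a = (ρ.a.map (A.act γ⁻¹)) * ρ.pm O γ := by
  have h1 : ρ.a * ρ.pm O γ⁻¹ = ρ.pm O γ⁻¹ * ρ.a.map (A.act γ⁻¹) := by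
    ext i j
    rw [Matrix.mul_apply, Matrix.mul_apply]
    have := ρ.act_a γ⁻¹ i j
    simp only [Algebra.smul_def] at this
    convert this using 2 with k hk k hk
    · rw [mul_comm]; rfl
    · rfl
  have h2 : ρ.pm O γ * ρ.pm O γ⁻¹ = 1 := by rw [← map_mul, mul_inv_cancel, map_one]
  have h3 : ρ.pm O γ⁻¹ * ρ.pm O γ = 1 := by rw [← map_mul, inv_mul_cancel, map_one]
  calc ρ.pm O γ * ρ.a = ρ.pm O γ * (ρ.a * ρ.pm O γ⁻¹) * ρ.pm O γ := by
        rw [mul_assoc, mul_assoc, h3, mul_one]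
    _ = ρ.pm O γ * (ρ.pm O γ⁻¹ * ρ.a.map (A.act γ⁻¹)) * ρ.pm O γ := by rw [h1]
    _ = _ := by rw [← mul_assoc, h2, one_mul]

lemma pm_map (φ : R →ₐ[ℚ] S) (γ : Γ) : (ρ.pm R γ).map φ = ρ.pm S γ := by
  ext i j
  rw [Matrix.map_apply, pm_apply, pm_apply, AlgHom.commutes]

lemma pm_mul_gm (γ : Γ) (g : Pts O R) : ρ.pm R γ * ρ.gm g = ρ.gm (A.onPts R γ g) * ρ.pm R γ := by
  have h1 := congrArg (fun M : Matrix (Fin n) (Fin n) O => M.map g.hom) (ρ.act_a' γ)
  rw [Matrix.map_mul, Matrix.map_mul, pm_map] at h1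
  exact h1

/-- The matrix representation of the L-group. -/
noncomputable def ev (R : Type) [CommRing R] [Algebra ℚ R] :
    A.LGroup R →* Matrix (Fin n) (Fin n) R where
  toFun x := ρ.gm x.left * ρ.pm R x.right
  map_one' := by
    rw [SemidirectProduct.one_left, SemidirectProduct.one_right, gm_one, map_one, mul_one]
  map_mul' x y := by
    rw [SemidirectProduct.mul_left, SemidirectProduct.mul_right, gm_mul, map_mul, mul_assoc,
      mul_assoc, ← mul_assoc (ρ.gm (A.onPts R x.right y.left)), ← pm_mul_gm, mul_assoc]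

lemma ev_apply (x : A.LGroup R) : ρ.ev R x = ρ.gm x.left * ρ.pm R x.right := rfl

lemma ev_mapL (φ : R →ₐ[ℚ] S) (x : A.LGroup R) : ρ.ev S (A.mapL φ x) = (ρ.ev R x).map φ := by
  rw [ev_apply, ev_apply, Matrix.map_mul, pm_map]
  rfl

end MatRep
end RepEval
end Pool.Agent.Lib.MP_666dc0_nt
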