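import Pool.Agent.Lib.MP_666dc0_nt.Defs

/-!
# Levi subgroups of L-groups: definitions
-/

open TensorProduct NumberField IsDedekindDomain LaurentPolynomial
open scoped TensorProduct NumberField

namespace Pool.Agent.Lib.MP_666dc0_nt

section Points

variable {O O' R : Type} [CommRing O] [HopfAlgebra ℚ O] [CommRing O'] [HopfAlgebra ℚ O']
  [CommRing R] [Algebra ℚ R]

/-- The homomorphism of groups of points `M̂(R) → Ĝ(R)`, `M̂ = Spec O'`, `Ĝ = Spec O`, given by a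
homomorphism `π : O → O'` of Hopf algebras: `g ↦ g ∘ π`. -/
noncomputable def Pts.incl (π : O →ₐc[ℚ] O') (g : Pts O' R) : Pts O R :=
  ⟨g.hom.comp (π : O →ₐ[ℚ] O')⟩

/-- Evaluation of Laurent polynomials at a unit of the `ℚ`-algebra `R`. -/
noncomputable def evalUnit (t : Rˣ) : ℚ[T;T⁻¹] →ₐ[ℚ] R :=
  { LaurentPolynomial.eval₂ (algebraMap ℚ R) t with
    commutes' := fun q => LaurentPolynomial.eval₂_C (algebraMap ℚ R) t q }

/-- The value `μ(t) ∈ Ĝ(R)` at `t ∈ Rˣ` of the cocharacter `μ` of `Ĝ = Spec O`, that is of the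
homomorphism `𝔾_m → Ĝ` given by a homomorphism `μ : O → ℚ[T, T⁻¹]` of Hopf algebras. -/
noncomputable def Pts.cochar (μ : O →ₐc[ℚ] ℚ[T;T⁻¹]) (t : Rˣ) : Pts O R :=
  ⟨(evalUnit t).comp (μ : O →ₐ[ℚ] ℚ[T;T⁻¹])⟩

/-- `π : O → O'` makes `M̂ = Spec O'` a `Γ`-stable closed subgroup scheme of `Ĝ = Spec O`, namely the
centraliser of the cocharacter `μ` of `Ĝ`, which is fixed by `Γ`: for each `ℚ`-algebra `R` the points
of `M̂(R)` are the `g ∈ Ĝ(R)` that commute with `μ(t) ∈ Ĝ(S)` for all `R`-algebras `S` and all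
`t ∈ Sˣ`. Moreover elements of `Γ` acting trivially on `M̂` act trivially on `Ĝ` (for dual groups this
is automatic: `M̂` contains `T̂`, and an automorphism preserving a pinning and acting trivially on
`T̂` is trivial). -/
structure IsLevi {Γ : Type*} [Group Γ] (A : HopfAction Γ O) (A' : HopfAction Γ O')
    (π : O →ₐc[ℚ] O') (μ : O →ₐc[ℚ] ℚ[T;T⁻¹]) : Prop where
  surj : Function.Surjective π
  act : ∀ γ f, π (A.act γ f) = A'.act γ (π f)
  fixed : ∀ γ f, μ (A.act γ f) = μ f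
  cent : ∀ (R : Type) [CommRing R] [Algebra ℚ R] (g : Pts O R), (∃ h : Pts O' R, Pts.incl π h = g) ↔
    ∀ (S : Type) [CommRing S] [Algebra ℚ S] (ψ : R →ₐ[ℚ] S) (t : Sˣ),
      Commute (Pts.map ψ g) (Pts.cochar μ t)
  ker : ∀ γ, A'.act γ = 1 → A.act γ = 1

/-- The point of the quotient of `Ĝ ⋊ σ` by `Ĝ`-conjugation given by the element `(g, σ)` of `ᴸG(K)`:
the values at `g` of the invariant functions. -/
noncomputable def HopfAction.cls {Γ : Type*} [Group Γ] (A : HopfAction Γ O) (σ : Γ) (g : Pts O R) :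
    A.inv σ →+* R :=
  (g.hom.comp (A.inv σ).val : A.inv σ →ₐ[ℚ] R)

end Points

section Q1

variable {F : Type*} [Field F] [NumberField F]

/-- The number of elements of the residue field of `v`, as an element of `Kˣ`. -/
noncomputable def normUnit (K : Type) [Field K] [CharZero K] (v : HeightOneSpectrum (𝓞 F)) : Kˣ :=
  Units.mk0 (Nat.card (𝓞 F ⧸ v.asIdeal) : K) (by
    have : Finite (𝓞 F ⧸ v.asIdeal) := Ring.HasFiniteQuotients.finiteQuotient v.ne_bot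
    exact_mod_cast Nat.card_pos.ne')

variable {O : Type} [CommRing O] [HopfAlgebra ℚ O] (A : HopfAction Gal(AlgebraicClosure F/F) O)
  (S : Finset (HeightOneSpectrum (𝓞 F)))
  (φ : HeightOneSpectrum (𝓞 F) → Gal(AlgebraicClosure F/F))

/-- There is an admissible `r : Γ_F → ᴸG(ℚ̄_ℓ)` conjugate to the point `s v` at all places `v ∉ S`
that do not divide `ℓ`. -/
def HasRep (ℓ : ℕ) [Fact ℓ.Prime] (s : ∀ v, A.inv (φ v) →+* PadicAlgCl ℓ) : Prop :=
  ∃ r : Gal(AlgebraicClosure F/F) →* A.LGroup (PadicAlgCl ℓ), IsAdmissible A r ∧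
    ∀ v, v ∉ S → (ℓ : 𝓞 F) ∉ v.asIdeal → IsConjAt A r v (φ v) (s v)

/-- Question Q1 (parts 1 and 2) for the family of Satake parameters `s v` and the primes `ℓ ∈ Λ`:
there is a number field `E ⊂ ℂ` such that `s v` is defined over `E` (it comes from an `E`-valued
point `t v`) for all `v ∉ S` not dividing some `ℓ ∈ Λ`, and for every `ℓ ∈ Λ` and every embedding
`ι : E → ℚ̄_ℓ` there is an admissible `r : Γ_F → ᴸG(ℚ̄_ℓ)` conjugate to `ι(s v)` at all `v ∉ S`,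
`v ∤ ℓ`. -/
def SatisfiesQ1 (Λ : Set ℕ) (s : ∀ v, A.inv (φ v) →+* ℂ) : Prop :=
  ∃ E : IntermediateField ℚ ℂ, FiniteDimensional ℚ E ∧ ∃ t : ∀ v, A.inv (φ v) →+* E,
    (∀ v, v ∉ S → (∃ ℓ ∈ Λ, (ℓ : 𝓞 F) ∉ v.asIdeal) → ∀ f, (t v f : ℂ) = s v f) ∧
      ∀ (ℓ : ℕ) [Fact ℓ.Prime], ℓ ∈ Λ → ∀ ι : E →+* PadicAlgCl ℓ,
        HasRep A S φ ℓ (fun v => ι.comp (t v))

end Q1

end Pool.Agent.Lib.MP_666dc0_nt
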