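import Pool.Agent.Lib.MP_666dc0_nt.CoreOpen

open TensorProduct Coalgebra Topology NumberField IsDedekindDomain Polynomial
open scoped TensorProduct Matrix Pointwise NumberField

namespace Pool.Agent.Lib.MP_666dc0_nt

set_option linter.unusedSectionVars false

section

variable {O : Type} [CommRing O] [HopfAlgebra ℚ O] {Γ : Type*} [Group Γ] {A : HopfAction Γ O}
  {K : Type} [Field K] [Algebra ℚ K]

lemma transl_congr {σ τ : Γ} (h : A.act σ = A.act τ) (g : Pts O K) :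
    A.transl g σ = A.transl g τ := by
  rw [HopfAction.transl, HopfAction.transl, map_inv, map_inv, h]

/-- Semisimplicity is invariant under conjugation. -/
lemma isSemisimpleElt_conj
    (hst : ∀ Φ : Set O, Φ.Finite → ∃ Φ' : Set O, Φ'.Finite ∧ Φ ⊆ Φ' ∧ ∀ γ, ∀ f ∈ Φ', A.act γ f ∈ Φ')
    {x : A.LGroup K} (hx : A.IsSemisimpleElt x) (z : A.LGroup K) :
    A.IsSemisimpleElt (z * x * z⁻¹) := by
  refine isSemisimpleElt_of_squarefree hst fun n ρ => ?_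
  obtain ⟨p, hp, hp'⟩ := exists_squarefree_of_isSemisimpleElt ρ hx
  refine ⟨p, hp, ?_⟩
  have h1 : ∀ q : K[X], aeval (ρ.ev K (z * x * z⁻¹)) q =
      ρ.ev K z * aeval (ρ.ev K x) q * ρ.ev K z⁻¹ := by
    intro q
    have hz : ρ.ev K z⁻¹ * ρ.ev K z = 1 := by rw [← map_mul, inv_mul_cancel, map_one]
    have hz' : ρ.ev K z * ρ.ev K z⁻¹ = 1 := by rw [← map_mul, mul_inv_cancel, map_one]
    induction q using Polynomial.induction_on' with
    | add p q hp hq => rw [map_add, map_add, hp, hq, mul_add, add_mul]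
    | monomial k a =>
      rw [aeval_monomial, aeval_monomial, Algebra.algebraMap_eq_smul_one, smul_one_mul,
        smul_one_mul, ← map_pow, ← map_pow, mul_smul_comm, smul_mul_assoc, ← map_mul, ← map_mul]
      congr 2
      exact (conj_pow (a := z) (b := x) (i := k))
  rw [h1, hp', mul_zero, zero_mul]

end

section Main

variable {F : Type*} [Field F] [NumberField F] {O : Type} [CommRing O] [HopfAlgebra ℚ O]
  [Algebra.FiniteType ℚ O]

/-- Patching, in terms of open subgroups. -/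
theorem patching (A : HopfAction Gal(AlgebraicClosure F/F) O)
    (hker : IsOpen (A.act.ker : Set Gal(AlgebraicClosure F/F)))
    (S' : Set (HeightOneSpectrum (𝓞 F))) (hS' : S'.Finite)
    (hS : ∀ v, v ∉ S' → ∀ P u, IsInertiaAt v P u → A.act u = 1)
    (φ : HeightOneSpectrum (𝓞 F) → Gal(AlgebraicClosure F/F))
    (hφ : ∀ v, v ∉ S' → ∃ P : Ideal (𝓞 (AlgebraicClosure F)), IsOver v P ∧
      (IsFrob v P (φ v) ∨ IsFrob v P (φ v)⁻¹))
    (ℓ : ℕ) [Fact ℓ.Prime] (x : ∀ v, A.inv (φ v) →+* PadicAlgCl ℓ)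
    (hmem : ∀ C : Subgroup Gal(AlgebraicClosure F/F), C.Normal →
      IsOpen (C : Set Gal(AlgebraicClosure F/F)) → ∀ v, v ∉ S' →
      ∃ (V : Subgroup Gal(AlgebraicClosure F/F)) (r : V →* A.LGroup (PadicAlgCl ℓ)),
        IsOpen (V : Set Gal(AlgebraicClosure F/F)) ∧ (∀ γ, ∃ h ∈ V, h⁻¹ * γ ∈ C) ∧
        (∃ P, IsSplitAt v P V) ∧ IsAdmissibleOn A V r ∧ IsCompletelyReducible r ∧
        IsConjAtOn A V r v (φ v) (x v) ∧ ∃ T : Set (HeightOneSpectrum (𝓞 F)), T.Finite ∧ S' ⊆ T ∧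
          ∀ w, w ∉ T → IsConjAtOn A V r w (φ w) (x w)) :
    ∃ r : Gal(AlgebraicClosure F/F) →* A.LGroup (PadicAlgCl ℓ), IsAdmissible A r ∧
      IsCompletelyReducible r ∧ ∀ v, v ∉ S' → IsConjAt A r v (φ v) (x v) := by
  classical
  have hst : ∀ Φ : Set O, Φ.Finite → ∃ Φ' : Set O, Φ'.Finite ∧ Φ ⊆ Φ' ∧
    ∀ γ, ∀ f ∈ Φ', A.act γ f ∈ Φ' := fun Φ hΦ => exists_stable hker hΦ
  obtain ⟨s, hs⟩ : ∃ s : Finset O, Algebra.adjoin ℚ (s : Set O) = ⊤ := Algebra.FiniteType.out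
  obtain ⟨Φ, hΦ1, hΦ2, hΦ3⟩ := exists_stable (A := A) hker s.finite_toSet
  have hΦ : Algebra.adjoin ℚ Φ = ⊤ := by
    rw [← top_le_iff, ← hs]; exact Algebra.adjoin_mono hΦ2
  obtain ⟨n, ρ, hρ, -⟩ := exists_matRepL A hΦ1 hΦ3
  have hval : ∀ {V : Subgroup Gal(AlgebraicClosure F/F)} {r : V →* A.LGroup (PadicAlgCl ℓ)}
      {T T' : Set (HeightOneSpectrum (𝓞 F))}, T ⊆ T' →
      (∀ w, w ∉ T → IsConjAtOn A V r w (φ w) (x w)) → Val A T' φ x V r :=
    fun hT h v hv P hP δ hδ hF f => (h v (fun hv' => hv (hT hv'))).value P hP δ hδ hF f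
  have hφT : ∀ {T : Set (HeightOneSpectrum (𝓞 F))}, S' ⊆ T → ∀ v, v ∉ T →
      ∃ P : Ideal (𝓞 (AlgebraicClosure F)), IsOver v P ∧ (IsFrob v P (φ v) ∨ IsFrob v P (φ v)⁻¹) :=
    fun hT v hv => hφ v (fun hv' => hv (hT hv'))
  obtain ⟨v₀, hv₀⟩ : ∃ v, v ∉ S' := by
    obtain ⟨v, hv, -⟩ := exists_split_frob (A := AlgebraicClosure F) (F := F) ⊤ isOpen_univ ⊤
      isOpen_univ S' hS' 1 trivial
    exact ⟨v, hv⟩
  obtain ⟨V₁, r₁, hV₁, -, -, ha₁, hcr₁, -, T₁, hT₁, hST₁, hx₁⟩ :=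
    hmem ⊤ inferInstance isOpen_univ v₀ hv₀
  let N : Subgroup Gal(AlgebraicClosure F/F) := (V₁ ⊓ A.act.ker).normalCore
  have hNn : N.Normal := Subgroup.normalCore_normal _
  have hNo : IsOpen (N : Set Gal(AlgebraicClosure F/F)) :=
    isOpen_normalCore (V₁ ⊓ A.act.ker) (hV₁.inter hker)
  have hNV : N ≤ V₁ := (Subgroup.normalCore_le _).trans inf_le_left
  have hNker : N ≤ A.act.ker := (Subgroup.normalCore_le _).trans inf_le_right
  let Z : Subgroup Gal(AlgebraicClosure F/F) := kerOn r₁ N hNV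
  have hZn : Z.Normal := kerOn_normal hT₁ hker (hφT hST₁) ρ hΦ hρ (hval subset_rfl hx₁) ha₁ hV₁ hcr₁
    N hNn hNV hNker
  have hZker : Z ≤ A.act.ker := fun z hz => hNker hz.1
  obtain ⟨C, hCn, hCo, hC⟩ := exists_core hker ρ.toMatRep hΦ hρ ℓ ha₁ hV₁ N hNo hNV hNker
  have hVZ : ∀ V : Subgroup Gal(AlgebraicClosure F/F), IsOpen (V : Set Gal(AlgebraicClosure F/F)) →
      (∀ γ, ∃ h ∈ V, h⁻¹ * γ ∈ C) → ∀ γ, ∃ h ∈ V, h⁻¹ * γ ∈ Z := by
    intro V hV hcov γ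
    have h1 := hC (V ⊔ Z) (Subgroup.isOpen_mono le_sup_left hV) le_sup_right (fun γ => by
      obtain ⟨h, hh, hh'⟩ := hcov γ
      exact ⟨h, (le_sup_left : V ≤ V ⊔ Z) hh, hh'⟩) γ
    have h2 : γ ∈ ((V ⊔ Z : Subgroup Gal(AlgebraicClosure F/F)) : Set _) := h1
    rw [Subgroup.mul_normal] at h2
    obtain ⟨h, hh, z, hz, rfl⟩ := h2
    exact ⟨h, hh, by simpa using hz⟩
  -- triviality on `Z`
  have hZ1 : ∀ (V : Subgroup Gal(AlgebraicClosure F/F)) (r : V →* A.LGroup (PadicAlgCl ℓ))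
      (T : Set (HeightOneSpectrum (𝓞 F))), T.Finite →
      IsOpen (V : Set Gal(AlgebraicClosure F/F)) → IsAdmissibleOn A V r →
      IsCompletelyReducible r → (∀ w, w ∉ T → IsConjAtOn A V r w (φ w) (x w)) →
      ∀ z (_ : z ∈ Z) (hzV : z ∈ V), (r ⟨z, hzV⟩).left = 1 := by
    intro V r T hT hV ha hcr hx z hz hzV
    exact left_eq_one_of_member (hT₁.union hT) hker
      (hφT (hST₁.trans Set.subset_union_left)) ρ hΦ hρ
      (hval Set.subset_union_left hx₁) (hval Set.subset_union_right hx) ha₁ ha hV₁ hV hcr N hNn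
      hNV hNker hz.1 hzV hz.2
  obtain ⟨V₂, r₂, hV₂, hcov₂, -, ha₂, hcr₂, -, T₂, hT₂, hST₂, hx₂⟩ := hmem C hCn hCo v₀ hv₀
  have hVZ₂ := hVZ V₂ hV₂ hcov₂
  obtain ⟨r, hr⟩ := exists_extension V₂ r₂ ha₂.proj Z hZn hZker (hZ1 V₂ r₂ T₂ hT₂ hV₂ ha₂ hcr₂ hx₂) hVZ₂
  have hr' : ∀ h : V₂, r h = r₂ h := by
    intro h
    have := hr h 1 Z.one_mem
    rwa [mul_one, map_one, mul_one] at this
  have hrp : ∀ γ, (r γ).right = γ := by
    intro γ
    obtain ⟨h, hh, hz⟩ := hVZ₂ γ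
    have h1 := hr ⟨h, hh⟩ (h⁻¹ * γ) hz
    rw [mul_inv_cancel_left] at h1
    rw [h1, SemidirectProduct.mul_right, ha₂.proj, SemidirectProduct.right_inr]
    exact mul_inv_cancel_left h γ
  have hradm : IsAdmissible A r := by
    refine ⟨hrp, fun f => ?_⟩
    rw [continuous_iff_continuousAt]
    intro γ₀
    obtain ⟨h₀, hh₀, hz₀⟩ := hVZ₂ γ₀
    set z₀ := h₀⁻¹ * γ₀ with hz₀'
    let W : Set Gal(AlgebraicClosure F/F) := {γ | γ * z₀⁻¹ ∈ V₂}
    have hW : IsOpen W := hV₂.preimage (continuous_mul_const z₀⁻¹)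
    have hγ₀ : γ₀ ∈ W := by
      change γ₀ * z₀⁻¹ ∈ V₂
      have : γ₀ * z₀⁻¹ = h₀ := by rw [hz₀']; group
      rw [this]; exact hh₀
    refine ContinuousOn.continuousAt (s := W) ?_ (hW.mem_nhds hγ₀)
    rw [continuousOn_iff_continuous_domRestrict]
    have h1 : W.domRestrict (fun γ => (r γ).left.hom f) =
        fun γ : W => (r₂ ⟨γ * z₀⁻¹, γ.2⟩).left.hom f := by
      ext γ
      have h2 := hr ⟨γ * z₀⁻¹, γ.2⟩ z₀ hz₀
      rw [inv_mul_cancel_right] at h2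
      rw [Set.domRestrict_apply, h2]
      simp
    rw [h1]
    exact (ha₂.cont f).comp
      (Continuous.subtype_mk ((continuous_mul_const z₀⁻¹).comp continuous_subtype_val) _)
  have hrcr : IsCompletelyReducible r := by
    intro W hW
    obtain ⟨W', h1, h2⟩ := hcr₂ W (fun g => by
      have := hW g
      rwa [hr'] at this)
    refine ⟨W', fun γ => ?_, h2⟩
    obtain ⟨h, hh, hz⟩ := hVZ₂ γ
    have h3 := hr ⟨h, hh⟩ (h⁻¹ * γ) hz
    rw [mul_inv_cancel_left] at h3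
    have h4 : A.transl (r γ).left (r γ).right = A.transl (r₂ ⟨h, hh⟩).left (r₂ ⟨h, hh⟩).right := by
      have h5 : (r γ).left = (r₂ ⟨h, hh⟩).left := by rw [h3]; simp
      rw [h5]
      apply transl_congr
      rw [hrp, ha₂.proj]
      have h6 : A.act (h⁻¹ * γ) = 1 := hZker hz
      rw [map_mul, map_inv, inv_mul_eq_one] at h6
      exact h6.symm
    rw [h4]
    exact h1 _
  refine ⟨r, hradm, hrcr, fun v hv => ?_⟩
  -- the member for `v`
  obtain ⟨V₃, r₃, hV₃, hcov₃, ⟨P, hP⟩, ha₃, hcr₃, hxv, T₃, hT₃, -, hx₃⟩ := hmem (C ⊓ V₂.normalCore)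
    inferInstance (hCo.inter (isOpen_normalCore V₂ hV₂)) v hv
  have hcov₂₃ : ∀ γ, ∃ h ∈ V₂ ⊓ V₃, h⁻¹ * γ ∈ C := by
    intro γ
    obtain ⟨h, hh, hc⟩ := hcov₂ γ
    obtain ⟨k, hk, hk'⟩ := hcov₃ h
    refine ⟨k, ⟨?_, hk⟩, ?_⟩
    · have h1 := V₂.mul_mem hh (V₂.inv_mem (Subgroup.normalCore_le V₂ hk'.2))
      have h2 : h * (k⁻¹ * h)⁻¹ = k := by group
      rwa [h2] at h1
    · have h1 := C.mul_mem hk'.1 hc
      have h2 : k⁻¹ * h * (h⁻¹ * γ) = k⁻¹ * γ := by group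
      rwa [h2] at h1
  have hZ₂₃ := hVZ (V₂ ⊓ V₃) (hV₂.inter hV₃) hcov₂₃
  have hev : ∀ {m : ℕ} (ρ' : MatRep A m) (γ), ∃ h, ∃ _ : h ∈ V₃,
      ρ'.ev (PadicAlgCl ℓ) (r γ) = ρ'.ev (PadicAlgCl ℓ) (r h) := by
    intro m ρ' γ
    obtain ⟨h, hh, hz⟩ := hZ₂₃ γ
    refine ⟨h, hh.2, ?_⟩
    have h3 := hr ⟨h, hh.1⟩ (h⁻¹ * γ) hz
    rw [mul_inv_cancel_left] at h3
    have h4 := hr' ⟨h, hh.1⟩
    change r h = _ at h4
    rw [h3, map_mul, ρ'.ev_inr (hZker hz), mul_one, h4]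
  have hG : ∀ η (hη : η ∈ V₃), A.Eqv (r η) (r₃ ⟨η, hη⟩) := by
    intro η hη
    obtain ⟨h, hh, hz⟩ := hZ₂₃ η
    have h3 := hr ⟨h, hh.1⟩ (h⁻¹ * η) hz
    rw [mul_inv_cancel_left] at h3
    have hzV : h⁻¹ * η ∈ V₃ := V₃.mul_mem (V₃.inv_mem hh.2) hη
    have h4 : r₃ ⟨η, hη⟩ = r₃ ⟨h, hh.2⟩ * SemidirectProduct.inr (h⁻¹ * η) := by
      have h5 : (⟨η, hη⟩ : V₃) = ⟨h, hh.2⟩ * ⟨h⁻¹ * η, hzV⟩ := by
        apply Subtype.ext
        simp
      have h6 : r₃ ⟨h⁻¹ * η, hzV⟩ = SemidirectProduct.inr (h⁻¹ * η) := by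
        refine SemidirectProduct.ext ?_ ?_
        · rw [hZ1 V₃ r₃ T₃ hT₃ hV₃ ha₃ hcr₃ hx₃ _ hz hzV]; simp
        · rw [ha₃.proj]; simp
      rw [h5, map_mul, h6]
    rw [h3, h4]
    exact HopfAction.Eqv.mul_inr (Val.eqv_of_mem (hT₂.union hT₃) hker
      (hφT (hST₂.trans Set.subset_union_left)) (hval Set.subset_union_left hx₂)
      (hval Set.subset_union_right hx₃) ha₂ ha₃ hV₂ hV₃ hh.1 hh.2) (hZker hz)
  -- trace identities
  have htr : ∀ {m : ℕ} (ρ' : MatRep A m) η (hη : η ∈ V₃),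
      (ρ'.ev (PadicAlgCl ℓ) (r η)).trace = (ρ'.ev (PadicAlgCl ℓ) (r₃ ⟨η, hη⟩)).trace :=
    fun ρ' η hη => ρ'.trace_eq (hG η hη)
  obtain ⟨δ, hδ⟩ := exists_conj_frob hφ hv hP.1
  have hσV : δ * φ v * δ⁻¹ ∈ V₃ := mem_of_frob hP hδ
  set σ := δ * φ v * δ⁻¹ with hσ
  have hφσ : r (φ v) = r δ⁻¹ * r σ * (r δ⁻¹)⁻¹ := by
    rw [← map_inv, ← map_mul, ← map_mul, hσ]
    congr 1
    group
  refine ⟨?_, ?_, ?_⟩
  · -- inertia
    intro P' u hu
    have hPp := hP.1.1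
    have hP'p := hu.1.1
    obtain ⟨g, hg⟩ := exists_smul_eq_of_under (A := AlgebraicClosure F) F P P'
      (hP.1.2.trans hu.1.2.symm)
    have hu' : IsInertiaAt v P (g⁻¹ * u * g) := by
      refine ⟨hP.1, fun y => ?_⟩
      have h1 := hu.2 (g • y)
      rw [hg, mem_smul_ideal, smul_sub, inv_smul_smul, smul_smul, smul_smul] at h1
      rwa [mul_assoc]
    set u' := g⁻¹ * u * g with hu'def
    have hact' : A.act u' = 1 := hS v hv P u' hu'
    have hu'V : u' ∈ V₃ := by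
      refine hP.2 _ ?_
      ext y
      have h1 : u'⁻¹ • y - y ∈ P := by
        have h2 := hu'.2 (u'⁻¹ • y)
        rw [smul_inv_smul] at h2
        have h3 := neg_mem h2
        rwa [neg_sub] at h3
      rw [mem_smul_ideal]
      constructor
      · intro h2
        have h3 := sub_mem h2 h1
        rwa [sub_sub_cancel] at h3
      · intro h2
        have h3 := add_mem h1 h2
        rwa [sub_add_cancel] at h3
    have hu'1 : (r₃ ⟨u', hu'V⟩).left = 1 := hxv.unram P hP u' hu'V hu'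
    have hev1 : ρ.ev (PadicAlgCl ℓ) (r₃ ⟨u', hu'V⟩) = 1 :=
      ρ.ev_eq_one hu'1 (by rw [ha₃.proj]; exact hact')
    have hX : ρ.ev (PadicAlgCl ℓ) (r u') - 1 = 0 := by
      refine ev_eq_zero ρ r hrcr ⊤ inferInstance _ ?_ ?_
      · refine Submodule.sub_mem _ (Submodule.subset_span ⟨u', trivial, rfl⟩)
          (Submodule.subset_span ⟨1, trivial, ?_⟩)
        change ρ.ev (PadicAlgCl ℓ) (r 1) = 1
        rw [map_one, map_one]
      · intro γ _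
        obtain ⟨h, hh, he⟩ := hev ρ.toMatRep γ
        rw [he, sub_mul, one_mul, Matrix.trace_sub, ← map_mul, ← map_mul, sub_eq_zero]
        rw [htr ρ.toMatRep (u' * h) (V₃.mul_mem hu'V hh), htr ρ.toMatRep h hh]
        have e3 : r₃ ⟨u' * h, V₃.mul_mem hu'V hh⟩ = r₃ ⟨u', hu'V⟩ * r₃ ⟨h, hh⟩ := by
          rw [← map_mul]; rfl
        rw [e3, map_mul, hev1, one_mul]
    have hact : A.act u = 1 := hS v hv P' u hu
    refine ρ.left_eq_one hΦ hρ (by rw [hrp]; exact hact) ?_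
    have e1 : u = g * u' * g⁻¹ := by rw [hu'def]; group
    rw [e1, map_mul, map_mul, map_mul, map_mul, sub_eq_zero.mp hX, mul_one, ← map_mul, ← map_mul,
      mul_inv_cancel, map_one, map_one]
  · -- semisimplicity
    rw [hφσ]
    refine isSemisimpleElt_conj hst ?_ _
    have hss : A.IsSemisimpleElt (r₃ ⟨σ, hσV⟩) := hxv.semisimple P hP δ hσV hδ
    refine isSemisimpleElt_of_squarefree hst fun m ρ' => ?_
    obtain ⟨p, hp, hp'⟩ := exists_squarefree_of_isSemisimpleElt ρ' hss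
    refine ⟨p, hp, ?_⟩
    refine ev_eq_zero ρ' r hrcr ⊤ inferInstance _ ?_ ?_
    · rw [aeval_eq_sum_range]
      refine Submodule.sum_mem _ fun i _ => Submodule.smul_mem _ _ (Submodule.subset_span
        ⟨σ ^ i, trivial, ?_⟩)
      change ρ'.ev (PadicAlgCl ℓ) (r (σ ^ i)) = _
      rw [map_pow, map_pow]
    · intro γ _
      obtain ⟨h, hh, he⟩ := hev ρ'.toMatRep γ
      rw [he]
      have e1 : (aeval (ρ'.ev (PadicAlgCl ℓ) (r σ)) p * ρ'.ev (PadicAlgCl ℓ) (r h)).trace =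
          (aeval (ρ'.ev (PadicAlgCl ℓ) (r₃ ⟨σ, hσV⟩)) p *
            ρ'.ev (PadicAlgCl ℓ) (r₃ ⟨h, hh⟩)).trace := by
        rw [aeval_eq_sum_range, aeval_eq_sum_range, Finset.sum_mul, Finset.sum_mul,
          Matrix.trace_sum, Matrix.trace_sum]
        refine Finset.sum_congr rfl fun i _ => ?_
        rw [smul_mul_assoc, smul_mul_assoc, Matrix.trace_smul, Matrix.trace_smul, ← map_pow,
          ← map_pow, ← map_pow, ← map_pow, ← map_mul, ← map_mul, ← map_mul, ← map_mul]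
        congr 1
        exact htr ρ'.toMatRep (σ ^ i * h) (V₃.mul_mem (V₃.pow_mem hσV i) hh)
      rw [e1, hp', zero_mul, Matrix.trace_zero]
  · -- values
    intro f
    have h1 : A.Eqv (r (φ v)) ((SemidirectProduct.inr δ)⁻¹ * r₃ ⟨σ, hσV⟩ *
        SemidirectProduct.inr δ) := by
      rw [hφσ]
      have h2 := HopfAction.Eqv.conj (z := r δ⁻¹) (z' := SemidirectProduct.inr δ⁻¹) (hG σ hσV)
        (by rw [hrp]; simp)
      rwa [map_inv SemidirectProduct.inr, inv_inv] at h2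
    have h2 := h1.2 f (by rw [hrp]; exact f.2)
    rw [h2]
    exact hxv.value P hP δ hσV hδ f

end Main

end Pool.Agent.Lib.MP_666dc0_nt
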