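import Pool.Agent.Lib.MP_666dc0_nt.Defs

open TensorProduct Coalgebra
open scoped TensorProduct

namespace Pool.Agent.Lib.MP_666dc0_nt
section Slices

variable {O : Type} [CommRing O] [HopfAlgebra ℚ O]

/-- Slice map `id ⊗ μ`. -/
noncomputable def sl (μ : O →ₗ[ℚ] ℚ) : O ⊗[ℚ] O →ₗ[ℚ] O :=
  (TensorProduct.rid ℚ O).toLinearMap ∘ₗ LinearMap.lTensor O μ

/-- Slice map `ξ ⊗ id`. -/
noncomputable def sr (ξ : O →ₗ[ℚ] ℚ) : O ⊗[ℚ] O →ₗ[ℚ] O :=
  (TensorProduct.lid ℚ O).toLinearMap ∘ₗ LinearMap.rTensor O ξ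

@[simp] lemma sl_tmul (μ : O →ₗ[ℚ] ℚ) (x y : O) : sl μ (x ⊗ₜ y) = μ y • x := by simp [sl]
@[simp] lemma sr_tmul (ξ : O →ₗ[ℚ] ℚ) (x y : O) : sr ξ (x ⊗ₜ y) = ξ x • y := by simp [sr]

lemma sl_ext {x y : O ⊗[ℚ] O} (h : ∀ μ : O →ₗ[ℚ] ℚ, sl μ x = sl μ y) : x = y := by
  let b := Module.Free.chooseBasis ℚ O
  apply (TensorProduct.equivFinsuppOfBasisRight (M := O) b).injective
  ext i
  have h1 : ∀ z : O ⊗[ℚ] O, (TensorProduct.equivFinsuppOfBasisRight b) z i = sl (b.coord i) z := by
    intro z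
    induction z using TensorProduct.induction_on with
    | zero => simp
    | tmul x y => rw [TensorProduct.equivFinsuppOfBasisRight_apply_tmul_apply, sl_tmul]; rfl
    | add x y hx hy => rw [map_add, map_add, Finsupp.add_apply, hx, hy]
  rw [h1, h1, h]

/-- Convolution of functionals. -/
noncomputable def convF (μ ν : O →ₗ[ℚ] ℚ) : O →ₗ[ℚ] ℚ :=
  LinearMap.mul' ℚ ℚ ∘ₗ TensorProduct.map μ ν ∘ₗ comul

lemma sl_comul_sl (μ ν : O →ₗ[ℚ] ℚ) (f : O) :
    sl μ (comul (sl ν (comul f))) = sl (convF μ ν) (comul f) := by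
  let S : (O ⊗[ℚ] O) ⊗[ℚ] O →ₗ[ℚ] O := (TensorProduct.rid ℚ O).toLinearMap ∘ₗ TensorProduct.map (sl μ) ν
  let S' : O ⊗[ℚ] (O ⊗[ℚ] O) →ₗ[ℚ] O := (TensorProduct.rid ℚ O).toLinearMap ∘ₗ
    TensorProduct.map LinearMap.id (LinearMap.mul' ℚ ℚ ∘ₗ TensorProduct.map μ ν)
  have hA : ∀ z : O ⊗[ℚ] O, sl μ (comul (sl ν z)) = S (LinearMap.rTensor O comul z) := by
    intro z
    induction z using TensorProduct.induction_on with
    | zero => simp
    | tmul x y => simp [S]
    | add x y hx hy => simp only [map_add, hx, hy]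
  have hB : ∀ w : (O ⊗[ℚ] O) ⊗[ℚ] O, S w = S' (TensorProduct.assoc ℚ O O O w) := by
    intro w
    induction w using TensorProduct.induction_on with
    | zero => simp
    | tmul x y =>
      induction x using TensorProduct.induction_on with
      | zero => simp
      | tmul x z => simp [S, S', smul_smul, mul_comm]
      | add a b ha hb => simp only [TensorProduct.add_tmul, map_add, ha, hb]
    | add x y hx hy => simp only [map_add, hx, hy]
  have hC : ∀ z : O ⊗[ℚ] O, S' (LinearMap.lTensor O comul z) = sl (convF μ ν) z := by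
    intro z
    induction z using TensorProduct.induction_on with
    | zero => simp
    | tmul x y => simp [S', convF]
    | add x y hx hy => simp only [map_add, hx, hy]
  rw [hA, hB, coassoc_apply, hC]

lemma comul_sr (ξ : O →ₗ[ℚ] ℚ) (f : O) : comul (R := ℚ) (sr ξ (comul f)) =
    TensorProduct.map (sr ξ) LinearMap.id (LinearMap.rTensor O comul (comul f)) := by
  let Sr : O ⊗[ℚ] (O ⊗[ℚ] O) →ₗ[ℚ] O ⊗[ℚ] O :=
    (TensorProduct.lid ℚ (O ⊗[ℚ] O)).toLinearMap ∘ₗ LinearMap.rTensor (O ⊗[ℚ] O) ξ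
  have hA : ∀ z : O ⊗[ℚ] O, comul (R := ℚ) (sr ξ z) = Sr (LinearMap.lTensor O comul z) := by
    intro z
    induction z using TensorProduct.induction_on with
    | zero => simp
    | tmul x y => simp [Sr]
    | add x y hx hy => simp only [map_add, hx, hy]
  have hB : ∀ w : (O ⊗[ℚ] O) ⊗[ℚ] O, TensorProduct.map (sr ξ) LinearMap.id w =
      Sr (TensorProduct.assoc ℚ O O O w) := by
    intro w
    induction w using TensorProduct.induction_on with
    | zero => simp
    | tmul x y =>
      induction x using TensorProduct.induction_on with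
      | zero => simp
      | tmul x z => simp [Sr, TensorProduct.smul_tmul']
      | add a b ha hb => simp only [TensorProduct.add_tmul, map_add, ha, hb]
    | add x y hx hy => simp only [map_add, hx, hy]
  rw [hA, ← coassoc_apply, hB]

end Slices

section Rep

variable {O : Type} [CommRing O] [HopfAlgebra ℚ O] {Γ : Type*} [Group Γ] (A : HopfAction Γ O)

/-- The finite-dimensional subspace generated by the translates of a set of functions. -/
def transSpan (Φ : Set O) : Submodule ℚ O :=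
  Submodule.span ℚ {x | ∃ f ∈ Φ, ∃ μ : O →ₗ[ℚ] ℚ, x = sl μ (comul f)}

lemma sl_counit (f : O) : sl counit (comul f) = f := by
  simp [sl]

lemma subset_transSpan {Φ : Set O} {f : O} (hf : f ∈ Φ) : f ∈ transSpan Φ :=
  Submodule.subset_span ⟨f, hf, counit, (sl_counit f).symm⟩

lemma transSpan_fg {Φ : Set O} (hΦ : Φ.Finite) : (transSpan Φ).FG := by
  classical
  -- each `comul f` is a finite sum
  have h1 : ∀ f : O, ∃ s : Finset O, ∀ μ : O →ₗ[ℚ] ℚ, sl μ (comul f) ∈
      Submodule.span ℚ (s : Set O) := by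
    intro f
    generalize (comul (R := ℚ) f) = z
    induction z using TensorProduct.induction_on with
    | zero => exact ⟨∅, fun μ => by simp⟩
    | tmul x y => exact ⟨{x}, fun μ => by
        rw [sl_tmul]; exact Submodule.smul_mem _ _ (Submodule.subset_span (by simp))⟩
    | add x y hx hy =>
      obtain ⟨s, hs⟩ := hx
      obtain ⟨t, ht⟩ := hy
      refine ⟨s ∪ t, fun μ => ?_⟩
      rw [map_add]
      exact add_mem (Submodule.span_mono (by simp) (hs μ)) (Submodule.span_mono (by simp) (ht μ))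
  choose s hs using h1
  have h2 : (Submodule.span ℚ ((hΦ.toFinset.biUnion s : Finset O) : Set O)).FG :=
    Submodule.fg_span (Finset.finite_toSet _)
  refine h2.of_le (Submodule.span_le.mpr ?_)
  rintro _ ⟨f, hf, μ, rfl⟩
  refine Submodule.span_mono ?_ (hs f μ)
  intro x hx
  rw [Finset.mem_coe, Finset.mem_biUnion]
  exact ⟨f, by simpa using hf, hx⟩

lemma sl_transSpan {Φ : Set O} (μ : O →ₗ[ℚ] ℚ) {v : O} (hv : v ∈ transSpan Φ) :
    sl μ (comul v) ∈ transSpan Φ := by
  have h1 : transSpan Φ ≤ (transSpan Φ).comap (sl μ ∘ₗ comul) := by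
    refine Submodule.span_le.mpr ?_
    rintro _ ⟨f, hf, ν, rfl⟩
    refine Submodule.subset_span ⟨f, hf, convF μ ν, ?_⟩
    exact sl_comul_sl μ ν f
  exact h1 hv

lemma act_transSpan {Φ : Set O} (hΦ : ∀ γ, ∀ f ∈ Φ, A.act γ f ∈ Φ) (γ : Γ) {v : O}
    (hv : v ∈ transSpan Φ) : A.act γ v ∈ transSpan Φ := by
  have h1 : transSpan Φ ≤ (transSpan Φ).comap (A.act γ).toLinearMap := by
    refine Submodule.span_le.mpr ?_
    rintro _ ⟨f, hf, μ, rfl⟩
    refine Submodule.subset_span ⟨A.act γ f, hΦ γ f hf, μ ∘ₗ (A.act γ⁻¹).toLinearMap, ?_⟩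
    rw [A.comul_act]
    generalize (comul (R := ℚ) f) = z
    induction z using TensorProduct.induction_on with
    | zero => simp
    | tmul x y => simp
    | add x y hx hy => simp only [map_add, hx, hy]
  exact h1 hv

/-- A matrix representation of `Ĝ ⋊ Γ` whose matrix coefficients span given functions. -/
structure MatRep (A : HopfAction Γ O) (n : ℕ) where
  /-- matrix coefficients -/
  a : Matrix (Fin n) (Fin n) O
  /-- the representation of `Γ` -/
  P : Γ →* Matrix (Fin n) (Fin n) ℚ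
  comul_a : ∀ i j, comul (R := ℚ) (a i j) = ∑ k, a i k ⊗ₜ[ℚ] a k j
  counit_a : ∀ i j, counit (R := ℚ) (a i j) = if i = j then 1 else 0
  act_a : ∀ γ i j, ∑ k, P γ k j • a i k = ∑ k, P γ i k • A.act γ (a k j)
  P_eq : ∀ γ, A.act γ = 1 → P γ = 1

theorem exists_matRep {Φ : Set O} (hfin : Φ.Finite) (hΦ : ∀ γ, ∀ f ∈ Φ, A.act γ f ∈ Φ) :
    ∃ (n : ℕ) (ρ : MatRep A n), ∀ f ∈ Φ, f ∈ Submodule.span ℚ (Set.range fun ij : Fin n × Fin n =>
      ρ.a ij.1 ij.2) := by
  classical
  set V := transSpan Φ with hV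
  have hVfg : Module.Finite ℚ V := Module.Finite.iff_fg.mpr (transSpan_fg hfin)
  let b := Module.finBasis ℚ V
  set n := Module.finrank ℚ V
  let e : Fin n → O := fun i => (b i : O)
  have heV : ∀ i, e i ∈ V := fun i => (b i).2
  have hξ : ∀ i, ∃ ξ : O →ₗ[ℚ] ℚ, ξ ∘ₗ V.subtype = b.coord i := fun i =>
    LinearMap.exists_extend (b.coord i)
  choose ξ hξ using hξ
  have hξ' : ∀ i (v : O) (hv : v ∈ V), ξ i v = b.repr ⟨v, hv⟩ i := fun i v hv => by
    have := LinearMap.congr_fun (hξ i) ⟨v, hv⟩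
    exact this
  have hξe : ∀ i j, ξ i (e j) = if i = j then 1 else 0 := fun i j => by
    rw [hξ' i (e j) (heV j)]
    have : (⟨e j, heV j⟩ : V) = b j := rfl
    rw [this, b.repr_self, Finsupp.single_apply]
    simp only [eq_comm]
  have hsum : ∀ v ∈ V, v = ∑ i, ξ i v • e i := by
    intro v hv
    have h1 := congrArg Subtype.val (b.sum_repr ⟨v, hv⟩)
    rw [Submodule.coe_sum] at h1
    simp only [Submodule.coe_smul] at h1
    refine h1.symm.trans (Finset.sum_congr rfl fun i _ => ?_)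
    rw [hξ' i v hv]
  let a : Matrix (Fin n) (Fin n) O := fun i j => sr (ξ i) (comul (e j))
  have hslsr : ∀ (μ ν : O →ₗ[ℚ] ℚ) (z : O ⊗[ℚ] O), μ (sr ν z) = ν (sl μ z) := by
    intro μ ν z
    induction z using TensorProduct.induction_on with
    | zero => simp
    | tmul x y => simp [mul_comm]
    | add x y hx hy => simp only [map_add, hx, hy]
  have hcomul : ∀ j, comul (R := ℚ) (e j) = ∑ i, e i ⊗ₜ[ℚ] a i j := by
    intro j
    apply sl_ext
    intro μ
    rw [map_sum, hsum _ (sl_transSpan μ (heV j))]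
    refine Finset.sum_congr rfl fun i _ => ?_
    rw [sl_tmul]
    congr 1
    exact (hslsr μ (ξ i) _).symm
  let P' : Γ → Matrix (Fin n) (Fin n) ℚ := fun γ i j => ξ i (A.act γ (e j))
  have hact : ∀ γ j, A.act γ (e j) = ∑ i, P' γ i j • e i := fun γ j =>
    hsum _ (act_transSpan A hΦ γ (heV j))
  let P : Γ →* Matrix (Fin n) (Fin n) ℚ :=
    { toFun := P'
      map_one' := by
        ext i j
        change ξ i (A.act 1 (e j)) = _
        rw [map_one, AlgEquiv.one_apply, hξe, Matrix.one_apply]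
      map_mul' := fun γ δ => by
        ext i j
        change ξ i (A.act (γ * δ) (e j)) = _
        rw [map_mul, AlgEquiv.mul_apply, hact δ j, map_sum, map_sum, Matrix.mul_apply]
        refine Finset.sum_congr rfl fun k _ => ?_
        rw [map_smul, map_smul, smul_eq_mul, mul_comm] }
  have hcomul_a : ∀ i j, comul (R := ℚ) (a i j) = ∑ k, a i k ⊗ₜ[ℚ] a k j := by
    intro i j
    change comul (R := ℚ) (sr (ξ i) (comul (e j))) = _
    rw [comul_sr]
    conv_lhs => rw [hcomul j]
    rw [map_sum, map_sum]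
    refine Finset.sum_congr rfl fun k _ => ?_
    rw [LinearMap.rTensor_tmul, TensorProduct.map_tmul]
    rfl
  refine ⟨n, ⟨a, P, hcomul_a, ?_, ?_, ?_⟩, ?_⟩
  · intro i j
    change counit (R := ℚ) (sr (ξ i) (comul (e j))) = _
    rw [hslsr, sl_counit, hξe]
  · intro γ i j
    have h1 : sr (ξ i) (comul (R := ℚ) (A.act γ (e j))) = ∑ k, P' γ k j • a i k := by
      rw [hact γ j, map_sum, map_sum]
      refine Finset.sum_congr rfl fun k _ => ?_
      rw [map_smul, map_smul]
    have h2 : sr (ξ i) (comul (R := ℚ) (A.act γ (e j))) = ∑ k, P' γ i k • A.act γ (a k j) := by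
      rw [A.comul_act, hcomul j, map_sum, map_sum]
      refine Finset.sum_congr rfl fun k _ => ?_
      rw [TensorProduct.map_tmul, sr_tmul]
      rfl
    exact h1.symm.trans h2
  · intro γ hγ
    ext i j
    change ξ i (A.act γ (e j)) = _
    rw [hγ, AlgEquiv.one_apply, hξe, Matrix.one_apply]
  · intro f hf
    rw [hsum f (subset_transSpan hf)]
    refine Submodule.sum_mem _ fun j _ => Submodule.smul_mem _ _ ?_
    have h3 : e j = ∑ i, counit (R := ℚ) (e i) • a i j := by
      have h4 := congrArg (LinearMap.rTensor O (counit (R := ℚ) (A := O))) (hcomul j)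
      rw [rTensor_counit_comul, map_sum] at h4
      have h5 := congrArg (TensorProduct.lid ℚ O) h4
      rw [map_sum] at h5
      simpa using h5
    rw [h3]
    exact Submodule.sum_mem _ fun i _ => Submodule.smul_mem _ _ (Submodule.subset_span ⟨(i, j), rfl⟩)

end Rep
end Pool.Agent.Lib.MP_666dc0_nt
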