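import Pool.Agent.Lib.MP_666dc0_nt.TraceAlg

open TensorProduct Coalgebra Topology NumberField IsDedekindDomain Polynomial
open scoped TensorProduct Matrix Pointwise NumberField

namespace Pool.Agent.Lib.MP_666dc0_nt

set_option linter.unusedSectionVars false

section Functional

variable {O : Type} [CommRing O] [HopfAlgebra ℚ O] {Γ : Type*} [Group Γ] {A : HopfAction Γ O}
  {n : ℕ} (ρ : MatRep A n) {ℓ : ℕ} [Fact ℓ.Prime]

/-- The spanning argument: matching on representatives of cosets implies matching. -/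
lemma matched_of_span' (B₁ B₂ : Subalgebra ℚ_[ℓ] (Matrix (Fin n) (Fin n) (PadicAlgCl ℓ)))
    (r₁ r₂ : Γ →* A.LGroup (PadicAlgCl ℓ))
    (hr₁ : ∀ γ, (r₁ γ).right = γ) (hr₂ : ∀ γ, (r₂ γ).right = γ)
    (D : Γ →* B₁ × B₂) (hD₁ : ∀ γ, ((D γ).1 : Matrix (Fin n) (Fin n) (PadicAlgCl ℓ)) =
      ρ.ev (PadicAlgCl ℓ) (r₁ γ)) (hD₂ : ∀ γ, ((D γ).2 : Matrix (Fin n) (Fin n) (PadicAlgCl ℓ)) =
      ρ.ev (PadicAlgCl ℓ) (r₂ γ))
    (γ₀ : Γ) (X : Set Γ) (hX : ∀ δ ∈ X, A.act δ = A.act γ₀) {f : O}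
    (hf : f ∈ Submodule.span ℚ (Set.range fun ij : Fin n × Fin n => ρ.a ij.1 ij.2))
    (hfX : ∀ δ ∈ X, (r₁ δ).left.hom f = (r₂ δ).left.hom f)
    (hspan : D γ₀ ∈ Submodule.span ℚ_[ℓ] (D '' X)) :
    (r₁ γ₀).left.hom f = (r₂ γ₀).left.hom f := by
  classical
  rw [Submodule.mem_span_range_iff_exists_fun] at hf
  obtain ⟨c, hc⟩ := hf
  -- the linear functional on matrices
  let θ : Matrix (Fin n) (Fin n) (PadicAlgCl ℓ) →ₗ[ℚ_[ℓ]] PadicAlgCl ℓ :=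
    { toFun := fun M => ∑ ij : Fin n × Fin n, c ij • (M * ρ.pm (PadicAlgCl ℓ) γ₀⁻¹) ij.1 ij.2
      map_add' := fun M N => by
        simp only [add_mul, Matrix.add_apply, Finset.sum_add_distrib, smul_add]
      map_smul' := fun z M => by
        simp only [smul_mul_assoc, Matrix.smul_apply, RingHom.id_apply]
        rw [Finset.smul_sum]
        exact Finset.sum_congr rfl fun x _ => smul_comm _ _ _ }
  have hθ : ∀ (r : Γ →* A.LGroup (PadicAlgCl ℓ)) (_ : ∀ γ, (r γ).right = γ) (δ : Γ),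
      A.act δ = A.act γ₀ → θ (ρ.ev (PadicAlgCl ℓ) (r δ)) = (r δ).left.hom f := by
    intro r hr δ hδ
    have h1 : ρ.ev (PadicAlgCl ℓ) (r δ) = ρ.gm (r δ).left * ρ.pm (PadicAlgCl ℓ) δ := by
      rw [MatRep.ev_apply, hr]
    have hP : ρ.pm (PadicAlgCl ℓ) δ = ρ.pm (PadicAlgCl ℓ) γ₀ := by
      have h4 : ρ.pm (PadicAlgCl ℓ) (γ₀⁻¹ * δ) = 1 :=
        ρ.pm_one (by rw [map_mul, map_inv, hδ, inv_mul_cancel])
      calc ρ.pm (PadicAlgCl ℓ) δ = ρ.pm (PadicAlgCl ℓ) (γ₀ * (γ₀⁻¹ * δ)) := by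
            rw [mul_inv_cancel_left]
        _ = _ := by rw [map_mul, h4, mul_one]
    have h2 : ρ.ev (PadicAlgCl ℓ) (r δ) * ρ.pm (PadicAlgCl ℓ) γ₀⁻¹ = ρ.gm (r δ).left := by
      rw [h1, hP, mul_assoc, ← map_mul, mul_inv_cancel, map_one, mul_one]
    change ∑ ij : Fin n × Fin n, c ij • (ρ.ev (PadicAlgCl ℓ) (r δ) *
      ρ.pm (PadicAlgCl ℓ) γ₀⁻¹) ij.1 ij.2 = _
    rw [h2, ← hc, map_sum]
    refine Finset.sum_congr rfl fun ij _ => ?_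
    rw [map_smul]
    rfl
  let Θ : (B₁ × B₂) →ₗ[ℚ_[ℓ]] PadicAlgCl ℓ :=
    (θ.comp B₁.val.toLinearMap).comp (LinearMap.fst _ _ _) -
      (θ.comp B₂.val.toLinearMap).comp (LinearMap.snd _ _ _)
  have hΘ : ∀ δ, Θ (D δ) = θ (ρ.ev (PadicAlgCl ℓ) (r₁ δ)) - θ (ρ.ev (PadicAlgCl ℓ) (r₂ δ)) := by
    intro δ
    rw [← hD₁, ← hD₂]
    rfl
  have hker : Submodule.span ℚ_[ℓ] (D '' X) ≤ LinearMap.ker Θ := by
    refine Submodule.span_le.mpr ?_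
    rintro _ ⟨δ, hδ, rfl⟩
    rw [SetLike.mem_coe, LinearMap.mem_ker, hΘ, hθ r₁ hr₁ δ (hX δ hδ), hθ r₂ hr₂ δ (hX δ hδ),
      hfX δ hδ, sub_self]
  have h6 := hker hspan
  rw [LinearMap.mem_ker, hΘ, hθ r₁ hr₁ γ₀ rfl, hθ r₂ hr₂ γ₀ rfl, sub_eq_zero] at h6
  exact h6

end Functional

section Rigid

variable {O : Type} [CommRing O] [HopfAlgebra ℚ O]

/-- The classes of `r` at the Frobenius elements outside `S` are defined over a field of degree at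
most `d` over `ℚ_ℓ`. -/
def FrobDeg {F : Type*} [Field F] [NumberField F] {A : HopfAction Gal(AlgebraicClosure F/F) O}
    {ℓ : ℕ} [Fact ℓ.Prime] (S : Set (HeightOneSpectrum (𝓞 F)))
    (φ : HeightOneSpectrum (𝓞 F) → Gal(AlgebraicClosure F/F))
    (r : Gal(AlgebraicClosure F/F) →* A.LGroup (PadicAlgCl ℓ)) (d : ℕ) : Prop :=
  ∃ L : IntermediateField ℚ_[ℓ] (PadicAlgCl ℓ), FiniteDimensional ℚ_[ℓ] L ∧
    Module.finrank ℚ_[ℓ] L ≤ d ∧ ∀ v, v ∉ S → ∀ f ∈ A.inv (φ v), (r (φ v)).left.hom f ∈ L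

/-- The rigidity theorem for completely reducible homomorphisms. -/
theorem exists_finset_matched_cr {F : Type*} [Field F] [NumberField F] [Algebra.FiniteType ℚ O]
    (A : HopfAction Gal(AlgebraicClosure F/F) O)
    (hker : IsOpen (A.act.ker : Set Gal(AlgebraicClosure F/F)))
    (S : Finset (HeightOneSpectrum (𝓞 F)))
    (hS : ∀ v, v ∉ S → ∀ P : Ideal (𝓞 (AlgebraicClosure F)), IsOver v P →
      ∀ u : Gal(AlgebraicClosure F/F), (∀ x : 𝓞 (AlgebraicClosure F), u • x - x ∈ P) →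
        A.act u = 1)
    (φ : HeightOneSpectrum (𝓞 F) → Gal(AlgebraicClosure F/F))
    (hφ : ∀ v, v ∉ S → ∃ P : Ideal (𝓞 (AlgebraicClosure F)), IsOver v P ∧
      (IsFrob v P (φ v) ∨ IsFrob v P (φ v)⁻¹))
    (ℓ : ℕ) [Fact ℓ.Prime] (d : ℕ) :
    ∃ T : Finset (HeightOneSpectrum (𝓞 F)), (∀ v ∈ T, v ∉ S) ∧
      ∀ r₁ r₂ : Gal(AlgebraicClosure F/F) →* A.LGroup (PadicAlgCl ℓ),
        IsAdmissible A r₁ → IsAdmissible A r₂ →
        IsCompletelyReducible r₁ → IsCompletelyReducible r₂ →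
        UnramOutside S r₁ → UnramOutside S r₂ →
        FrobDeg (S : Set (HeightOneSpectrum (𝓞 F))) φ r₁ d →
        FrobDeg (S : Set (HeightOneSpectrum (𝓞 F))) φ r₂ d →
        (∀ v ∈ T, A.Matched r₁ r₂ (φ v)) → ∀ γ, A.Matched r₁ r₂ γ := by
  classical
  obtain ⟨Φ, hΦfin, hΦ⟩ := exists_decide hker
  obtain ⟨Φ', hΦ'fin, hΦΦ', hΦ'st⟩ := exists_stable hker hΦfin
  obtain ⟨n, ρ, hρ, -⟩ := exists_matRepL A hΦ'fin hΦ'st
  obtain ⟨T, hT1, hT2⟩ := exists_finset_frob (A := AlgebraicClosure F) S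
    (A.act.ker.index * ℓ ^ (n * n * d + n * n * d))
  refine ⟨T, hT1, fun r₁ r₂ ha₁ ha₂ hcr₁ hcr₂ hu₁ hu₂ hd₁ hd₂ hm γ₀ => ?_⟩
  have hB : ∀ r : Gal(AlgebraicClosure F/F) →* A.LGroup (PadicAlgCl ℓ), IsAdmissible A r →
      IsCompletelyReducible r → FrobDeg (S : Set (HeightOneSpectrum (𝓞 F))) φ r d →
      ∃ B : Subalgebra ℚ_[ℓ] (Matrix (Fin n) (Fin n) (PadicAlgCl ℓ)),
        FiniteDimensional ℚ_[ℓ] B ∧ Module.finrank ℚ_[ℓ] B ≤ n * n * d ∧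
          ∀ g, ρ.ev (PadicAlgCl ℓ) (r g) ∈ B := by
    rintro r ha hcr ⟨L, hL1, hL2, hL3⟩
    refine finrank_adjoin L hL2 ((ρ.ev (PadicAlgCl ℓ)).comp r) ?_ ?_
    · intro X hX h
      refine ev_eq_zero ρ r hcr ⊤ inferInstance X ?_ (fun γ _ => h γ)
      have e1 : ((fun g => ρ.ev (PadicAlgCl ℓ) (r g)) '' ((⊤ : Subgroup Gal(AlgebraicClosure F/F)) :
          Set Gal(AlgebraicClosure F/F))) = Set.range ((ρ.ev (PadicAlgCl ℓ)).comp r) := by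
        rw [Subgroup.coe_top, Set.image_univ]; rfl
      rw [e1]
      exact hX
    · intro g
      change (ρ.ev (PadicAlgCl ℓ) (r g)).trace ∈ L
      rw [← ρ.trF_eval (r g), ha.proj]
      exact value_mem hker (S : Set (HeightOneSpectrum (𝓞 F))) S.finite_toSet φ
        (fun v hv => hφ v hv) r ha L hL3 g _ (ρ.trF_mem g)
  obtain ⟨B₁, hB₁fd, hB₁d, hB₁⟩ := hB r₁ ha₁ hcr₁ hd₁
  obtain ⟨B₂, hB₂fd, hB₂d, hB₂⟩ := hB r₂ ha₂ hcr₂ hd₂
  have hrank : Module.finrank ℚ_[ℓ] (B₁ × B₂) ≤ n * n * d + n * n * d := by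
    rw [Module.finrank_prod]
    exact Nat.add_le_add hB₁d hB₂d
  let D : Gal(AlgebraicClosure F/F) →* B₁ × B₂ :=
    (((ρ.ev (PadicAlgCl ℓ)).comp r₁).codRestrict B₁ hB₁).prod
      (((ρ.ev (PadicAlgCl ℓ)).comp r₂).codRestrict B₂ hB₂)
  have hev : ∀ r : Gal(AlgebraicClosure F/F) →* A.LGroup (PadicAlgCl ℓ), IsAdmissible A r →
      Continuous fun g => ρ.ev (PadicAlgCl ℓ) (r g) := fun r ha =>
    continuous_matrix fun i j => continuous_evG ρ.toMatRep hker r (fun γ => γ) continuous_id ha.proj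
      ha.cont i j
  have hD : Continuous D := by
    refine Continuous.prodMk ?_ ?_
    · exact (hev r₁ ha₁).subtype_mk _
    · exact (hev r₂ ha₂).subtype_mk _
  have htr₁ : IsTopologicalRing B₁ := inferInstanceAs (IsTopologicalRing B₁.toSubring)
  have htr₂ : IsTopologicalRing B₂ := inferInstanceAs (IsTopologicalRing B₂.toSubring)
  obtain ⟨U, hUn, hUo, hUK, hUi, hU1, hUspan⟩ := exists_open_normal (ℓ := ℓ) D hD A.act.ker
    (MonoidHom.normal_ker _) hker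
  have hi : U.index ≤ A.act.ker.index * ℓ ^ (n * n * d + n * n * d) :=
    hUi.trans (Nat.mul_le_mul_left _ (Nat.pow_le_pow_right (Fact.out : ℓ.Prime).pos hrank))
  have hinert : ∀ v, v ∉ S → ∀ P : Ideal (𝓞 (AlgebraicClosure F)), IsOver v P →
      ∀ u : Gal(AlgebraicClosure F/F), (∀ x : 𝓞 (AlgebraicClosure F), u • x - x ∈ P) →
        u ∈ U := by
    intro v hv P hP u hu
    have hact : A.act u = 1 := hS v hv P hP u hu
    refine hU1 u hact ?_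
    refine Prod.ext (Subtype.ext ?_) (Subtype.ext ?_)
    · exact ρ.ev_eq_one (hu₁ v hv P hP u hu) (by rw [ha₁.proj]; exact hact)
    · exact ρ.ev_eq_one (hu₂ v hv P hP u hu) (by rw [ha₂.proj]; exact hact)
  have hrep := hT2 U hUn hUo hi hinert
  have hUfin : U.index ≠ 0 := by
    have := Subgroup.quotient_finite_of_isOpen U hUo
    exact (Subgroup.finiteIndex_of_finite_quotient (H := U)).index_ne_zero
  have hΔ : ∀ γ, ∃ δ ∈ {δ | A.Matched r₁ r₂ δ}, γ⁻¹ * δ ∈ U := by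
    intro γ
    obtain ⟨v, hv, hv'⟩ := hrep γ
    obtain ⟨P, hP, hPφ⟩ := hφ v (hT1 v hv)
    rcases hPφ with hPφ | hPφ
    · obtain ⟨δ, k, hδ⟩ := hv' P (φ v) hP hPφ
      exact ⟨_, (hm v hv).transport A ha₁.proj ha₂.proj δ k, hδ⟩
    · obtain ⟨δ, k, hδ⟩ := hv' P (φ v)⁻¹ hP hPφ
      refine ⟨_, (hm v hv).transport A ha₁.proj ha₂.proj δ (k * (U.index - 1)), ?_⟩
      have h1 : (φ v) ^ (k * (U.index - 1)) = ((φ v)⁻¹) ^ k * ((φ v) ^ U.index) ^ k := by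
        obtain ⟨N, hN⟩ := Nat.exists_eq_succ_of_ne_zero hUfin
        rw [hN, Nat.succ_sub_one, inv_pow, ← pow_mul, Nat.succ_eq_add_one]
        have h2 : (N + 1) * k = k + k * N := by ring
        rw [h2, pow_add, inv_mul_cancel_left]
      rw [h1]
      have h3 : γ⁻¹ * (δ * (((φ v)⁻¹) ^ k * ((φ v) ^ U.index) ^ k) * δ⁻¹) =
          (γ⁻¹ * (δ * ((φ v)⁻¹) ^ k * δ⁻¹)) * (δ * ((φ v) ^ U.index) ^ k * δ⁻¹) := by group
      rw [h3]
      refine U.mul_mem hδ (hUn.conj_mem _ (U.pow_mem ?_ k) δ)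
      exact Subgroup.pow_index_mem U (φ v)
  have hspan := hUspan _ hΔ γ₀
  obtain ⟨Φγ, hΦγ1, hΦγ2, hΦγ3⟩ := hΦ γ₀
  refine hΦγ3 _ (r₁ γ₀).left.hom (r₂ γ₀).left.hom fun f hf => ?_
  refine matched_of_span' ρ.toMatRep B₁ B₂ r₁ r₂ ha₁.proj ha₂.proj D (fun _ => rfl) (fun _ => rfl)
    γ₀ {δ | δ ∈ {δ | A.Matched r₁ r₂ δ} ∧ γ₀⁻¹ * δ ∈ A.act.ker} ?_ (hρ f (hΦΦ' (hΦγ1 hf))) ?_ hspan
  · rintro δ ⟨_, hδ⟩
    rw [MonoidHom.mem_ker, map_mul, map_inv, inv_mul_eq_one] at hδ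
    exact hδ.symm
  · rintro δ ⟨hδ1, hδ2⟩
    rw [MonoidHom.mem_ker, map_mul, map_inv, inv_mul_eq_one] at hδ2
    have h4 : f ∈ A.inv δ := by
      rw [← inv_congr A hδ2]
      exact hΦγ2 hf
    exact hδ1 f h4

end Rigid

end Pool.Agent.Lib.MP_666dc0_nt
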