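import Pool.Agent.Lib.MP_666dc0_nt.PatchMain

open TensorProduct Coalgebra Topology NumberField IsDedekindDomain Polynomial
open scoped TensorProduct Matrix Pointwise NumberField

namespace Pool.Agent.Lib.MP_666dc0_nt

set_option linter.unusedSectionVars false

section SpanTrace

lemma exists_coeff_of_trace {k K : Type*} [Field k] [Field K] [Algebra k K]
    (L : IntermediateField k K) {n : ℕ} {G : Type*} [Group G]
    (D : G →* Matrix (Fin n) (Fin n) K)
    (hnd : ∀ X ∈ Submodule.span K (Set.range D), (∀ g, (X * D g).trace = 0) → X = 0)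
    (htr : ∀ g, (D g).trace ∈ L) :
    ∃ (m : ℕ) (γ : Fin m → G), m ≤ n * n ∧ ∀ g, ∃ c : Fin m → L, D g = ∑ i, c i • D (γ i) := by
  classical
  obtain ⟨b, hb1, hb2, hb3⟩ := exists_linearIndependent K (Set.range D)
  have hbfin : b.Finite := hb3.setFinite
  have : Fintype b := hbfin.fintype
  have hcard : Fintype.card b ≤ n * n := by
    have h1 := hb3.fintype_card_le_finrank
    rwa [Module.finrank_matrix, Module.finrank_self, mul_one, Fintype.card_fin] at h1
  have hγ : ∀ i : b, ∃ g, D g = i := fun i => hb1 i.2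
  choose γ hγ using hγ
  let e := Fintype.equivFin b
  refine ⟨Fintype.card b, fun i => γ (e.symm i), hcard, fun g => ?_⟩
  -- Gram matrix
  have hM : ∀ i j : b, (D (γ i) * D (γ j)).trace ∈ L := fun i j => by
    rw [← map_mul]; exact htr _
  let M' : Matrix b b L := fun i j => ⟨_, hM i j⟩
  let M : Matrix b b K := M'.map (algebraMap L K)
  have hMdet : M.det ≠ 0 := by
    intro h0
    rw [← Matrix.exists_vecMul_eq_zero_iff] at h0
    obtain ⟨a, ha, ha'⟩ := h0
    apply ha
    have h1 : (∑ i : b, a i • (i : Matrix (Fin n) (Fin n) K)) = 0 := by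
      refine hnd _ ?_ ?_
      · exact Submodule.sum_mem _ fun i _ => Submodule.smul_mem _ _ (Submodule.subset_span (hb1 i.2))
      · intro g
        have h2 : Submodule.span K b ≤ LinearMap.ker ((Matrix.traceLinearMap (Fin n) K K).comp
            (LinearMap.mulLeft K (∑ i : b, a i • (i : Matrix (Fin n) (Fin n) K)))) := by
          rw [Submodule.span_le]
          intro j hj
          rw [SetLike.mem_coe, LinearMap.mem_ker, LinearMap.comp_apply, LinearMap.mulLeft_apply,
            Matrix.traceLinearMap_apply, Finset.sum_mul, Matrix.trace_sum]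
          have h3 := congrFun ha' ⟨j, hj⟩
          rw [Matrix.vecMul, dotProduct] at h3
          rw [Pi.zero_apply] at h3
          rw [← h3]
          refine Finset.sum_congr rfl fun i _ => ?_
          rw [smul_mul_assoc, Matrix.trace_smul, smul_eq_mul]
          congr 1
          change _ = (D (γ i) * D (γ ⟨j, hj⟩)).trace
          rw [hγ, hγ]
        have h4 : D g ∈ Submodule.span K b := by rw [hb2]; exact Submodule.subset_span ⟨g, rfl⟩
        exact h2 h4
    have h5 := Fintype.linearIndependent_iff.mp hb3 a h1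
    ext i
    exact h5 i
  have hMdet' : M'.det ≠ 0 := by
    intro h0
    apply hMdet
    change (M'.map (algebraMap L K)).det = 0
    rw [← RingHom.mapMatrix_apply, ← RingHom.map_det, h0, map_zero]
  have hDg : D g ∈ Submodule.span K b := by rw [hb2]; exact Submodule.subset_span ⟨g, rfl⟩
  have hc : ∃ c : b → K, ∑ i, c i • (i : Matrix (Fin n) (Fin n) K) = D g := by
    have h1 : D g ∈ Submodule.span K (Set.range (Subtype.val : b → Matrix (Fin n) (Fin n) K)) := by
      rwa [Subtype.range_val]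
    rw [Submodule.mem_span_range_iff_exists_fun] at h1
    exact h1
  obtain ⟨c, hc⟩ := hc
  have ht : ∀ j : b, (D g * D (γ j)).trace ∈ L := fun j => by rw [← map_mul]; exact htr _
  let t' : b → L := fun j => ⟨_, ht j⟩
  have hct : c ᵥ* M = fun j => (t' j : K) := by
    ext j
    change ∑ i, c i * (D (γ i) * D (γ j)).trace = (D g * D (γ j)).trace
    rw [← hc, Finset.sum_mul, Matrix.trace_sum]
    refine Finset.sum_congr rfl fun i _ => ?_
    rw [smul_mul_assoc, Matrix.trace_smul, smul_eq_mul, hγ i]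
  let c' : b → L := t' ᵥ* M'⁻¹
  have hc' : c' ᵥ* M' = t' := by
    change (t' ᵥ* M'⁻¹) ᵥ* M' = t'
    rw [Matrix.vecMul_vecMul, Matrix.nonsing_inv_mul _ (isUnit_iff_ne_zero.mpr hMdet'),
      Matrix.vecMul_one]
  have hc'' : (fun i => (c' i : K)) ᵥ* M = fun j => (t' j : K) := by
    rw [← hc']
    ext j
    change ∑ i, (c' i : K) * (M' i j : K) = ((∑ i, c' i * M' i j : L) : K)
    push_cast
    rfl
  have hcc : c = fun i => (c' i : K) := by
    have h1 : (c - fun i => (c' i : K)) ᵥ* M = 0 := by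
      rw [Matrix.sub_vecMul, hct, hc'', sub_self]
    by_contra hne
    exact hMdet (Matrix.exists_vecMul_eq_zero_iff.mp ⟨_, sub_ne_zero.mpr hne, h1⟩)
  refine ⟨fun i => c' (e.symm i), ?_⟩
  rw [← hc, hcc, ← e.symm.sum_comp]
  refine Finset.sum_congr rfl fun i _ => ?_
  rw [hγ]
  rfl

end SpanTrace

section Density

variable {F : Type*} [Field F] [NumberField F] {O : Type} [CommRing O] [HopfAlgebra ℚ O]
  {A : HopfAction Gal(AlgebraicClosure F/F) O} {ℓ : ℕ} [Fact ℓ.Prime]

/-- If the Frobenius classes are defined over `L`, all classes are. -/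
lemma value_mem (hker : IsOpen (A.act.ker : Set Gal(AlgebraicClosure F/F)))
    (S' : Set (HeightOneSpectrum (𝓞 F))) (hS' : S'.Finite)
    (φ : HeightOneSpectrum (𝓞 F) → Gal(AlgebraicClosure F/F))
    (hφ : ∀ v, v ∉ S' → ∃ P : Ideal (𝓞 (AlgebraicClosure F)), IsOver v P ∧
      (IsFrob v P (φ v) ∨ IsFrob v P (φ v)⁻¹))
    (r : Gal(AlgebraicClosure F/F) →* A.LGroup (PadicAlgCl ℓ)) (hr : IsAdmissible A r)
    (L : IntermediateField ℚ_[ℓ] (PadicAlgCl ℓ)) [FiniteDimensional ℚ_[ℓ] L]
    (hL : ∀ v, v ∉ S' → ∀ f ∈ A.inv (φ v), (r (φ v)).left.hom f ∈ L)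
    (γ : Gal(AlgebraicClosure F/F)) : ∀ f ∈ A.inv γ, (r γ).left.hom f ∈ L := by
  intro f hf
  by_contra hne
  have hclosed : IsClosed (L : Set (PadicAlgCl ℓ)) := by
    have : FiniteDimensional ℚ_[ℓ] (Subalgebra.toSubmodule L.toSubalgebra) :=
      inferInstanceAs (FiniteDimensional ℚ_[ℓ] L)
    exact Submodule.closed_of_finiteDimensional (Subalgebra.toSubmodule L.toSubalgebra)
  have hopen : IsOpen {γ' | (r γ').left.hom f ∉ L} :=
    hclosed.isOpen_compl.preimage (hr.cont f)
  have hnhds : {g | γ * g ∈ {γ' | (r γ').left.hom f ∉ L}} ∈ 𝓝 (1 : Gal(AlgebraicClosure F/F)) := by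
    have h2 : ContinuousAt (fun g : Gal(AlgebraicClosure F/F) => γ * g) 1 :=
      (continuous_const_mul γ).continuousAt
    apply h2
    change {γ' | (r γ').left.hom f ∉ L} ∈ 𝓝 (γ * 1)
    rw [mul_one]
    exact hopen.mem_nhds hne
  rw [krullTopology_mem_nhds_one_iff] at hnhds
  obtain ⟨M, hM, hM'⟩ := hnhds
  have hMo : IsOpen (M.fixingSubgroup : Set Gal(AlgebraicClosure F/F)) :=
    IntermediateField.fixingSubgroup_isOpen M
  obtain ⟨v, hv, P, hP, -, hσ⟩ := exists_split_frob ⊤ isOpen_univ (M.fixingSubgroup ⊓ A.act.ker)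
    (hMo.inter hker) S' hS' γ trivial
  obtain ⟨δ, hδ⟩ := exists_conj_frob hφ hv hP
  obtain ⟨k, hk⟩ := hσ _ hδ
  have h4 : (r ((δ * φ v * δ⁻¹) ^ k)).left.hom f ∉ L := by
    have h8 : γ * (γ⁻¹ * (δ * φ v * δ⁻¹) ^ k) ∈ {γ' | (r γ').left.hom f ∉ L} := hM' hk.1
    rwa [mul_inv_cancel_left] at h8
  apply h4
  have hact : A.act ((δ * φ v * δ⁻¹) ^ k) = A.act γ := by
    have h5 : γ⁻¹ * (δ * φ v * δ⁻¹) ^ k ∈ A.act.ker := hk.2
    rw [MonoidHom.mem_ker, map_mul, map_inv, inv_mul_eq_one] at h5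
    exact h5.symm
  have e1 : (δ * φ v * δ⁻¹) ^ k = δ * φ v ^ k * δ⁻¹ := conj_pow
  have hf' : f ∈ A.inv (δ * φ v ^ k * δ⁻¹) := by
    rw [← e1, inv_congr' A hact]; exact hf
  rw [e1, A.eval_conj_pow r hr.proj (φ v) δ k hf']
  exact hL v hv _ (A.transF_mem (φ v) δ k hf')

end Density

section Algebra

variable {ℓ : ℕ} [Fact ℓ.Prime] {n : ℕ}

/-- The algebra generated by a representation with traces in `L`. -/
lemma finrank_adjoin {G : Type*} [Group G] (L : IntermediateField ℚ_[ℓ] (PadicAlgCl ℓ))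
    [FiniteDimensional ℚ_[ℓ] L] {d : ℕ} (hd : Module.finrank ℚ_[ℓ] L ≤ d)
    (D : G →* Matrix (Fin n) (Fin n) (PadicAlgCl ℓ))
    (hnd : ∀ X ∈ Submodule.span (PadicAlgCl ℓ) (Set.range D),
      (∀ g, (X * D g).trace = 0) → X = 0)
    (htr : ∀ g, (D g).trace ∈ L) :
    ∃ B : Subalgebra ℚ_[ℓ] (Matrix (Fin n) (Fin n) (PadicAlgCl ℓ)),
      FiniteDimensional ℚ_[ℓ] B ∧ Module.finrank ℚ_[ℓ] B ≤ n * n * d ∧ ∀ g, D g ∈ B := by
  classical
  obtain ⟨m, γ, hm, hγ⟩ := exists_coeff_of_trace L D hnd htr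
  let B : Subalgebra L (Matrix (Fin n) (Fin n) (PadicAlgCl ℓ)) := Algebra.adjoin L (Set.range D)
  have hB : Subalgebra.toSubmodule B = Submodule.span L (Set.range fun i => D (γ i)) := by
    change Subalgebra.toSubmodule (Algebra.adjoin L (Set.range D)) = _
    rw [Algebra.adjoin_eq_span, ← MonoidHom.coe_mrange, Submonoid.closure_eq]
    apply le_antisymm
    · rw [Submodule.span_le]
      rintro _ ⟨g, rfl⟩
      obtain ⟨c, hc⟩ := hγ g
      rw [SetLike.mem_coe, hc]
      exact Submodule.sum_mem _ fun i _ => Submodule.smul_mem _ _ (Submodule.subset_span ⟨i, rfl⟩)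
    · rw [Submodule.span_le]
      rintro _ ⟨i, rfl⟩
      exact Submodule.subset_span ⟨_, rfl⟩
  have hfinL : Module.Finite L (Subalgebra.toSubmodule B) := by
    rw [hB]; exact Module.Finite.span_of_finite L (Set.finite_range _)
  have hfinL' : Module.Finite L B := hfinL
  have hrankL : Module.finrank L B ≤ n * n := by
    have h1 : Module.finrank L (Subalgebra.toSubmodule B) ≤ m := by
      rw [hB]
      exact (finrank_range_le_card _).trans (by rw [Fintype.card_fin])
    exact h1.trans hm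
  have hfin : Module.Finite ℚ_[ℓ] B := Module.Finite.trans L B
  refine ⟨B.restrictScalars ℚ_[ℓ], hfin, ?_, fun g => Algebra.subset_adjoin ⟨g, rfl⟩⟩
  change Module.finrank ℚ_[ℓ] B ≤ _
  rw [← Module.finrank_mul_finrank ℚ_[ℓ] L B, mul_comm]
  exact Nat.mul_le_mul hrankL hd

end Algebra

end Pool.Agent.Lib.MP_666dc0_nt
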